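import Pool.Agent.helper61.YNull

set_option autoImplicit false

/-!
# The null ideal is Tukey below localization
-/

namespace H61.Yorioka

open MeasureTheory Set Cardinal ProbabilityTheory

open scoped ENNReal

/-- The clopen set coded by a list of nodes. -/
def clo (l : List (List Bool)) : Set (ℕ → Bool) := {x | ∃ ρ ∈ l, IsInit ρ x}

lemma clo_eq (l : List (List Bool)) : clo l = ⋃ ρ ∈ l, cyl ρ := by
  ext x
  simp [clo, cyl]

/-- The level-`i` clopen part of an open set. -/
def part (U : Set (ℕ → Bool)) (i : ℕ) : Set (ℕ → Bool) := {x | cyl (res x i) ⊆ U}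

lemma res_prefix (x : ℕ → Bool) {i j : ℕ} (h : i ≤ j) : res x i <+: res x j :=
  (isInit_res x i).comparable (isInit_res x j) (by simpa using h)

lemma part_mono (U : Set (ℕ → Bool)) : Monotone (part U) := fun _ _ hij x hx =>
  (cyl_subset_of_prefix (res_prefix x hij)).trans hx

lemma part_subset (U : Set (ℕ → Bool)) (i : ℕ) : part U i ⊆ U := fun x hx => hx (isInit_res x i)

lemma iUnion_part {U : Set (ℕ → Bool)} (hU : IsOpen U) : ⋃ i, part U i = U := by
  apply Set.Subset.antisymm
  · exact Set.iUnion_subset (part_subset U)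
  · intro x hx
    obtain ⟨n, hn⟩ := exists_cyl_subset hU hx
    exact Set.mem_iUnion.mpr ⟨n, hn n le_rfl⟩

lemma res_congr {x y : ℕ → Bool} {n : ℕ} (h : ∀ i ∈ Finset.range n, x i = y i) :
    res x n = res y n := by
  unfold res
  congr 1
  funext i
  exact h i (Finset.mem_range.mpr i.2)

lemma detOn_part (U : Set (ℕ → Bool)) (i : ℕ) : DetOn (Finset.range i) (part U i) := by
  intro x y hxy
  unfold part
  simp only [Set.mem_ofPred_eq]
  rw [res_congr hxy]

/-- A set determined by finitely many coordinates is coded by a list of nodes. -/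
lemma exists_clo {L : ℕ} {C : Set (ℕ → Bool)} (h : DetOn (Finset.range L) C) :
    ∃ l, clo l = C := by
  classical
  refine ⟨((level L).filter (fun ρ => extend ρ ∈ C)).toList, ?_⟩
  ext x
  simp only [clo, Set.mem_ofPred_eq, Finset.mem_toList, Finset.mem_filter, mem_level]
  constructor
  · rintro ⟨ρ, ⟨hlen, hρ⟩, hx⟩
    refine (h (extend ρ) x fun i hi => ?_).mp hρ
    have hi' : i < ρ.length := by rw [hlen]; exact Finset.mem_range.mp hi
    rw [← hx i hi', ← isInit_extend ρ i hi']
  · intro hx
    refine ⟨res x L, ⟨by simp, ?_⟩, isInit_res x L⟩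
    refine (h (extend (res x L)) x fun i hi => ?_).mpr hx
    have hi' : i < (res x L).length := by simpa using hi
    rw [← isInit_res x L i hi', ← isInit_extend (res x L) i hi']

/-- Null sets are covered infinitely often by prescribed small clopen sets. -/
lemma exists_small_cover (ε : ℕ → ℝ≥0∞) (hε : ∀ n, 0 < ε n) (A : Set (ℕ → Bool))
    (hA : cantorMeasure A = 0) :
    ∃ l : ℕ → List (List Bool), (∀ n, cantorMeasure (clo (l n)) ≤ ε n) ∧
      ∀ x ∈ A, ∀ m, ∃ n ≥ m, x ∈ clo (l n) := by
  classical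
  have hU : ∀ n, ∃ U, A ⊆ U ∧ IsOpen U ∧ cantorMeasure U < ε n / 2 := fun n => by
    have hpos : 0 < ε n / 2 := ENNReal.half_pos (hε n).ne'
    obtain ⟨U, h1, h2, h3⟩ := A.exists_isOpen_lt_of_lt (ε n / 2) (by rw [hA]; exact hpos)
    exact ⟨U, h1, h2, h3⟩
  choose U hAU hUo hUε using hU
  -- convergence of the clopen parts
  have hconv : ∀ n, ∀ δ : ℝ≥0∞, 0 < δ → ∃ i₀, ∀ i ≥ i₀, cantorMeasure (U n \ part (U n) i) < δ := by
    intro n δ hδ
    have h1 : Filter.Tendsto (fun i => cantorMeasure (U n \ part (U n) i)) Filter.atTop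
        (nhds (cantorMeasure (⋂ i, (U n \ part (U n) i)))) := by
      apply tendsto_measure_iInter_atTop
      · intro i
        exact ((hUo n).measurableSet.diff (detOn_part (U n) i).measurableSet).nullMeasurableSet
      · intro i j hij
        exact Set.sdiff_subset_sdiff_right (part_mono (U n) hij)
      · exact ⟨0, measure_ne_top _ _⟩
    have h2 : ⋂ i, (U n \ part (U n) i) = ∅ := by
      rw [← Set.sdiff_iUnion, iUnion_part (hUo n), Set.sdiff_self]
    rw [h2, measure_empty] at h1
    obtain ⟨i₀, hi₀⟩ := Filter.eventually_atTop.mp ((tendsto_order.mp h1).2 δ hδ)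
    exact ⟨i₀, hi₀⟩
  have hi : ∀ n, ∃ i, n ≤ i ∧ ∀ k ≤ n, cantorMeasure (U k \ part (U k) i) ≤
      ε (n + 1) / 2 / (n + 1) := by
    intro n
    have hδ : 0 < ε (n + 1) / 2 / (n + 1) := by
      refine ENNReal.div_pos (ENNReal.half_pos (hε _).ne').ne' ?_
      exact ENNReal.add_ne_top.mpr ⟨ENNReal.natCast_ne_top n, ENNReal.one_ne_top⟩
    choose i₀ hi₀ using fun k => hconv k _ hδ
    refine ⟨n + (Finset.range (n + 1)).sup i₀, by omega, fun k hk => ?_⟩
    refine (hi₀ k _ ?_).le
    have := Finset.le_sup (f := i₀) (Finset.mem_range.mpr (Nat.lt_succ_of_le hk))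
    have h2 : (Finset.range (n + 1)).sup i₀ ≤ n + (Finset.range (n + 1)).sup i₀ := by omega
    exact this.trans h2
  choose i hi1 hi2 using hi
  -- the clopen sets
  let C : ℕ → Set (ℕ → Bool) := fun n => Nat.casesOn n (part (U 0) (i 0))
    (fun n => part (U (n + 1)) (i (n + 1)) ∪
      ⋃ k ∈ Finset.range (n + 1), (part (U k) (i (n + 1)) \ part (U k) (i n)))
  have hdet : ∀ n, ∃ L, DetOn (Finset.range L) (C n) := by
    intro n
    cases n with
    | zero => exact ⟨i 0, detOn_part _ _⟩
    | succ n =>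
      refine ⟨max (i (n + 1)) (i n), ?_⟩
      have hs1 : Finset.range (i (n + 1)) ⊆ Finset.range (max (i (n + 1)) (i n)) :=
        Finset.range_subset_range.mpr (le_max_left _ _)
      have hs2 : Finset.range (i n) ⊆ Finset.range (max (i (n + 1)) (i n)) :=
        Finset.range_subset_range.mpr (le_max_right _ _)
      intro x y hxy
      have a1 : ∀ k, (x ∈ part (U k) (i (n + 1)) ↔ y ∈ part (U k) (i (n + 1))) := fun k =>
        (detOn_part (U k) (i (n + 1))).mono hs1 x y hxy
      have a2 : ∀ k, (x ∈ part (U k) (i n) ↔ y ∈ part (U k) (i n)) := fun k =>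
        (detOn_part (U k) (i n)).mono hs2 x y hxy
      simp only [C, Set.mem_union, Set.mem_iUnion, Set.mem_sdiff, a1, a2]
  choose L hL using hdet
  choose l hl using fun n => exists_clo (hL n)
  refine ⟨l, fun n => ?_, ?_⟩
  · rw [hl]
    cases n with
    | zero =>
      refine (measure_mono (part_subset _ _)).trans ((hUε 0).le.trans ?_)
      exact ENNReal.half_le_self
    | succ n =>
      refine (measure_union_le _ _).trans ?_
      have b1 : cantorMeasure (part (U (n + 1)) (i (n + 1))) ≤ ε (n + 1) / 2 :=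
        (measure_mono (part_subset _ _)).trans (hUε (n + 1)).le
      have b2 : cantorMeasure (⋃ k ∈ Finset.range (n + 1),
          (part (U k) (i (n + 1)) \ part (U k) (i n))) ≤ ε (n + 1) / 2 := by
        refine (measure_biUnion_finset_le _ _).trans ?_
        have b3 : ∀ k ∈ Finset.range (n + 1),
            cantorMeasure (part (U k) (i (n + 1)) \ part (U k) (i n)) ≤
              ε (n + 1) / 2 / (n + 1) := by
          intro k hk
          refine (measure_mono (Set.sdiff_subset_sdiff_left (part_subset _ _))).trans ?_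
          exact hi2 n k (Nat.lt_succ_iff.mp (Finset.mem_range.mp hk))
        refine (Finset.sum_le_card_nsmul _ _ _ b3).trans ?_
        rw [Finset.card_range, nsmul_eq_mul]
        push_cast
        exact ENNReal.mul_div_le
      calc _ ≤ ε (n + 1) / 2 + ε (n + 1) / 2 := add_le_add b1 b2
        _ = ε (n + 1) := ENNReal.add_halves _
  · intro x hx k
    -- find the first stage at which `x` enters `U k`
    have hex : ∃ n, k ≤ n ∧ x ∈ part (U k) (i n) := by
      obtain ⟨j, hj⟩ := Set.mem_iUnion.mp ((iUnion_part (hUo k)).symm ▸ hAU k hx :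
        x ∈ ⋃ i, part (U k) i)
      refine ⟨max k j, le_max_left _ _, part_mono (U k) ?_ hj⟩
      exact (le_max_right _ _).trans (hi1 _)
    obtain ⟨hn1, hn2⟩ := Nat.find_spec hex
    refine ⟨Nat.find hex, hn1, ?_⟩
    rw [hl]
    rcases hn : Nat.find hex with _ | n
    · rw [hn] at hn1 hn2
      have : k = 0 := by omega
      subst this
      exact hn2
    · rw [hn] at hn1 hn2
      by_cases hk : k = n + 1
      · subst hk
        exact Or.inl hn2
      · right
        have hmin := Nat.find_min hex (m := n) (by omega)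
        push Not at hmin
        refine Set.mem_iUnion₂.mpr ⟨k, Finset.mem_range.mpr (by omega), hn2, ?_⟩
        exact hmin (by omega)

/-- The null ideal is Tukey below localization, for any width. -/
theorem tukey_null_Lc (h : ℕ → ℕ) : Tukey (IRel nullIdeal) (Lc h) := by
  classical
  let ε : ℕ → ℝ≥0∞ := fun n => 2⁻¹ ^ n / (h n + 1)
  have hε : ∀ n, 0 < ε n := fun n => by
    refine ENNReal.div_pos (by simp) ?_
    exact ENNReal.add_ne_top.mpr ⟨ENNReal.natCast_ne_top _, ENNReal.one_ne_top⟩
  have hrep : ∀ A : {A : Set (ℕ → Bool) // A ∈ nullIdeal}, ∃ l : ℕ → List (List Bool),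
      (∀ n, cantorMeasure (clo (l n)) ≤ ε n) ∧ ∀ x ∈ A.1, ∀ m, ∃ n ≥ m, x ∈ clo (l n) :=
    fun A => exists_small_cover ε hε A.1 A.2
  choose l hl1 hl2 using hrep
  let dec : ℕ → List (List Bool) := fun n =>
    ((Encodable.decode n : Option (List (List Bool)))).getD []
  have hdec : ∀ p : List (List Bool), dec (Encodable.encode p) = p := fun p => by
    simp only [dec]
    rw [Encodable.encodek]
    rfl
  let E : (ℕ → ℕ → ℕ) → ℕ → Set (ℕ → Bool) := fun S n =>
    ⋃ c ∈ Finset.range (h n), if cantorMeasure (clo (dec (S n c))) ≤ ε n then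
      clo (dec (S n c)) else ∅
  have hE : ∀ S n, cantorMeasure (E S n) ≤ 2⁻¹ ^ n := by
    intro S n
    refine (measure_biUnion_finset_le _ _).trans ?_
    have : ∀ c ∈ Finset.range (h n), cantorMeasure (if cantorMeasure (clo (dec (S n c))) ≤ ε n then
      clo (dec (S n c)) else ∅) ≤ ε n := by
      intro c _
      split_ifs with hc
      · exact hc
      · simp
    refine (Finset.sum_le_card_nsmul _ _ _ this).trans ?_
    rw [Finset.card_range, nsmul_eq_mul]
    calc (h n : ℝ≥0∞) * ε n ≤ (h n + 1) * (2⁻¹ ^ n / (h n + 1)) := by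
          gcongr
          exact le_self_add
      _ ≤ 2⁻¹ ^ n := ENNReal.mul_div_le
  have hnull : ∀ S, {x | ∀ m, ∃ n ≥ m, x ∈ E S n} ∈ nullIdeal := by
    intro S
    show cantorMeasure _ = 0
    apply measure_io_zero
    refine ne_top_of_le_ne_top ?_ (ENNReal.tsum_le_tsum (hE S))
    rw [ENNReal.tsum_geometric]
    simp
  refine ⟨fun A n => Encodable.encode (l A n), fun S => ⟨_, hnull S⟩, ?_⟩
  rintro A S ⟨n₀, hn₀⟩
  show A.1 ⊆ {x | ∀ m, ∃ n ≥ m, x ∈ E S n}
  intro x hx m
  obtain ⟨n, hn, hxn⟩ := hl2 A x hx (max m n₀)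
  refine ⟨n, (le_max_left _ _).trans hn, ?_⟩
  obtain ⟨c, hc, hSc⟩ := hn₀ n ((le_max_right _ _).trans hn)
  refine Set.mem_iUnion₂.mpr ⟨c, Finset.mem_range.mpr hc, ?_⟩
  rw [hSc, hdec, if_pos (hl1 A n)]
  exact hxn

end H61.Yorioka
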