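import Pool.Agent.helper61.WqoDecomp

set_option autoImplicit false

/-!
# Every well-quasi-order is a countable union of better-quasi-orders: final assembly
-/

namespace H61.Wqo

open H61.BQO H61.Clo

/-- Sets on which a map to words of ordinals of a fixed length reflects the order are
better-quasi-ordered. -/
theorem abqo_of_reflect {Q : Type} [Preorder Q] (Φ : Q → List Ordinal.{0}) (ℓ : ℕ)
    (hlen : ∀ x, (Φ x).length = ℓ)
    (hΦ : ∀ x y, List.Forall₂ (· ≤ ·) (Φ x) (Φ y) → x ≤ y) : ABQO Q := by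
  classical
  intro f hf A hA
  by_contra hbad
  push Not at hbad
  -- the coordinate in which the order fails
  let g : Q → Fin ℓ → Ordinal.{0} := fun x i => (Φ x).get ⟨i.1, by rw [hlen]; exact i.2⟩
  have hg : ∀ x y : Q, ¬ x ≤ y → ∃ i : Fin ℓ, g y i < g x i := by
    intro x y hxy
    by_contra hcon
    push Not at hcon
    apply hxy
    apply hΦ
    rw [List.forall₂_iff_get]
    refine ⟨by rw [hlen, hlen], fun i h1 h2 => ?_⟩
    have := hcon ⟨i, by rw [hlen] at h1; exact h1⟩
    exact this
  let c : (ℕ → ℕ) → Option (Fin ℓ) := fun Y =>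
    if h : ∃ i : Fin ℓ, g (f (sh Y)) i < g (f Y) i then some h.choose else none
  have hc : LC c := by
    have h1 := (hf.prod hf.sh).comp (fun p : Q × Q =>
      if h : ∃ i : Fin ℓ, g p.2 i < g p.1 i then some h.choose else (none : Option (Fin ℓ)))
    exact h1
  obtain ⟨B, hBA, hB, κ, hκ⟩ := ramsey c hc A hA
  rcases κ with _ | i
  · obtain ⟨Y, hY⟩ := exists_sub B hB
    have h1 := hκ Y hY
    have h2 := hg _ _ (hbad Y (hY.mono hBA))
    have h3 : c Y = some h2.choose := dif_pos h2
    rw [h3] at h1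
    cases h1
  · refine no_descent (fun Y => g (f Y) i) B hB fun Y hY => ?_
    have h1 := hκ Y hY
    have h2 := hg _ _ (hbad Y (hY.mono hBA))
    have h3 : c Y = some h2.choose := dif_pos h2
    rw [h3] at h1
    have h4 : h2.choose = i := Option.some.inj h1
    have h5 := h2.choose_spec
    rw [h4] at h5
    exact h5

/-- **Main theorem.** Every well-quasi-order is the union of countably many better-quasi-orders. -/
theorem main (P : Type) [Preorder P] (hP : ∀ g : ℕ → P, ∃ m n, m < n ∧ g m ≤ g n) :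
    ∃ Q : ℕ → Set P, (⋃ i, Q i) = Set.univ ∧ ∀ i, ABQO (Q i) := by
  classical
  let W : WQ := ⟨P, (· ≤ ·), fun _ => le_rfl, fun _ _ _ => le_trans, hP⟩
  obtain ⟨col, Φ, h1, h2⟩ := exists_good W _ Set.univ
    (fun F _ => Set.subset_univ _ : Closed (op W) Set.univ) rfl
  let ι : P → V W := fun x => ⟨0, (x : (Lv W 0).α)⟩
  refine ⟨fun k => {x | col (ι x) = k}, ?_, fun k => ?_⟩
  · ext x
    simp
  · by_cases hne : ∃ x₀ : P, col (ι x₀) = k
    · obtain ⟨x₀, hx₀⟩ := hne
      refine abqo_of_reflect (fun x => Φ (ι x.1)) (Φ (ι x₀)).length ?_ ?_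
      · intro x
        refine h1 _ (Set.mem_univ _) _ (Set.mem_univ _) ?_
        have : col (ι x.1) = k := x.2
        rw [this, hx₀]
      · intro x y hxy
        have hx : col (ι x.1) = k := x.2
        have hy : col (ι y.1) = k := y.2
        exact h2 0 x.1 y.1 (Set.mem_univ _) (Set.mem_univ _) (hx.trans hy.symm) hxy
    · intro f _ A _
      exact absurd ⟨(f id).1, (f id).2⟩ hne

end H61.Wqo
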