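import Mathlib

set_option autoImplicit false

/-!
# The Ramsey theorem of Nash-Williams for locally constant colourings of infinite sets of naturals

Infinite subsets of the naturals are represented by strictly increasing functions.
-/

namespace H61.BQO

/-- `Y` is a strictly increasing sequence with values in `A`. -/
def Sub (A : Set ℕ) (Y : ℕ → ℕ) : Prop := StrictMono Y ∧ ∀ n, Y n ∈ A

/-- The shift of a sequence (remove the first entry). -/
def sh (X : ℕ → ℕ) : ℕ → ℕ := fun n => X (n + 1)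

/-- Prepend one entry. -/
def cons (a : ℕ) (Y : ℕ → ℕ) : ℕ → ℕ := fun n => Nat.casesOn n a Y

@[simp] lemma cons_zero (a : ℕ) (Y : ℕ → ℕ) : cons a Y 0 = a := rfl
@[simp] lemma cons_succ (a : ℕ) (Y : ℕ → ℕ) (n : ℕ) : cons a Y (n + 1) = Y n := rfl
@[simp] lemma sh_apply (X : ℕ → ℕ) (n : ℕ) : sh X n = X (n + 1) := rfl

lemma cons_sh (Y : ℕ → ℕ) : cons (Y 0) (sh Y) = Y := by
  funext n
  cases n <;> rfl

lemma Sub.sh {A : Set ℕ} {Y : ℕ → ℕ} (h : Sub A Y) : Sub A (sh Y) :=
  ⟨fun _ _ hij => h.1 (Nat.succ_lt_succ hij), fun n => h.2 (n + 1)⟩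

lemma Sub.mono {A B : Set ℕ} {Y : ℕ → ℕ} (h : Sub A Y) (hAB : A ⊆ B) : Sub B Y :=
  ⟨h.1, fun n => hAB (h.2 n)⟩

/-- Locally constant functions on sequences. -/
def LC {K : Type*} (c : (ℕ → ℕ) → K) : Prop :=
  ∀ X, ∃ n, ∀ Y, (∀ i < n, Y i = X i) → c Y = c X

/-- Colourings obtained from constant ones by well-founded case distinction on entries. -/
inductive Dec {K : Type*} : ((ℕ → ℕ) → K) → Prop
  | const (c : (ℕ → ℕ) → K) (h : ∀ Y Z, c Y = c Z) : Dec c
  | step (c : (ℕ → ℕ) → K) (h : ∀ n, Dec (fun Y => c (cons n Y))) : Dec c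

/-- Prepend the first `k` entries of `X`. -/
def pre (X : ℕ → ℕ) (k : ℕ) (Y : ℕ → ℕ) : ℕ → ℕ := fun i => if i < k then X i else Y (i - k)

lemma pre_zero (X Y : ℕ → ℕ) : pre X 0 Y = Y := by
  funext i; simp [pre]

lemma pre_succ (X : ℕ → ℕ) (k : ℕ) (Y : ℕ → ℕ) :
    pre X (k + 1) Y = pre X k (cons (X k) Y) := by
  funext i
  unfold pre
  rcases lt_trichotomy i k with h | h | h
  · simp [h, Nat.lt_succ_of_lt h]
  · subst h; simp
  · have h1 : ¬ i < k + 1 := by omega
    have h2 : ¬ i < k := by omega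
    obtain ⟨m, rfl⟩ : ∃ m, i = k + 1 + m := ⟨i - (k + 1), by omega⟩
    have e1 : k + 1 + m - (k + 1) = m := by omega
    have e2 : k + 1 + m - k = m + 1 := by omega
    rw [if_neg h1, if_neg h2, e1, e2, cons_succ]

lemma dec_of_lc {K : Type*} (c : (ℕ → ℕ) → K) (hc : LC c) : Dec c := by
  classical
  by_contra hD
  have step : ∀ d : {d : (ℕ → ℕ) → K // ¬ Dec d}, ∃ n, ¬ Dec (fun Y => d.1 (cons n Y)) := by
    intro d
    by_contra h
    push Not at h
    exact d.2 (Dec.step _ h)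
  choose nx hnx using step
  let st : ℕ → {d : (ℕ → ℕ) → K // ¬ Dec d} := fun k =>
    Nat.rec ⟨c, hD⟩ (fun _ d => ⟨fun Y => d.1 (cons (nx d) Y), hnx d⟩) k
  let X : ℕ → ℕ := fun k => nx (st k)
  have hst : ∀ k Y, (st k).1 Y = c (pre X k Y) := by
    intro k
    induction k with
    | zero => intro Y; rw [pre_zero]; rfl
    | succ k ih =>
      intro Y
      have : (st (k + 1)).1 Y = (st k).1 (cons (X k) Y) := rfl
      rw [this, ih, pre_succ]
  obtain ⟨n, hn⟩ := hc X
  apply (st n).2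
  apply Dec.const
  intro Y Z
  have : ∀ W, (st n).1 W = c X := by
    intro W
    rw [hst]
    apply hn
    intro i hi
    simp [pre, hi]
  rw [this, this]

theorem Dec.ramsey {K : Type*} [Finite K] {c : (ℕ → ℕ) → K} (hc : Dec c) :
    ∀ A : Set ℕ, A.Infinite → ∃ B ⊆ A, B.Infinite ∧ ∃ κ, ∀ Y, Sub B Y → c Y = κ := by
  classical
  induction hc with
  | const c h => exact fun A hA => ⟨A, subset_rfl, hA, c id, fun Y _ => h _ _⟩
  | step c _ ih =>
    intro A hA
    have key : ∀ S : {S : Set ℕ // S.Infinite}, ∃ T : {T : Set ℕ // T.Infinite}, ∃ κ : K,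
        T.1 ⊆ S.1 ∧ (∀ x ∈ T.1, sInf S.1 < x) ∧ ∀ Y, Sub T.1 Y → c (cons (sInf S.1) Y) = κ := by
      intro S
      have hinf : (S.1 \ Set.Iic (sInf S.1)).Infinite := S.2.sdiff (Set.finite_Iic _)
      obtain ⟨B, hB, hBi, κ, hκ⟩ := ih (sInf S.1) _ hinf
      refine ⟨⟨B, hBi⟩, κ, fun x hx => (hB hx).1, fun x hx => ?_, hκ⟩
      have := (hB hx).2
      simpa using this
    choose nxt κ h1 h2 h3 using key
    let st : ℕ → {S : Set ℕ // S.Infinite} := fun k => Nat.rec ⟨A, hA⟩ (fun _ S => nxt S) k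
    let m : ℕ → ℕ := fun k => sInf (st k).1
    have hm : ∀ k, m k ∈ (st k).1 := fun k => Nat.sInf_mem (st k).2.nonempty
    have hsub : ∀ k l, k ≤ l → (st l).1 ⊆ (st k).1 := by
      intro k l hkl
      induction l, hkl using Nat.le_induction with
      | base => exact subset_rfl
      | succ l _ ihl => exact (h1 (st l)).trans ihl
    have hmem : ∀ k l, k < l → m l ∈ (st (k + 1)).1 := fun k l hkl => hsub (k + 1) l hkl (hm l)
    have hlt : ∀ k l, k < l → m k < m l := fun k l hkl => h2 (st k) _ (hmem k l hkl)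
    have hmono : StrictMono m := fun k l hkl => hlt k l hkl
    obtain ⟨κ₀, hκ₀⟩ := Finite.exists_infinite_fiber (fun k => κ (st k))
    have hJ : ((fun k => κ (st k)) ⁻¹' {κ₀}).Infinite := Set.infinite_coe_iff.mp hκ₀
    refine ⟨m '' ((fun k => κ (st k)) ⁻¹' {κ₀}), ?_, hJ.image hmono.injective.injOn, κ₀, ?_⟩
    · rintro _ ⟨k, -, rfl⟩
      exact hsub 0 k (Nat.zero_le _) (hm k)
    · intro Y hY
      obtain ⟨j, hj, hj'⟩ := hY.2 0
      have hS : Sub (st (j + 1)).1 (sh Y) := by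
        refine ⟨hY.sh.1, fun n => ?_⟩
        obtain ⟨l, -, hl'⟩ := hY.2 (n + 1)
        have h0 : Y 0 < Y (n + 1) := hY.1 (Nat.succ_pos n)
        have hjl : j < l := by
          rw [← hj', ← hl'] at h0
          exact hmono.lt_iff_lt.mp h0
        have := hmem j l hjl
        rw [hl'] at this
        exact this
      have := h3 (st j) (sh Y) hS
      have hj'' : sInf (st j).1 = Y 0 := hj'
      rw [hj'', cons_sh] at this
      rw [this]
      exact hj

/-- **Nash-Williams / Galvin-Prikry for locally constant colourings.** -/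
theorem ramsey {K : Type*} [Finite K] (c : (ℕ → ℕ) → K) (hc : LC c) (A : Set ℕ)
    (hA : A.Infinite) : ∃ B ⊆ A, B.Infinite ∧ ∃ κ, ∀ Y, Sub B Y → c Y = κ :=
  (dec_of_lc c hc).ramsey A hA

lemma LC.comp {K L : Type*} {c : (ℕ → ℕ) → K} (hc : LC c) (f : K → L) : LC (fun X => f (c X)) := by
  intro X
  obtain ⟨n, hn⟩ := hc X
  exact ⟨n, fun Y hY => congrArg f (hn Y hY)⟩

lemma LC.sh {K : Type*} {c : (ℕ → ℕ) → K} (hc : LC c) : LC (fun X => c (BQO.sh X)) := by
  intro X
  obtain ⟨n, hn⟩ := hc (BQO.sh X)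
  exact ⟨n + 1, fun Y hY => hn _ (fun i hi => hY (i + 1) (by omega))⟩

lemma LC.prod {K L : Type*} {c : (ℕ → ℕ) → K} {d : (ℕ → ℕ) → L} (hc : LC c) (hd : LC d) :
    LC (fun X => (c X, d X)) := by
  intro X
  obtain ⟨n, hn⟩ := hc X
  obtain ⟨m, hm⟩ := hd X
  refine ⟨max n m, fun Y hY => ?_⟩
  exact Prod.ext (hn Y (fun i hi => hY i (lt_of_lt_of_le hi (le_max_left _ _))))
    (hm Y (fun i hi => hY i (lt_of_lt_of_le hi (le_max_right _ _))))

/-- There is an increasing enumeration of every infinite set. -/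
lemma exists_sub (A : Set ℕ) (hA : A.Infinite) : ∃ Y, Sub A Y := by
  classical
  exact ⟨Nat.nth (· ∈ A), Nat.nth_strictMono hA, fun n => Nat.nth_mem_of_infinite hA n⟩

/-- An array into a linear well-order cannot decrease along all shifts. -/
lemma no_descent {W : Type*} [Preorder W] [WellFoundedLT W] (f : (ℕ → ℕ) → W) (A : Set ℕ)
    (hA : A.Infinite) (h : ∀ Y, Sub A Y → f (sh Y) < f Y) : False := by
  obtain ⟨Y, hY⟩ := exists_sub A hA
  let Z : ℕ → (ℕ → ℕ) := fun k => sh^[k] Y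
  have hZ : ∀ k, Sub A (Z k) := by
    intro k
    induction k with
    | zero => exact hY
    | succ k ih =>
      have : Z (k + 1) = sh (Z k) := Function.iterate_succ_apply' _ _ _
      rw [this]; exact ih.sh
  have hdesc : ∀ k, f (Z (k + 1)) < f (Z k) := by
    intro k
    have : Z (k + 1) = sh (Z k) := Function.iterate_succ_apply' _ _ _
    rw [this]
    exact h _ (hZ k)
  exact (RelEmbedding.natGT _ hdesc).not_wellFounded (wellFounded_lt)

end H61.BQO
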