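import Pool.Agent.helper61.YTukey

set_option autoImplicit false

/-!
# The null ideal and localization (Bartoszynski)
-/

namespace H61.Yorioka

open MeasureTheory Set Cardinal ProbabilityTheory

open scoped ENNReal

/-- `A` depends only on the coordinates in `S`. -/
def DetOn (S : Finset ℕ) (A : Set (ℕ → Bool)) : Prop :=
  ∀ x y : ℕ → Bool, (∀ i ∈ S, x i = y i) → (x ∈ A ↔ y ∈ A)

lemma DetOn.compl {S : Finset ℕ} {A : Set (ℕ → Bool)} (h : DetOn S A) : DetOn S Aᶜ :=
  fun x y hxy => not_congr (h x y hxy)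

lemma DetOn.mono {S T : Finset ℕ} {A : Set (ℕ → Bool)} (h : DetOn S A) (hST : S ⊆ T) : DetOn T A :=
  fun x y hxy => h x y fun i hi => hxy i (hST hi)

lemma DetOn.eq_preimage {S : Finset ℕ} {A : Set (ℕ → Bool)} (h : DetOn S A) :
    A = (fun (x : ℕ → Bool) (i : S) => x i) ⁻¹' ((fun (x : ℕ → Bool) (i : S) => x i) '' A) := by
  ext x
  constructor
  · exact fun hx => ⟨x, hx, rfl⟩
  · rintro ⟨y, hy, hyx⟩
    refine (h y x fun i hi => ?_).mp hy
    exact congrFun hyx ⟨i, hi⟩

lemma measurable_restrict_finset (S : Finset ℕ) :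
    Measurable (fun (x : ℕ → Bool) (i : S) => x i) :=
  measurable_pi_lambda _ fun _ => measurable_pi_apply _

lemma DetOn.measurableSet {S : Finset ℕ} {A : Set (ℕ → Bool)} (h : DetOn S A) :
    MeasurableSet A := by
  rw [h.eq_preimage]
  exact measurable_restrict_finset S (Set.toFinite _).measurableSet

lemma iIndepFun_coord : iIndepFun (fun (i : ℕ) (x : ℕ → Bool) => x i) cantorMeasure := by
  unfold cantorMeasure
  exact iIndepFun_infinitePi (P := fun _ : ℕ => coin) (X := fun _ => id) (fun _ => measurable_id)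

lemma measure_inter_of_det {S T : Finset ℕ} {A B : Set (ℕ → Bool)} (hA : DetOn S A)
    (hB : DetOn T B) (hST : Disjoint S T) :
    cantorMeasure (A ∩ B) = cantorMeasure A * cantorMeasure B := by
  have h1 := iIndepFun_coord.indepFun_finset S T hST (fun i => measurable_pi_apply i)
  have h2 := h1.measure_inter_preimage_eq_mul
    ((fun (x : ℕ → Bool) (i : S) => x i) '' A) ((fun (x : ℕ → Bool) (i : T) => x i) '' B)
    (Set.toFinite _).measurableSet (Set.toFinite _).measurableSet
  have e1 := hA.eq_preimage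
  have e2 := hB.eq_preimage
  rw [← e1, ← e2] at h2
  exact h2

/-- The basic open sets: the `j`-th block of length `n` is constantly `true`. -/
def G (n j : ℕ) : Set (ℕ → Bool) := {x | ∀ i < n, x (j * n + i) = true}

/-- The block of coordinates. -/
def block (n j : ℕ) : Finset ℕ := (Finset.range n).image (fun i => j * n + i)

lemma detOn_G (n j : ℕ) : DetOn (block n j) (G n j) := by
  intro x y hxy
  have : ∀ i < n, x (j * n + i) = y (j * n + i) := fun i hi =>
    hxy _ (Finset.mem_image.mpr ⟨i, Finset.mem_range.mpr hi, rfl⟩)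
  constructor
  · intro h i hi; rw [← this i hi]; exact h i hi
  · intro h i hi; rw [this i hi]; exact h i hi

lemma block_disjoint (n j j' : ℕ) (h : j ≠ j') : Disjoint (block n j) (block n j') := by
  rw [Finset.disjoint_left]
  intro a ha ha'
  obtain ⟨i, hi, rfl⟩ := Finset.mem_image.mp ha
  obtain ⟨i', hi', he⟩ := Finset.mem_image.mp ha'
  rw [Finset.mem_range] at hi hi'
  apply h
  have hn : 0 < n := by omega
  have h1 : (j * n + i) / n = j := by
    rw [mul_comm, Nat.mul_add_div hn, Nat.div_eq_of_lt hi, add_zero]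
  have h2 : (j' * n + i') / n = j' := by
    rw [mul_comm, Nat.mul_add_div hn, Nat.div_eq_of_lt hi', add_zero]
  rw [← h1, ← h2, he]

lemma measure_G (n j : ℕ) : cantorMeasure (G n j) = 2⁻¹ ^ n := by
  have : G n j = Set.pi (block n j : Set ℕ) (fun _ => {true}) := by
    ext x
    simp only [G, block, Set.mem_pi, Finset.coe_image, Set.mem_image, Finset.coe_range,
      Set.mem_Iio, Set.mem_singleton_iff, forall_exists_index, and_imp,
      forall_apply_eq_imp_iff₂]
    rfl
  rw [this]
  unfold cantorMeasure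
  rw [Measure.infinitePi_pi _ (fun i _ => measurableSet_singleton _)]
  simp only [coin_singleton, Finset.prod_const]
  congr 1
  unfold block
  rw [Finset.card_image_of_injective _ (fun a b h => by simpa using h), Finset.card_range]

lemma isOpen_G (n j : ℕ) : IsOpen (G n j) := by
  have : G n j = Set.pi (block n j : Set ℕ) (fun _ => {true}) := by
    ext x
    simp only [G, block, Set.mem_pi, Finset.coe_image, Set.mem_image, Finset.coe_range,
      Set.mem_Iio, Set.mem_singleton_iff, forall_exists_index, and_imp,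
      forall_apply_eq_imp_iff₂]
    rfl
  rw [this]
  exact isOpen_set_pi (Finset.finite_toSet _) (fun i _ => isOpen_discrete _)

lemma detOn_biInter (n : ℕ) (F : Finset ℕ) :
    DetOn (F.biUnion (block n)) (⋂ j ∈ F, (G n j)ᶜ) := by
  intro x y hxy
  simp only [Set.mem_iInter]
  constructor
  · intro h j hj
    refine ((detOn_G n j).compl x y fun i hi => ?_).mp (h j hj)
    exact hxy i (Finset.mem_biUnion.mpr ⟨j, hj, hi⟩)
  · intro h j hj
    refine ((detOn_G n j).compl x y fun i hi => ?_).mpr (h j hj)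
    exact hxy i (Finset.mem_biUnion.mpr ⟨j, hj, hi⟩)

lemma measure_biInter (n : ℕ) (F : Finset ℕ) :
    cantorMeasure (⋂ j ∈ F, (G n j)ᶜ) = (1 - 2⁻¹ ^ n) ^ F.card := by
  classical
  induction F using Finset.induction_on with
  | empty => simp
  | insert j F hj ih =>
    rw [Finset.card_insert_of_notMem hj, pow_succ, ← ih, Finset.set_biInter_insert, Set.inter_comm,
      measure_inter_of_det (detOn_biInter n F) (detOn_G n j).compl]
    · rw [prob_compl_eq_one_sub (detOn_G n j).measurableSet, measure_G]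
    · rw [Finset.disjoint_biUnion_left]
      intro j' hj'
      exact block_disjoint n j' j (fun h => hj (h ▸ hj'))

/-- Finitely many basic sets cannot be avoided by a set of large measure. -/
lemma card_le_of_avoid {E : Set (ℕ → Bool)} (n : ℕ) (F : Finset ℕ)
    (hF : ∀ j ∈ F, cantorMeasure (E ∩ G n j) = 0) :
    cantorMeasure E ≤ (1 - 2⁻¹ ^ n) ^ F.card := by
  rw [← measure_biInter]
  have h1 : E ⊆ (⋂ j ∈ F, (G n j)ᶜ) ∪ ⋃ j ∈ F, (E ∩ G n j) := by
    intro x hx
    by_cases h : ∃ j ∈ F, x ∈ G n j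
    · obtain ⟨j, hj, hx'⟩ := h
      exact Or.inr (Set.mem_iUnion₂.mpr ⟨j, hj, hx, hx'⟩)
    · push Not at h
      exact Or.inl (Set.mem_iInter₂.mpr h)
  refine (measure_mono h1).trans ((measure_union_le _ _).trans ?_)
  have h2 : cantorMeasure (⋃ j ∈ F, (E ∩ G n j)) = 0 := by
    exact (measure_biUnion_null_iff F.countable_toSet).mpr hF
  rw [h2, add_zero]

/-- Null-set coverings by small clopen sets, infinitely often. -/
lemma measure_io_zero {E : ℕ → Set (ℕ → Bool)} (hE : ∑' n, cantorMeasure (E n) ≠ ∞) :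
    cantorMeasure {x | ∀ m, ∃ n ≥ m, x ∈ E n} = 0 := by
  have h := measure_setOfPred_frequently_eq_zero (p := fun n x => x ∈ E n) (μ := cantorMeasure) hE
  have e : {x | ∀ m, ∃ n ≥ m, x ∈ E n} = {x | ∃ᶠ n in Filter.atTop, x ∈ E n} := by
    ext x
    simp only [Set.mem_ofPred_eq, Filter.frequently_atTop]
  rw [e]
  exact h

/-- A finite set of naturals of size at most `h` can be enumerated by numbers below `h`. -/
lemma exists_enum (F : Finset ℕ) (h : ℕ) (hF : F.card ≤ h) :
    ∃ e : ℕ → ℕ, ∀ j ∈ F, ∃ c < h, e c = j := by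
  refine ⟨fun c => F.toList.getD c 0, fun j hj => ?_⟩
  obtain ⟨c, hc, hcj⟩ := List.mem_iff_getElem.mp (Finset.mem_toList.mpr hj)
  refine ⟨c, ?_, ?_⟩
  · rw [Finset.length_toList] at hc; omega
  · show F.toList.getD c 0 = j
    rw [List.getD_eq_getElem _ _ hc]; exact hcj

lemma tendsto_pow_aux : Filter.Tendsto (fun n : ℕ => ((1 - 2⁻¹ ^ n) ^ (n * 2 ^ n) : ℝ≥0∞))
    Filter.atTop (nhds 0) := by
  have hbound : ∀ n : ℕ, ((1 - 2⁻¹ ^ n) ^ (n * 2 ^ n) : ℝ≥0∞) ≤ (ENNReal.ofReal (Real.exp (-1))) ^ n := by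
    intro n
    rw [mul_comm, pow_mul]
    gcongr
    have h1 : ((1 - 2⁻¹ ^ n : ℝ≥0∞)) = ENNReal.ofReal (1 - (1 / 2 ^ n : ℝ)) := by
      rw [ENNReal.ofReal_sub _ (by positivity), ENNReal.ofReal_one]
      congr 1
      rw [one_div, ENNReal.ofReal_inv_of_pos (by positivity), ENNReal.ofReal_pow (by norm_num)]
      simp [ENNReal.inv_pow]
    have h0 : (0 : ℝ) ≤ 1 - 1 / 2 ^ n := by
      have : (1 : ℝ) ≤ 2 ^ n := one_le_pow₀ (by norm_num)
      rw [sub_nonneg, div_le_one (by positivity)]
      exact this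
    rw [h1, ← ENNReal.ofReal_pow h0]
    apply ENNReal.ofReal_le_ofReal
    have h2 : 1 - (1 / 2 ^ n : ℝ) ≤ Real.exp (-(1 / 2 ^ n)) := by
      have := Real.add_one_le_exp (-(1 / 2 ^ n : ℝ))
      linarith
    calc (1 - (1 / 2 ^ n : ℝ)) ^ (2 ^ n) ≤ (Real.exp (-(1 / 2 ^ n))) ^ (2 ^ n) :=
          pow_le_pow_left₀ h0 h2 _
      _ = Real.exp (-1) := by
          rw [← Real.exp_nat_mul]
          congr 1
          push_cast
          field_simp
  have hlt : ENNReal.ofReal (Real.exp (-1)) < 1 := by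
    rw [ENNReal.ofReal_lt_one]
    exact Real.exp_lt_one_iff.mpr (by norm_num)
  exact tendsto_of_tendsto_of_tendsto_of_le_of_le tendsto_const_nhds
    (ENNReal.tendsto_pow_atTop_nhds_zero_of_lt_one hlt) (fun _ => zero_le) hbound

/-- The width used for the null ideal. -/
def h1 (n : ℕ) : ℕ := (n + 1) * (n * 2 ^ n)

/-- **Bartoszynski.** Localization is Tukey below the null ideal. -/
theorem tukey_Lc_null : Tukey (Lc h1) (IRel nullIdeal) := by
  classical
  -- the null sets
  have hnull : ∀ x : ℕ → ℕ, {y | ∀ m, ∃ n ≥ m, y ∈ G n (x n)} ∈ nullIdeal := by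
    intro x
    show cantorMeasure _ = 0
    apply measure_io_zero
    simp only [measure_G]
    rw [ENNReal.tsum_geometric]
    simp
  -- open supersets
  have hopen : ∀ B : {A : Set (ℕ → Bool) // A ∈ nullIdeal}, ∃ U, B.1 ⊆ U ∧ IsOpen U ∧
      cantorMeasure U < 1 := by
    intro B
    have hB : cantorMeasure B.1 < 1 := by
      have : cantorMeasure B.1 = 0 := B.2
      rw [this]; exact one_pos
    obtain ⟨U, h1, h2, h3⟩ := B.1.exists_isOpen_lt_of_lt 1 hB
    exact ⟨U, h1, h2, h3⟩
  choose U hBU hU hU1 using hopen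
  -- the finite sets
  let T : {A : Set (ℕ → Bool) // A ∈ nullIdeal} → List Bool → ℕ → Set ℕ := fun B s n =>
    {j | cantorMeasure ((cyl s \ U B) ∩ G n j) = 0}
  have hT : ∀ B s, good (U B) s → ∃ n₀, ∀ n ≥ n₀, ∃ F : Finset ℕ, T B s n = ↑F ∧
      F.card ≤ n * 2 ^ n := by
    intro B s hs
    have hev := (tendsto_order.mp tendsto_pow_aux).2 _ hs
    obtain ⟨n₀, hn₀⟩ := Filter.eventually_atTop.mp hev
    refine ⟨n₀, fun n hn => ?_⟩
    have hcard : ∀ F : Finset ℕ, (↑F : Set ℕ) ⊆ T B s n → F.card < n * 2 ^ n := by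
      intro F hF
      by_contra hge
      push Not at hge
      have h1 := card_le_of_avoid n F (fun j hj => hF (Finset.mem_coe.mpr hj))
      have h2 := hn₀ n hn
      have h3 : ((1 - 2⁻¹ ^ n) ^ F.card : ℝ≥0∞) ≤ (1 - 2⁻¹ ^ n) ^ (n * 2 ^ n) :=
        pow_le_pow_of_le_one (zero_le) tsub_le_self hge
      exact absurd (h1.trans h3) (not_le.mpr h2)
    have hfin : (T B s n).Finite := by
      by_contra hinf
      obtain ⟨F, hF, hFc⟩ := Set.Infinite.exists_subset_card_eq hinf (n * 2 ^ n)
      exact absurd hFc (hcard F hF).ne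
    refine ⟨hfin.toFinset, by simp, ?_⟩
    exact (hcard _ (by simp)).le
  choose! n₀ F hF hFc using hT
  -- the slalom
  let SS : {A : Set (ℕ → Bool) // A ∈ nullIdeal} → ℕ → Finset ℕ := fun B n =>
    (Finset.range (n + 1)).biUnion fun k =>
      match (Encodable.decode k : Option (List Bool)) with
      | none => ∅
      | some s => if good (U B) s ∧ n₀ B s ≤ n then F B s n else ∅
  have hSS : ∀ B n, (SS B n).card ≤ h1 n := by
    intro B n
    refine Finset.card_biUnion_le.trans ?_
    refine (Finset.sum_le_card_nsmul _ _ (n * 2 ^ n) ?_).trans ?_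
    · intro k _
      rcases hk : (Encodable.decode k : Option (List Bool)) with _ | s
      · simp
      · simp only
        split_ifs with h
        · exact hFc B s h.1 n h.2
        · simp
    · simp [h1]
  choose e he using fun B n => exists_enum (SS B n) (h1 n) (hSS B n)
  refine ⟨fun x => ⟨_, hnull x⟩, fun B => e B, ?_⟩
  intro x B hxB
  have hxB' : {y | ∀ m, ∃ n ≥ m, y ∈ G n (x n)} ⊆ B.1 := hxB
  obtain ⟨s, hs, k₀, hk₀⟩ := exists_good_null (hU B) (hU1 B) (fun n => G n (x n))
    (fun n => isOpen_G n (x n)) (fun y hy => hBU B (hxB' hy))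
  refine ⟨max k₀ (max (n₀ B s) (Encodable.encode s)), fun n hn => ?_⟩
  have hn1 : k₀ ≤ n := le_trans (le_max_left _ _) hn
  have hn2 : n₀ B s ≤ n := le_trans ((le_max_left _ _).trans (le_max_right _ _)) hn
  have hn3 : Encodable.encode s ≤ n := le_trans ((le_max_right _ _).trans (le_max_right _ _)) hn
  apply he
  refine Finset.mem_biUnion.mpr ⟨Encodable.encode s, Finset.mem_range.mpr (by omega), ?_⟩
  rw [Encodable.encodek]
  simp only
  rw [if_pos ⟨hs, hn2⟩]
  have h5 : x n ∈ T B s n := hk₀ n hn1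
  rw [hF B s hs n hn2] at h5
  exact h5

end H61.Yorioka
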