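import Pool.Agent.helper61.ClopenRamsey

set_option autoImplicit false

/-!
# Transfinite sequences over a better-quasi-order

If every locally constant array into `Q` is good, then the countable transfinite sequences over `Q`
are well-quasi-ordered by the embedding relation (Nash-Williams).
-/

namespace H61.BQO

universe u

/-- Array form of better-quasi-ordering: no locally constant array is bad. -/
def ABQO (Q : Type u) [LE Q] : Prop :=
  ∀ f : (ℕ → ℕ) → Q, LC f → ∀ A : Set ℕ, A.Infinite → ∃ Y, Sub A Y ∧ f Y ≤ f (sh Y)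

/-- Codes for indecomposable sequences: single entries and regular sums of type `ω`. -/
inductive Code (Q : Type u) : Type u
  | atom : Q → Code Q
  | node : (ℕ → Code Q) → Code Q

variable {Q : Type u} [Preorder Q]

/-- every natural number is hit infinitely often -/
def ev (i : ℕ) : ℕ := (Nat.unpair i).1

lemma ev_pair (j m : ℕ) : ev (Nat.pair j m) = j := by simp [ev]

/-- The sequence coded by a code embeds in the segment `[x, y)` of `G`. -/
def EmbIn (G : Ordinal.{0} → Q) : Code Q → Ordinal.{0} → Ordinal.{0} → Prop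
  | .atom q, x, y => ∃ z, x ≤ z ∧ z < y ∧ q ≤ G z
  | .node a, x, y => ∃ c : ℕ → Ordinal.{0}, Monotone c ∧ x ≤ c 0 ∧ (∀ i, c i ≤ y) ∧
      ∀ i, EmbIn G (a (ev i)) (c i) (c (i + 1))

lemma EmbIn.mono {G : Ordinal.{0} → Q} {t : Code Q} {x y x' y' : Ordinal.{0}}
    (h : EmbIn G t x y) (hx : x' ≤ x) (hy : y ≤ y') : EmbIn G t x' y' := by
  cases t with
  | atom q =>
    obtain ⟨z, h1, h2, h3⟩ := h
    exact ⟨z, hx.trans h1, h2.trans_le hy, h3⟩
  | node a =>
    obtain ⟨c, h1, h2, h3, h4⟩ := h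
    exact ⟨c, h1, hx.trans h2, fun i => (h3 i).trans hy, h4⟩

lemma EmbIn.lt {G : Ordinal.{0} → Q} {t : Code Q} : ∀ {x y : Ordinal.{0}},
    EmbIn G t x y → x < y := by
  induction t with
  | atom q =>
    rintro x y ⟨z, h1, h2, -⟩
    exact h1.trans_lt h2
  | node a ih =>
    rintro x y ⟨c, -, h2, h3, h4⟩
    exact h2.trans_lt ((ih _ (h4 0)).trans_le (h3 _))

/-- The quasi-order of codes. -/
def R (t u : Code Q) : Prop :=
  ∀ (G : Ordinal.{0} → Q) (x y : Ordinal.{0}), EmbIn G u x y → EmbIn G t x y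

instance R.isPreorder : IsPreorder (Code Q) R where
  refl _ _ _ _ h := h
  trans _ _ _ h1 h2 G x y h := h1 G x y (h2 G x y h)

lemma R_node_node {a b : ℕ → Code Q} (h : ∀ i, ∃ j, R (a i) (b j)) :
    R (.node a) (.node b) := by
  choose j hj using h
  rintro G x y ⟨c, h1, h2, h3, h4⟩
  let k : ℕ → ℕ := fun i =>
    Nat.rec (Nat.pair (j (ev 0)) 0) (fun i ki => Nat.pair (j (ev (i + 1))) (ki + 1)) i
  have hk : ∀ i, ev (k i) = j (ev i) := by
    intro i
    cases i with
    | zero => exact ev_pair _ _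
    | succ i => exact ev_pair _ _
  have hk' : ∀ i, k i + 1 ≤ k (i + 1) := fun i => Nat.right_le_pair _ _
  refine ⟨fun i => c (k i), ?_, ?_, fun i => h3 _, fun i => ?_⟩
  · refine monotone_nat_of_le_succ fun i => h1 ?_
    exact (Nat.le_succ _).trans (hk' i)
  · exact h2.trans (h1 (Nat.zero_le _))
  · have := h4 (k i)
    rw [hk] at this
    exact (hj _ G _ _ this).mono le_rfl (h1 (hk' i))

lemma R_node_of {t : Code Q} {b : ℕ → Code Q} (j : ℕ) (h : R t (b j)) : R t (.node b) := by
  rintro G x y ⟨c, h1, h2, h3, h4⟩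
  have := h4 (Nat.pair j 0)
  rw [ev_pair] at this
  exact (h G _ _ this).mono (h2.trans (h1 (Nat.zero_le _))) (h3 _)

lemma R_atom {q q' : Q} (h : q ≤ q') : R (Code.atom q) (Code.atom q') := by
  rintro G x y ⟨z, h1, h2, h3⟩
  exact ⟨z, h1, h2, h.trans h3⟩

open Classical in
/-- One step of the descent inside codes. -/
noncomputable def stp (u v : Code Q) : Code Q :=
  match u with
  | .atom q => .atom q
  | .node a => match v with
    | .atom _ => a 0
    | .node b => if h : ∃ i, ∀ j, ¬ R (a i) (b j) then a h.choose else a 0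

lemma stp_atom (q : Q) (v : Code Q) : stp (.atom q) v = .atom q := by
  unfold stp; rfl

lemma stp_node (a : ℕ → Code Q) (v : Code Q) : ∃ i, stp (.node a) v = a i := by
  classical
  cases v with
  | atom q => exact ⟨0, rfl⟩
  | node b =>
    by_cases h : ∃ i, ∀ j, ¬ R (a i) (b j)
    · exact ⟨h.choose, by simp only [stp]; rw [dif_pos h]⟩
    · exact ⟨0, by simp only [stp]; rw [dif_neg h]⟩

lemma stp_node_node {a b : ℕ → Code Q} (h : ∃ i, ∀ j, ¬ R (a i) (b j)) :
    ∀ j, ¬ R (stp (.node a) (.node b)) (b j) := by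
  classical
  have : stp (.node a) (.node b) = a h.choose := by simp only [stp]; rw [dif_pos h]
  rw [this]
  exact h.choose_spec

/-- The derived array. -/
noncomputable def arr (t : ℕ → Code Q) : ℕ → (ℕ → ℕ) → Code Q
  | 0, X => t (X 0)
  | n + 1, X => stp (arr t n X) (arr t n (sh X))

lemma arr_congr (t : ℕ → Code Q) : ∀ (n : ℕ) (X Y : ℕ → ℕ), (∀ i < n + 1, Y i = X i) →
    arr t n Y = arr t n X := by
  intro n
  induction n with
  | zero => intro X Y h; simp only [arr]; rw [h 0 (by omega)]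
  | succ n ih =>
    intro X Y h
    simp only [arr]
    rw [ih X Y (fun i hi => h i (by omega)), ih (sh X) (sh Y) (fun i hi => h (i + 1) (by omega))]

lemma arr_exists_atom (t : ℕ → Code Q) (X : ℕ → ℕ) : ∃ n, ∃ q, arr t n X = .atom q := by
  suffices ∀ (c : Code Q) (n : ℕ), arr t n X = c → ∃ m, ∃ q, arr t m X = .atom q from
    this _ 0 rfl
  intro c
  induction c with
  | atom q => exact fun n h => ⟨n, q, h⟩
  | node a ih =>
    intro n h
    obtain ⟨i, hi⟩ := stp_node a (arr t n (sh X))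
    refine ih i (n + 1) ?_
    simp only [arr]
    rw [h, hi]

open Classical in
/-- The first stage at which the derived array is an atom. -/
noncomputable def stage (t : ℕ → Code Q) (X : ℕ → ℕ) : ℕ := Nat.find (arr_exists_atom t X)

lemma stage_spec (t : ℕ → Code Q) (X : ℕ → ℕ) : ∃ q, arr t (stage t X) X = .atom q := by
  classical
  exact Nat.find_spec (arr_exists_atom t X)

/-- The value of the derived array. -/
noncomputable def val (t : ℕ → Code Q) (X : ℕ → ℕ) : Q := (stage_spec t X).choose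

lemma val_spec (t : ℕ → Code Q) (X : ℕ → ℕ) : arr t (stage t X) X = .atom (val t X) :=
  (stage_spec t X).choose_spec

lemma arr_of_le (t : ℕ → Code Q) (X : ℕ → ℕ) (n : ℕ) (hn : stage t X ≤ n) :
    arr t n X = .atom (val t X) := by
  induction n, hn using Nat.le_induction with
  | base => exact val_spec t X
  | succ n _ ih => simp only [arr]; rw [ih, stp_atom]

lemma lt_stage (t : ℕ → Code Q) (X : ℕ → ℕ) (n : ℕ) (a : ℕ → Code Q) (h : arr t n X = .node a) :
    n < stage t X := by
  by_contra hn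
  push Not at hn
  rw [arr_of_le t X n hn] at h
  cases h

lemma stage_le (t : ℕ → Code Q) (X : ℕ → ℕ) (n : ℕ) (q : Q) (h : arr t n X = .atom q) :
    stage t X ≤ n := by
  classical
  exact Nat.find_min' _ ⟨q, h⟩

lemma stage_congr (t : ℕ → Code Q) (X Y : ℕ → ℕ) (h : ∀ i < stage t X + 1, Y i = X i) :
    stage t Y = stage t X := by
  have h1 : ∀ m ≤ stage t X, arr t m Y = arr t m X := fun m hm =>
    arr_congr t m X Y (fun i hi => h i (by omega))
  apply le_antisymm
  · exact stage_le t Y _ (val t X) (by rw [h1 _ le_rfl, val_spec])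
  · by_contra hlt
    push Not at hlt
    have h2 := h1 _ hlt.le
    rw [val_spec] at h2
    exact absurd (stage_le t X _ _ h2.symm) (by omega)

lemma lc_stage (t : ℕ → Code Q) : LC (stage t) := fun X =>
  ⟨stage t X + 1, fun Y h => stage_congr t X Y h⟩

lemma lc_val (t : ℕ → Code Q) : LC (val t) := fun X =>
  ⟨stage t X + 1, fun Y h => by
    have h1 := stage_congr t X Y h
    have h2 := arr_congr t (stage t X) X Y h
    rw [val_spec, ← h1, val_spec] at h2
    exact Code.atom.inj h2⟩

/-- If `Q` is a better-quasi-order then its codes are well-quasi-ordered. -/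
theorem wqo_R (hQ : ABQO Q) : WellQuasiOrdered (R : Code Q → Code Q → Prop) := by
  classical
  intro t
  by_contra hbad
  push Not at hbad
  obtain ⟨B, -, hB, κ, hκ⟩ := ramsey (fun X => decide (stage t X ≤ stage t (sh X)))
    (((lc_stage t).prod (lc_stage t).sh).comp (fun p => decide (p.1 ≤ p.2))) Set.univ
    Set.infinite_univ
  cases κ with
  | false =>
    refine no_descent (stage t) B hB fun Y hY => ?_
    have := hκ Y hY
    simpa using this
  | true =>
    have hle : ∀ Y, Sub B Y → stage t Y ≤ stage t (sh Y) := by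
      intro Y hY
      have := hκ Y hY
      simpa using this
    have main : ∀ n Y, Sub B Y → ¬ R (arr t n Y) (arr t n (sh Y)) := by
      intro n
      induction n with
      | zero => exact fun Y hY => hbad _ _ (hY.1 Nat.zero_lt_one)
      | succ n ih =>
        intro Y hY
        have h0 := ih Y hY
        have e1 : arr t (n + 1) Y = stp (arr t n Y) (arr t n (sh Y)) := rfl
        have e2 : arr t (n + 1) (sh Y) = stp (arr t n (sh Y)) (arr t n (sh (sh Y))) := rfl
        rw [e1, e2]
        rcases hu : arr t n Y with q | a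
        · rw [hu] at h0
          rw [stp_atom]
          rcases hv : arr t n (sh Y) with q' | b
          · rw [hv] at h0
            rw [stp_atom]
            exact h0
          · rw [hv] at h0
            obtain ⟨j, hj⟩ := stp_node b (arr t n (sh (sh Y)))
            rw [hj]
            exact fun h => h0 (R_node_of j h)
        · rw [hu] at h0
          rcases hv : arr t n (sh Y) with q' | b
          · exfalso
            have h1 := lt_stage t Y n a hu
            have h2 := stage_le t (sh Y) n q' hv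
            have h3 := hle Y hY
            omega
          · rw [hv] at h0
            have hex : ∃ i, ∀ j, ¬ R (a i) (b j) := by
              by_contra hne
              push Not at hne
              exact h0 (R_node_node hne)
            obtain ⟨j, hj⟩ := stp_node b (arr t n (sh (sh Y)))
            rw [hj]
            exact stp_node_node hex j
    obtain ⟨Y, hY, hle'⟩ := hQ (val t) (lc_val t) B hB
    have := main (max (stage t Y) (stage t (sh Y))) Y hY
    rw [arr_of_le t Y _ (le_max_left _ _), arr_of_le t (sh Y) _ (le_max_right _ _)] at this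
    exact this (R_atom hle')

/-- A finite word of codes embeds in the segment `[x, y)` of `G`. -/
def EmbL (G : Ordinal.{0} → Q) : List (Code Q) → Ordinal.{0} → Ordinal.{0} → Prop
  | [], x, y => x ≤ y
  | t :: l, x, y => ∃ z, EmbIn G t x z ∧ EmbL G l z y

lemma EmbL.le {G : Ordinal.{0} → Q} : ∀ {l : List (Code Q)} {x y : Ordinal.{0}},
    EmbL G l x y → x ≤ y
  | [], _, _, h => h
  | _ :: _, _, _, ⟨_, h1, h2⟩ => h1.lt.le.trans h2.le

lemma EmbL.mono {G : Ordinal.{0} → Q} : ∀ {l : List (Code Q)} {x y x' y' : Ordinal.{0}},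
    EmbL G l x y → x' ≤ x → y ≤ y' → EmbL G l x' y'
  | [], _, _, _, _, h, hx, hy => hx.trans (h.trans hy)
  | _ :: _, _, _, _, _, ⟨z, h1, h2⟩, hx, hy => ⟨z, h1.mono hx le_rfl, h2.mono le_rfl hy⟩

lemma EmbL.append {G : Ordinal.{0} → Q} : ∀ {l l' : List (Code Q)} {x y z : Ordinal.{0}},
    EmbL G l x y → EmbL G l' y z → EmbL G (l ++ l') x z
  | [], _, _, _, _, h, h' => h'.mono h le_rfl
  | _ :: _, _, _, _, _, ⟨w, h1, h2⟩, h' => ⟨w, h1, h2.append h'⟩

lemma EmbL.split {G : Ordinal.{0} → Q} : ∀ {l l' : List (Code Q)} {x z : Ordinal.{0}},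
    EmbL G (l ++ l') x z → ∃ y, EmbL G l x y ∧ EmbL G l' y z
  | [], _, x, _, h => ⟨x, (le_rfl : x ≤ x), h⟩
  | _ :: _, _, _, _, ⟨w, h1, h2⟩ => by
    obtain ⟨y, h3, h4⟩ := h2.split
    exact ⟨y, ⟨w, h1, h3⟩, h4⟩

lemma EmbL.of_mem {G : Ordinal.{0} → Q} {t : Code Q} : ∀ {l : List (Code Q)}
    {x y : Ordinal.{0}}, t ∈ l → EmbL G l x y → EmbIn G t x y
  | [], _, _, h, _ => by cases h
  | u :: l, x, y, h, ⟨w, h1, h2⟩ => by
    rcases List.mem_cons.mp h with rfl | h
    · exact h1.mono le_rfl h2.le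
    · exact (EmbL.of_mem h h2).mono h1.lt.le le_rfl

lemma EmbL_of_sublist {G : Ordinal.{0} → Q} {l l' : List (Code Q)}
    (h : List.SublistForall₂ R l l') : ∀ {x y : Ordinal.{0}}, EmbL G l' x y → EmbL G l x y := by
  induction h with
  | nil => exact fun h => h.le
  | cons h1 _ ih =>
    rintro x y ⟨z, h3, h4⟩
    exact ⟨z, h1 G _ _ h3, ih h4⟩
  | cons_right _ ih =>
    rintro x y ⟨z, h3, h4⟩
    exact (ih h4).mono h3.lt.le le_rfl

/-- The segment `[x, y)` of `F` embeds in the segment `[x', y')` of `G`. -/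
def SegEmb (F : Ordinal.{0} → Q) (x y : Ordinal.{0}) (G : Ordinal.{0} → Q)
    (x' y' : Ordinal.{0}) : Prop :=
  ∃ h : Ordinal.{0} → Ordinal.{0}, StrictMonoOn h (Set.Ico x y) ∧
    Set.MapsTo h (Set.Ico x y) (Set.Ico x' y') ∧ ∀ u ∈ Set.Ico x y, F u ≤ G (h u)

/-- Gluing countably many segment embeddings. -/
lemma SegEmb.glue {F G : Ordinal.{0} → Q} {c d : ℕ → Ordinal.{0}} {y x' y' : Ordinal.{0}}
    (hy : ∀ u, c 0 ≤ u → u < y → ∃ i, u < c (i + 1))
    (hd : Monotone d) (hx' : x' ≤ d 0) (hy' : ∀ i, d i ≤ y')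
    (hs : ∀ i, SegEmb F (c i) (c (i + 1)) G (d i) (d (i + 1))) :
    SegEmb F (c 0) y G x' y' := by
  classical
  choose h h1 h2 h3 using hs
  let idx : Ordinal.{0} → ℕ := fun u => if H : ∃ i, u < c (i + 1) then Nat.find H else 0
  have hidx : ∀ u ∈ Set.Ico (c 0) y, u ∈ Set.Ico (c (idx u)) (c (idx u + 1)) := by
    intro u hu
    have H := hy u hu.1 hu.2
    have e : idx u = Nat.find H := dif_pos H
    rw [e]
    refine ⟨?_, Nat.find_spec H⟩
    by_contra hlt
    push Not at hlt
    rcases hn : Nat.find H with _ | n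
    · rw [hn] at hlt
      exact absurd hu.1 (not_le.mpr hlt)
    · rw [hn] at hlt
      have := Nat.find_min H (m := n) (by omega)
      exact this hlt
  have hmono : ∀ u ∈ Set.Ico (c 0) y, ∀ v ∈ Set.Ico (c 0) y, u ≤ v → idx u ≤ idx v := by
    intro u hu v hv huv
    have H := hy u hu.1 hu.2
    have e : idx u = Nat.find H := dif_pos H
    rw [e]
    exact Nat.find_min' _ (huv.trans_lt (hidx v hv).2)
  refine ⟨fun u => h (idx u) u, ?_, ?_, ?_⟩
  · intro u hu v hv huv
    rcases (hmono u hu v hv huv.le).lt_or_eq with hlt | heq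
    · have a1 := (h2 _ (hidx u hu)).2
      have a2 := (h2 _ (hidx v hv)).1
      have a3 : d (idx u + 1) ≤ d (idx v) := hd hlt
      exact (a1.trans_le a3).trans_le a2
    · have hv' := hidx v hv
      have hu' := hidx u hu
      show h (idx u) u < h (idx v) v
      rw [heq] at hu' ⊢
      exact h1 _ hu' hv' huv
  · intro u hu
    have a := h2 _ (hidx u hu)
    exact ⟨hx'.trans ((hd (Nat.zero_le _)).trans a.1), a.2.trans_le (hy' _)⟩
  · intro u hu
    exact h3 _ u (hidx u hu)

lemma SegEmb.empty {F G : Ordinal.{0} → Q} {x y x' y' : Ordinal.{0}} (h : y ≤ x) :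
    SegEmb F x y G x' y' := by
  refine ⟨id, ?_, ?_, ?_⟩
  · intro u hu; exact absurd (hu.1.trans_lt hu.2) (not_lt.mpr h)
  · intro u hu; exact absurd (hu.1.trans_lt hu.2) (not_lt.mpr h)
  · intro u hu; exact absurd (hu.1.trans_lt hu.2) (not_lt.mpr h)

/-- Gluing two segment embeddings. -/
lemma SegEmb.glue2 {F G : Ordinal.{0} → Q} {x y z x' y' z' : Ordinal.{0}}
    (h1 : SegEmb F x y G x' y') (h2 : SegEmb F y z G y' z')
    (hx' : x' ≤ y') (hz' : y' ≤ z') : SegEmb F x z G x' z' := by
  have := SegEmb.glue (F := F) (G := G)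
    (c := fun n => Nat.casesOn n x (fun n => Nat.casesOn n y (fun _ => z)))
    (d := fun n => Nat.casesOn n x' (fun n => Nat.casesOn n y' (fun _ => z')))
    (y := z) (x' := x') (y' := z') ?_ ?_ le_rfl ?_ ?_
  · exact this
  · intro u _ hu
    exact ⟨1, hu⟩
  · refine monotone_nat_of_le_succ fun n => ?_
    rcases n with _ | _ | n
    · exact hx'
    · exact hz'
    · exact le_rfl
  · rintro (_ | _ | n)
    · exact hx'.trans hz'
    · exact hz'
    · exact le_rfl
  · rintro (_ | _ | n)
    · exact h1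
    · exact h2
    · exact SegEmb.empty le_rfl

/-- The word `l` represents the segment `[x, y)` of `F`. -/
def Rep (F : Ordinal.{0} → Q) (x y : Ordinal.{0}) (l : List (Code Q)) : Prop :=
  EmbL F l x y ∧ ∀ (G : Ordinal.{0} → Q) (x' y' : Ordinal.{0}), EmbL G l x' y' →
    SegEmb F x y G x' y'

lemma Rep.append {F : Ordinal.{0} → Q} {x y z : Ordinal.{0}} {l l' : List (Code Q)}
    (h : Rep F x y l) (h' : Rep F y z l') : Rep F x z (l ++ l') := by
  refine ⟨h.1.append h'.1, fun G x' z' hG => ?_⟩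
  obtain ⟨y', h1, h2⟩ := hG.split
  exact (h.2 G _ _ h1).glue2 (h'.2 G _ _ h2) h1.le h2.le

lemma Rep.single {F : Ordinal.{0} → Q} {x y : Ordinal.{0}} {t : Code Q}
    (h1 : EmbIn F t x y) (h2 : ∀ (G : Ordinal.{0} → Q) (x' y' : Ordinal.{0}), EmbIn G t x' y' →
      SegEmb F x y G x' y') : Rep F x y [t] := by
  refine ⟨⟨y, h1, le_rfl⟩, fun G x' y' hG => ?_⟩
  exact h2 G x' y' (EmbL.of_mem (List.mem_singleton.mpr rfl) hG)

lemma exists_cofinal {x y : Ordinal.{0}} (hc : Countable (Set.Iio y)) (hxy : x < y)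
    (hlim : ∀ z < y, z + 1 < y) :
    ∃ c : ℕ → Ordinal.{0}, c 0 = x ∧ StrictMono c ∧ (∀ i, c i < y) ∧
      ∀ u < y, ∃ i, u < c (i + 1) := by
  have hne : Nonempty (Set.Iio y) := ⟨⟨x, hxy⟩⟩
  obtain ⟨e, he⟩ := exists_surjective_nat (Set.Iio y)
  let c' : ℕ → Set.Iio y := fun n => Nat.rec ⟨x, hxy⟩
    (fun i ci => ⟨max (ci.1 + 1) ((e i).1 + 1), max_lt (hlim _ ci.2) (hlim _ (e i).2)⟩) n
  refine ⟨fun n => (c' n).1, rfl, ?_, fun i => (c' i).2, ?_⟩
  · refine strictMono_nat_of_lt_succ fun i => ?_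
    have : (c' (i + 1)).1 = max ((c' i).1 + 1) ((e i).1 + 1) := rfl
    rw [this]
    exact (lt_add_one _).trans_le (le_max_left _ _)
  · intro u hu
    obtain ⟨i, hi⟩ := he ⟨u, hu⟩
    refine ⟨i, ?_⟩
    have : (c' (i + 1)).1 = max ((c' i).1 + 1) ((e i).1 + 1) := rfl
    show u < (c' (i + 1)).1
    rw [this, hi]
    exact (lt_add_one _).trans_le (le_max_right _ _)

/-- Every countable segment is represented by a finite word of codes. -/
theorem exists_rep (hR : WellQuasiOrdered (R : Code Q → Code Q → Prop)) (F : Ordinal.{0} → Q) :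
    ∀ y : Ordinal.{0}, Countable (Set.Iio y) → ∀ x ≤ y, ∃ l, Rep F x y l := by
  classical
  intro y
  induction y using WellFoundedLT.induction with
  | ind y IH =>
  intro hcount x hxy
  have IH' : ∀ z < y, ∀ x ≤ z, ∃ l, Rep F x z l := by
    intro z hz
    refine IH z hz ?_
    exact Set.Countable.to_subtype ((Set.countable_coe_iff.mp hcount).mono
      (Set.Iio_subset_Iio hz.le))
  rcases hxy.eq_or_lt with rfl | hxy
  · exact ⟨[], (le_rfl : x ≤ x), fun _ _ _ _ => SegEmb.empty le_rfl⟩
  by_cases hlim : ∀ z < y, z + 1 < y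
  · -- limit case
    have hA : ∃ y₀, x ≤ y₀ ∧ y₀ < y ∧ ∀ z z' t, y₀ ≤ z → z' < y → EmbIn F t z z' →
        ∀ w < y, ∃ w' < y, EmbIn F t w w' := by
      by_contra hcon
      push Not at hcon
      have : Nonempty (Code Q) := ⟨Code.atom (F x)⟩
      choose! z z' t hz hz' ht w hw hwt using hcon
      let s : ℕ → Set.Ico x y := fun n => Nat.rec ⟨x, le_rfl, hxy⟩
        (fun _ p => ⟨max p.1 (w p.1), p.2.1.trans (le_max_left _ _),
          max_lt p.2.2 (hw p.1 p.2.1 p.2.2)⟩) n
      have hs : ∀ k, (s (k + 1)).1 = max (s k).1 (w (s k).1) := fun k => rfl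
      have hsm : Monotone fun k => (s k).1 := by
        refine monotone_nat_of_le_succ fun k => ?_
        rw [hs]; exact le_max_left _ _
      obtain ⟨k, l, hkl, hr⟩ := hR fun k => t (s k).1
      have h1 : w (s k).1 ≤ (s l).1 := by
        have : (s (k + 1)).1 ≤ (s l).1 := hsm hkl
        rw [hs] at this
        exact (le_max_right _ _).trans this
      have h2 := hr F _ _ (ht (s l).1 (s l).2.1 (s l).2.2)
      have h3 := h2.mono (h1.trans (hz (s l).1 (s l).2.1 (s l).2.2)) le_rfl
      exact hwt (s k).1 (s k).2.1 (s k).2.2 _ (hz' (s l).1 (s l).2.1 (s l).2.2) h3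
    obtain ⟨y₀, hxy₀, hy₀, hA⟩ := hA
    obtain ⟨c, hc0, hcm, hcy, hcc⟩ := exists_cofinal hcount hy₀ hlim
    have hl : ∀ i, ∃ l, Rep F (c i) (c (i + 1)) l := fun i =>
      IH' _ (hcy _) _ (hcm (Nat.lt_succ_self i)).le
    choose l hl using hl
    let S : Set (Code Q) := {Code.atom (F (c 0))} ∪ ⋃ i, {t | t ∈ l i}
    have hScount : S.Countable := by
      refine (Set.countable_singleton _).union (Set.countable_iUnion fun i => ?_)
      exact (List.finite_toSet (l i)).countable
    obtain ⟨a, ha⟩ := hScount.exists_eq_range ⟨_, Or.inl rfl⟩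
    have hSrec : ∀ t ∈ S, ∀ w < y, ∃ w' < y, EmbIn F t w w' := by
      rintro t (rfl | ht)
      · refine hA (c 0) (c 1) _ hc0.ge (hcy 1) ?_
        exact ⟨c 0, le_rfl, hcm Nat.zero_lt_one, le_rfl⟩
      · obtain ⟨i, hi⟩ := Set.mem_iUnion.mp ht
        refine hA (c i) (c (i + 1)) _ ?_ (hcy _) (EmbL.of_mem hi (hl i).1)
        rw [← hc0]
        exact hcm.monotone (Nat.zero_le _)
    have harec : ∀ i, ∀ w < y, ∃ w' < y, EmbIn F (a i) w w' := fun i =>
      hSrec _ (ha ▸ Set.mem_range_self i)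
    have hrep : Rep F (c 0) y [Code.node a] := by
      apply Rep.single
      · choose nx hnx hnx' using harec
        let d : ℕ → Set.Iio y := fun n => Nat.rec ⟨c 0, hcy 0⟩
          (fun i p => ⟨nx (ev i) p.1 p.2, hnx (ev i) p.1 p.2⟩) n
        have hd : ∀ i, EmbIn F (a (ev i)) (d i).1 (d (i + 1)).1 := fun i =>
          hnx' (ev i) (d i).1 (d i).2
        exact ⟨fun i => (d i).1, monotone_nat_of_le_succ fun i => (hd i).lt.le, le_rfl,
          fun i => (d i).2.le, hd⟩
      · rintro G x' y' ⟨d, hdm, hd0, hdy, hd⟩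
        have hlist : ∀ l : List (Code Q), (∀ t ∈ l, t ∈ Set.range a) → ∀ m, ∃ m', m ≤ m' ∧
            EmbL G l (d m) (d m') := by
          intro l
          induction l with
          | nil => exact fun _ m => ⟨m, le_rfl, (le_rfl : d m ≤ d m)⟩
          | cons t l ih =>
            intro hmem m
            obtain ⟨j, hj⟩ := hmem t (List.mem_cons_self)
            obtain ⟨m', hm', hE⟩ := ih (fun t ht => hmem t (List.mem_cons_of_mem _ ht))
              (Nat.pair j m + 1)
            have h1 := hd (Nat.pair j m)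
            rw [ev_pair, hj] at h1
            refine ⟨m', ?_, _, h1.mono (hdm (Nat.right_le_pair j m)) le_rfl, hE⟩
            have := Nat.right_le_pair j m
            omega
        have hmem : ∀ i, ∀ t ∈ l i, t ∈ Set.range a := by
          intro i t ht
          rw [← ha]
          exact Or.inr (Set.mem_iUnion.mpr ⟨i, ht⟩)
        have hl' : ∀ i m, ∃ m', m ≤ m' ∧ EmbL G (l i) (d m) (d m') := fun i => hlist _ (hmem i)
        choose nm hnm hnm' using hl'
        let m : ℕ → ℕ := fun n => Nat.rec 0 (fun i mi => nm i mi) n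
        have hm : ∀ i, m (i + 1) = nm i (m i) := fun i => rfl
        refine SegEmb.glue (c := c) (d := fun i => d (m i)) (fun u _ hu => hcc u hu) ?_ ?_
          (fun i => hdy _) ?_
        · refine monotone_nat_of_le_succ fun i => hdm ?_
          rw [hm]; exact hnm _ _
        · exact hd0
        · intro i
          have := (hl i).2 G _ _ (hnm' i (m i))
          rw [← hm] at this
          exact this
    obtain ⟨l₀, hl₀⟩ := IH' y₀ hy₀ x hxy₀
    rw [← hc0] at hl₀
    exact ⟨_, hl₀.append hrep⟩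
  · -- successor case
    push Not at hlim
    obtain ⟨z, hz, hzy⟩ := hlim
    have hyz : y = z + 1 := le_antisymm hzy (Order.add_one_le_of_lt hz)
    subst hyz
    obtain ⟨l, hl⟩ := IH' z hz x (Order.lt_add_one_iff.mp hxy)
    refine ⟨_, hl.append (Rep.single (t := Code.atom (F z)) ⟨z, le_rfl, hz, le_rfl⟩ ?_)⟩
    rintro G x' y' ⟨w, h1, h2, h3⟩
    refine ⟨fun _ => w, ?_, fun _ _ => ⟨h1, h2⟩, ?_⟩
    · intro u hu v hv huv
      exfalso
      have hu' : u = z := le_antisymm (Order.lt_add_one_iff.mp hu.2) hu.1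
      have hv' : v = z := le_antisymm (Order.lt_add_one_iff.mp hv.2) hv.1
      rw [hu', hv'] at huv
      exact lt_irrefl _ huv
    · intro u hu
      have hu' : u = z := le_antisymm (Order.lt_add_one_iff.mp hu.2) hu.1
      rw [hu']
      exact h3

/-- **Nash-Williams.** The countable transfinite sequences over a better-quasi-order are
well-quasi-ordered. -/
theorem wqo_seq (hQ : ABQO Q) (o : ℕ → Ordinal.{0}) (f : ∀ n, Set.Iio (o n) → Q)
    (ho : ∀ n, Countable (Set.Iio (o n))) :
    ∃ m n, m < n ∧ ∃ h : Set.Iio (o m) → Set.Iio (o n),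
      StrictMono h ∧ ∀ x, f m x ≤ f n (h x) := by
  classical
  by_cases h0 : ∃ m, o m = 0
  · obtain ⟨m, hm⟩ := h0
    have hemp : ∀ x : Set.Iio (o m), False := by
      rintro ⟨x, hx⟩
      rw [hm] at hx
      exact not_lt_bot (α := Ordinal.{0}) hx
    exact ⟨m, m + 1, Nat.lt_succ_self m, fun x => (hemp x).elim, fun x => (hemp x).elim,
      fun x => (hemp x).elim⟩
  · push Not at h0
    have hpos : ∀ n, 0 < o n := fun n => pos_iff_ne_zero.mpr (h0 n)
    let q₀ : Q := f 0 ⟨0, hpos 0⟩
    let G : ℕ → Ordinal.{0} → Q := fun n u => if h : u < o n then f n ⟨u, h⟩ else q₀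
    have hrep : ∀ n, ∃ l, Rep (G n) 0 (o n) l := fun n =>
      exists_rep (wqo_R hQ) (G n) (o n) (ho n) 0 (hpos n).le
    choose l hl using hrep
    have hig := Set.PartiallyWellOrderedOn.partiallyWellOrderedOn_sublistForall₂
      (R : Code Q → Code Q → Prop)
      (Set.partiallyWellOrderedOn_of_wellQuasiOrdered (wqo_R hQ) Set.univ)
    obtain ⟨m, n, hmn, hr⟩ := hig.exists_lt (f := l) (fun n x _ => Set.mem_univ x)
    refine ⟨m, n, hmn, ?_⟩
    obtain ⟨h, h1, h2, h3⟩ := (hl m).2 (G n) 0 (o n) (EmbL_of_sublist hr (hl n).1)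
    refine ⟨fun x => ⟨h x.1, (h2 (x := x.1) ⟨zero_le, x.2⟩).2⟩, ?_, ?_⟩
    · intro x y hxy
      exact h1 ⟨zero_le, x.2⟩ ⟨zero_le, y.2⟩ hxy
    · intro x
      have h4 := h3 x.1 ⟨zero_le, x.2⟩
      have e1 : G m x.1 = f m x := dif_pos x.2
      have e2 : G n (h x.1) = f n ⟨h x.1, (h2 (x := x.1) ⟨zero_le, x.2⟩).2⟩ :=
        dif_pos (h2 (x := x.1) ⟨zero_le, x.2⟩).2
      rw [e1, e2] at h4
      exact h4

end H61.BQO
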