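import Mathlib

set_option autoImplicit false

/-!
# Finitary closure operators with countable values
-/

namespace H61.Clo

universe u

open Cardinal

variable {V : Type u}

/-- The closure of `S` under `op`. -/
inductive Cl (op : Finset V → Set V) (S : Set V) : V → Prop
  | base (x : V) (h : x ∈ S) : Cl op S x
  | step (F : Finset V) (x : V) (hF : ∀ y ∈ F, Cl op S y) (hx : x ∈ op F) : Cl op S x

/-- The closure as a set. -/
def cl (op : Finset V → Set V) (S : Set V) : Set V := {x | Cl op S x}

/-- Closed sets. -/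
def Closed (op : Finset V → Set V) (N : Set V) : Prop := ∀ F : Finset V, (↑F : Set V) ⊆ N → op F ⊆ N

variable {op : Finset V → Set V}

lemma closed_cl (S : Set V) : Closed op (cl op S) := fun F hF x hx => Cl.step F x hF hx

lemma subset_cl (S : Set V) : S ⊆ cl op S := fun x hx => Cl.base x hx

lemma cl_subset {S N : Set V} (hN : Closed op N) (hS : S ⊆ N) : cl op S ⊆ N := by
  intro x hx
  induction hx with
  | base x h => exact hS h
  | step F x _ hx ih => exact hN F (fun y hy => ih y hy) hx

lemma cl_mono {S T : Set V} (h : S ⊆ T) : cl op S ⊆ cl op T :=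
  cl_subset (closed_cl T) (h.trans (subset_cl T))

lemma exists_finset_of_mem_cl {S : Set V} {x : V} (hx : x ∈ cl op S) :
    ∃ F : Finset V, (↑F : Set V) ⊆ S ∧ x ∈ cl op (↑F : Set V) := by
  classical
  induction hx with
  | base x h => exact ⟨{x}, by simpa using h, Cl.base x (by simp)⟩
  | step F x _ hx ih =>
    choose! G hG hG' using ih
    refine ⟨F.biUnion G, ?_, Cl.step F x (fun y hy => ?_) hx⟩
    · intro z hz
      obtain ⟨y, hy, hz⟩ := Finset.mem_biUnion.mp (Finset.mem_coe.mp hz)
      exact hG y hy hz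
    · refine cl_mono ?_ (hG' y hy)
      intro z hz
      exact Finset.mem_coe.mpr (Finset.mem_biUnion.mpr ⟨y, hy, hz⟩)

/-- One step of closing off. -/
def stepSet (op : Finset V → Set V) (S : Set V) : Set V :=
  S ∪ ⋃ F : Finset S, op (F.map (Function.Embedding.subtype _))

lemma mk_stepSet_le (hop : ∀ F, (op F).Countable) (S : Set V) :
    #(stepSet op S) ≤ max #S ℵ₀ := by
  classical
  have h1 : #(Finset S) ≤ max #S ℵ₀ := by
    rcases finite_or_infinite S with h | h
    · exact (Cardinal.mk_le_aleph0).trans (le_max_right _ _)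
    · rw [Cardinal.mk_finset_of_infinite]; exact le_max_left _ _
  have h2 : #(⋃ F : Finset S, op (F.map (Function.Embedding.subtype _))) ≤ max #S ℵ₀ := by
    refine (Cardinal.mk_iUnion_le _).trans ?_
    refine (mul_le_mul' h1 (ciSup_le' fun F => (Cardinal.le_aleph0_iff_set_countable.mpr
      (hop _)))).trans ?_
    refine (Cardinal.mul_le_max _ _).trans ?_
    simp
  refine (Cardinal.mk_union_le _ _).trans ?_
  refine (add_le_add (le_max_left #S ℵ₀) h2).trans ?_
  rw [Cardinal.add_eq_self (le_max_right _ _)]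

lemma cl_eq_iUnion (S : Set V) : cl op S = ⋃ n : ℕ, (stepSet op)^[n] S := by
  classical
  have hmono : Monotone fun n : ℕ => (stepSet op)^[n] S := by
    refine monotone_nat_of_le_succ fun n => ?_
    rw [Function.iterate_succ_apply']
    exact Set.subset_union_left
  apply Set.Subset.antisymm
  · apply cl_subset
    · intro F hF x hx
      have hex : ∃ n, (↑F : Set V) ⊆ (stepSet op)^[n] S := by
        have : ∀ y ∈ F, ∃ n, y ∈ (stepSet op)^[n] S := fun y hy =>
          Set.mem_iUnion.mp (hF (Finset.mem_coe.mpr hy))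
        choose! n hn using this
        refine ⟨F.sup n, fun y hy => ?_⟩
        exact hmono (Finset.le_sup (Finset.mem_coe.mp hy)) (hn y (Finset.mem_coe.mp hy))
      obtain ⟨n, hn⟩ := hex
      refine Set.mem_iUnion.mpr ⟨n + 1, ?_⟩
      rw [Function.iterate_succ_apply']
      refine Or.inr (Set.mem_iUnion.mpr ⟨F.subtype (· ∈ (stepSet op)^[n] S), ?_⟩)
      rw [Finset.subtype_map_of_mem]
      · exact hx
      · intro y hy
        exact hn (Finset.mem_coe.mpr hy)
    · exact Set.subset_iUnion (fun n : ℕ => (stepSet op)^[n] S) 0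
  · apply Set.iUnion_subset
    intro n
    induction n with
    | zero => exact subset_cl S
    | succ n ih =>
      rw [Function.iterate_succ_apply']
      apply Set.union_subset ih
      apply Set.iUnion_subset
      intro F
      apply closed_cl S
      intro y hy
      obtain ⟨z, -, rfl⟩ := Finset.mem_map.mp (Finset.mem_coe.mp hy)
      exact ih z.2

theorem mk_cl_le (hop : ∀ F, (op F).Countable) (S : Set V) : #(cl op S) ≤ max #S ℵ₀ := by
  have h : ∀ n : ℕ, #((stepSet op)^[n] S : Set V) ≤ max #S ℵ₀ := by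
    intro n
    induction n with
    | zero => exact le_max_left _ _
    | succ n ih =>
      rw [Function.iterate_succ_apply']
      refine (mk_stepSet_le hop _).trans ?_
      exact max_le ih (le_max_right _ _)
  have e : (⋃ n : ULift.{u} ℕ, (stepSet op)^[n.down] S) = cl op S := by
    rw [cl_eq_iUnion]
    ext x
    simp only [Set.mem_iUnion]
    exact ⟨fun ⟨n, hn⟩ => ⟨n.down, hn⟩, fun ⟨n, hn⟩ => ⟨⟨n⟩, hn⟩⟩
  have h3 := Cardinal.mk_iUnion_le (fun n : ULift.{u} ℕ => (stepSet op)^[n.down] S)
  rw [e] at h3
  have h4 : #(ULift.{u} ℕ) ≤ max #S ℵ₀ := by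
    rw [Cardinal.mk_uLift]
    simp
  have h5 : (⨆ n : ULift.{u} ℕ, #((stepSet op)^[n.down] S : Set V)) ≤ max #S ℵ₀ :=
    ciSup_le' fun n => h n.down
  refine h3.trans ((mul_le_mul' h4 h5).trans ?_)
  rw [Cardinal.mul_eq_self (le_max_right _ _)]

/-- Well-founded recursion packaged as an existence statement. -/
theorem exists_rec {I β : Type*} [Preorder I] [WellFoundedLT I] (rk : V → I) (nx : V → V)
    (base : V → Prop) (hnx : ∀ x, ¬ base x → rk (nx x) < rk x) (b : V → β) (s : V → β → β) :
    ∃ f : V → β, (∀ x, base x → f x = b x) ∧ ∀ x, ¬ base x → f x = s x (f (nx x)) := by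
  classical
  have wf : WellFounded (fun x y : V => rk x < rk y) := InvImage.wf rk wellFounded_lt
  let F : ∀ x : V, (∀ y : V, rk y < rk x → β) → β := fun x rec =>
    if h : base x then b x else s x (rec (nx x) (hnx x h))
  refine ⟨wf.fix F, fun x hx => ?_, fun x hx => ?_⟩
  · rw [WellFounded.fix_eq]
    exact dif_pos hx
  · rw [WellFounded.fix_eq]
    exact dif_neg hx

end H61.Clo
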