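import Pool.Agent.helper61.OmlaDefs

set_option autoImplicit false
set_option linter.unusedSectionVars false
set_option linter.unusedVariables false

/-!
# Behaviours of two-way nondeterministic devices on tape segments
-/

namespace H61.Omla

open Relation

/-- The displacement of a direction. -/
def Dir.toInt : Dir → ℤ
  | .left => -1
  | .right => 1

section

variable {Q S : Type} (μ : Q → S → Q → Dir → Prop)

/-- A step starting in the window `[lo, hi)` on the tape `T`. -/
def WStep (T : ℤ → Option S) (lo hi : ℤ) (c c' : Q × ℤ) : Prop :=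
  lo ≤ c.2 ∧ c.2 < hi ∧ ∃ s d, T c.2 = some s ∧ μ c.1 s c'.1 d ∧ c'.2 = c.2 + d.toInt

/-- Entry position for the window `[lo, hi)`: `false` is the left side, `true` the right side. -/
def ent (lo hi : ℤ) : Bool → ℤ
  | false => lo
  | true => hi - 1

/-- Exit position for the window `[lo, hi)`. -/
def ext (lo hi : ℤ) : Bool → ℤ
  | false => lo - 1
  | true => hi

/-- The behaviour on the window `[lo, hi)`. -/
def WBeh (T : ℤ → Option S) (lo hi : ℤ) (x y : Bool × Q) : Prop :=
  ReflTransGen (WStep μ T lo hi) (x.2, ent lo hi x.1) (y.2, ext lo hi y.1)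

lemma WStep.mono {T : ℤ → Option S} {lo hi lo' hi' : ℤ} (h1 : lo' ≤ lo) (h2 : hi ≤ hi')
    {c c' : Q × ℤ} (h : WStep μ T lo hi c c') : WStep μ T lo' hi' c c' := by
  obtain ⟨h3, h4, h5⟩ := h
  exact ⟨by omega, by omega, h5⟩

lemma wrun_mono {T : ℤ → Option S} {lo hi lo' hi' : ℤ} (h1 : lo' ≤ lo) (h2 : hi ≤ hi')
    {c c' : Q × ℤ} (h : ReflTransGen (WStep μ T lo hi) c c') :
    ReflTransGen (WStep μ T lo' hi') c c' :=
  ReflTransGen.mono (fun _ _ h => WStep.mono μ h1 h2 h) _ _ h

/-- Shift invariance. -/
lemma wrun_shift {T T' : ℤ → Option S} {lo hi k : ℤ}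
    (hT : ∀ z, lo ≤ z → z < hi → T' (z + k) = T z) {c c' : Q × ℤ}
    (h : ReflTransGen (WStep μ T lo hi) c c') :
    ReflTransGen (WStep μ T' (lo + k) (hi + k)) (c.1, c.2 + k) (c'.1, c'.2 + k) := by
  refine ReflTransGen.lift (fun c : Q × ℤ => ((c.1, c.2 + k) : Q × ℤ)) ?_ _ _ h
  rintro ⟨q, z⟩ ⟨q', z'⟩ ⟨h1, h2, s, d, h3, h4, h5⟩
  simp only at h1 h2 h3 h4 h5
  refine ⟨by simp only; omega, by simp only; omega, s, d, ?_, h4, ?_⟩
  · simp only; rw [hT z h1 h2, h3]
  · simp only; omega

lemma wbeh_shift {T T' : ℤ → Option S} {lo hi k : ℤ}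
    (hT : ∀ z, lo ≤ z → z < hi → T' (z + k) = T z) (x y : Bool × Q) :
    WBeh μ T' (lo + k) (hi + k) x y ↔ WBeh μ T lo hi x y := by
  constructor
  · intro h
    have h2 := wrun_shift μ (T := T') (T' := T) (lo := lo + k) (hi := hi + k) (k := -k)
      (by
        intro z h1 h2
        have := hT (z + -k) (by omega) (by omega)
        rw [← this]
        congr 1
        omega) h
    unfold WBeh
    have e1 : lo + k + -k = lo := by omega
    have e2 : hi + k + -k = hi := by omega
    rw [e1, e2] at h2
    have e3 : ∀ b, ent (lo + k) (hi + k) b + -k = ent lo hi b := by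
      intro b; cases b <;> simp only [ent] <;> omega
    have e4 : ∀ b, ext (lo + k) (hi + k) b + -k = ext lo hi b := by
      intro b; cases b <;> simp only [ext] <;> omega
    simp only [e3, e4] at h2
    exact h2
  · intro h
    have h2 := wrun_shift μ hT h
    unfold WBeh
    have e3 : ∀ b, ent lo hi b + k = ent (lo + k) (hi + k) b := by
      intro b; cases b <;> simp only [ent] <;> omega
    have e4 : ∀ b, ext lo hi b + k = ext (lo + k) (hi + k) b := by
      intro b; cases b <;> simp only [ext] <;> omega
    simp only [e3, e4] at h2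
    exact h2

/-- A run in a window from an entry position to a position outside ends in an exit position. -/
lemma exit_lemma {T : ℤ → Option S} {a b : ℤ} (hab : a ≤ b) {x : Bool × Q} {c : Q × ℤ}
    (h : ReflTransGen (WStep μ T a b) (x.2, ent a b x.1) c) (hc : c.2 < a ∨ b ≤ c.2) :
    ∃ s : Bool, c.2 = ext a b s := by
  rcases ReflTransGen.cases_tail h with h | ⟨c0, _, h1, h2, s, d, h3, h4, h5⟩
  · rw [h] at hc ⊢
    obtain ⟨s, q⟩ := x
    cases s
    · refine ⟨true, ?_⟩
      simp only [ent, ext] at hc ⊢
      omega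
    · refine ⟨false, ?_⟩
      simp only [ent, ext] at hc ⊢
      omega
  · cases d
    · refine ⟨false, ?_⟩
      simp only [Dir.toInt] at h5
      simp only [ext]
      omega
    · refine ⟨true, ?_⟩
      simp only [Dir.toInt] at h5
      simp only [ext]
      omega

/-- Correspondence of positions outside the segment. -/
def Corr (a b a' b' : ℤ) (c c' : Q × ℤ) : Prop :=
  c'.1 = c.1 ∧ ((c.2 < a ∧ c'.2 = c.2 - a + a') ∨ (b ≤ c.2 ∧ c'.2 = c.2 - b + b'))

/-- Replacement of a segment by one with a larger behaviour. -/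
theorem replace {T T' : ℤ → Option S} {lo hi lo' hi' a b a' b' : ℤ} (hab : a ≤ b)
    (hab' : a' ≤ b') (hlo : lo ≤ a) (hhi : b ≤ hi) (hlo' : lo' = lo - a + a')
    (hhi' : hi' = hi - b + b') (hL : ∀ z, z < a → T' (z - a + a') = T z)
    (hR : ∀ z, b ≤ z → T' (z - b + b') = T z)
    (hB : ∀ x y : Bool × Q, WBeh μ T a b x y → WBeh μ T' a' b' x y)
    {c e e' : Q × ℤ} (h : ReflTransGen (WStep μ T lo hi) c e) (he : Corr a b a' b' e e') :
    (∀ c', Corr a b a' b' c c' → ReflTransGen (WStep μ T' lo' hi') c' e') ∧
    (∀ x : Bool × Q, ReflTransGen (WStep μ T a b) (x.2, ent a b x.1) c →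
      ReflTransGen (WStep μ T' lo' hi') (x.2, ent a' b' x.1) e') := by
  have hmono : ∀ {c c' : Q × ℤ}, ReflTransGen (WStep μ T' a' b') c c' →
      ReflTransGen (WStep μ T' lo' hi') c c' := fun h => wrun_mono μ (by omega) (by omega) h
  -- from (A) to (B) for configurations outside
  have hAB : ∀ c : Q × ℤ, (c.2 < a ∨ b ≤ c.2) →
      (∀ c', Corr a b a' b' c c' → ReflTransGen (WStep μ T' lo' hi') c' e') →
      (∀ x : Bool × Q, ReflTransGen (WStep μ T a b) (x.2, ent a b x.1) c →
      ReflTransGen (WStep μ T' lo' hi') (x.2, ent a' b' x.1) e') := by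
    intro c hc hA x hx
    obtain ⟨s, hs⟩ := exit_lemma μ hab hx hc
    have h1 : WBeh μ T a b x (s, c.1) := by
      unfold WBeh
      rw [← hs]
      exact hx
    have h2 := hmono (hB _ _ h1)
    refine h2.trans (hA _ ⟨rfl, ?_⟩)
    cases s
    · left
      simp only [ext] at hs ⊢
      omega
    · right
      simp only [ext] at hs ⊢
      omega
  induction h using ReflTransGen.head_induction_on with
  | refl =>
    have hA : ∀ c', Corr a b a' b' e c' → ReflTransGen (WStep μ T' lo' hi') c' e' := by
      intro c' hc'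
      have : c' = e' := by
        refine Prod.ext (hc'.1.trans he.1.symm) ?_
        rcases hc'.2 with h1 | h1 <;> rcases he.2 with h2 | h2 <;> omega
      rw [this]
    exact ⟨hA, hAB e (by rcases he.2 with h | h <;> omega) hA⟩
  | @head c c1 hstep hrest ih =>
    obtain ⟨ihA, ihB⟩ := ih
    obtain ⟨h1, h2, s, d, h3, h4, h5⟩ := hstep
    have hd : d.toInt = -1 ∨ d.toInt = 1 := by cases d <;> simp [Dir.toInt]
    have hA : ∀ c', Corr a b a' b' c c' → ReflTransGen (WStep μ T' lo' hi') c' e' := by
      rintro ⟨q, z⟩ ⟨hq, hz⟩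
      simp only at hq hz
      have hT' : T' z = some s := by
        rcases hz with ⟨h6, rfl⟩ | ⟨h6, rfl⟩
        · rw [hL _ h6, h3]
        · rw [hR _ h6, h3]
      have hst : WStep μ T' lo' hi' (q, z) (c1.1, z + d.toInt) := by
        refine ⟨?_, ?_, s, d, hT', by rw [hq]; exact h4, rfl⟩
        · simp only
          rcases hz with ⟨h6, rfl⟩ | ⟨h6, rfl⟩ <;> omega
        · simp only
          rcases hz with ⟨h6, rfl⟩ | ⟨h6, rfl⟩ <;> omega
      refine ReflTransGen.head hst ?_
      rcases hz with ⟨h6, h7⟩ | ⟨h6, h7⟩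
      · by_cases h8 : c1.2 < a
        · exact ihA _ ⟨rfl, Or.inl ⟨h8, by simp only; omega⟩⟩
        · have h9 : c1.2 = a := by omega
          have := ihB (false, c1.1) (by
            simp only [ent]
            rw [← h9])
          simp only [ent] at this
          rwa [show z + d.toInt = a' by omega]
      · by_cases h8 : b ≤ c1.2
        · exact ihA _ ⟨rfl, Or.inr ⟨h8, by simp only; omega⟩⟩
        · have h9 : c1.2 = b - 1 := by omega
          have := ihB (true, c1.1) (by
            simp only [ent]
            rw [← h9])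
          simp only [ent] at this
          rwa [show z + d.toInt = b' - 1 by omega]
    refine ⟨hA, ?_⟩
    by_cases hc : c.2 < a ∨ b ≤ c.2
    · exact hAB c hc hA
    · intro x hx
      exact ihB x (hx.tail ⟨by omega, by omega, s, d, h3, h4, h5⟩)

/-- Behaviours in contexts. -/
theorem wbeh_context {T T' : ℤ → Option S} {lo hi lo' hi' a b a' b' : ℤ} (hab : a ≤ b)
    (hab' : a' ≤ b') (hlo : lo ≤ a) (hhi : b ≤ hi) (hlo' : lo' = lo - a + a')
    (hhi' : hi' = hi - b + b') (hL : ∀ z, z < a → T' (z - a + a') = T z)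
    (hR : ∀ z, b ≤ z → T' (z - b + b') = T z)
    (hB : ∀ x y : Bool × Q, WBeh μ T a b x y → WBeh μ T' a' b' x y) (x y : Bool × Q)
    (h : WBeh μ T lo hi x y) : WBeh μ T' lo' hi' x y := by
  have he : Corr a b a' b' (y.2, ext lo hi y.1) ((y.2, ext lo' hi' y.1) : Q × ℤ) := by
    refine ⟨rfl, ?_⟩
    obtain ⟨s, q⟩ := y
    cases s
    · left; simp only [ext]; omega
    · right; simp only [ext]; omega
  have key := replace μ hab hab' hlo hhi hlo' hhi' hL hR hB h he
  unfold WBeh
  obtain ⟨s, q⟩ := x
  cases s
  · by_cases h1 : lo < a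
    · refine key.1 _ ⟨rfl, Or.inl ?_⟩
      simp only [ent]; omega
    · have h2 : lo = a := by omega
      have := key.2 (false, q) (by simp only [ent]; rw [h2])
      simp only [ent] at this ⊢
      have h3 : a' = lo' := by omega
      rwa [h3] at this
  · by_cases h1 : b < hi
    · refine key.1 _ ⟨rfl, Or.inr ?_⟩
      simp only [ent]; omega
    · have h2 : hi = b := by omega
      have := key.2 (true, q) (by simp only [ent]; rw [h2])
      simp only [ent] at this ⊢
      have h3 : b' = hi' := by omega
      rwa [h3] at this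

/-- The tape of a list. -/
def tp (l : List S) (z : ℤ) : Option S := if 0 ≤ z then l[z.toNat]? else none

/-- The behaviour of a list. -/
def beh (l : List S) : Bool × Q → Bool × Q → Prop := WBeh μ (tp l) 0 l.length

lemma tp_append_left {l l' : List S} {z : ℤ} (hz : z < l.length) : tp (l ++ l') z = tp l z := by
  unfold tp
  split_ifs with h
  · rw [List.getElem?_append_left (by omega)]
  · rfl

lemma tp_append_right {l l' : List S} {z : ℤ} (hz : 0 ≤ z) :
    tp (l ++ l') (z + l.length) = tp l' z := by
  unfold tp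
  rw [if_pos hz, if_pos (by omega), List.getElem?_append_right (by omega)]
  congr 1
  omega

lemma tp_nat (l : List S) (n : ℕ) : tp l n = l[n]? := by
  unfold tp
  rw [if_pos (by omega)]
  simp

/-- Behaviour of a factor. -/
lemma beh_factor (x u y : List S) (p r : Bool × Q) :
    WBeh μ (tp (x ++ u ++ y)) x.length (x.length + u.length) p r ↔ beh μ u p r := by
  have := wbeh_shift μ (T := tp u) (T' := tp (x ++ u ++ y)) (lo := 0) (hi := u.length)
    (k := x.length) (by
      intro z h1 h2
      rw [tp_append_left (by simp; omega), tp_append_right h1]) p r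
  unfold beh
  rw [← this]
  rw [zero_add, add_comm]

/-- Replacement in lists: outside tapes. -/
lemma tp_replace_left (x u u' y : List S) {z : ℤ} (hz : z < x.length) :
    tp (x ++ u' ++ y) (z - x.length + x.length) = tp (x ++ u ++ y) z := by
  rw [show z - (x.length : ℤ) + x.length = z by omega,
    List.append_assoc, List.append_assoc, tp_append_left hz, tp_append_left hz]

lemma tp_replace_right (x u u' y : List S) {z : ℤ} (hz : (x.length : ℤ) + u.length ≤ z) :
    tp (x ++ u' ++ y) (z - (x.length + u.length) + (x.length + u'.length))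
      = tp (x ++ u ++ y) z := by
  obtain ⟨k, rfl⟩ : ∃ k, z = k + (x ++ u).length := ⟨z - (x ++ u).length, by omega⟩
  have hk : 0 ≤ k := by simp at hz; omega
  rw [tp_append_right hk]
  rw [show k + ((x ++ u).length : ℤ) - (x.length + u.length) + (x.length + u'.length)
    = k + (x ++ u').length by simp]
  rw [tp_append_right hk]

lemma beh_context (x u u' y : List S) (hB : ∀ p r : Bool × Q, beh μ u p r → beh μ u' p r)
    (p r : Bool × Q) (h : beh μ (x ++ u ++ y) p r) : beh μ (x ++ u' ++ y) p r := by
  unfold beh at h ⊢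
  refine wbeh_context μ (T := tp (x ++ u ++ y)) (T' := tp (x ++ u' ++ y)) (lo := 0)
    (hi := (x ++ u ++ y).length) (lo' := 0)
    (hi' := (x ++ u' ++ y).length) (a := x.length) (b := x.length + u.length) (a' := x.length)
    (b' := x.length + u'.length) (by omega) (by omega) (by omega) (by simp)
    (by omega) (by simp; omega) (fun z hz => tp_replace_left x u u' y hz)
    (fun z hz => tp_replace_right x u u' y hz) ?_ p r h
  intro p r h
  rw [beh_factor] at h ⊢
  exact hB p r h

/-- Runs in a context starting outside the replaced factor or at its boundary. -/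
lemma run_context (x u u' y : List S) (hB : ∀ p r : Bool × Q, beh μ u p r → beh μ u' p r)
    {c e e' : Q × ℤ}
    (h : ReflTransGen (WStep μ (tp (x ++ u ++ y)) 0 (x ++ u ++ y).length) c e)
    (he : Corr x.length (x.length + u.length) x.length (x.length + u'.length) e e') :
    (∀ c', Corr x.length (x.length + u.length) x.length (x.length + u'.length) c c' →
      ReflTransGen (WStep μ (tp (x ++ u' ++ y)) 0 (x ++ u' ++ y).length) c' e') ∧
    (∀ q : Q, c = (q, (x.length : ℤ)) →
      ReflTransGen (WStep μ (tp (x ++ u' ++ y)) 0 (x ++ u' ++ y).length) (q, x.length) e') ∧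
    (∀ q : Q, c = (q, (x.length : ℤ) + u.length - 1) →
      ReflTransGen (WStep μ (tp (x ++ u' ++ y)) 0 (x ++ u' ++ y).length)
        (q, x.length + u'.length - 1) e') := by
  have key := replace μ (T := tp (x ++ u ++ y)) (T' := tp (x ++ u' ++ y)) (lo := 0)
    (hi := (x ++ u ++ y).length) (lo' := 0)
    (hi' := (x ++ u' ++ y).length) (a := x.length) (b := x.length + u.length) (a' := x.length)
    (b' := x.length + u'.length) (by omega) (by omega) (by omega) (by simp)
    (by omega) (by simp; omega) (fun z hz => tp_replace_left x u u' y hz)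
    (fun z hz => tp_replace_right x u u' y hz) (by
      intro p r h
      rw [beh_factor] at h ⊢
      exact hB p r h) h he
  refine ⟨key.1, ?_, ?_⟩
  · intro q hq
    exact key.2 (false, q) (by simp only [ent]; rw [hq])
  · intro q hq
    exact key.2 (true, q) (by simp only [ent]; rw [hq])

end

end H61.Omla
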