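import Mathlib

set_option autoImplicit false

/-!
# Once-marking 1-limited automata and two-way deterministic automata: definitions
-/

namespace H61.Omla

open Relation

/-- Directions of head moves. -/
inductive Dir
  | left
  | right

/-- A head move from cell `p` to cell `p'` (cells are numbered from `0`). -/
def Dir.Moves : Dir → ℕ → ℕ → Prop
  | .left, p, p' => p = p' + 1
  | .right, p, p' => p' = p + 1

/-- Tape symbols over the input alphabet `A`: the two endmarkers, the input symbols and their
marked copies. -/
inductive Sym (A : Type)
  | lend
  | rend
  | plain (a : A)
  | marked (a : A)

/-- The initial tape: the input word between the two endmarkers. -/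
def initTape {A : Type} (w : List A) : List (Sym A) := Sym.lend :: (w.map Sym.plain ++ [Sym.rend])

/-- A one-tape machine with working alphabet consisting of the input alphabet and its marked copy:
a finite state set, an initial state, final states, and a (nondeterministic) transition relation
which in a state reading a symbol gives new states, written symbols and directions. -/
structure Machine (A : Type) where
  State : Type
  [fin : Fintype State]
  start : State
  final : Set State
  trans : State → Sym A → Set (State × Sym A × Dir)

attribute [instance] Machine.fin

variable {A : Type}

/-- Configurations: state, head position, tape, and the number `seen` such that exactly the cells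
`0, ..., seen - 1` have been visited before. -/
structure Config (M : Machine A) where
  state : M.State
  head : ℕ
  tape : List (Sym A)
  seen : ℕ

/-- The initial configuration on input `w`. -/
def Machine.init (M : Machine A) (w : List A) : Config M := ⟨M.start, 0, initTape w, 0⟩

/-- One step of a 1-limited automaton over the alphabet `A` and its marked copy. The scanned symbol
`s` is replaced by `s'`; either `s' = s`, or this is the first visit to the scanned cell and `s'` is
the marked copy of the input symbol `s`. -/
def Machine.Step (M : Machine A) (c c' : Config M) : Prop :=
  ∃ (s s' : Sym A) (d : Dir), c.tape[c.head]? = some s ∧ (c'.state, s', d) ∈ M.trans c.state s ∧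
    (s' = s ∨ (c.seen ≤ c.head ∧ ∃ a, s = Sym.plain a ∧ s' = Sym.marked a)) ∧
    c'.tape = c.tape.set c.head s' ∧ c'.seen = max c.seen (c.head + 1) ∧ d.Moves c.head c'.head

/-- `w` is accepted if some computation leaves the right endmarker to the right in a final
state. -/
def Machine.Accepts (M : Machine A) (w : List A) : Prop :=
  ∃ c : Config M, ReflTransGen M.Step (M.init w) c ∧ c.head = c.tape.length ∧ c.state ∈ M.final

/-- `M` is a once-marking 1-limited automaton: during each computation at most one cell is
marked. -/
def Machine.IsOMLA (M : Machine A) : Prop :=
  ∀ (w : List A) (c : Config M), ReflTransGen M.Step (M.init w) c →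
    ∀ (i j : ℕ) (a b : A), c.tape[i]? = some (Sym.marked a) → c.tape[j]? = some (Sym.marked b) →
      i = j

/-- `M` is deterministic. -/
def Machine.IsDeterministic (M : Machine A) : Prop :=
  ∀ (q : M.State) (s : Sym A), (M.trans q s).Subsingleton

/-- Input symbols and endmarkers. -/
inductive ISym (A : Type)
  | lend
  | rend
  | letter (a : A)

/-- The input tape of a two-way automaton. -/
def inputTape (w : List A) : List (ISym A) := ISym.lend :: (w.map ISym.letter ++ [ISym.rend])

/-- Two-way deterministic finite automata. -/
structure TwoDFA (A : Type) where
  State : Type
  [fin : Fintype State]
  start : State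
  final : Set State
  trans : State → ISym A → Option (State × Dir)

attribute [instance] TwoDFA.fin

/-- One step of a two-way automaton; a configuration is a state and a head position. -/
def TwoDFA.Step (D : TwoDFA A) (w : List A) (c c' : D.State × ℕ) : Prop :=
  ∃ (s : ISym A) (d : Dir), (inputTape w)[c.2]? = some s ∧ D.trans c.1 s = some (c'.1, d) ∧
    d.Moves c.2 c'.2

/-- `w` is accepted if the computation leaves the right endmarker to the right in a final
state. -/
def TwoDFA.Accepts (D : TwoDFA A) (w : List A) : Prop :=
  ∃ q : D.State, ReflTransGen (D.Step w) (D.start, 0) (q, (inputTape w).length) ∧ q ∈ D.final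

end H61.Omla
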