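import Pool.Agent.helper61.OmlaDefs

set_option autoImplicit false
set_option linter.unusedSectionVars false
set_option linter.unusedVariables false

/-!
# The two-thread trick of Hopcroft and Ullman in a finite monoid

For a finite monoid `M` and `φ : A → M` there is a two-way deterministic automaton with at most
`6 * |M| ^ 4` states which can evaluate conditions of the form
`∃ i, Φ (φ (prefix before i)) (letter i) (φ (suffix after i))`.
-/

namespace H61.Omla

open Relation

variable {A : Type} {M : Type} [Monoid M]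

/-- States of the automaton. -/
inductive HU (M : Type)
  | toRight : HU M
  | back (b : M) : HU M
  | adv (a b : M) : HU M
  | look (a g b m : M) : HU M
  | ret (a t₁ t₂ : M) : HU M
  | acc : HU M

/-- There are two candidates. -/
def Two (g b m : M) : Prop := ∃ d₁ d₂ : M, g * (m * d₁) = b ∧ g * (m * d₂) = b ∧ m * d₁ ≠ m * d₂

/-- Threads used for the return when reading the letter with value `x`. -/
def Thr (g b m x : M) (d : M × M) : Prop :=
  g * (m * d.1) = b ∧ g * (m * d.2) = b ∧ m * d.1 ≠ m * d.2 ∧ ∃ e, m * d.1 = m * x * e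

/-- Threads used for the return at the right end. -/
def ThrEnd (g b m : M) (d : M) : Prop := g * (m * d) = b ∧ m ≠ m * d

section

variable (φ : A → M) (Φ : M → A → M → Prop) (Φ₀ : M → Prop)

open Classical in
/-- Evaluate the condition at the current cell and go on. -/
noncomputable def proc (a : M) (x : A) (b : M) : Option (HU M × Dir) :=
  if Φ a x b then some (HU.acc, Dir.right) else some (HU.adv (a * φ x) b, Dir.right)

open Classical in
/-- The transition function. -/
noncomputable def huTrans : HU M → ISym A → Option (HU M × Dir)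
  | .toRight, .lend => some (.toRight, .right)
  | .toRight, .letter _ => some (.toRight, .right)
  | .toRight, .rend => some (.back 1, .left)
  | .back b, .letter x => some (.back (φ x * b), .left)
  | .back b, .lend => if Φ₀ b then some (.acc, .right) else some (.adv 1 b, .right)
  | .back _, .rend => none
  | .adv a b, .letter x =>
      if h : Two (φ x) b 1 then some (.look a (φ x) b 1, .right)
      else if h : ∃ c, φ x * c = b then proc φ Φ a x h.choose else none
  | .adv _ _, .rend => none
  | .adv _ _, .lend => none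
  | .look a g b m, .letter x =>
      if Two g b (m * φ x) then some (.look a g b (m * φ x), .right)
      else if h : ∃ d, Thr g b m (φ x) d then some (.ret a h.choose.1 h.choose.2, .left) else none
  | .look a g b m, .rend =>
      if h : ∃ d, ThrEnd g b m d then some (.ret a 1 h.choose, .left) else none
  | .look _ _ _ _, .lend => none
  | .ret a t₁ t₂, .letter x =>
      if φ x * t₁ = φ x * t₂ then proc φ Φ a x t₁
      else some (.ret a (φ x * t₁) (φ x * t₂), .left)
  | .ret _ _ _, .rend => none
  | .ret _ _ _, .lend => none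
  | .acc, _ => some (.acc, .right)

end

/-- The number of states. -/
def huEquiv (M : Type) : HU M ≃ Option (Option (M ⊕ (M × M) ⊕ (M × M × M × M) ⊕ (M × M × M))) where
  toFun
    | .toRight => none
    | .acc => some none
    | .back b => some (some (Sum.inl b))
    | .adv a b => some (some (Sum.inr (Sum.inl (a, b))))
    | .look a g b m => some (some (Sum.inr (Sum.inr (Sum.inl (a, g, b, m)))))
    | .ret a t₁ t₂ => some (some (Sum.inr (Sum.inr (Sum.inr (a, t₁, t₂)))))
  invFun
    | none => .toRight
    | some none => .acc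
    | some (some (Sum.inl b)) => .back b
    | some (some (Sum.inr (Sum.inl (a, b)))) => .adv a b
    | some (some (Sum.inr (Sum.inr (Sum.inl (a, g, b, m))))) => .look a g b m
    | some (some (Sum.inr (Sum.inr (Sum.inr (a, t₁, t₂))))) => .ret a t₁ t₂
  left_inv x := by cases x <;> rfl
  right_inv x := by
    rcases x with _ | _ | b | ⟨a, b⟩ | ⟨a, g, b, m⟩ | ⟨a, t₁, t₂⟩ <;> rfl

noncomputable instance (M : Type) [Fintype M] : Fintype (HU M) := Fintype.ofEquiv _ (huEquiv M).symm

lemma card_HU [Fintype M] : Fintype.card (HU M) ≤ 6 * Fintype.card M ^ 4 := by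
  rw [Fintype.card_congr (huEquiv M)]
  simp only [Fintype.card_option, Fintype.card_sum, Fintype.card_prod]
  have h1 : 1 ≤ Fintype.card M := Fintype.card_pos
  set N := Fintype.card M
  have h2 : N ≤ N ^ 4 := Nat.le_self_pow (by norm_num) N
  have h3 : N * N ≤ N ^ 4 := by
    calc N * N = N ^ 2 := by ring
      _ ≤ N ^ 4 := Nat.pow_le_pow_right h1 (by norm_num)
  have h4 : N * (N * N) ≤ N ^ 4 := by
    calc N * (N * N) = N ^ 3 := by ring
      _ ≤ N ^ 4 := Nat.pow_le_pow_right h1 (by norm_num)
  have h5 : N * (N * (N * N)) = N ^ 4 := by ring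
  have h6 : 1 ≤ N ^ 4 := Nat.one_le_pow _ _ h1
  omega

/-- The automaton. -/
noncomputable def huDFA [Fintype M] (φ : A → M) (Φ : M → A → M → Prop) (Φ₀ : M → Prop) :
    TwoDFA A where
  State := HU M
  start := .toRight
  final := {HU.acc}
  trans := huTrans φ Φ Φ₀

section Run

variable [Fintype M] (φ : A → M) (Φ : M → A → M → Prop) (Φ₀ : M → Prop) (w : List A)

/-- Values of prefixes and suffixes. -/
def pre (i : ℕ) : M := ((w.take i).map φ).prod

def suf (i : ℕ) : M := ((w.drop i).map φ).prod

/-- Value of the letters with indices in `[i, j)`. -/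
def mid (i j : ℕ) : M := (((w.take j).drop i).map φ).prod

variable {w}

lemma tape_zero : (inputTape w)[0]? = some ISym.lend := rfl

lemma tape_letter {i : ℕ} (hi : i < w.length) :
    (inputTape w)[i + 1]? = some (ISym.letter w[i]) := by
  unfold inputTape
  rw [List.getElem?_cons_succ, List.getElem?_append_left (by simpa using hi)]
  simp [hi]

lemma tape_rend : (inputTape w)[w.length + 1]? = some ISym.rend := by
  unfold inputTape
  rw [List.getElem?_cons_succ, List.getElem?_append_right (by simp)]
  simp

lemma inputTape_length : (inputTape w).length = w.length + 2 := by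
  simp [inputTape]

lemma suf_succ {i : ℕ} (hi : i < w.length) : suf φ w i = φ w[i] * suf φ w (i + 1) := by
  unfold suf
  rw [List.drop_eq_getElem_cons hi, List.map_cons, List.prod_cons]

lemma pre_succ {i : ℕ} (hi : i < w.length) : pre φ w (i + 1) = pre φ w i * φ w[i] := by
  unfold pre
  rw [List.take_succ_eq_append_getElem hi, List.map_append, List.prod_append, List.map_singleton,
    List.prod_singleton]

lemma suf_length : suf φ w w.length = 1 := by
  simp [suf]

lemma pre_zero : pre φ w 0 = 1 := by
  simp [pre]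

lemma mid_self (i : ℕ) : mid φ w i i = 1 := by
  simp [mid]

lemma mid_succ_right {i j : ℕ} (hij : i ≤ j) (hj : j < w.length) :
    mid φ w i (j + 1) = mid φ w i j * φ w[j] := by
  unfold mid
  rw [List.take_succ_eq_append_getElem hj, List.drop_append_of_le_length (by simp; omega)]
  simp

lemma mid_succ_left {i j : ℕ} (hij : i < j) (hj : j ≤ w.length) :
    mid φ w i j = φ w[i] * mid φ w (i + 1) j := by
  unfold mid
  have h : i < (w.take j).length := by simp; omega
  rw [List.drop_eq_getElem_cons h]
  simp

lemma mid_mul_suf {i j : ℕ} (hij : i ≤ j) (hj : j ≤ w.length) :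
    mid φ w i j * suf φ w j = suf φ w i := by
  induction j, hij using Nat.le_induction with
  | base => rw [mid_self, one_mul]
  | succ j hij ih =>
    rw [mid_succ_right φ hij (by omega), mul_assoc, ← suf_succ φ (by omega)]
    exact ih (by omega)

lemma mid_mul_mid {i j : ℕ} (hij : i ≤ j) (k : ℕ) (hj : j + k ≤ w.length) :
    mid φ w i j * mid φ w j (j + k) = mid φ w i (j + k) := by
  induction k with
  | zero => rw [Nat.add_zero, mid_self, mul_one]
  | succ k ih =>
    rw [← Nat.add_assoc, mid_succ_right φ (j := j + k) (by omega) (by omega), ← mul_assoc,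
      ih (by omega), ← mid_succ_right φ (by omega) (by omega)]

lemma hu_step {q q' : HU M} {p p' : ℕ} {s : ISym A} {d : Dir} (h1 : (inputTape w)[p]? = some s)
    (h2 : huTrans φ Φ Φ₀ q s = some (q', d)) (h3 : d.Moves p p') :
    (huDFA φ Φ Φ₀).Step w (q, p) (q', p') :=
  ⟨s, d, h1, h2, h3⟩

lemma reach_right (p : ℕ) (hp : p ≤ w.length + 1) :
    ReflTransGen ((huDFA φ Φ Φ₀).Step w) (HU.toRight, 0) (HU.toRight, p) := by
  induction p with
  | zero => exact ReflTransGen.refl
  | succ p ih =>
    refine (ih (by omega)).tail ?_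
    rcases Nat.eq_zero_or_pos p with rfl | h
    · exact hu_step φ Φ Φ₀ tape_zero (d := .right) rfl rfl
    · obtain ⟨k, rfl⟩ : ∃ k, p = k + 1 := ⟨p - 1, by omega⟩
      exact hu_step φ Φ Φ₀ (tape_letter (by omega)) (d := .right) rfl rfl

lemma reach_back (k : ℕ) (hk : k ≤ w.length) :
    ReflTransGen ((huDFA φ Φ Φ₀).Step w) (HU.toRight, 0)
      (HU.back (suf φ w (w.length - k)), w.length - k) := by
  induction k with
  | zero =>
    refine (reach_right φ Φ Φ₀ (w.length + 1) le_rfl).tail ?_
    refine hu_step φ Φ Φ₀ tape_rend (d := .left) ?_ ?_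
    · rw [Nat.sub_zero, suf_length]; rfl
    · simp [Dir.Moves]
  | succ k ih =>
    refine (ih (by omega)).tail ?_
    obtain ⟨j, hj⟩ : ∃ j, w.length - k = j + 1 := ⟨w.length - k - 1, by omega⟩
    have hj' : w.length - (k + 1) = j := by omega
    rw [hj, hj']
    refine hu_step φ Φ Φ₀ (tape_letter (i := j) (by omega)) (d := .left) ?_ ?_
    · rw [suf_succ φ (i := j) (by omega)]; rfl
    · simp [Dir.Moves]

lemma reach_zero :
    ReflTransGen ((huDFA φ Φ Φ₀).Step w) (HU.toRight, 0) (HU.back (suf φ w 0), 0) := by
  simpa using reach_back φ Φ Φ₀ (w := w) w.length le_rfl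

lemma reach_acc (p k : ℕ) (hp : p + k ≤ w.length + 2) :
    ReflTransGen ((huDFA φ Φ Φ₀).Step w) (HU.acc, p) (HU.acc, p + k) := by
  induction k with
  | zero => exact ReflTransGen.refl
  | succ k ih =>
    refine (ih (by omega)).tail ?_
    have h : p + k < (inputTape w).length := by rw [inputTape_length]; omega
    exact hu_step φ Φ Φ₀ (List.getElem?_eq_getElem h) (d := .right) rfl rfl

/-- The return phase. -/
lemma reach_ret {i p : ℕ} (hip : i + 1 ≤ p) (hp : p ≤ w.length) {d₁ d₂ : M}
    (hb : φ w[i] * (mid φ w (i + 1) p * d₁) = φ w[i] * (mid φ w (i + 1) p * d₂))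
    (hne : mid φ w (i + 1) p * d₁ ≠ mid φ w (i + 1) p * d₂)
    (hs : mid φ w (i + 1) p * d₁ = suf φ w (i + 1)) (a : M) {r : HU M}
    (hr : proc φ Φ a w[i] (suf φ w (i + 1)) = some (r, Dir.right)) (k : ℕ) (hk : k + (i + 1) ≤ p) :
    ReflTransGen ((huDFA φ Φ Φ₀).Step w)
      (HU.ret a (mid φ w (k + (i + 1)) p * d₁) (mid φ w (k + (i + 1)) p * d₂), k + (i + 1))
      (r, i + 2) := by
  induction k with
  | zero =>
    refine ReflTransGen.single (hu_step φ Φ Φ₀ (d := .right)
      (by rw [Nat.zero_add]; exact tape_letter (by omega)) ?_ (by simp [Dir.Moves]))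
    rw [Nat.zero_add]
    simp only [huTrans]
    rw [if_pos hb, hs, hr]
  | succ k ih =>
    refine ReflTransGen.head ?_ (ih (by omega))
    refine hu_step φ Φ Φ₀ (d := .left) (by
      rw [show k + 1 + (i + 1) = (k + (i + 1)) + 1 by omega]
      exact tape_letter (i := k + (i + 1)) (by omega)) ?_ (by simp [Dir.Moves]; omega)
    have e : ∀ d, φ w[k + (i + 1)] * (mid φ w (k + 1 + (i + 1)) p * d)
        = mid φ w (k + (i + 1)) p * d := by
      intro d
      rw [mid_succ_left φ (i := k + (i + 1)) (by omega) hp, mul_assoc,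
        show k + 1 + (i + 1) = (k + (i + 1)) + 1 by omega]
    have hne' : ¬ (φ w[k + (i + 1)] * (mid φ w (k + 1 + (i + 1)) p * d₁)
        = φ w[k + (i + 1)] * (mid φ w (k + 1 + (i + 1)) p * d₂)) := by
      rw [e, e]
      intro h
      apply hne
      have e2 : mid φ w (i + 1) p = mid φ w (i + 1) (k + (i + 1)) * mid φ w (k + (i + 1)) p := by
        have := mid_mul_mid φ (w := w) (i := i + 1) (j := k + (i + 1)) (by omega)
          (p - (k + (i + 1))) (by omega)
        rw [show k + (i + 1) + (p - (k + (i + 1))) = p by omega] at this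
        exact this.symm
      rw [e2, mul_assoc, mul_assoc, h]
    simp only [huTrans]
    rw [if_neg hne', e, e]

/-- The look phase. -/
lemma reach_look {i : ℕ} (hi : i < w.length) (a : M) {r : HU M}
    (hr : proc φ Φ a w[i] (suf φ w (i + 1)) = some (r, Dir.right)) (k p : ℕ) (hk : p + k = w.length)
    (hp : i + 1 ≤ p) (h2 : Two (φ w[i]) (suf φ w i) (mid φ w (i + 1) p)) :
    ReflTransGen ((huDFA φ Φ Φ₀).Step w)
      (HU.look a (φ w[i]) (suf φ w i) (mid φ w (i + 1) p), p + 1) (r, i + 2) := by
  induction k generalizing p with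
  | zero =>
    obtain rfl : p = w.length := by omega
    have hm : mid φ w (i + 1) w.length = suf φ w (i + 1) := by
      have := mid_mul_suf φ (w := w) (i := i + 1) hp le_rfl
      rwa [suf_length, mul_one] at this
    have hgb : φ w[i] * suf φ w (i + 1) = suf φ w i := (suf_succ φ hi).symm
    have hex : ∃ d, ThrEnd (φ w[i]) (suf φ w i) (mid φ w (i + 1) w.length) d := by
      obtain ⟨d₁, d₂, e₁, e₂, hne⟩ := h2
      by_cases h : mid φ w (i + 1) w.length * d₁ = mid φ w (i + 1) w.length
      · exact ⟨d₂, e₂, fun h' => hne (h.trans h')⟩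
      · exact ⟨d₁, e₁, fun h' => h h'.symm⟩
    have hs := hex.choose_spec
    refine ReflTransGen.head (hu_step φ Φ Φ₀ (d := .left) tape_rend
      (q' := HU.ret a 1 hex.choose) (p' := w.length) ?_ (by simp [Dir.Moves])) ?_
    · simp only [huTrans]
      rw [dif_pos hex]
    · have := reach_ret φ Φ Φ₀ (w := w) (i := i) (p := w.length) hp le_rfl (d₁ := 1)
        (d₂ := hex.choose) (by rw [hs.1, mul_one, hm, hgb]) (by rw [mul_one]; exact hs.2)
        (by rw [mul_one, hm]) a hr (w.length - (i + 1)) (by omega)
      rw [show w.length - (i + 1) + (i + 1) = w.length by omega] at this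
      rwa [mid_self, one_mul, one_mul] at this
  | succ k ih =>
    have hpl : p < w.length := by omega
    have hms := mid_succ_right φ (w := w) (i := i + 1) hp hpl
    by_cases h3 : Two (φ w[i]) (suf φ w i) (mid φ w (i + 1) p * φ w[p])
    · refine ReflTransGen.head ?_ (ih (p + 1) (by omega) (by omega) (by rwa [hms]))
      refine hu_step φ Φ Φ₀ (d := .right) (tape_letter hpl) ?_ (by simp [Dir.Moves])
      simp only [huTrans]
      rw [if_pos h3, hms]
    · have hc : mid φ w (i + 1) p * (φ w[p] * suf φ w (p + 1)) = suf φ w (i + 1) := by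
        rw [← suf_succ φ hpl]; exact mid_mul_suf φ hp hpl.le
      have hgb : φ w[i] * suf φ w (i + 1) = suf φ w i := (suf_succ φ hi).symm
      have hex : ∃ d, Thr (φ w[i]) (suf φ w i) (mid φ w (i + 1) p) (φ w[p]) d := by
        obtain ⟨d₁, d₂, e₁, e₂, hne⟩ := h2
        have key : ∀ d, φ w[i] * (mid φ w (i + 1) p * d) = suf φ w i →
            mid φ w (i + 1) p * d ≠ suf φ w (i + 1) →
            ∃ d, Thr (φ w[i]) (suf φ w i) (mid φ w (i + 1) p) (φ w[p]) d := by
          intro d h4 h5
          refine ⟨(φ w[p] * suf φ w (p + 1), d), ?_, h4, ?_, suf φ w (p + 1), ?_⟩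
          · rw [hc, hgb]
          · rw [hc]; exact h5.symm
          · rw [mul_assoc]
        by_cases h : mid φ w (i + 1) p * d₁ = suf φ w (i + 1)
        · exact key d₂ e₂ (fun h' => hne (h.trans h'.symm))
        · exact key d₁ e₁ h
      obtain ⟨s1, s2, s3, e, s4⟩ := hex.choose_spec
      refine ReflTransGen.head (hu_step φ Φ Φ₀ (d := .left) (tape_letter hpl)
        (q' := HU.ret a hex.choose.1 hex.choose.2) (p' := p) ?_ (by simp [Dir.Moves])) ?_
      · simp only [huTrans]
        rw [if_neg h3, dif_pos hex]
      · have hsuf : mid φ w (i + 1) p * hex.choose.1 = suf φ w (i + 1) := by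
          by_contra hcon
          apply h3
          refine ⟨e, suf φ w (p + 1), ?_, ?_, ?_⟩
          · rw [← s4, s1]
          · rw [mul_assoc (mid φ w (i + 1) p), hc, hgb]
          · rw [← s4, mul_assoc (mid φ w (i + 1) p), hc]; exact hcon
        have := reach_ret φ Φ Φ₀ (w := w) (i := i) (p := p) hp hpl.le (d₁ := hex.choose.1)
          (d₂ := hex.choose.2) (by rw [s1, s2]) s3 hsuf a hr (p - (i + 1)) (by omega)
        rw [show p - (i + 1) + (i + 1) = p by omega] at this
        rwa [mid_self, one_mul, one_mul] at this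

/-- One macro-step. -/
lemma reach_adv {i : ℕ} (hi : i < w.length) {r : HU M}
    (hr : proc φ Φ (pre φ w i) w[i] (suf φ w (i + 1)) = some (r, Dir.right)) :
    ReflTransGen ((huDFA φ Φ Φ₀).Step w)
      (HU.adv (pre φ w i) (suf φ w i), i + 1) (r, i + 2) := by
  by_cases h : Two (φ w[i]) (suf φ w i) 1
  · refine ReflTransGen.head (hu_step φ Φ Φ₀ (d := .right) (tape_letter hi)
      (q' := HU.look (pre φ w i) (φ w[i]) (suf φ w i) 1) (p' := i + 1 + 1) ?_
      (by simp [Dir.Moves])) ?_
    · simp only [huTrans]
      rw [dif_pos h]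
    · have := reach_look φ Φ Φ₀ hi (pre φ w i) hr (w.length - (i + 1)) (i + 1) (by omega) le_rfl
        (by rwa [mid_self])
      rwa [mid_self] at this
  · have hgb : φ w[i] * suf φ w (i + 1) = suf φ w i := (suf_succ φ hi).symm
    have hex : ∃ c, φ w[i] * c = suf φ w i := ⟨_, hgb⟩
    have hc : hex.choose = suf φ w (i + 1) := by
      by_contra hcon
      apply h
      refine ⟨hex.choose, suf φ w (i + 1), ?_, ?_, ?_⟩
      · rw [one_mul]; exact hex.choose_spec
      · rw [one_mul]; exact hgb
      · rw [one_mul, one_mul]; exact hcon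
    refine ReflTransGen.single (hu_step φ Φ Φ₀ (d := .right) (tape_letter hi) ?_
      (by simp [Dir.Moves]))
    simp only [huTrans]
    rw [dif_neg h, dif_pos hex, hc, hr]

lemma proc_pos {a b : M} {x : A} (h : Φ a x b) :
    proc φ Φ a x b = some (HU.acc, Dir.right) := by
  unfold proc; rw [if_pos h]

lemma proc_neg {a b : M} {x : A} (h : ¬ Φ a x b) :
    proc φ Φ a x b = some (HU.adv (a * φ x) b, Dir.right) := by
  unfold proc; rw [if_neg h]

lemma hu_det (c c₁ c₂ : HU M × ℕ) (h₁ : (huDFA φ Φ Φ₀).Step w c c₁)
    (h₂ : (huDFA φ Φ Φ₀).Step w c c₂) : c₁ = c₂ := by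
  obtain ⟨s, d, h1, h2, h3⟩ := h₁
  obtain ⟨s', d', h1', h2', h3'⟩ := h₂
  rw [h1] at h1'
  obtain rfl := Option.some.inj h1'
  rw [h2] at h2'
  have h4 := Option.some.inj h2'
  rw [Prod.mk.injEq] at h4
  obtain ⟨h5, rfl⟩ := h4
  refine Prod.ext h5 ?_
  cases d <;> simp only [Dir.Moves] at h3 h3' <;> omega

/-- Correctness of the automaton. -/
theorem hu_accepts :
    (huDFA φ Φ Φ₀).Accepts w ↔ Φ₀ ((w.map φ).prod) ∨
      ∃ (i : ℕ) (hi : i < w.length), Φ (pre φ w i) w[i] (suf φ w (i + 1)) := by
  have hs0 : suf φ w 0 = (w.map φ).prod := by simp [suf]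
  have hacc : ∀ p ≤ w.length + 2,
      ReflTransGen ((huDFA φ Φ Φ₀).Step w) (HU.toRight, 0) (HU.acc, p) →
      (huDFA φ Φ Φ₀).Accepts w := by
    intro p hp h
    refine ⟨HU.acc, ?_, rfl⟩
    have h2 := reach_acc φ Φ Φ₀ (w := w) p (w.length + 2 - p) (by omega)
    rw [show p + (w.length + 2 - p) = w.length + 2 by omega] at h2
    rw [inputTape_length]
    exact h.trans h2
  have h0 : ∀ r : HU M, huTrans φ Φ Φ₀ (HU.back (suf φ w 0)) ISym.lend = some (r, Dir.right) →
      ReflTransGen ((huDFA φ Φ Φ₀).Step w) (HU.toRight, 0) (r, 1) := by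
    intro r hr
    exact (reach_zero φ Φ Φ₀).tail (hu_step φ Φ Φ₀ tape_zero (d := .right) hr rfl)
  constructor
  · rintro ⟨q, hq, hqf⟩
    by_contra hcon
    push Not at hcon
    obtain ⟨hn0, hn⟩ := hcon
    have hadv : ∀ i ≤ w.length, ReflTransGen ((huDFA φ Φ Φ₀).Step w) (HU.toRight, 0)
        (HU.adv (pre φ w i) (suf φ w i), i + 1) := by
      intro i
      induction i with
      | zero =>
        intro _
        refine h0 _ ?_
        simp only [huTrans]
        rw [if_neg (by rwa [hs0]), pre_zero]
      | succ i ih =>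
        intro hi
        refine (ih (by omega)).trans (reach_adv φ Φ Φ₀ (by omega) ?_)
        rw [proc_neg φ Φ (hn i (by omega)), ← pre_succ φ (by omega)]
    have h1 := hadv w.length le_rfl
    have hstuck1 : ∀ c, ¬ (huDFA φ Φ Φ₀).Step w
        (HU.adv (pre φ w w.length) (suf φ w w.length), w.length + 1) c := by
      rintro c ⟨s, d, e1, e2, e3⟩
      change (inputTape w)[w.length + 1]? = some s at e1
      rw [tape_rend] at e1
      obtain rfl := Option.some.inj e1
      exact absurd e2 (by simp [huDFA, huTrans])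
    have hstuck2 : ∀ c, ¬ (huDFA φ Φ Φ₀).Step w (q, (inputTape w).length) c := by
      rintro c ⟨s, d, e1, e2, e3⟩
      change (inputTape w)[(inputTape w).length]? = some s at e1
      rw [List.getElem?_eq_none le_rfl] at e1
      cases e1
    have htot := ReflTransGen.total_of_right_unique
      (fun a b c h h' => hu_det φ Φ Φ₀ a b c h h') h1 hq
    have hfin : ((HU.adv (pre φ w w.length) (suf φ w w.length) : HU M), w.length + 1)
        = (q, (inputTape w).length) := by
      rcases htot with h | h
      · rcases ReflTransGen.cases_head h with h | ⟨c, h, _⟩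
        · exact h
        · exact absurd h (hstuck1 c)
      · rcases ReflTransGen.cases_head h with h | ⟨c, h, _⟩
        · exact h.symm
        · exact absurd h (hstuck2 c)
    have h5 : w.length + 1 = (inputTape w).length := congrArg Prod.snd hfin
    rw [inputTape_length] at h5
    omega
  · rintro (h | ⟨i, hi, h⟩)
    · refine hacc 1 (by omega) (h0 _ ?_)
      simp only [huTrans]
      rw [if_pos (by rwa [hs0])]
    · by_cases hn0 : Φ₀ ((w.map φ).prod)
      · refine hacc 1 (by omega) (h0 _ ?_)
        simp only [huTrans]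
        rw [if_pos (by rwa [hs0])]
      · have hadv : ∀ j ≤ i, (huDFA φ Φ Φ₀).Accepts w ∨
            ReflTransGen ((huDFA φ Φ Φ₀).Step w) (HU.toRight, 0)
            (HU.adv (pre φ w j) (suf φ w j), j + 1) := by
          intro j
          induction j with
          | zero =>
            intro _
            right
            refine h0 _ ?_
            simp only [huTrans]
            rw [if_neg (by rwa [hs0]), pre_zero]
          | succ j ih =>
            intro hj
            rcases ih (by omega) with h1 | h1
            · exact Or.inl h1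
            · by_cases h2 : Φ (pre φ w j) w[j] (suf φ w (j + 1))
              · left
                exact hacc (j + 2) (by omega)
                  (h1.trans (reach_adv φ Φ Φ₀ (by omega) (proc_pos φ Φ h2)))
              · right
                refine h1.trans (reach_adv φ Φ Φ₀ (by omega) ?_)
                rw [proc_neg φ Φ h2, ← pre_succ φ (by omega)]
        rcases hadv i le_rfl with h1 | h1
        · exact h1
        · exact hacc (i + 2) (by omega)
            (h1.trans (reach_adv φ Φ Φ₀ hi (proc_pos φ Φ h)))

end Run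

end H61.Omla
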