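import Pool.Agent.helper61.OmlaSim

set_option autoImplicit false
set_option linter.unusedSectionVars false
set_option linter.unusedVariables false

/-!
# Two-way deterministic automata equivalent to once-marking 1-limited automata
-/

namespace H61.Omla

open Relation

variable {A : Type} (M : Machine A)

lemma beh_congr {Q S : Type} (μ : Q → S → Q → Dir → Prop) (x u u' y : List S)
    (h : beh μ u = beh μ u') : beh μ (x ++ u ++ y) = beh μ (x ++ u' ++ y) := by
  funext p r
  apply propext
  constructor
  · exact beh_context μ x u u' y (fun p r h1 => by rw [← h]; exact h1) p r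
  · exact beh_context μ x u' u y (fun p r h1 => by rw [h]; exact h1) p r

/-- Behaviour of an unmarked word. -/
def wb (u : List A) : Bool × M.State → Bool × M.State → Prop :=
  beh (mv M) (u.map Sym.plain)

/-- The congruence of having the same behaviour. -/
def con : Con (FreeMonoid A) where
  r u v := wb M (FreeMonoid.toList u) = wb M (FreeMonoid.toList v)
  iseqv := ⟨fun _ => rfl, fun h => h.symm, fun h h' => h.trans h'⟩
  mul' := by
    intro u u' v v' hu hv
    change beh (mv M) ((FreeMonoid.toList (u * v)).map Sym.plain)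
      = beh (mv M) ((FreeMonoid.toList (u' * v')).map Sym.plain)
    rw [FreeMonoid.toList_mul, FreeMonoid.toList_mul, List.map_append, List.map_append]
    have h1 := beh_congr (mv M) [] _ _ ((FreeMonoid.toList v).map Sym.plain) hu
    have h2 := beh_congr (mv M) ((FreeMonoid.toList u').map Sym.plain) _ _ [] hv
    simp only [List.nil_append, List.append_nil] at h1 h2
    rw [h1, h2]

/-- The behaviour of a class. -/
def bq (m : (con M).Quotient) : Bool × M.State → Bool × M.State → Prop :=
  Con.liftOn m (fun u => wb M (FreeMonoid.toList u)) (fun _ _ h => h)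

lemma bq_injective : Function.Injective (bq M) := by
  intro m m' h
  induction m, m' using Con.induction_on₂ with
  | H x y => exact (Con.eq _).2 h

noncomputable instance : Fintype (con M).Quotient := by
  classical
  exact Fintype.ofInjective _ (bq_injective M)

lemma card_quot : Fintype.card (con M).Quotient ≤ 2 ^ (4 * Fintype.card M.State ^ 2) := by
  classical
  refine (Fintype.card_le_of_injective _ (bq_injective M)).trans (le_of_eq ?_)
  rw [Fintype.card_fun, Fintype.card_fun, Fintype.card_prop, Fintype.card_prod, Fintype.card_bool,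
    ← pow_mul]
  congr 1
  ring

/-- The class of a word. -/
def cls (u : List A) : (con M).Quotient := ((FreeMonoid.ofList u : FreeMonoid A) : (con M).Quotient)

lemma cls_eq {u v : List A} : cls M u = cls M v ↔ wb M u = wb M v := (Con.eq _)

lemma prod_cls (w : List A) : (w.map (fun a => cls M [a])).prod = cls M w := by
  induction w with
  | nil => rfl
  | cons a w ih => rw [List.map_cons, List.prod_cons, ih]; rfl

lemma accNo_congr {u u' : List A} (h : wb M u = wb M u') (hu : AccNo M u) : AccNo M u' := by
  obtain ⟨qf, hqf, h1⟩ := hu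
  refine ⟨qf, hqf, ?_⟩
  have h2 := beh_congr (mv M) [Sym.lend] _ _ [Sym.rend] h
  have e : ∀ w : List A, initTape w = [Sym.lend] ++ w.map Sym.plain ++ [Sym.rend] := by
    intro w; simp [initTape]
  rw [e] at h1 ⊢
  rw [← h2]
  exact h1

lemma markAcc_left {u u' : List A} {a : A} {v : List A} (h : wb M u = wb M u')
    (hu : MarkAcc M u a v) : MarkAcc M u' a v := by
  obtain ⟨q, q', d, qf, h1, h2, hqf, h3⟩ := hu
  refine ⟨q, q', d, qf, ?_, h2, hqf, ?_⟩
  · have h4 := beh_congr (mv M) [Sym.lend] _ _ [] h
    have e : ∀ w : List A, (Sym.lend :: w.map Sym.plain) = [Sym.lend] ++ w.map Sym.plain ++ [] := by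
      intro w; simp
    rw [e] at h1 ⊢
    rw [← h4]
    exact h1
  · have e : ∀ w : List A, tapeOf w (Sym.marked a) v = [Sym.lend] ++ w.map Sym.plain ++
        (Sym.marked a :: (v.map Sym.plain ++ [Sym.rend])) := by
      intro w; simp [tapeOf]
    have el : ∀ w : List A, ((tapeOf w (Sym.marked a) v).length : ℤ) = w.length + v.length + 3 := by
      intro w; rw [tapeOf_length]; push_cast; ring
    have he : Corr ([Sym.lend] : List (Sym A)).length
        (([Sym.lend] : List (Sym A)).length + (u.map Sym.plain).length)
        ([Sym.lend] : List (Sym A)).length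
        (([Sym.lend] : List (Sym A)).length + (u'.map Sym.plain).length)
        (qf, ((tapeOf u (Sym.marked a) v).length : ℤ))
        (qf, ((tapeOf u' (Sym.marked a) v).length : ℤ)) := by
      refine ⟨rfl, Or.inr ?_⟩
      simp only [el, List.length_singleton, List.length_map]
      omega
    have key := run_context (mv M) [Sym.lend] (u.map Sym.plain) (u'.map Sym.plain)
      (Sym.marked a :: (v.map Sym.plain ++ [Sym.rend]))
      (fun p r h4 => by
        change wb M u' p r
        rw [← h]; exact h4)
      (c := (q', (u.length : ℤ) + 1 + d.toInt)) (by rw [← e]; exact h3) he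
    rw [← e] at key
    obtain ⟨k1, k2, k3⟩ := key
    cases d
    · have := k3 q' (by
        simp only [Dir.toInt, List.length_singleton, List.length_map, Prod.mk.injEq, true_and]
        push_cast; ring)
      simp only [Dir.toInt, List.length_singleton, List.length_map] at this ⊢
      rwa [show (u'.length : ℤ) + 1 + -1 = ((1 : ℕ) : ℤ) + u'.length - 1 by push_cast; ring]
    · refine k1 _ ⟨rfl, Or.inr ?_⟩
      simp only [Dir.toInt, List.length_singleton, List.length_map]
      omega

lemma markAcc_right {u : List A} {a : A} {v v' : List A} (h : wb M v = wb M v')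
    (hu : MarkAcc M u a v) : MarkAcc M u a v' := by
  obtain ⟨q, q', d, qf, h1, h2, hqf, h3⟩ := hu
  refine ⟨q, q', d, qf, h1, h2, hqf, ?_⟩
  set x : List (Sym A) := (Sym.lend :: u.map Sym.plain) ++ [Sym.marked a] with hx
  have hxl : (x.length : ℤ) = u.length + 2 := by rw [hx]; simp; omega
  have e : ∀ w : List A, tapeOf u (Sym.marked a) w = x ++ w.map Sym.plain ++ [Sym.rend] := by
    intro w; simp [tapeOf, hx]
  have el : ∀ w : List A, ((tapeOf u (Sym.marked a) w).length : ℤ) = u.length + w.length + 3 := by
    intro w; rw [tapeOf_length]; push_cast; ring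
  have he : Corr x.length (x.length + (v.map Sym.plain).length) x.length
      (x.length + (v'.map Sym.plain).length)
      (qf, ((tapeOf u (Sym.marked a) v).length : ℤ))
      (qf, ((tapeOf u (Sym.marked a) v').length : ℤ)) := by
    refine ⟨rfl, Or.inr ?_⟩
    simp only [el, List.length_map, hxl]
    omega
  have key := run_context (mv M) x (v.map Sym.plain) (v'.map Sym.plain) [Sym.rend]
    (fun p r h4 => by
      change wb M v' p r
      rw [← h]; exact h4)
    (c := (q', (u.length : ℤ) + 1 + d.toInt)) (by rw [← e]; exact h3) he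
  rw [← e] at key
  obtain ⟨k1, k2, k3⟩ := key
  cases d
  · refine k1 _ ⟨rfl, Or.inl ?_⟩
    simp only [Dir.toInt, hxl]
    omega
  · have := k2 q' (by
      simp only [Dir.toInt, hxl, Prod.mk.injEq, true_and]
      ring)
    rw [hxl] at this
    simp only [Dir.toInt] at this ⊢
    rwa [show (u.length : ℤ) + 1 + 1 = u.length + 2 by ring]

/-- The main theorem: a once-marking 1-limited automaton with `n` states has an equivalent two-way
deterministic automaton with at most `2 ^ (19 * n ^ 2)` states. -/
theorem exists_twoDFA (hM : M.IsOMLA) :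
    ∃ D : TwoDFA A, Fintype.card D.State ≤ 2 ^ (19 * Fintype.card M.State ^ 2) ∧
      ∀ w, D.Accepts w ↔ M.Accepts w := by
  classical
  set φ : A → (con M).Quotient := fun a => cls M [a] with hφ
  refine ⟨huDFA φ (fun m a m' => ∃ u v, cls M u = m ∧ cls M v = m' ∧ MarkAcc M u a v)
    (fun m => ∃ u, cls M u = m ∧ AccNo M u), ?_, ?_⟩
  · have h1 : 1 ≤ Fintype.card M.State := Fintype.card_pos_iff.2 ⟨M.start⟩
    set n := Fintype.card M.State with hn
    have h2 : Fintype.card (HU (con M).Quotient) ≤ 6 * Fintype.card (con M).Quotient ^ 4 :=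
      card_HU
    have h3 : Fintype.card (con M).Quotient ^ 4 ≤ (2 ^ (4 * n ^ 2)) ^ 4 :=
      Nat.pow_le_pow_left (card_quot M) 4
    have h4 : 6 * (2 ^ (4 * n ^ 2)) ^ 4 ≤ 2 ^ (19 * n ^ 2) := by
      have h5 : 1 ≤ n ^ 2 := Nat.one_le_pow _ _ h1
      calc 6 * (2 ^ (4 * n ^ 2)) ^ 4 ≤ 2 ^ 3 * (2 ^ (4 * n ^ 2)) ^ 4 :=
            Nat.mul_le_mul_right _ (by norm_num)
        _ = 2 ^ (3 + 4 * n ^ 2 * 4) := by rw [pow_add, pow_mul 2 (4 * n ^ 2) 4]
        _ ≤ 2 ^ (19 * n ^ 2) := Nat.pow_le_pow_right (by norm_num) (by omega)
    exact h2.trans ((Nat.mul_le_mul_left _ h3).trans h4)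
  · intro w
    rw [hu_accepts, accepts_iff M hM]
    apply or_congr
    · rw [prod_cls]
      constructor
      · rintro ⟨u, h1, h2⟩
        exact accNo_congr M ((cls_eq M).1 h1) h2
      · intro h
        exact ⟨w, rfl, h⟩
    · constructor
      · rintro ⟨i, hi, u, v, h1, h2, h3⟩
        refine ⟨w.take i, w[i], w.drop (i + 1), ?_, ?_⟩
        · rw [List.getElem_cons_drop, List.take_append_drop]
        · unfold pre at h1
          unfold suf at h2
          rw [prod_cls] at h1 h2
          exact markAcc_right M ((cls_eq M).1 h2) (markAcc_left M ((cls_eq M).1 h1) h3)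
      · rintro ⟨u, a, v, rfl, h⟩
        refine ⟨u.length, by simp, u, v, ?_, ?_, ?_⟩
        · unfold pre
          rw [prod_cls]
          simp
        · unfold suf
          rw [prod_cls]
          simp
        · simpa using h

/-- A two-way deterministic automaton as a machine which never marks. -/
def TwoDFA.toMachine (D : TwoDFA A) : Machine A where
  State := D.State
  fin := D.fin
  start := D.start
  final := D.final
  trans q s := match s with
    | .lend => {x | D.trans q .lend = some (x.1, x.2.2) ∧ x.2.1 = .lend}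
    | .rend => {x | D.trans q .rend = some (x.1, x.2.2) ∧ x.2.1 = .rend}
    | .plain a => {x | D.trans q (.letter a) = some (x.1, x.2.2) ∧ x.2.1 = .plain a}
    | .marked _ => ∅

lemma toMachine_det (D : TwoDFA A) : D.toMachine.IsDeterministic := by
  intro q s
  rintro ⟨x1, x2, x3⟩ hx ⟨y1, y2, y3⟩ hy
  cases s with
  | marked a => exact absurd hx (Set.notMem_empty _)
  | _ =>
    obtain ⟨h1, h2⟩ := hx
    obtain ⟨h3, h4⟩ := hy
    simp only at h1 h2 h3 h4
    rw [h1] at h3
    have := Option.some.inj h3
    rw [Prod.mk.injEq] at this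
    obtain ⟨rfl, rfl⟩ := this
    rw [h2, h4]

/-- Input symbols as tape symbols. -/
def ISym.toSym : ISym A → Sym A
  | .lend => .lend
  | .rend => .rend
  | .letter a => .plain a

lemma initTape_map (w : List A) : initTape w = (inputTape w).map ISym.toSym := by
  simp [initTape, inputTape, ISym.toSym]

lemma toMachine_mem (D : TwoDFA A) (q q' : D.State) (s : ISym A) (s' : Sym A) (d : Dir) :
    (q', s', d) ∈ D.toMachine.trans q s.toSym ↔ D.trans q s = some (q', d) ∧ s' = s.toSym := by
  cases s <;> exact Iff.rfl

/-- Reachable configurations of the machine. -/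
lemma toMachine_reach (D : TwoDFA A) {w : List A} {c : Config D.toMachine}
    (h : ReflTransGen D.toMachine.Step (D.toMachine.init w) c) :
    c.tape = initTape w ∧ ReflTransGen (D.Step w) (D.start, 0) (c.state, c.head) := by
  induction h with
  | refl => exact ⟨rfl, ReflTransGen.refl⟩
  | @tail c c' _ hstep ih =>
    obtain ⟨ih1, ih2⟩ := ih
    obtain ⟨s, s', d, h1, h2, h3, h4, h5, h6⟩ := hstep
    have hs : ∃ t : ISym A, (inputTape w)[c.head]? = some t ∧ t.toSym = s := by
      rw [ih1, initTape_map, List.getElem?_map] at h1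
      cases h7 : (inputTape w)[c.head]? with
      | none => rw [h7] at h1; cases h1
      | some t => rw [h7] at h1; exact ⟨t, rfl, Option.some.inj h1⟩
    obtain ⟨t, ht, rfl⟩ := hs
    obtain ⟨h8, rfl⟩ := (toMachine_mem D _ _ _ _ _).1 h2
    refine ⟨?_, ih2.tail ⟨t, d, ht, h8, h6⟩⟩
    rw [h4, set_same h1, ih1]

lemma toMachine_omla (D : TwoDFA A) : D.toMachine.IsOMLA := by
  intro w c h i j a b hi hj
  exfalso
  rw [(toMachine_reach D h).1, initTape_map, List.getElem?_map] at hi
  cases h7 : (inputTape w)[i]? with
  | none => rw [h7] at hi; cases hi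
  | some t =>
    rw [h7] at hi
    have := Option.some.inj hi
    cases t <;> cases this

lemma toMachine_accepts (D : TwoDFA A) (w : List A) : D.toMachine.Accepts w ↔ D.Accepts w := by
  constructor
  · rintro ⟨c, hc, hh, hf⟩
    obtain ⟨h1, h2⟩ := toMachine_reach D hc
    refine ⟨c.state, ?_, hf⟩
    rw [hh, h1, initTape_map, List.length_map] at h2
    exact h2
  · rintro ⟨q, hq, hf⟩
    have key : ∀ c : D.State × ℕ, ReflTransGen (D.Step w) (D.start, 0) c →
        ∃ seen, ReflTransGen D.toMachine.Step (D.toMachine.init w)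
          (⟨c.1, c.2, initTape w, seen⟩ : Config D.toMachine) := by
      intro c hc
      induction hc with
      | refl => exact ⟨0, ReflTransGen.refl⟩
      | @tail c c' _ hstep ih =>
        obtain ⟨seen, ih⟩ := ih
        obtain ⟨s, d, h1, h2, h3⟩ := hstep
        refine ⟨max seen (c.2 + 1), ih.tail ?_⟩
        have h4 : (initTape w)[c.2]? = some s.toSym := by
          rw [initTape_map, List.getElem?_map, h1]; rfl
        exact ⟨s.toSym, s.toSym, d, h4, (toMachine_mem D _ _ _ _ _).2 ⟨h2, rfl⟩, Or.inl rfl,
          (set_same h4).symm, rfl, h3⟩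
    obtain ⟨seen, h⟩ := key _ hq
    refine ⟨_, h, ?_, hf⟩
    simp only
    rw [initTape_map, List.length_map]

end H61.Omla
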