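import Pool.Agent.helper61.OmlaHU
import Pool.Agent.helper61.OmlaBeh

set_option autoImplicit false
set_option linter.unusedSectionVars false
set_option linter.unusedVariables false

/-!
# Acceptance of once-marking 1-limited automata in terms of behaviours
-/

namespace H61.Omla

open Relation

variable {A : Type} (M : Machine A)

/-- Non-rewriting moves. -/
def mv (q : M.State) (s : Sym A) (q' : M.State) (d : Dir) : Prop := (q', s, d) ∈ M.trans q s

/-- The tape with a distinguished cell. -/
def tapeOf (u : List A) (s : Sym A) (v : List A) : List (Sym A) :=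
  (Sym.lend :: u.map Sym.plain) ++ s :: (v.map Sym.plain ++ [Sym.rend])

lemma initTape_eq (u : List A) (a : A) (v : List A) :
    initTape (u ++ a :: v) = tapeOf u (Sym.plain a) v := by
  simp [initTape, tapeOf]

lemma tapeOf_length (u : List A) (s : Sym A) (v : List A) :
    (tapeOf u s v).length = u.length + v.length + 3 := by
  simp [tapeOf]; omega

lemma tapeOf_get (u : List A) (s : Sym A) (v : List A) :
    (tapeOf u s v)[u.length + 1]? = some s := by
  unfold tapeOf
  rw [List.getElem?_append_right (by simp)]
  simp

lemma tapeOf_set (u : List A) (s s' : Sym A) (v : List A) :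
    (tapeOf u s v).set (u.length + 1) s' = tapeOf u s' v := by
  unfold tapeOf
  rw [List.set_append_right _ _ (by simp)]
  simp

/-- Acceptance without marking. -/
def AccNo (w : List A) : Prop :=
  ∃ qf ∈ M.final, beh (mv M) (initTape w) (false, M.start) (true, qf)

/-- Acceptance with the cell of the distinguished letter marked. -/
def MarkAcc (u : List A) (a : A) (v : List A) : Prop :=
  ∃ (q q' : M.State) (d : Dir) (qf : M.State),
    beh (mv M) (Sym.lend :: u.map Sym.plain) (false, M.start) (true, q) ∧
    (q', Sym.marked a, d) ∈ M.trans q (Sym.plain a) ∧ qf ∈ M.final ∧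
    ReflTransGen (WStep (mv M) (tp (tapeOf u (Sym.marked a) v)) 0
      (tapeOf u (Sym.marked a) v).length) (q', (u.length : ℤ) + 1 + d.toInt)
      (qf, (tapeOf u (Sym.marked a) v).length)

lemma set_same {S : Type} {l : List S} {i : ℕ} {s : S} (h : l[i]? = some s) : l.set i s = l := by
  apply List.ext_getElem?
  intro j
  rw [List.getElem?_set]
  split_ifs with h1 h2
  · rw [← h1, h]
  · rw [← h1, List.getElem?_eq_none (by omega)]
  · rfl

lemma moves_toInt {d : Dir} {p p' : ℕ} (h : d.Moves p p') : (p' : ℤ) = p + d.toInt := by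
  cases d <;> simp only [Dir.Moves, Dir.toInt] at h ⊢ <;> omega

lemma moves_of_toInt {d : Dir} {p p' : ℕ} (h : (p' : ℤ) = p + d.toInt) : d.Moves p p' := by
  cases d <;> simp only [Dir.Moves, Dir.toInt] at h ⊢ <;> omega

lemma wrun_bound {Q S : Type} {μ : Q → S → Q → Dir → Prop} {l : List S} {k : ℤ} {c c' : Q × ℤ}
    (h : ReflTransGen (WStep μ (tp l) 0 k) c c') :
    ReflTransGen (WStep μ (tp l) 0 l.length) c c' := by
  refine ReflTransGen.mono ?_ _ _ h
  rintro c c' ⟨h1, h2, s, d, h3, h4, h5⟩
  refine ⟨h1, ?_, s, d, h3, h4, h5⟩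
  by_contra hcon
  unfold tp at h3
  rw [if_pos h1, List.getElem?_eq_none (by omega)] at h3
  cases h3

/-- The machine simulates window runs. -/
lemma simulate (l : List (Sym A)) (k : ℕ) {q : M.State} {h : ℕ} {seen : ℕ} {c : M.State × ℤ}
    (hr : ReflTransGen (WStep (mv M) (tp l) 0 k) (q, (h : ℤ)) c) (hc : 0 ≤ c.2) :
    ∃ seen' ≤ max seen k,
      ReflTransGen M.Step (⟨q, h, l, seen⟩ : Config M) ⟨c.1, c.2.toNat, l, seen'⟩ := by
  induction hr with
  | refl => exact ⟨seen, le_max_left _ _, by simpa using ReflTransGen.refl⟩
  | @tail c c' _ hstep ih =>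
    obtain ⟨h1, h2, s, d, h3, h4, h5⟩ := hstep
    obtain ⟨seen', hs', hr'⟩ := ih h1
    refine ⟨max seen' (c.2.toNat + 1), ?_, hr'.tail ?_⟩
    · have : c.2.toNat + 1 ≤ k := by omega
      exact max_le hs' (this.trans (le_max_right _ _))
    · have h3' : l[c.2.toNat]? = some s := by
        unfold tp at h3
        rwa [if_pos h1] at h3
      refine ⟨s, s, d, h3', h4, Or.inl rfl, ?_, rfl, ?_⟩
      · exact (set_same h3').symm
      · apply moves_of_toInt
        rw [Int.toNat_of_nonneg hc, Int.toNat_of_nonneg h1]
        exact h5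

/-- Window runs on an initial part of the tape. -/
lemma run_init {u v : List (Sym A)} {c c' : M.State × ℤ} :
    ReflTransGen (WStep (mv M) (tp (u ++ v)) 0 u.length) c c' ↔
      ReflTransGen (WStep (mv M) (tp u) 0 u.length) c c' := by
  constructor
  · intro h
    have := wrun_shift (mv M) (T := tp (u ++ v)) (T' := tp u) (lo := 0) (hi := u.length) (k := 0)
      (by intro z h1 h2; rw [tp_append_left (by omega), add_zero]) h
    simpa using this
  · intro h
    have := wrun_shift (mv M) (T := tp u) (T' := tp (u ++ v)) (lo := 0) (hi := u.length) (k := 0)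
      (by intro z h1 h2; rw [add_zero, tp_append_left (by omega)]) h
    simpa using this

lemma accepts_of_accNo {w : List A} (h : AccNo M w) : M.Accepts w := by
  obtain ⟨qf, hqf, h⟩ := h
  unfold beh WBeh at h
  simp only [ent, ext] at h
  obtain ⟨seen', _, h2⟩ := simulate M (initTape w) (initTape w).length (q := M.start) (h := 0)
    (seen := 0) (by simpa using h) (by simp)
  exact ⟨_, h2, by simp, hqf⟩

lemma accepts_of_markAcc {u : List A} {a : A} {v : List A} (h : MarkAcc M u a v) :
    M.Accepts (u ++ a :: v) := by
  obtain ⟨q, q', d, qf, h1, h2, hqf, h3⟩ := h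
  unfold beh WBeh at h1
  simp only [ent, ext] at h1
  rw [← run_init M (v := Sym.plain a :: (v.map Sym.plain ++ [Sym.rend]))] at h1
  obtain ⟨s1, hs1, r1⟩ := simulate M (initTape (u ++ a :: v)) (u.length + 1) (q := M.start)
    (h := 0) (seen := 0) (c := (q, ((u.length + 1 : ℕ) : ℤ)))
    (by
      rw [initTape_eq]
      simpa [tapeOf] using h1) (by simp; omega)
  have hst : M.Step (⟨q, u.length + 1, initTape (u ++ a :: v), s1⟩ : Config M)
      ⟨q', ((u.length : ℤ) + 1 + d.toInt).toNat, tapeOf u (Sym.marked a) v,
        max s1 (u.length + 1 + 1)⟩ := by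
    refine ⟨Sym.plain a, Sym.marked a, d, ?_, h2, Or.inr ⟨?_, a, rfl, rfl⟩, ?_, rfl, ?_⟩
    · simp only
      rw [initTape_eq]
      exact tapeOf_get _ _ _
    · simp only
      simpa using hs1
    · simp only
      rw [initTape_eq, tapeOf_set]
    · apply moves_of_toInt
      simp only
      cases d <;> simp only [Dir.toInt] <;> omega
  obtain ⟨s2, _, r2⟩ := simulate M (tapeOf u (Sym.marked a) v) (tapeOf u (Sym.marked a) v).length
    (q := q') (h := ((u.length : ℤ) + 1 + d.toInt).toNat) (seen := max s1 (u.length + 1 + 1))
    (c := (qf, ((tapeOf u (Sym.marked a) v).length : ℤ)))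
    (by
      rw [Int.toNat_of_nonneg (by cases d <;> simp only [Dir.toInt] <;> omega)]
      exact h3) (by simp)
  refine ⟨_, (r1.tail (by simpa using hst)).trans r2, by simp, hqf⟩

/-- The invariant. -/
def Inv (w : List A) (c : Config M) : Prop :=
  (c.tape = initTape w ∧ c.head ≤ c.seen ∧
    ReflTransGen (WStep (mv M) (tp (initTape w)) 0 c.seen) (M.start, 0) (c.state, (c.head : ℤ))) ∨
  ∃ (u : List A) (a : A) (v : List A) (q q' : M.State) (d : Dir), w = u ++ a :: v ∧
    beh (mv M) (Sym.lend :: u.map Sym.plain) (false, M.start) (true, q) ∧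
    (q', Sym.marked a, d) ∈ M.trans q (Sym.plain a) ∧ c.tape = tapeOf u (Sym.marked a) v ∧
    ReflTransGen (WStep (mv M) (tp (tapeOf u (Sym.marked a) v)) 0
      (tapeOf u (Sym.marked a) v).length) (q', (u.length : ℤ) + 1 + d.toInt)
      (c.state, (c.head : ℤ))

lemma initTape_plain {w : List A} {h : ℕ} {a : A} (hp : (initTape w)[h]? = some (Sym.plain a)) :
    ∃ u v, w = u ++ a :: v ∧ h = u.length + 1 := by
  unfold initTape at hp
  cases h with
  | zero => simp at hp
  | succ h =>
    rw [List.getElem?_cons_succ] at hp
    by_cases hh : h < w.length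
    · rw [List.getElem?_append_left (by simpa using hh), List.getElem?_map,
        List.getElem?_eq_getElem hh] at hp
      simp only [Option.map_some, Option.some.injEq, Sym.plain.injEq] at hp
      refine ⟨w.take h, w.drop (h + 1), ?_, ?_⟩
      · rw [← hp, List.getElem_cons_drop, List.take_append_drop]
      · simp; omega
    · rw [List.getElem?_append_right (by simp; omega)] at hp
      rcases Nat.eq_zero_or_pos (h - (w.map Sym.plain).length) with h0 | h0
      · rw [h0] at hp; simp at hp
      · rw [List.getElem?_eq_none (by simp at h0 ⊢; omega)] at hp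
        cases hp

lemma inv_of_reach (hM : M.IsOMLA) {w : List A} {c : Config M}
    (h : ReflTransGen M.Step (M.init w) c) : Inv M w c := by
  induction h with
  | refl => exact Or.inl ⟨rfl, le_rfl, ReflTransGen.refl⟩
  | @tail c c' hr hstep ih =>
    have hr' : ReflTransGen M.Step (M.init w) c' := hr.tail hstep
    obtain ⟨s, s', d, h1, h2, h3, h4, h5, h6⟩ := hstep
    have h6' := moves_toInt h6
    rcases ih with ⟨t1, t2, t3⟩ | ⟨u, a, v, q, q', d', rfl, t1, t2, t3, t4⟩
    · rcases h3 with rfl | ⟨h3, a, rfl, rfl⟩
      · left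
        refine ⟨?_, ?_, ?_⟩
        · rw [h4, set_same h1, t1]
        · have : c'.head ≤ c.head + 1 := by
            cases d <;> simp only [Dir.Moves] at h6 <;> omega
          rw [h5]
          exact this.trans (le_max_right _ _)
        · refine (wrun_mono (mv M) le_rfl ?_ t3).tail ⟨by simp, ?_, s', d, ?_, h2, h6'⟩
          · rw [h5]; push_cast; exact le_max_left _ _
          · simp only
            rw [h5]; push_cast
            exact lt_of_lt_of_le (by omega) (le_max_right _ _)
          · simp only
            rw [tp_nat, ← t1, h1]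
      · right
        have hh : c.head = c.seen := le_antisymm t2 h3
        rw [t1] at h1
        obtain ⟨u, v, rfl, hu⟩ := initTape_plain h1
        refine ⟨u, a, v, c.state, c'.state, d, rfl, ?_, h2, ?_, ?_⟩
        · unfold beh WBeh
          simp only [ent, ext]
          rw [← run_init M (v := Sym.plain a :: (v.map Sym.plain ++ [Sym.rend]))]
          rw [← hh, hu, initTape_eq] at t3
          simpa [tapeOf] using t3
        · rw [h4, t1, hu, initTape_eq, tapeOf_set]
        · rw [h6', hu]
          push_cast
          exact ReflTransGen.refl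
    · right
      rcases h3 with rfl | ⟨h3, b, rfl, rfl⟩
      · refine ⟨u, a, v, q, q', d', rfl, t1, t2, ?_, ?_⟩
        · rw [h4, set_same h1, t3]
        · refine t4.tail ⟨by simp, ?_, s', d, ?_, h2, h6'⟩
          · simp only
            by_contra hcon
            rw [← t3] at hcon
            rw [List.getElem?_eq_none (by omega)] at h1
            cases h1
          · simp only
            rw [tp_nat, ← t3, h1]
      · exfalso
        have hne : c.head ≠ u.length + 1 := by
          intro hcon
          rw [hcon, t3, tapeOf_get] at h1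
          cases h1
        have hl : c.head < c.tape.length := by
          by_contra hcon
          rw [List.getElem?_eq_none (by omega)] at h1
          cases h1
        apply hne
        refine hM _ c' hr' _ _ b a ?_ ?_
        · rw [h4, List.getElem?_set_self hl]
        · rw [h4, List.getElem?_set_ne hne, t3, tapeOf_get]

theorem accepts_iff (hM : M.IsOMLA) (w : List A) :
    M.Accepts w ↔ AccNo M w ∨ ∃ u a v, w = u ++ a :: v ∧ MarkAcc M u a v := by
  constructor
  · rintro ⟨c, hc, hh, hf⟩
    rcases inv_of_reach M hM hc with ⟨t1, t2, t3⟩ | ⟨u, a, v, q, q', d', rfl, t1, t2, t3, t4⟩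
    · left
      refine ⟨c.state, hf, ?_⟩
      unfold beh WBeh
      simp only [ent, ext]
      have := wrun_bound t3
      rwa [hh, t1] at this
    · right
      refine ⟨u, a, v, rfl, q, q', d', c.state, t1, t2, hf, ?_⟩
      rwa [hh, t3] at t4
  · rintro (h | ⟨u, a, v, rfl, h⟩)
    · exact accepts_of_accNo M h
    · exact accepts_of_markAcc M h

end H61.Omla
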