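import Pool.Agent.helper61.SMain

set_option autoImplicit false
set_option linter.unusedSectionVars false

/-!
# Pumping untouched windows
-/

namespace H61.SA

variable {S : Type} [Monoid S] [Fintype S]

/-- Product, types of the final parts and of the initial parts. -/
@[ext] structure Ty (S : Type) where
  e : S
  A : Set S
  B : Set S

instance : Monoid (Ty S) where
  one := ⟨1, ∅, ∅⟩
  mul x y := ⟨x.e * y.e, (fun s => s * y.e) '' x.A ∪ y.A, x.B ∪ (fun p => x.e * p) '' y.B⟩
  one_mul x := by
    change Ty.mk (1 * x.e) ((fun s => s * x.e) '' ∅ ∪ x.A) (∅ ∪ (fun p => 1 * p) '' x.B) = x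
    simp
  mul_one x := by
    change Ty.mk (x.e * 1) ((fun s => s * 1) '' x.A ∪ ∅) (x.B ∪ (fun p => x.e * p) '' ∅) = x
    simp
  mul_assoc x y z := by
    change Ty.mk (x.e * y.e * z.e) ((fun s => s * z.e) '' ((fun s => s * y.e) '' x.A ∪ y.A) ∪ z.A)
      ((x.B ∪ (fun p => x.e * p) '' y.B) ∪ (fun p => x.e * y.e * p) '' z.B) =
      Ty.mk (x.e * (y.e * z.e)) ((fun s => s * (y.e * z.e)) '' x.A ∪
        ((fun s => s * z.e) '' y.A ∪ z.A)) (x.B ∪ (fun p => x.e * p) ''
          (y.B ∪ (fun p => y.e * p) '' z.B))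
    ext x1
    · rw [mul_assoc]
    · simp only [Set.image_union, Set.image_image, mul_assoc, Set.union_assoc]
    · simp only [Set.image_union, Set.image_image, mul_assoc, Set.union_assoc]

lemma Ty.one_def : (1 : Ty S) = ⟨1, ∅, ∅⟩ := rfl

lemma Ty.mul_def (x y : Ty S) : x * y =
    ⟨x.e * y.e, (fun s => s * y.e) '' x.A ∪ y.A, x.B ∪ (fun p => x.e * p) '' y.B⟩ := rfl

instance : Finite (Ty S) :=
  Finite.of_injective (fun x : Ty S => (x.e, x.A, x.B)) fun x y h => by
    simp only [Prod.mk.injEq] at h
    exact Ty.ext h.1 h.2.1 h.2.2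

/-- The type of a word. -/
noncomputable def ty (w : List S) : Ty S := ⟨w.prod, {s | 0 < suf w s}, {p | 0 < pre w p}⟩

lemma ty_nil : ty ([] : List S) = 1 := by
  rw [Ty.one_def]
  unfold ty
  simp [suf, sufSum, pre, preSum]

lemma ty_append (u v : List S) : ty (u ++ v) = ty u * ty v := by
  rw [Ty.mul_def]
  ext x
  · change (u ++ v).prod = u.prod * v.prod
    rw [List.prod_append]
  · change 0 < suf (u ++ v) x ↔ x ∈ (fun s => s * v.prod) '' {s | 0 < suf u s} ∪ {s | 0 < suf v s}
    have h : suf (u ++ v) x = sufSum (fun t => ind {x} (t * v.prod)) u + suf v x := by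
      unfold suf
      rw [sufSum_append]
    rw [h]
    constructor
    · intro hpos
      rcases Nat.eq_zero_or_pos (suf v x) with h0 | h0
      · left
        obtain ⟨t, h1, h2⟩ := exists_of_sufSum_pos (f := fun t => ind {x} (t * v.prod)) (w := u)
          (by omega)
        exact ⟨t, h2, ind_pos h1⟩
      · right; exact h0
    · rintro (⟨t, h1, h2⟩ | h1)
      · have := sufSum_pos (f := fun t => ind {x} (t * v.prod)) (w := u) (s := t) (by
          rw [ind_of_mem (by exact h2)]; omega) h1
        omega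
      · have : 0 < suf v x := h1
        omega
  · change 0 < pre (u ++ v) x ↔ x ∈ {s | 0 < pre u s} ∪ (fun s => u.prod * s) '' {s | 0 < pre v s}
    have h : pre (u ++ v) x = pre u x + preSum (fun t => ind {x} (u.prod * t)) v := by
      unfold pre
      rw [preSum_append]
    rw [h]
    constructor
    · intro hpos
      rcases Nat.eq_zero_or_pos (pre u x) with h0 | h0
      · right
        obtain ⟨t, h1, h2⟩ := exists_of_preSum_pos (f := fun t => ind {x} (u.prod * t)) (w := v)
          (by omega)
        exact ⟨t, h2, ind_pos h1⟩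
      · left; exact h0
    · rintro (h1 | ⟨t, h1, h2⟩)
      · have : 0 < pre u x := h1
        omega
      · have := preSum_pos (f := fun t => ind {x} (u.prod * t)) (w := v) (s := t) (by
          rw [ind_of_mem (by exact h2)]; omega) h1
        omega

lemma ty_prod (w : List S) : (w.map fun a => ty [a]).prod = ty w := by
  induction w with
  | nil => rw [ty_nil]; rfl
  | cons a w ih =>
    rw [List.map_cons, List.prod_cons, ih, ← ty_append]
    rfl

/-- Crossing pairs. -/
noncomputable def cr (R : Set S) (u v : List S) : ℕ :=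
  sufSum (fun s => preSum (fun p => ind R (s * p)) v) u

lemma cr_zero_iff {R : Set S} {u v : List S} : cr R u v = 0 ↔
    ∀ s ∈ (ty u).A, ∀ p ∈ (ty v).B, s * p ∉ R := by
  constructor
  · intro h s hs p hp hsp
    have h1 : 0 < preSum (fun p => ind R (s * p)) v :=
      preSum_pos (s := p) (by rw [ind_of_mem hsp]; omega) hp
    have h2 := sufSum_pos (f := fun s => preSum (fun p => ind R (s * p)) v) (w := u) h1 hs
    unfold cr at h
    omega
  · intro h
    by_contra hcon
    obtain ⟨s, h1, h2⟩ := exists_of_sufSum_pos (Nat.pos_of_ne_zero hcon)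
    obtain ⟨p, h3, h4⟩ := exists_of_preSum_pos h1
    exact h s h2 p h4 (ind_pos h3)

lemma pairs_app (R : Set S) (u v : List S) : pairs R (u ++ v) = pairs R u + pairs R v + cr R u v :=
  pairs_append R u v

lemma fac_two {T : Type} [Monoid T] {n : ℕ} {w : List T} (h : Fac n w) : 2 ^ n < w.length →
    ∃ a z1 z2 b, ∃ e : T, w = a ++ z1 ++ z2 ++ b ∧ z1 ≠ [] ∧ z2 ≠ [] ∧ e * e = e ∧ z1.prod = e ∧
      z2.prod = e := by
  have key : ∀ {u v : List T} {k : ℕ},
      (2 ^ k < u.length → ∃ a z1 z2 b, ∃ e : T, u = a ++ z1 ++ z2 ++ b ∧ z1 ≠ [] ∧ z2 ≠ [] ∧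
        e * e = e ∧ z1.prod = e ∧ z2.prod = e) → 2 ^ k < u.length →
      ∃ a z1 z2 b, ∃ e : T, u ++ v = a ++ z1 ++ z2 ++ b ∧ z1 ≠ [] ∧ z2 ≠ [] ∧
        e * e = e ∧ z1.prod = e ∧ z2.prod = e := by
    intro u v k hu hk
    obtain ⟨a, z1, z2, b, e, rfl, h⟩ := hu hk
    exact ⟨a, z1, z2, b ++ v, e, by simp, h⟩
  induction h with
  | leaf n a =>
    intro h
    have := Nat.one_le_two_pow (n := n)
    simp only [List.length_singleton] at h
    omega
  | @bin n u v _ _ ih1 ih2 =>
    intro h
    rw [List.length_append, pow_succ] at h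
    by_cases hu : 2 ^ n < u.length
    · exact key ih1 hu
    · obtain ⟨a, z1, z2, b, e, rfl, h'⟩ := ih2 (by omega)
      exact ⟨u ++ a, z1, z2, b, e, by simp, h'⟩
  | @idem n e us h1 h2 h3 h4 ih =>
    intro h
    rcases us with _ | ⟨u1, _ | ⟨u2, us⟩⟩
    · exact absurd rfl h1
    · simp only [List.flatten_cons, List.flatten_nil, List.append_nil] at h ⊢
      rw [pow_succ] at h
      exact ih u1 (by simp) (by omega)
    · refine ⟨[], u1, u2, us.flatten, e, by simp, ?_, ?_, h2, h4 u1 (by simp), h4 u2 (by simp)⟩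
      · exact (h3 u1 (by simp)).ne_nil
      · exact (h3 u2 (by simp)).ne_nil

/-- Powers of a word with idempotent type. -/
lemma ty_wpow {z : List S} (hz : ty z * ty z = ty z) (m : ℕ) : ty (wpow z (m + 1)) = ty z := by
  induction m with
  | zero => rw [wpow_succ, wpow_zero, List.append_nil]
  | succ m ih => rw [wpow_succ, ty_append, ih, hz]

lemma pairs_wpow_zero {R : Set S} {z : List S} (hz : ty z * ty z = ty z) (h0 : pairs R z = 0)
    (h1 : ∀ s ∈ (ty z).A, ∀ p ∈ (ty z).B, s * p ∉ R) (m : ℕ) : pairs R (wpow z (m + 1)) = 0 := by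
  induction m with
  | zero => rw [wpow_succ, wpow_zero, List.append_nil, h0]
  | succ m ih =>
    rw [wpow_succ, pairs_app, ih, h0, cr_zero_iff.2 (by rw [ty_wpow hz]; exact h1)]

/-- Replacing a part of a word. -/
lemma pairs_replace {R : Set S} {x v v' y : List S} (hty : ty v = ty v') (h0 : pairs R v' = 0)
    (hc1 : cr R x v = 0) (hc2 : cr R v y = 0) :
    pairs R (x ++ v' ++ y) ≤ pairs R (x ++ v ++ y) := by
  rw [pairs_app, pairs_app, pairs_app, pairs_app, h0]
  have e1 : cr R x v' = 0 := by rw [cr_zero_iff, ← hty, ← cr_zero_iff]; exact hc1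
  have e2 : cr R (x ++ v') y = cr R (x ++ v) y := by
    have hp : v'.prod = v.prod := (congrArg Ty.e hty).symm
    have e3 : cr R v' y = 0 := by rw [cr_zero_iff, ← hty, ← cr_zero_iff]; exact hc2
    unfold cr at e3 hc2 ⊢
    rw [sufSum_append, sufSum_append, e3, hc2, hp]
  rw [e1, e2]
  omega

/-- Chopping a word. -/
lemma exists_chop (B : ℕ) (m : ℕ) : ∀ w : List S, (m + 1) * B ≤ w.length →
    ∃ us : List (List S), us.flatten = w ∧ us.length = m + 1 ∧ ∀ u ∈ us, B ≤ u.length := by
  induction m with
  | zero => intro w h; exact ⟨[w], by simp, rfl, by simpa using h⟩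
  | succ m ih =>
    intro w h
    obtain ⟨us, h1, h2, h3⟩ := ih (w.drop B) (by
      rw [List.length_drop]
      have : (m + 1 + 1) * B = (m + 1) * B + B := by ring
      omega)
    refine ⟨w.take B :: us, by rw [List.flatten_cons, h1, List.take_append_drop],
      by rw [List.length_cons, h2], ?_⟩
    intro u hu
    rcases List.mem_cons.1 hu with rfl | hu
    · rw [List.length_take]
      have : (m + 1 + 1) * B = (m + 1) * B + B := by ring
      have : B ≤ w.length := by nlinarith
      omega
    · exact h3 u hu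

/-- An untouched block. -/
lemma exists_untouched {R : Set S} (us : List (List S)) : ∀ x : List S,
    2 * pairs R us.flatten + cr R x us.flatten < us.length →
    ∃ a v b, us = a ++ v :: b ∧ pairs R v = 0 ∧ cr R (x ++ a.flatten) v = 0 ∧
      cr R v b.flatten = 0 := by
  induction us with
  | nil => intro x h; simp at h
  | cons v us ih =>
    intro x h
    by_cases h0 : pairs R v = 0 ∧ cr R x v = 0 ∧ cr R v us.flatten = 0
    · exact ⟨[], v, us, rfl, h0.1, by simpa using h0.2.1, h0.2.2⟩
    · obtain ⟨a, v', b, rfl, h1, h2, h3⟩ := ih (x ++ v) (by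
        rw [List.length_cons, List.flatten_cons, pairs_app] at h
        have e1 : cr R x (v ++ us.flatten) = cr R x v +
            sufSum (fun s => preSum (fun p => ind R (s * (v.prod * p))) us.flatten) x := by
          unfold cr
          rw [← sufSum_add]
          congr 1
          funext s
          rw [preSum_append]
        have e2 : cr R (x ++ v) us.flatten =
            sufSum (fun s => preSum (fun p => ind R (s * (v.prod * p))) us.flatten) x +
              cr R v us.flatten := by
          unfold cr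
          rw [sufSum_append]
          simp only [mul_assoc]
        rw [e1] at h
        rw [e2]
        omega)
      refine ⟨v :: a, v', b, rfl, h1, ?_, h3⟩
      rw [List.flatten_cons, ← List.append_assoc]
      exact h2

theorem window {Λ R L : Set S} (hg : ∀ c, ∃ r, ∀ w, Good Λ L w → r ≤ w.length → c < pairs R w) :
    ∃ C, ∀ w, Good Λ L w → w.length ≤ C * (pairs R w + 1) := by
  obtain ⟨H, hH⟩ := exists_fac_bound (Ty S)
  refine ⟨2 * (2 ^ H + 1), fun w hw => ?_⟩
  by_contra hcon
  push Not at hcon
  obtain ⟨us, h1, h2, h3⟩ := exists_chop (2 ^ H + 1) (2 * pairs R w) w (by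
    have h5 : 2 * (2 ^ H + 1) * (pairs R w + 1) =
      (2 * pairs R w + 1) * (2 ^ H + 1) + (2 ^ H + 1) := by ring
    refine le_trans ?_ hcon.le
    rw [h5]
    exact Nat.le_add_right _ _)
  obtain ⟨a, v, b, q1, q2, q3, q4⟩ := exists_untouched (R := R) us [] (by
    rw [h1, h2]
    change 2 * pairs R w + 0 < _
    omega)
  rw [List.nil_append] at q3
  have hv : 2 ^ H + 1 ≤ v.length := h3 v (by rw [q1]; simp)
  have hvne : v ≠ [] := by
    intro h
    rw [h] at hv
    simp at hv
  obtain ⟨a', z1', z2', b', e, r1, r2, r3, r4, r5, r6⟩ := fac_two (hH (v.map fun a => ty [a])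
    (by simpa using hvne)) (by rw [List.length_map]; omega)
  obtain ⟨v1, y1, s1, s2, s3⟩ := List.map_eq_append_iff.1 r1
  obtain ⟨v2, z2, t1, t2, t3⟩ := List.map_eq_append_iff.1 s2
  obtain ⟨y0, z1, u1, u2, u3⟩ := List.map_eq_append_iff.1 t2
  have tz1 : ty z1 = e := by rw [← ty_prod, u3, r5]
  have tz2 : ty z2 = e := by rw [← ty_prod, t3, r6]
  have hz2ne : 1 ≤ z2.length := by
    rw [← List.length_map (f := fun a => ty [a]), t3]
    exact List.length_pos_iff.2 r3
  have hveq : v = y0 ++ z1 ++ z2 ++ y1 := by rw [s1, t1, u1]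
  have hid : ty z2 * ty z2 = ty z2 := by rw [tz2, r4]
  -- no pairs inside
  have hz12 : pairs R (z1 ++ z2) = 0 := by
    have h4 := pairs_mono_mid R y0 (z1 ++ z2) y1
    rw [← List.append_assoc y0, ← hveq, q2] at h4
    omega
  rw [pairs_app] at hz12
  have hzz : ∀ s ∈ (ty z2).A, ∀ p ∈ (ty z2).B, s * p ∉ R := by
    have h4 : cr R z1 z2 = 0 := by omega
    rw [cr_zero_iff, tz1] at h4
    rw [tz2] at h4 ⊢
    exact h4
  -- the pumped words
  have hpump : ∀ m, pairs R (a.flatten ++ (y0 ++ (z1 ++ wpow z2 (m + 1)) ++ y1) ++ b.flatten) ≤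
      pairs R w ∧ ty (a.flatten ++ (y0 ++ (z1 ++ wpow z2 (m + 1)) ++ y1) ++ b.flatten) = ty w := by
    intro m
    have hw' : w = a.flatten ++ v ++ b.flatten := by
      rw [← h1, q1, List.flatten_append, List.flatten_cons, List.append_assoc]
    have tyv : ty v = ty (y0 ++ (z1 ++ wpow z2 (m + 1)) ++ y1) := by
      rw [hveq]
      simp only [ty_append, ty_wpow hid]
      simp only [mul_assoc]
    constructor
    · rw [hw']
      refine pairs_replace tyv ?_ q3 q4
      have hv' : v = y0 ++ (z1 ++ z2) ++ y1 := by rw [hveq]; simp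
      have q2' : pairs R (y0 ++ (z1 ++ z2) ++ y1) = 0 := by rw [← hv']; exact q2
      have := pairs_replace (R := R) (x := y0) (v := z1 ++ z2) (v' := z1 ++ wpow z2 (m + 1))
        (y := y1) (by rw [ty_append, ty_append, ty_wpow hid]) (by
          rw [pairs_app, pairs_wpow_zero hid (by omega) hzz m]
          have h5 : cr R z1 (wpow z2 (m + 1)) = 0 := by
            rw [cr_zero_iff, ty_wpow hid, tz1]
            rw [tz2] at hzz ⊢
            exact hzz
          omega) (by
          rw [pairs_app, pairs_app] at q2'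
          omega) (by
          rw [pairs_app, pairs_app] at q2'
          have h6 : cr R (y0 ++ (z1 ++ z2)) y1 = 0 := by omega
          rw [cr_zero_iff, ty_append, Ty.mul_def] at h6
          rw [cr_zero_iff]
          intro s hs p hp
          exact h6 s (Or.inr hs) p hp)
      omega
    · rw [hw', ty_append, ty_append, ← tyv, ty_append, ty_append]
  obtain ⟨r, hr⟩ := hg (pairs R w)
  obtain ⟨hp1, hp2⟩ := hpump r
  have hmem : ∀ x ∈ v, x ∈ Λ := fun x hx => hw.1 x (by
    rw [← h1, q1, List.flatten_append, List.flatten_cons]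
    exact List.mem_append_right _ (List.mem_append_left _ hx))
  refine absurd (hr (a.flatten ++ (y0 ++ (z1 ++ wpow z2 (r + 1)) ++ y1) ++ b.flatten)
    ⟨?_, ?_⟩ ?_) (by omega)
  · intro x hx
    have hx' : x ∈ a.flatten ∨ x ∈ v ∨ x ∈ b.flatten := by
      rw [hveq]
      simp only [List.mem_append] at hx ⊢
      rcases hx with (h | (h | (h | h)) | h) | h
      · exact Or.inl h
      · exact Or.inr (Or.inl (Or.inl (Or.inl (Or.inl h))))
      · exact Or.inr (Or.inl (Or.inl (Or.inl (Or.inr h))))
      · exact Or.inr (Or.inl (Or.inl (Or.inr (mem_wpow h))))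
      · exact Or.inr (Or.inl (Or.inr h))
      · exact Or.inr (Or.inr h)
    rcases hx' with h | h | h
    · exact hw.1 x (by rw [← h1, q1, List.flatten_append]; exact List.mem_append_left _ h)
    · exact hmem x h
    · exact hw.1 x (by
        rw [← h1, q1, List.flatten_append, List.flatten_cons]
        exact List.mem_append_right _ (List.mem_append_right _ h))
  · have := congrArg Ty.e hp2
    change List.prod _ = w.prod at this
    rw [this]
    exact hw.2
  · simp only [List.length_append, wpow_length]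
    nlinarith

end H61.SA
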