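import Pool.Agent.helper61.SAFlat
import Pool.Agent.helper61.SWin

set_option autoImplicit false
set_option linter.unusedSectionVars false

/-!
# Annotated words
-/

namespace H61.SA

/-! ### The monoid of relations -/

/-- Relations on `X`. -/
@[ext] structure RelM (X : Type) where
  r : X → X → Prop

instance (X : Type) : Monoid (RelM X) where
  one := ⟨fun a b => a = b⟩
  mul s t := ⟨fun a b => ∃ c, s.r a c ∧ t.r c b⟩
  one_mul s := by
    change RelM.mk _ = s
    ext a b
    constructor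
    · rintro ⟨c, rfl, h⟩; exact h
    · intro h; exact ⟨a, rfl, h⟩
  mul_one s := by
    change RelM.mk _ = s
    ext a b
    constructor
    · rintro ⟨c, h, rfl⟩; exact h
    · intro h; exact ⟨b, h, rfl⟩
  mul_assoc s t u := by
    change RelM.mk _ = RelM.mk _
    ext a b
    constructor
    · rintro ⟨c, ⟨d, h1, h2⟩, h3⟩; exact ⟨d, h1, c, h2, h3⟩
    · rintro ⟨d, h1, c, h2, h3⟩; exact ⟨c, ⟨d, h1, h2⟩, h3⟩

lemma RelM.mul_r {X : Type} (s t : RelM X) (a b : X) :
    (s * t).r a b ↔ ∃ c, s.r a c ∧ t.r c b := Iff.rfl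

lemma RelM.one_r {X : Type} (a b : X) : (1 : RelM X).r a b ↔ a = b := Iff.rfl

instance (X : Type) [Finite X] : Finite (RelM X) :=
  Finite.of_injective RelM.r fun _ _ h => RelM.ext h

noncomputable instance (X : Type) [Finite X] : Fintype (RelM X) := Fintype.ofFinite _

instance (Q : Type) [Finite Q] : Finite (Res Q) :=
  Finite.of_injective (fun r : Res Q => match r with
    | Res.here q => some (Sum.inl q)
    | Res.ret q => some (Sum.inr q)
    | Res.acc => (none : Option (Q ⊕ Q))) fun a b h => by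
      cases a <;> cases b <;> simp at h <;> simp [h]

/-! ### Vertices -/

/-- Entries. -/
abbrev En (Q : Type) := Q × Option Q

/-- Interfaces: the symbol above, the available entries, the state after the push, the result. -/
abbrev Intf (Γ Q : Type) := Option Γ × Set (En Q) × Q × Res Q

/-- Vertices of the relations. -/
abbrev Vx (Γ Q : Type) := Option (Intf Γ Q) ⊕ (Bool ⊕ En Q)

variable {A Γ Q : Type}

abbrev vi (i : Option (Intf Γ Q)) : Vx Γ Q := Sum.inl i
abbrev vt : Vx Γ Q := Sum.inr (Sum.inl true)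
abbrev vb : Vx Γ Q := Sum.inr (Sum.inl false)
abbrev ve (x : En Q) : Vx Γ Q := Sum.inr (Sum.inr x)

/-- Formal costs. -/
abbrev FC (Q : Type) := ℕ × (En Q → ℕ)

open Classical in
/-- The indicator of a proposition. -/
noncomputable def pind (b : Prop) : ℕ := if b then 1 else 0

lemma pind_of {b : Prop} (h : b) : pind b = 1 := if_pos h

lemma pind_of_not {b : Prop} (h : ¬ b) : pind b = 0 := if_neg h

/-- The unit vectors. -/
noncomputable def sg (x : En Q) : En Q → ℕ := fun y => pind (y = x)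

lemma sg_same (x : En Q) : sg x x = 1 := pind_of rfl

lemma sg_ne {x y : En Q} (h : y ≠ x) : sg x y = 0 := pind_of_not h

lemma sum_sg [Fintype Q] (x : En Q) (g : En Q → ℕ) : ∑ y, sg x y * g y = g x := by
  rw [Finset.sum_eq_single x]
  · rw [sg_same, one_mul]
  · intro y _ hy
    rw [sg_ne hy, zero_mul]
  · intro h; exact absurd (Finset.mem_univ x) h

/-- Formal entries. -/
noncomputable def fm (T : Set (En Q)) : En Q → FC Q → Prop :=
  fun x F => x ∈ T ∧ F = (0, sg x)

/-- The unit of the formal costs. -/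
def fu : FC Q := (1, 0)

/-- The launched entries of a letter. -/
def Tl (a : RelM (Vx Γ Q)) : Set (En Q) := {x | a.r vt (ve x)}

/-- The entries used by the entry `x`. -/
def fl (a : RelM (Vx Γ Q)) (x : En Q) : Set (En Q) := {y | a.r (ve x) (ve y)}

/-- A walk on the top with entries in `T`; `b` holds if a letter is read on the way. -/
def WOK (M : Aut A Γ Q) (γ : Option Γ) (T : Set (En Q)) (b : Prop) (p : Q) (r : Res Q) : Prop :=
  ∃ F d, TW M (fu : FC Q) γ (fm T) p r F d ∧ (0 < F.1 → b)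

/-- An entry with entries in `T` below. -/
def EOK (M : Aut A Γ Q) (γ : Option Γ) (T : Set (En Q)) (b : Prop) (x : En Q) : Prop :=
  ∃ F, Ent M (fu : FC Q) γ (fm T) x F ∧ (0 < F.1 → b)

/-- Valid letters. -/
structure Val (M : Aut A Γ Q) (a : RelM (Vx Γ Q)) : Prop where
  bot : ∀ c, ¬ a.r vb c
  top : ∀ c, ¬ a.r c vt
  ti : ∀ i, ¬ a.r vt (vi i)
  ei : ∀ x i, ¬ a.r (ve x) (vi i)
  ii : ∀ i c, a.r (vi i) c → ∃ j, c = vi (some j)
  main : ∀ (o : Option (Intf Γ Q)) (γ : Option Γ) (D : Set (En Q)) (p : Q) (r : Res Q),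
    a.r (vi o) (vi (some (γ, D, p, r))) →
      Tl a ⊆ D ∧
      (o = none → WOK M γ (Tl a) (a.r vt vb) p r) ∧
      ∀ (γ' : Option Γ) (D' : Set (En Q)) (p' : Q) (r' : Res Q), o = some (γ', D', p', r') →
        (∃ g, γ' = some g ∧ ∃ q x, (x, Act.push g, p') ∈ M.δ q γ ∧ (x ≠ none → a.r vt vb) ∧
          WOK M γ (Tl a) (a.r vt vb) p (Res.here q)) ∧
        ((r' = Res.acc ∧ r = Res.acc) ∨
          ∃ q, r' = Res.ret q ∧ WOK M γ (Tl a) (a.r vt vb) q r) ∧
        ∀ x ∈ D', fl a x ⊆ D ∧ EOK M γ (fl a x) (a.r (ve x) vb) x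

/-- The initial interface. -/
def ini (M : Aut A Γ Q) : Intf Γ Q := (none, ∅, M.q0, Res.acc)

/-- The valid letters. -/
def Lam (M : Aut A Γ Q) : Set (RelM (Vx Γ Q)) := {a | Val M a}

/-- The complete words. -/
def LL (M : Aut A Γ Q) : Set (RelM (Vx Γ Q)) := {s | s.r (vi none) (vi (some (ini M)))}

/-- The paying pairs. -/
def RR : Set (RelM (Vx Γ Q)) := {s | s.r vt vb}

/-! ### Counting -/

section counting

variable [Finite Γ] [Finite Q]

lemma preSum_congr' {S : Type} [Monoid S] (w : List S) : ∀ {f g : S → ℕ},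
    (∀ u v, w = u ++ v → u ≠ [] → f u.prod = g u.prod) → preSum f w = preSum g w := by
  induction w with
  | nil => intro f g _; rfl
  | cons a w ih =>
    intro f g h
    rw [preSum, preSum]
    have h1 := h [a] w rfl (by simp)
    rw [List.prod_singleton] at h1
    rw [h1, ih (f := fun p => f (a * p)) (g := fun p => g (a * p))]
    intro u v huv _
    have := h (a :: u) v (by rw [huv]; rfl) (by simp)
    rwa [List.prod_cons] at this

/-- The number of cells where a letter is read below, starting from entries in `T`. -/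
noncomputable def NT (w : List (RelM (Vx Γ Q))) (T : Set (En Q)) : ℕ :=
  preSum (ind {s | ∃ x ∈ T, s.r (ve x) vb}) w

lemma prod_bot {M : Aut A Γ Q} {w : List (RelM (Vx Γ Q))} (hw : ∀ a ∈ w, a ∈ Lam M)
    (hne : w ≠ []) (c : Vx Γ Q) : ¬ w.prod.r vb c := by
  obtain ⟨a, w', rfl⟩ := List.exists_cons_of_ne_nil hne
  rw [List.prod_cons, RelM.mul_r]
  rintro ⟨d, h1, -⟩
  exact (hw a (by simp)).bot d h1

lemma NT_cons {M : Aut A Γ Q} {a : RelM (Vx Γ Q)} {w : List (RelM (Vx Γ Q))}
    (ha : Val M a) (hw : ∀ a ∈ w, a ∈ Lam M) (T : Set (En Q)) :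
    NT (a :: w) T = ind {s | ∃ x ∈ T, s.r (ve x) vb} a + NT w {y | ∃ x ∈ T, a.r (ve x) (ve y)} := by
  unfold NT
  rw [preSum]
  congr 1
  refine preSum_congr' w fun u v huv hu => ?_
  unfold ind
  congr 1
  apply propext
  change (∃ x ∈ T, (a * u.prod).r (ve x) vb) ↔
    ∃ y ∈ {y | ∃ x ∈ T, a.r (ve x) (ve y)}, u.prod.r (ve y) vb
  have hu' : ∀ a ∈ u, a ∈ Lam M := fun b hb => hw b (by rw [huv]; exact List.mem_append_left _ hb)
  constructor
  · rintro ⟨x, hx, c, h1, h2⟩
    rcases c with i | b | y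
    · exact absurd h1 (ha.ei x i)
    · cases b with
      | true => exact absurd h1 (ha.top _)
      | false => exact absurd h2 (prod_bot hu' hu _)
    · exact ⟨y, ⟨x, hx, h1⟩, h2⟩
  · rintro ⟨y, ⟨x, hx, h1⟩, h2⟩
    exact ⟨x, hx, ve y, h1, h2⟩

lemma pairs_cons {M : Aut A Γ Q} {a : RelM (Vx Γ Q)} {w : List (RelM (Vx Γ Q))}
    (ha : Val M a) (hw : ∀ a ∈ w, a ∈ Lam M) :
    pairs RR (a :: w) = ind RR a + NT w (Tl a) + pairs RR w := by
  rw [pairs, preSum]
  congr 2
  unfold NT
  refine preSum_congr' w fun u v huv hu => ?_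
  unfold ind
  congr 1
  apply propext
  change (a * u.prod).r vt vb ↔ ∃ y ∈ Tl a, u.prod.r (ve y) vb
  have hu' : ∀ a ∈ u, a ∈ Lam M := fun b hb => hw b (by rw [huv]; exact List.mem_append_left _ hb)
  constructor
  · rintro ⟨c, h1, h2⟩
    rcases c with i | b | y
    · exact absurd h1 (ha.ti i)
    · cases b with
      | true => exact absurd h1 (ha.top _)
      | false => exact absurd h2 (prod_bot hu' hu _)
    · exact ⟨y, h1, h2⟩
  · rintro ⟨y, h1, h2⟩
    exact ⟨ve y, h1, h2⟩

open Classical in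
/-- The cells where a letter is read below. -/
noncomputable def Ks : List (RelM (Vx Γ Q)) → Set (En Q) → Finset ℕ
  | [], _ => ∅
  | a :: w, T => (if ∃ x ∈ T, a.r (ve x) vb then {w.length} else ∅) ∪
      Ks w {y | ∃ x ∈ T, a.r (ve x) (ve y)}

lemma Ks_mono (w : List (RelM (Vx Γ Q))) : ∀ {T T' : Set (En Q)}, T ⊆ T' → Ks w T ⊆ Ks w T' := by
  classical
  induction w with
  | nil => intro T T' _; exact Finset.Subset.refl _
  | cons a w ih =>
    intro T T' h
    unfold Ks
    refine Finset.union_subset_union ?_ (ih ?_)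
    · split_ifs with h1 h2 h2
      · exact Finset.Subset.refl _
      · obtain ⟨x, hx, hx'⟩ := h1
        exact absurd ⟨x, h hx, hx'⟩ h2
      · exact Finset.empty_subset _
      · exact Finset.empty_subset _
    · rintro y ⟨x, hx, hx'⟩
      exact ⟨x, h hx, hx'⟩

lemma Ks_card {M : Aut A Γ Q} (w : List (RelM (Vx Γ Q))) : ∀ (_ : ∀ a ∈ w, a ∈ Lam M)
    (T : Set (En Q)), (Ks w T).card ≤ NT w T := by
  classical
  induction w with
  | nil => intro _ T; simp [Ks, NT, preSum]
  | cons a w ih =>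
    intro hw T
    rw [NT_cons (hw a (by simp)) (fun b hb => hw b (List.mem_cons_of_mem _ hb))]
    unfold Ks
    refine (Finset.card_union_le _ _).trans (add_le_add ?_
      (ih (fun b hb => hw b (List.mem_cons_of_mem _ hb)) _))
    split_ifs with h
    · rw [ind_of_mem (by exact h)]; simp
    · simp

lemma NT_le_sum (w : List (RelM (Vx Γ Q))) (T : Set (En Q)) [Fintype (En Q)] :
    NT w T ≤ ∑ x : En Q, pind (x ∈ T) * NT w {x} := by
  classical
  have h0 : ∑ x : En Q, pind (x ∈ T) * NT w {x} = ∑ x : En Q, if x ∈ T then NT w {x} else 0 := by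
    refine Finset.sum_congr rfl fun x _ => ?_
    split_ifs with h
    · rw [pind_of h, one_mul]
    · rw [pind_of_not h, zero_mul]
  rw [h0]
  unfold NT
  have h1 : ∀ s : RelM (Vx Γ Q), ind {s | ∃ x ∈ T, s.r (ve x) vb} s ≤
      ∑ x ∈ Finset.univ.filter (· ∈ T), ind {s | ∃ y ∈ ({x} : Set (En Q)), s.r (ve y) vb} s := by
    intro s
    by_cases h : s ∈ {s : RelM (Vx Γ Q) | ∃ x ∈ T, s.r (ve x) vb}
    · rw [ind_of_mem h]
      obtain ⟨x, hx, hs⟩ := h
      have h2 : ind {s : RelM (Vx Γ Q) | ∃ y ∈ ({x} : Set (En Q)), s.r (ve y) vb} s = 1 :=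
        ind_of_mem ⟨x, rfl, hs⟩
      rw [← h2]
      exact Finset.single_le_sum
        (f := fun x => ind {s : RelM (Vx Γ Q) | ∃ y ∈ ({x} : Set (En Q)), s.r (ve y) vb} s)
        (fun _ _ => Nat.zero_le _) (Finset.mem_filter.2 ⟨Finset.mem_univ x, hx⟩)
    · rw [ind_of_notMem h]; exact Nat.zero_le _
  refine (preSum_mono w h1).trans (le_of_eq ?_)
  rw [preSum_finset, Finset.sum_filter]

end counting

end H61.SA
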