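import Pool.Agent.helper61.SAB2

set_option autoImplicit false
set_option linter.unusedSectionVars false

/-!
# From runs to annotated words
-/

namespace H61.SA

variable {A Γ Q : Type} [Fintype Γ] [Fintype Q]

/-- The entries with some cost. -/
def Dm (low : En Q → ℕ → Prop) : Set (En Q) := {x | ∃ m, low x m}

/-- The minimal cost of an entry. -/
noncomputable def opt (low : En Q → ℕ → Prop) (x : En Q) : ℕ := sInf {m | low x m}

lemma WOK.mono {M : Aut A Γ Q} {γ : Option Γ} {T T' : Set (En Q)} {b b' : Prop} {p : Q}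
    {r : Res Q} (h : WOK M γ T b p r) (hT : T ⊆ T') (hb : b → b') : WOK M γ T' b' p r := by
  obtain ⟨F, d, h1, h2⟩ := h
  exact ⟨F, d, h1.mono fun x m hx => ⟨hT hx.1, hx.2⟩, fun h3 => hb (h2 h3)⟩

section formal

variable (low : En Q → ℕ → Prop)

lemma rel_formal : Rel (1 : ℕ) (fu : FC Q) fun n F => F.1 + ∑ x, F.2 x * opt low x ≤ n := by
  refine ⟨by simp, by simp [fu], ?_⟩
  intro a b a' b' h1 h2
  change (a'.1 + b'.1) + ∑ x, (a'.2 x + b'.2 x) * opt low x ≤ a + b
  have : ∑ x, (a'.2 x + b'.2 x) * opt low x =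
      ∑ x, a'.2 x * opt low x + ∑ x, b'.2 x * opt low x := by
    rw [← Finset.sum_add_distrib]
    exact Finset.sum_congr rfl fun x _ => add_mul _ _ _
  omega

lemma low_formal (x : En Q) (n : ℕ) (h : low x n) :
    ∃ F : FC Q, F.1 + ∑ x, F.2 x * opt low x ≤ n ∧ fm (Dm low) x F := by
  refine ⟨(0, sg x), ?_, ⟨⟨n, h⟩, rfl⟩⟩
  change 0 + ∑ y, sg x y * opt low y ≤ n
  rw [zero_add, sum_sg]
  exact Nat.sInf_le h

open Classical in
lemma formal_sum {F : FC Q} {n : ℕ} (h : F.1 + ∑ x, F.2 x * opt low x ≤ n) :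
    pind (0 < F.1) + ∑ x, pind (x ∈ {x | x ∈ Dm low ∧ 0 < F.2 x}) * opt low x ≤ n := by
  refine le_trans (add_le_add ?_ (Finset.sum_le_sum fun x _ => ?_)) h
  · unfold pind
    split_ifs <;> omega
  · by_cases hx : x ∈ {x | x ∈ Dm low ∧ 0 < F.2 x}
    · rw [pind_of hx, one_mul]
      exact Nat.le_mul_of_pos_left _ hx.2
    · rw [pind_of_not hx, zero_mul]
      exact Nat.zero_le _

lemma restr_formal {F : FC Q} (x : En Q) (m : FC Q) (h : restr (fm (Dm low)) F x m) :
    fm {x | x ∈ Dm low ∧ 0 < F.2 x} x m := by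
  obtain ⟨⟨h1, h2⟩, k, h3⟩ := h
  refine ⟨⟨h1, ?_⟩, h2⟩
  have h4 := congrFun (congrArg Prod.snd h3) x
  rw [h2] at h4
  change sg x x + k.2 x = F.2 x at h4
  rw [sg_same] at h4
  omega

open Classical in
lemma tw_formal {M : Aut A Γ Q} {γ : Option Γ} {p : Q} {r : Res Q} {n d : ℕ}
    (h : TW M 1 γ low p r n d) : ∃ (T : Set (En Q)) (b : Prop), T ⊆ Dm low ∧ WOK M γ T b p r ∧
      pind b + ∑ x, pind (x ∈ T) * opt low x ≤ n := by
  obtain ⟨F, h1, h2⟩ := h.sim (rel_formal low) (low_formal low)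
  refine ⟨{x | x ∈ Dm low ∧ 0 < F.2 x}, 0 < F.1, fun x hx => hx.1, ⟨F, d, ?_, fun h => h⟩,
    formal_sum low h1⟩
  exact h2.restr.mono (restr_formal low)

open Classical in
lemma ent_formal {M : Aut A Γ Q} {γ : Option Γ} {x : En Q} {n : ℕ}
    (h : Ent M 1 γ low x n) : ∃ (T : Set (En Q)) (b : Prop), T ⊆ Dm low ∧ EOK M γ T b x ∧
      pind b + ∑ x, pind (x ∈ T) * opt low x ≤ n := by
  obtain ⟨F, h1, h2⟩ := h.sim (rel_formal low) (low_formal low)
  refine ⟨{x | x ∈ Dm low ∧ 0 < F.2 x}, 0 < F.1, fun x hx => hx.1, ⟨F, ?_, fun h => h⟩,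
    formal_sum low h1⟩
  exact h2.restr.mono (restr_formal low)

end formal

/-! ### Letters -/

/-- A letter. -/
def mk (o : Option (Intf Γ Q)) (ι : Intf Γ Q) (T : Set (En Q)) (b : Prop) (f : En Q → Set (En Q))
    (β : En Q → Prop) : RelM (Vx Γ Q) :=
  ⟨fun a c => (a = vi o ∧ c = vi (some ι)) ∨ (a = vt ∧ ((∃ x ∈ T, c = ve x) ∨ (c = vb ∧ b))) ∨
    ∃ x, a = ve x ∧ ((∃ y ∈ f x, c = ve y) ∨ (c = vb ∧ β x))⟩

section mk

variable {o : Option (Intf Γ Q)} {ι : Intf Γ Q} {T : Set (En Q)} {b : Prop}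
  {f : En Q → Set (En Q)} {β : En Q → Prop}

lemma mk_te (x : En Q) : (mk o ι T b f β).r vt (ve x) ↔ x ∈ T := by
  simp [mk, vi, vt, ve, vb, -Prod.exists]

lemma mk_tb : (mk o ι T b f β).r vt vb ↔ b := by
  simp [mk, vi, vt, ve, vb, -Prod.exists]

lemma mk_ee (x y : En Q) : (mk o ι T b f β).r (ve x) (ve y) ↔ y ∈ f x := by
  simp [mk, vi, vt, ve, vb, -Prod.exists]

lemma mk_eb (x : En Q) : (mk o ι T b f β).r (ve x) vb ↔ β x := by
  simp [mk, vi, vt, ve, vb, -Prod.exists]

lemma mk_ii (i : Option (Intf Γ Q)) (c : Vx Γ Q) :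
    (mk o ι T b f β).r (vi i) c ↔ i = o ∧ c = vi (some ι) := by
  simp [mk, vi, vt, ve, vb, -Prod.exists]

lemma mk_val {M : Aut A Γ Q} {γ : Option Γ} {D : Set (En Q)} {p : Q} {r : Res Q}
    (hT : T ⊆ D) (h1 : o = none → WOK M γ T b p r)
    (h2 : ∀ (γ' : Option Γ) (D' : Set (En Q)) (p' : Q) (r' : Res Q), o = some (γ', D', p', r') →
        (∃ g, γ' = some g ∧ ∃ q x, (x, Act.push g, p') ∈ M.δ q γ ∧ (x ≠ none → b) ∧
          WOK M γ T b p (Res.here q)) ∧
        ((r' = Res.acc ∧ r = Res.acc) ∨ ∃ q, r' = Res.ret q ∧ WOK M γ T b q r) ∧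
        ∀ x ∈ D', f x ⊆ D ∧ EOK M γ (f x) (β x) x) :
    Val M (mk o (γ, D, p, r) T b f β) := by
  have hTl : Tl (mk o (γ, D, p, r) T b f β) = T := Set.ext fun x => mk_te x
  have hfl : ∀ x, fl (mk o (γ, D, p, r) T b f β) x = f x := fun x => Set.ext fun y => mk_ee x y
  have hb : (mk o (γ, D, p, r) T b f β).r vt vb = b := propext mk_tb
  have hβ : ∀ x, (mk o (γ, D, p, r) T b f β).r (ve x) vb = β x := fun x => propext (mk_eb x)
  refine ⟨?_, ?_, ?_, ?_, ?_, ?_⟩
  · intro c h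
    simp [mk, vi, vt, ve, vb, -Prod.exists] at h
  · intro c h
    simp [mk, vi, vt, ve, vb, -Prod.exists] at h
  · intro i h
    simp [mk, vi, vt, ve, vb, -Prod.exists] at h
  · intro x i h
    simp [mk, vi, vt, ve, vb, -Prod.exists] at h
  · intro i c h
    rw [mk_ii] at h
    exact ⟨_, h.2⟩
  · intro o' γ1 D1 p1 r1 h
    rw [mk_ii] at h
    obtain ⟨rfl, h⟩ := h
    simp only [vi, Sum.inl.injEq, Option.some.injEq, Prod.mk.injEq] at h
    obtain ⟨rfl, rfl, rfl, rfl⟩ := h
    simp only [hTl, hfl, hb, hβ]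
    exact ⟨hT, h1, h2⟩

end mk

open Classical in
lemma NT_le_opt {low : En Q → ℕ → Prop} {w : List (RelM (Vx Γ Q))}
    (h : ∀ x ∈ Dm low, NT w {x} ≤ opt low x) {T : Set (En Q)} (hT : T ⊆ Dm low) :
    NT w T ≤ ∑ x, pind (x ∈ T) * opt low x := by
  refine (NT_le_sum w T).trans (Finset.sum_le_sum fun x _ => ?_)
  by_cases hx : x ∈ T
  · exact Nat.mul_le_mul_left _ (h x (hT hx))
  · rw [pind_of_not hx, zero_mul, zero_mul]

theorem b1 (M : Aut A Γ Q) (k : ℕ) : ∀ (st : List Γ) (w : List (RelM (Vx Γ Q))) (p : Q) (r : Res Q)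
    (n d : ℕ), TW M 1 st.head? (lowOf M st) p r n d → k ≤ d → (∀ a ∈ w, a ∈ Lam M) →
    w.prod.r (vi (some (st.head?, Dm (lowOf M st), p, r))) (vi (some (ini M))) →
    (∀ x ∈ Dm (lowOf M st), NT w {x} ≤ opt (lowOf M st) x) →
    ∃ w', Good (Lam M) (LL M) w' ∧ w'.length = w.length + (k + 1) ∧
      pairs RR w' ≤ pairs RR w + n := by
  classical
  induction k with
  | zero =>
    intro st w p r n d h _ hw hprod hNT
    obtain ⟨T, b, h1, h2, h3⟩ := tw_formal _ h
    set a : RelM (Vx Γ Q) := mk none (st.head?, Dm (lowOf M st), p, r) T b (fun _ => ∅)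
      (fun _ => False) with ha
    have hval : Val M a := mk_val h1 (fun _ => h2) (fun γ' D' p' r' h => by simp at h)
    refine ⟨a :: w, ⟨?_, ?_⟩, by simp, ?_⟩
    · intro x hx
      rcases List.mem_cons.1 hx with rfl | hx
      · exact hval
      · exact hw x hx
    · change (a :: w).prod.r (vi none) (vi (some (ini M)))
      rw [List.prod_cons, RelM.mul_r]
      exact ⟨_, (mk_ii _ _).2 ⟨rfl, rfl⟩, hprod⟩
    · rw [pairs_cons hval hw]
      have hTl : Tl a = T := Set.ext fun x => mk_te x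
      have hb : ind RR a = pind b := by
        unfold ind pind
        congr 1
        exact propext mk_tb
      rw [hTl, hb]
      have := NT_le_opt hNT h1
      omega
  | succ k ih =>
    intro st w p r n d h hk hw hprod hNT
    obtain ⟨q, n1, d1, x, g, p', r', n2, d2, n3, s1, s2, s3, s4, s5, s6⟩ := h.split hk
    obtain ⟨T1, b1, t1, t2, t3⟩ := tw_formal _ s1
    have hcont : ∃ (T3 : Set (En Q)) (b3 : Prop), T3 ⊆ Dm (lowOf M st) ∧
        pind b3 + ∑ x, pind (x ∈ T3) * opt (lowOf M st) x ≤ n3 ∧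
        ((r' = Res.acc ∧ r = Res.acc) ∨ ∃ q, r' = Res.ret q ∧ WOK M st.head? T3 b3 q r) := by
      rcases s5 with ⟨q', rfl, e, s5⟩ | ⟨rfl, rfl, rfl⟩
      · obtain ⟨T3, b3, u1, u2, u3⟩ := tw_formal _ s5
        exact ⟨T3, b3, u1, u3, Or.inr ⟨q', rfl, u2⟩⟩
      · exact ⟨∅, False, Set.empty_subset _, by simp [pind], Or.inl ⟨rfl, rfl⟩⟩
    obtain ⟨T3, b3, u1, u2, u3⟩ := hcont
    -- the entries of the new cell
    have hent : ∀ y : En Q, ∃ (T : Set (En Q)) (b : Prop), y ∈ Dm (entOf M st) →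
        T ⊆ Dm (lowOf M st) ∧ EOK M st.head? T b y ∧
        pind b + ∑ x, pind (x ∈ T) * opt (lowOf M st) x ≤ opt (entOf M st) y := by
      intro y
      by_cases hy : y ∈ Dm (entOf M st)
      · have h1 : entOf M st y (opt (entOf M st) y) := Nat.sInf_mem (s := {m | entOf M st y m}) hy
        rw [entOf_eq] at h1
        obtain ⟨T, b, v1, v2, v3⟩ := ent_formal _ h1
        refine ⟨T, b, fun _ => ⟨v1, v2, ?_⟩⟩
        rw [← entOf_eq] at v3
        exact v3
      · exact ⟨∅, False, fun h => absurd h hy⟩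
    choose f β hfβ using hent
    set a : RelM (Vx Γ Q) := mk (some (some g, Dm (entOf M st), p', r'))
      (st.head?, Dm (lowOf M st), p, r) (T1 ∪ T3) (b1 ∨ x ≠ none ∨ b3) f β with ha
    have hval : Val M a := by
      refine mk_val (Set.union_subset t1 u1) (fun h => by simp at h) ?_
      intro γ' D' p'' r'' h
      simp only [Option.some.injEq, Prod.mk.injEq] at h
      obtain ⟨rfl, rfl, rfl, rfl⟩ := h
      refine ⟨⟨g, rfl, q, x, s2, fun h => Or.inr (Or.inl h),
        t2.mono Set.subset_union_left Or.inl⟩, ?_, fun y hy => ⟨(hfβ y hy).1, (hfβ y hy).2.1⟩⟩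
      rcases u3 with u3 | ⟨q', u3, u4⟩
      · exact Or.inl u3
      · exact Or.inr ⟨q', u3, u4.mono Set.subset_union_right fun h => Or.inr (Or.inr h)⟩
    have hTl : Tl a = T1 ∪ T3 := Set.ext fun x => mk_te x
    have hb : ind RR a = pind (b1 ∨ x ≠ none ∨ b3) := by
      unfold ind pind
      congr 1
      exact propext mk_tb
    rw [← entOf_eq] at s3
    obtain ⟨w', x1, x2, x3⟩ := ih (g :: st) (a :: w) p' r' n2 d2 s3 s4 (by
      intro y hy
      rcases List.mem_cons.1 hy with rfl | hy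
      · exact hval
      · exact hw y hy) (by
      rw [List.prod_cons, RelM.mul_r]
      exact ⟨_, (mk_ii _ _).2 ⟨rfl, rfl⟩, hprod⟩) (by
      intro y hy
      change y ∈ Dm (entOf M st) at hy
      change _ ≤ opt (entOf M st) y
      obtain ⟨v1, v2, v3⟩ := hfβ y hy
      rw [NT_cons hval hw]
      have e1 : ind {s : RelM (Vx Γ Q) | ∃ x ∈ ({y} : Set (En Q)), s.r (ve x) vb} a =
          pind (β y) := by
        unfold ind pind
        congr 1
        apply propext
        constructor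
        · rintro ⟨z, hz, h⟩
          rw [Set.mem_singleton_iff] at hz
          subst hz
          exact (mk_eb _).1 h
        · intro h
          exact ⟨y, rfl, (mk_eb _).2 h⟩
      have e2 : {z | ∃ x ∈ ({y} : Set (En Q)), a.r (ve x) (ve z)} = f y := by
        ext z
        constructor
        · rintro ⟨z', hz, h⟩
          rw [Set.mem_singleton_iff] at hz
          subst hz
          exact (mk_ee _ _).1 h
        · intro h
          exact ⟨y, rfl, (mk_ee _ _).2 h⟩
      rw [e1, e2]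
      have := NT_le_opt hNT v1
      omega)
    refine ⟨w', x1, by rw [x2, List.length_cons]; omega, x3.trans ?_⟩
    rw [pairs_cons hval hw, hTl, hb]
    have e3 := NT_le_opt hNT (Set.union_subset t1 u1)
    have e4 : ∑ x, pind (x ∈ T1 ∪ T3) * opt (lowOf M st) x ≤
        ∑ x, pind (x ∈ T1) * opt (lowOf M st) x +
          ∑ x, pind (x ∈ T3) * opt (lowOf M st) x := by
      rw [← Finset.sum_add_distrib]
      refine Finset.sum_le_sum fun y _ => ?_
      by_cases h1 : y ∈ T1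
      · rw [pind_of (Set.mem_union_left _ h1), pind_of h1]; omega
      · by_cases h3 : y ∈ T3
        · rw [pind_of (Set.mem_union_right _ h3), pind_of h3]; omega
        · rw [pind_of_not (fun h : y ∈ T1 ∪ T3 => h.elim h1 h3)]; omega
    have e5 : pind (b1 ∨ x ≠ none ∨ b3) ≤ pind b1 + cost 1 x + pind b3 := by
      unfold pind
      cases x with
      | none =>
        change _ ≤ _ + 0 + _
        split_ifs <;> simp_all
      | some y =>
        change _ ≤ _ + 1 + _
        split_ifs <;> omega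
    omega

/-- Every accepting run gives a complete word over the valid letters. -/
theorem word_of_run {M : Aut A Γ Q} {u : List A} {h : ℕ} {c : Conf Γ Q} (hr : Run M M.init u h c)
    (hF : c.q ∈ M.F) {k : ℕ} (hk : k ≤ h) : ∃ w, Good (Lam M) (LL M) w ∧ w.length = k + 1 ∧
      pairs RR w ≤ u.length := by
  have h1 := exists_tw hr hF
  obtain ⟨w, h2, h3, h4⟩ := b1 M k [] [] M.q0 Res.acc u.length h h1 hk (by simp) (by
    rw [List.prod_nil, RelM.one_r]
    simp only [vi, ini, Sum.inl.injEq, Option.some.injEq, Prod.mk.injEq, List.head?_nil, and_true,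
      true_and]
    ext x
    constructor
    · rintro ⟨m, hm⟩; exact hm.elim
    · intro hx; exact absurd hx (Set.notMem_empty x)) (by
    rintro x ⟨m, hm⟩
    exact hm.elim)
  refine ⟨w, h2, by rw [h3]; simp, h4.trans (by simp [pairs])⟩

end H61.SA
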