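import Pool.Agent.helper61.SAAnn

set_option autoImplicit false
set_option linter.unusedSectionVars false

/-!
# From annotated words to runs
-/

namespace H61.SA

variable {A Γ Q : Type} [Fintype Γ] [Fintype Q]

lemma wok_bound (M : Aut A Γ Q) : ∃ B : ℕ, ∀ γ T b p r, WOK M γ T b p r →
    ∃ F d, TW M (fu : FC Q) γ (fm T) p r F d ∧ (0 < F.1 → b) ∧ F.1 ≤ B ∧ ∀ x, F.2 x ≤ B := by
  classical
  have h : ∀ i : Option Γ × Set (En Q) × Prop × Q × Res Q, ∃ B : ℕ,
      WOK M i.1 i.2.1 i.2.2.1 i.2.2.2.1 i.2.2.2.2 →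
      ∃ F d, TW M (fu : FC Q) i.1 (fm i.2.1) i.2.2.2.1 i.2.2.2.2 F d ∧ (0 < F.1 → i.2.2.1) ∧
        F.1 ≤ B ∧ ∀ x, F.2 x ≤ B := by
    intro i
    by_cases hi : WOK M i.1 i.2.1 i.2.2.1 i.2.2.2.1 i.2.2.2.2
    · obtain ⟨F, d, h1, h2⟩ := hi
      refine ⟨F.1 + ∑ x, F.2 x, fun _ => ⟨F, d, h1, h2, Nat.le_add_right _ _, fun x => ?_⟩⟩
      exact (Finset.single_le_sum (f := F.2) (fun _ _ => Nat.zero_le _)
        (Finset.mem_univ x)).trans (Nat.le_add_left _ _)
    · exact ⟨0, fun h => absurd h hi⟩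
  choose β hβ using h
  have : Fintype (Option Γ × Set (En Q) × Prop × Q × Res Q) := Fintype.ofFinite _
  refine ⟨Finset.univ.sup β, fun γ T b p r hw => ?_⟩
  obtain ⟨F, d, h1, h2, h3, h4⟩ := hβ (γ, T, b, p, r) hw
  have hle : β (γ, T, b, p, r) ≤ Finset.univ.sup β := Finset.le_sup (Finset.mem_univ _)
  exact ⟨F, d, h1, h2, h3.trans hle, fun x => (h4 x).trans hle⟩

lemma wok_real {M : Aut A Γ Q} {st : List Γ} {T : Set (En Q)} {p : Q} {r : Res Q} {F : FC Q}
    {d V : ℕ} (h : TW M (fu : FC Q) st.head? (fm T) p r F d)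
    (hT : ∀ x ∈ T, FlatB M (Cheap M) st x V) :
    Concl M st p (F.1 + V * ∑ x, F.2 x) r := by
  classical
  have hρ : Rel (fu : FC Q) (1 : ℕ) fun F n => n = F.1 + V * ∑ x, F.2 x := by
    refine ⟨by simp, by simp [fu], ?_⟩
    intro a b a' b' h1 h2
    change a' + b' = (a.1 + b.1) + V * ∑ x, (a.2 x + b.2 x)
    rw [Finset.sum_add_distrib, h1, h2]
    ring
  obtain ⟨n, rfl, h2⟩ := h.sim hρ (low' := FlatB M (Cheap M) st) (by
    rintro x F' ⟨hx, rfl⟩
    refine ⟨V, ?_, hT x hx⟩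
    change V = 0 + V * ∑ y, sg x y
    have h1 := sum_sg x fun _ => 1
    simp only [mul_one] at h1
    rw [h1]
    omega)
  exact h2.flat st rfl fun _ _ h => h

/-- The rest of the run below. -/
def Fin' (M : Aut A Γ Q) (st : List Γ) (r : Res Q) (c : ℕ) : Prop :=
  r = Res.acc ∨ ∃ q g st' c', r = Res.ret q ∧ st = g :: st' ∧ Cheap M ⟨q, [], st'⟩ c c' ∧
    c'.q ∈ M.F

lemma finish {M : Aut A Γ Q} {st : List Γ} {p : Q} {r : Res Q} {n c : ℕ}
    (h1 : Concl M st p n r) (h2 : Fin' M st r c) :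
    ∃ c', Cheap M ⟨p, [], st⟩ (n + c) c' ∧ c'.q ∈ M.F := by
  rcases h2 with rfl | ⟨q, g, st', c', rfl, rfl, h3, h4⟩
  · obtain ⟨c', ⟨u, h, hu, hr⟩, h4⟩ := h1
    exact ⟨c', ⟨u, h, by omega, hr⟩, h4⟩
  · obtain ⟨g', w', h5, h6⟩ := h1
    rw [List.cons.injEq] at h5
    obtain ⟨rfl, rfl⟩ := h5
    exact ⟨c', h6.trans h3, h4⟩

lemma flatB_short {M : Aut A Γ Q} {st : List Γ} {x : En Q} {n : ℕ → ℕ}
    (h : FlatB M (VWalk M) st x n) {K : Finset ℕ} (hK : ∀ j, 0 < n j → j ∈ K) :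
    FlatB M (Cheap M) st x (Fintype.card Q * K.card) := by
  cases st with
  | nil => exact h.elim
  | cons g st => exact flatEnt_short h hK

/-- The cost constant. -/
noncomputable def B2 (Q : Type) [Fintype Q] (B : ℕ) : ℕ :=
  2 * B + 1 + 2 * (Fintype.card Q * (Fintype.card (En Q) * B))

/-- The cost of a walk at a letter. -/
lemma walk_cost {M : Aut A Γ Q} {B : ℕ}
    (hB : ∀ γ T b p r, WOK M γ T b p r → ∃ F d, TW M (fu : FC Q) γ (fm T) p r F d ∧
      (0 < F.1 → b) ∧ F.1 ≤ B ∧ ∀ x, F.2 x ≤ B) {w : List (RelM (Vx Γ Q))}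
    (hw : ∀ a ∈ w, a ∈ Lam M) {st : List Γ} {T : Set (En Q)} {b : Prop} {p : Q} {r : Res Q}
    (hT : ∀ x ∈ T, FlatB M (Cheap M) st x (Fintype.card Q * (Ks w T).card))
    (h : WOK M st.head? T b p r) : ∃ n, Concl M st p n r ∧
      n ≤ B * pind b + Fintype.card Q * (Fintype.card (En Q) * B) * NT w T := by
  obtain ⟨F, d, h1, h2, h3, h4⟩ := hB _ _ _ _ _ h
  refine ⟨_, wok_real h1 hT, add_le_add ?_ ?_⟩
  · by_cases hF : 0 < F.1
    · rw [pind_of (h2 hF), mul_one]; exact h3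
    · omega
  · have h5 : ∑ x, F.2 x ≤ Fintype.card (En Q) * B := by
      calc ∑ x, F.2 x ≤ ∑ _x : En Q, B := Finset.sum_le_sum fun x _ => h4 x
        _ = Fintype.card (En Q) * B := by simp
    calc Fintype.card Q * (Ks w T).card * ∑ x, F.2 x
        ≤ Fintype.card Q * NT w T * (Fintype.card (En Q) * B) :=
          Nat.mul_le_mul (Nat.mul_le_mul_left _ (Ks_card w hw T)) h5
      _ = _ := by ring

theorem b2 {M : Aut A Γ Q} {B : ℕ}
    (hB : ∀ γ T b p r, WOK M γ T b p r → ∃ F d, TW M (fu : FC Q) γ (fm T) p r F d ∧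
      (0 < F.1 → b) ∧ F.1 ≤ B ∧ ∀ x, F.2 x ≤ B) (w : List (RelM (Vx Γ Q))) :
    ∀ (_ : ∀ a ∈ w, a ∈ Lam M) (γ : Option Γ) (D : Set (En Q)) (p : Q) (r : Res Q),
    w.prod.r (vi (some (γ, D, p, r))) (vi (some (ini M))) →
    ∃ st : List Γ, st.head? = γ ∧ st.length = w.length ∧ ∃ c1 c2,
      Cheap M M.init c1 ⟨p, [], st⟩ ∧ Fin' M st r c2 ∧ c1 + c2 ≤ B2 Q B * pairs RR w ∧
      ∀ x ∈ D, ∃ v, FlatB M (VWalk M) st x v ∧ ∀ j, 0 < v j → j ∈ Ks w {x} := by
  classical
  induction w with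
  | nil =>
    intro _ γ D p r h
    rw [List.prod_nil, RelM.one_r] at h
    simp only [vi, ini, Sum.inl.injEq, Option.some.injEq, Prod.mk.injEq] at h
    obtain ⟨rfl, rfl, rfl, rfl⟩ := h
    refine ⟨[], rfl, rfl, 0, 0, Cheap.refl _ _, Or.inl rfl, by simp, ?_⟩
    intro x hx
    exact absurd hx (Set.notMem_empty x)
  | cons a w ih =>
    intro hw γ' D' p' r' h
    have ha : Val M a := hw a (by simp)
    have hw' : ∀ a ∈ w, a ∈ Lam M := fun b hb => hw b (List.mem_cons_of_mem _ hb)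
    rw [List.prod_cons, RelM.mul_r] at h
    obtain ⟨c, h1, h2⟩ := h
    obtain ⟨⟨γ, D, p, r⟩, rfl⟩ := ha.ii _ _ h1
    obtain ⟨st, hst, hlen, c1, c2, e1, e2, e3, e4⟩ := ih hw' γ D p r h2
    obtain ⟨m1, -, m2⟩ := ha.main _ _ _ _ _ h1
    obtain ⟨⟨g, rfl, q, x, m3, m4, m5⟩, m6, m7⟩ := m2 _ _ _ _ rfl
    have hT : ∀ y ∈ Tl a, FlatB M (Cheap M) st y (Fintype.card Q * (Ks w (Tl a)).card) := by
      intro y hy
      obtain ⟨v, hv1, hv2⟩ := e4 y (m1 hy)
      exact flatB_short hv1 fun j hj => Ks_mono w (Set.singleton_subset_iff.2 hy) (hv2 j hj)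
    rw [← hst] at m3 m5
    obtain ⟨n1, f1, f2⟩ := walk_cost hB hw' hT m5
    have hstep : Cheap M ⟨q, [], st⟩ (cost 1 x) ⟨p', [], g :: st⟩ := Cheap.step (Step.push m3)
    have hx : cost 1 x ≤ pind (a.r vt vb) := by
      cases x with
      | none => exact Nat.zero_le _
      | some x => rw [pind_of (m4 (by simp))]; exact le_rfl
    have hfin : ∃ c2', Fin' M (g :: st) r' c2' ∧ c2' ≤ B * pind (a.r vt vb) +
        Fintype.card Q * (Fintype.card (En Q) * B) * NT w (Tl a) + c2 := by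
      rcases m6 with ⟨rfl, -⟩ | ⟨q2, rfl, m6⟩
      · exact ⟨0, Or.inl rfl, Nat.zero_le _⟩
      · rw [← hst] at m6
        obtain ⟨n3, f3, f4⟩ := walk_cost hB hw' hT m6
        obtain ⟨c', f5, f6⟩ := finish f3 e2
        exact ⟨n3 + c2, Or.inr ⟨q2, g, st, c', rfl, rfl, f5, f6⟩, by omega⟩
    obtain ⟨c2', g1, g2⟩ := hfin
    refine ⟨g :: st, rfl, by rw [List.length_cons, List.length_cons, hlen], c1 + n1 + cost 1 x,
      c2', (e1.trans f1).trans hstep, g1, ?_, ?_⟩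
    · rw [pairs_cons ha hw']
      have hind : pind (a.r vt vb) = ind RR a := rfl
      rw [hind] at f2 hx g2
      unfold B2 at e3 ⊢
      generalize Fintype.card Q * (Fintype.card (En Q) * B) = K at *
      generalize NT w (Tl a) = N at *
      generalize ind RR a = i at *
      generalize pairs RR w = P at *
      nlinarith
    · intro x hx
      obtain ⟨m8, F, m9, m10⟩ := m7 x hx
      have hρ : Rel (fu : FC Q) (Pi.single st.length 1 : ℕ → ℕ) fun F v => ∀ j, 0 < v j →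
          (j = st.length ∧ 0 < F.1) ∨ ∃ y ∈ fl a x, 0 < F.2 y ∧ j ∈ Ks w {y} := by
        refine ⟨?_, ?_, ?_⟩
        · intro j hj
          exact absurd hj (by simp)
        · intro j hj
          left
          by_cases hj' : j = st.length
          · exact ⟨hj', by simp [fu]⟩
          · rw [Pi.single_eq_of_ne hj'] at hj
            exact absurd hj (by simp)
        · intro F1 F2 v1 v2 k1 k2 j hj
          change 0 < v1 j + v2 j at hj
          change (j = st.length ∧ 0 < F1.1 + F2.1) ∨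
            ∃ y ∈ fl a x, 0 < F1.2 y + F2.2 y ∧ j ∈ Ks w {y}
          rcases Nat.eq_zero_or_pos (v1 j) with h0 | h0
          · rcases k2 j (by omega) with ⟨l1, l2⟩ | ⟨y, l1, l2, l3⟩
            · exact Or.inl ⟨l1, by omega⟩
            · exact Or.inr ⟨y, l1, by omega, l3⟩
          · rcases k1 j h0 with ⟨l1, l2⟩ | ⟨y, l1, l2, l3⟩
            · exact Or.inl ⟨l1, by omega⟩
            · exact Or.inr ⟨y, l1, by omega, l3⟩
      obtain ⟨v, n1, n2⟩ := m9.sim hρ (low' := FlatB M (VWalk M) st) (by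
        rintro y F' ⟨hy, rfl⟩
        obtain ⟨v, hv1, hv2⟩ := e4 y (m8 hy)
        exact ⟨v, fun j hj => Or.inr ⟨y, hy, by
          change 0 < sg y y
          rw [sg_same]; omega, hv2 j hj⟩, hv1⟩)
      rw [← hst] at n2
      refine ⟨v, Ent.flat (κ := fun j => Pi.single j 1) (walkSys_v M) (fun _ _ h => h) n2, ?_⟩
      intro j hj
      unfold Ks
      rw [Finset.mem_union]
      rcases n1 j hj with ⟨l1, l2⟩ | ⟨y, l1, l2, l3⟩
      · left
        rw [if_pos ⟨x, rfl, m10 l2⟩, Finset.mem_singleton, l1, hlen]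
      · right
        refine Ks_mono w ?_ l3
        rw [Set.singleton_subset_iff]
        exact ⟨x, rfl, l1⟩

/-- Every complete word over the valid letters gives an accepting run. -/
theorem run_of_word (M : Aut A Γ Q) : ∃ C : ℕ, ∀ w, Good (Lam M) (LL M) w →
    ∃ (u : List A) (h : ℕ) (c : Conf Γ Q), Run M M.init u h c ∧ c.q ∈ M.F ∧
      w.length ≤ h + 1 ∧ u.length ≤ C * pairs RR w := by
  obtain ⟨B, hB⟩ := wok_bound M
  refine ⟨B2 Q B, fun w hw => ?_⟩
  cases w with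
  | nil =>
    have := hw.2
    rw [List.prod_nil] at this
    exact absurd this (by
      change ¬ ((vi none : Vx Γ Q) = vi (some (ini M)))
      simp [vi])
  | cons a w =>
    have ha : Val M a := hw.1 a (by simp)
    have hw' : ∀ a ∈ w, a ∈ Lam M := fun b hb => hw.1 b (List.mem_cons_of_mem _ hb)
    have h := hw.2
    change (a :: w).prod.r (vi none) (vi (some (ini M))) at h
    rw [List.prod_cons, RelM.mul_r] at h
    obtain ⟨c, h1, h2⟩ := h
    obtain ⟨⟨γ, D, p, r⟩, rfl⟩ := ha.ii _ _ h1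
    obtain ⟨st, hst, hlen, c1, c2, e1, e2, e3, e4⟩ := b2 hB w hw' γ D p r h2
    obtain ⟨m1, m2, -⟩ := ha.main _ _ _ _ _ h1
    have m5 := m2 rfl
    have hT : ∀ y ∈ Tl a, FlatB M (Cheap M) st y (Fintype.card Q * (Ks w (Tl a)).card) := by
      intro y hy
      obtain ⟨v, hv1, hv2⟩ := e4 y (m1 hy)
      exact flatB_short hv1 fun j hj => Ks_mono w (Set.singleton_subset_iff.2 hy) (hv2 j hj)
    rw [← hst] at m5
    obtain ⟨n1, f1, f2⟩ := walk_cost hB hw' hT m5
    obtain ⟨c', f5, f6⟩ := finish f1 e2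
    obtain ⟨u1, h1', k1, k2⟩ := e1
    obtain ⟨u2, h2', k3, k4⟩ := f5
    obtain ⟨H, k5, k6, k7⟩ := k2.trans k4
    refine ⟨u1 ++ u2, H, c', k5, f6, ?_, ?_⟩
    · have key : ∀ {c c' : Conf Γ Q} {u : List A} {h : ℕ}, Run M c u h c' → c'.size ≤ h := by
        intro c c' u h hr
        induction hr with
        | refl => exact le_rfl
        | step _ _ _ => exact le_max_right _ _
      have := key k2
      simp only [Conf.size, List.length_nil, zero_add] at this
      rw [List.length_cons]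
      omega
    · rw [List.length_append, pairs_cons ha hw']
      have hind : pind (a.r vt vb) = ind RR a := rfl
      rw [hind] at f2
      unfold B2 at e3 ⊢
      generalize Fintype.card Q * (Fintype.card (En Q) * B) = K at *
      generalize NT w (Tl a) = N at *
      generalize ind RR a = i at *
      generalize pairs RR w = P at *
      nlinarith

end H61.SA
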