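import Mathlib

set_option autoImplicit false

/-!
# Stack automata

The head of a one-way nondeterministic stack automaton scans one cell of the stack: the bottom
end-marker or a stack symbol.  A configuration `⟨q, up, down⟩` consists of the state, the part `up`
of the stack above the head (nearest symbol first) and the part `down` of the stack from the
scanned symbol downwards (scanned symbol first); if `down = []` the head scans the bottom marker.
The head is on the top of the stack iff `up = []`.
-/

namespace H61.SA

/-- The moves: the write moves `stay`, `push g`, `pop`, and the read moves which shift the head by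
`-1` (`left`, towards the bottom), `0` (`still`) and `+1` (`right`, towards the top). -/
inductive Act (Γ : Type) where
  | stay : Act Γ
  | push : Γ → Act Γ
  | pop : Act Γ
  | left : Act Γ
  | still : Act Γ
  | right : Act Γ

/-- A one-way nondeterministic stack automaton: `(a, m, q') ∈ δ q γ` means that in state `q`,
scanning the stack symbol `γ` (`none`: the bottom marker), the automaton may read the input letter
`a` (`none`: a `λ`-move), make the move `m` and go to the state `q'`. -/
structure Aut (A Γ Q : Type) where
  δ : Q → Option Γ → Set (Option A × Act Γ × Q)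
  q0 : Q
  F : Set Q

/-- Configurations (without the input). -/
structure Conf (Γ Q : Type) where
  q : Q
  up : List Γ
  down : List Γ

/-- The length of the stack. -/
def Conf.size {Γ Q : Type} (c : Conf Γ Q) : ℕ := c.up.length + c.down.length

/-- One step, reading `a`.  The write moves need the head on the top of the stack. -/
inductive Step {A Γ Q : Type} (M : Aut A Γ Q) : Conf Γ Q → Option A → Conf Γ Q → Prop
  | stay {q q' : Q} {a : Option A} {w : List Γ} :
      (a, Act.stay, q') ∈ M.δ q w.head? → Step M ⟨q, [], w⟩ a ⟨q', [], w⟩
  | push {q q' : Q} {a : Option A} {w : List Γ} {g : Γ} :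
      (a, Act.push g, q') ∈ M.δ q w.head? → Step M ⟨q, [], w⟩ a ⟨q', [], g :: w⟩
  | pop {q q' : Q} {a : Option A} {w : List Γ} {g : Γ} :
      (a, Act.pop, q') ∈ M.δ q (some g) → Step M ⟨q, [], g :: w⟩ a ⟨q', [], w⟩
  | left {q q' : Q} {a : Option A} {v w : List Γ} {g : Γ} :
      (a, Act.left, q') ∈ M.δ q (some g) → Step M ⟨q, v, g :: w⟩ a ⟨q', g :: v, w⟩
  | still {q q' : Q} {a : Option A} {v w : List Γ} :
      (a, Act.still, q') ∈ M.δ q w.head? → Step M ⟨q, v, w⟩ a ⟨q', v, w⟩
  | right {q q' : Q} {a : Option A} {v w : List Γ} {g : Γ} :
      (a, Act.right, q') ∈ M.δ q w.head? → Step M ⟨q, g :: v, w⟩ a ⟨q', v, g :: w⟩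

/-- `Run M c u h c'`: there is a run from `c` to `c'` which reads exactly the word `u`, and `h` is
the maximum stack length of its configurations. -/
inductive Run {A Γ Q : Type} (M : Aut A Γ Q) : Conf Γ Q → List A → ℕ → Conf Γ Q → Prop
  | refl (c : Conf Γ Q) : Run M c [] c.size c
  | step {c c' c'' : Conf Γ Q} {u : List A} {h : ℕ} {a : Option A} :
      Run M c u h c' → Step M c' a c'' → Run M c (u ++ a.toList) (max h c''.size) c''

/-- The initial configuration. -/
def Aut.init {A Γ Q : Type} (M : Aut A Γ Q) : Conf Γ Q := ⟨M.q0, [], []⟩

/-- A non-erasing stack automaton: no pop moves. -/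
def Aut.NonErasing {A Γ Q : Type} (M : Aut A Γ Q) : Prop :=
  ∀ (q : Q) (γ : Option Γ) (a : Option A) (q' : Q), (a, Act.pop, q') ∉ M.δ q γ

end H61.SA
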