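import Pool.Agent.helper61.SAStat

set_option autoImplicit false
set_option linter.unusedSectionVars false

/-!
# The classification
-/

namespace H61.SA

open Filter Asymptotics

section sep

variable {k : ℕ}

lemma sep_run {z : Meas} {v : List Unit} {H : ℕ} {c : Conf (Fin k) (Option (Bool × Fin k))} :
    Run ((sepAut k).forM z) ((sepAut k).forM z).init v H c ↔
      Run (sepAut k) (sepAut k).init v H c := by
  cases z with
  | accept => exact Iff.rfl
  | strong => exact run_strong

lemma sep_F {z : Meas} (q : Option (Bool × Fin k)) : q ∈ ((sepAut k).forM z).F := by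
  cases z with
  | accept => exact Set.mem_univ q
  | strong => exact Set.mem_univ q

lemma sep_limited (z : Meas) : (sepAut k).Limited z := by
  intro u hu
  obtain ⟨C, hC⟩ := sep_upper k
  have h1 : ((C * (u.length + 1) ^ k : ℕ) : ℕ∞) < (sepAut k).spaceOf z u := by
    rw [hu]; exact ENat.natCast_lt_top _
  rw [lt_spaceOf] at h1
  obtain ⟨H, hH, v, c, h2, -, h3, -⟩ := h1
  have h4 := hC (u.length + 1) (by omega) v H c (sep_run.1 h3) (by
    have := h2.length_le
    nlinarith)
  omega

lemma sep_space (hk : 1 ≤ k) (z : Meas) :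
    (fun n => ((sepAut k).space z n : ℝ)) =Θ[atTop] fun n => (n : ℝ) ^ ((k : ℝ) / (k + 1)) := by
  obtain ⟨C1, h1⟩ := sep_lower k
  obtain ⟨C2, h2⟩ := sep_upper k
  refine theta_pow (C := C1 + C2) hk ?_ ?_
  · intro l hl n hn
    obtain ⟨u, H, c, h3, h4, h5⟩ := h1 l hl n ((Nat.mul_le_mul_right _ (by omega)).trans hn)
    rcases Nat.eq_zero_or_pos H with h | h
    · omega
    · have h6 : H - 1 < (sepAut k).space z n := by
        rw [lt_space (sep_limited z)]
        refine ⟨u, h4, ?_⟩
        rw [lt_spaceOf]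
        exact ⟨H, by omega, u, c, List.prefix_refl u, fun _ => rfl, sep_run.2 h3, sep_F _⟩
      omega
  · intro l hl n hn
    rcases Nat.eq_zero_or_pos ((sepAut k).space z n) with h | h
    · have h3 := h2 l hl [] 0 _ (Run.refl _) (by simp)
      rw [h]
      exact h3.trans (Nat.mul_le_mul_right _ (by omega))
    · have h6 : (sepAut k).space z n - 1 < (sepAut k).space z n := by omega
      rw [lt_space (sep_limited z)] at h6
      obtain ⟨u, h4, h5⟩ := h6
      rw [lt_spaceOf] at h5
      obtain ⟨H, hH, v, c, h7, -, h8, -⟩ := h5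
      have h9 := h7.length_le
      have h10 : (sepAut k).space z n ≤ H := by omega
      have h11 := h2 l hl v H c (sep_run.1 h8) (by
        calc v.length ≤ n := by omega
          _ ≤ l * ((sepAut k).space z n + 1) := hn
          _ ≤ l * (H + 1) := Nat.mul_le_mul_left _ (by omega))
      calc (sepAut k).space z n + 1 ≤ H + 1 := by omega
        _ ≤ C2 * l ^ k := h11
        _ ≤ _ := Nat.mul_le_mul_right _ (by omega)

end sep

/-! ### Transfer to the given growth rate -/

/-- The non-decreasing version of `f`. -/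
def env (f : ℕ → ℕ) (n : ℕ) : ℕ := (Finset.range (n + 1)).sup f

lemma le_env (f : ℕ → ℕ) {m n : ℕ} (h : m ≤ n) : f m ≤ env f n :=
  Finset.le_sup (f := f) (Finset.mem_range.2 (by omega))

lemma env_attained (f : ℕ → ℕ) (n : ℕ) : ∃ m ≤ n, env f n = f m := by
  obtain ⟨m, hm, h⟩ := Finset.exists_mem_eq_sup (Finset.range (n + 1)) ⟨0, by simp⟩ f
  exact ⟨m, by rw [Finset.mem_range] at hm; omega, h⟩

lemma env_mono (f : ℕ → ℕ) : Monotone (env f) := by
  intro m n h
  obtain ⟨i, hi, h1⟩ := env_attained f m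
  rw [h1]
  exact le_env f (hi.trans h)

lemma env_of_monotone {f : ℕ → ℕ} (hf : Monotone f) : env f = f := by
  funext n
  refine le_antisymm ?_ (le_env f le_rfl)
  obtain ⟨m, hm, h⟩ := env_attained f n
  rw [h]
  exact hf hm

lemma exists_nat_bound {f g : ℕ → ℕ} (h : (fun n => (f n : ℝ)) =O[atTop] fun n => (g n : ℝ)) :
    ∃ c n0 : ℕ, ∀ n, n0 ≤ n → f n ≤ c * g n := by
  obtain ⟨c, hc⟩ := h.bound
  rw [eventually_atTop] at hc
  obtain ⟨n0, hn0⟩ := hc
  refine ⟨⌈c⌉₊, n0, fun n hn => ?_⟩
  have h1 := hn0 n hn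
  rw [Real.norm_of_nonneg (Nat.cast_nonneg _), Real.norm_of_nonneg (Nat.cast_nonneg _)] at h1
  have h2 : (f n : ℝ) ≤ (⌈c⌉₊ : ℝ) * g n :=
    h1.trans (mul_le_mul_of_nonneg_right (Nat.le_ceil c) (Nat.cast_nonneg _))
  exact_mod_cast h2

lemma bigO_of_nat_bound {f g : ℕ → ℕ} {B c n0 : ℕ} (h : ∀ n, n0 ≤ n → f n ≤ B + c * g n)
    (hg : Tendsto g atTop atTop) : (fun n => (f n : ℝ)) =O[atTop] fun n => (g n : ℝ) := by
  refine IsBigO.of_bound (B + c : ℕ) ?_
  filter_upwards [eventually_ge_atTop n0, hg.eventually_ge_atTop 1] with n hn h1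
  rw [Real.norm_of_nonneg (Nat.cast_nonneg _), Real.norm_of_nonneg (Nat.cast_nonneg _)]
  have : f n ≤ (B + c) * g n := (h n hn).trans (by nlinarith)
  exact_mod_cast this

variable {A Γ Q : Type} [Fintype A] [Fintype Γ] [Fintype Q]

lemma tendsto_env {f : ℕ → ℕ} (hf : Tendsto f atTop atTop) : Tendsto (env f) atTop atTop :=
  tendsto_atTop_mono (fun n => le_env f le_rfl) hf

lemma tendsto_of_theta {f g : ℕ → ℕ} (h : (fun n => (f n : ℝ)) =O[atTop] fun n => (g n : ℝ))
    (hf : Tendsto f atTop atTop) : Tendsto g atTop atTop := by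
  obtain ⟨c, n0, hc⟩ := exists_nat_bound h
  rw [tendsto_atTop]
  intro b
  filter_upwards [eventually_ge_atTop n0, hf.eventually_ge_atTop (c * b + 1)] with n hn h1
  have h2 := hc n hn
  by_contra hcon
  push Not at hcon
  have : c * g n ≤ c * b := Nat.mul_le_mul_left _ hcon.le
  omega

lemma hat_theta_env {M : Aut A Γ Q} {z : Meas} (hM : M.Limited z) {f : ℕ → ℕ}
    (hf : Tendsto f atTop atTop)
    (hΘ : (fun n => (M.space z n : ℝ)) =Θ[atTop] fun n => (f n : ℝ)) :
    (fun n => (M.hat z n : ℝ)) =Θ[atTop] fun n => (env f n : ℝ) := by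
  constructor
  · obtain ⟨c, n0, hc⟩ := exists_nat_bound hΘ.1
    refine bigO_of_nat_bound (B := M.hat z n0) (c := c) (n0 := 0) (fun n _ => ?_)
      (tendsto_env hf)
    obtain ⟨m, hm, h⟩ := hat_attained hM n
    by_cases hmn : n0 ≤ m
    · have h1 := hc m hmn
      have h2 : c * f m ≤ c * env f n := Nat.mul_le_mul_left _ (le_env f hm)
      omega
    · have h1 := space_le_hat hM (m := m) (n := n0) (by omega)
      omega
  · obtain ⟨c, n0, hc⟩ := exists_nat_bound hΘ.2
    refine bigO_of_nat_bound (B := env f n0) (c := c) (n0 := 0) (fun n _ => ?_) ?_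
    · obtain ⟨m, hm, h⟩ := env_attained f n
      rw [h]
      by_cases hmn : n0 ≤ m
      · have h1 := hc m hmn
        have h2 : c * M.space z m ≤ c * M.hat z n := Nat.mul_le_mul_left _ (space_le_hat hM hm)
        omega
      · have h1 := le_env f (m := m) (n := n0) (by omega)
        omega
    · exact tendsto_atTop_mono (fun n => space_le_hat hM le_rfl) (tendsto_of_theta hΘ.2 hf)

/-- The envelope of a realised sublinear unbounded growth rate. -/
theorem env_class {M : Aut A Γ Q} {z : Meas} (hM : M.Limited z) {f : ℕ → ℕ}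
    (hf : Tendsto f atTop atTop) (ho : (fun n => (f n : ℝ)) =o[atTop] fun n => (n : ℝ))
    (hΘ : (fun n => (M.space z n : ℝ)) =Θ[atTop] fun n => (f n : ℝ)) :
    ∃ k : ℕ, 1 ≤ k ∧ (fun n => (env f n : ℝ)) =Θ[atTop] fun n => (n : ℝ) ^ ((k : ℝ) / (k + 1)) := by
  have h1 := hat_theta_env hM hf hΘ
  rcases hat_trichotomy hM with ⟨B, hB⟩ | h2 | ⟨k, hk, h2⟩
  · exfalso
    have h3 : Tendsto (M.hat z) atTop atTop := tendsto_of_theta h1.2 (tendsto_env hf)
    obtain ⟨n, hn⟩ := (h3.eventually_ge_atTop (B + 1)).exists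
    have := hB n
    omega
  · exfalso
    have h3 : (fun n : ℕ => (n : ℝ)) =O[atTop] fun n => (env f n : ℝ) := h2.2.trans h1.1
    obtain ⟨c, hc⟩ := h3.bound
    rw [eventually_atTop] at hc
    obtain ⟨n0, hn0⟩ := hc
    have h4 := ho.def (c := 1 / (2 * (|c| + 1))) (by positivity)
    rw [eventually_atTop] at h4
    obtain ⟨n1, hn1⟩ := h4
    -- a large value of the envelope
    obtain ⟨n2, hn2⟩ := ((tendsto_env hf).eventually_ge_atTop (env f n1 + 1)).exists
    set n := max n2 (max n0 1) with hn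
    obtain ⟨m, hm, h5⟩ := env_attained f n
    have h6 : env f n1 + 1 ≤ env f n := hn2.trans (env_mono f (le_max_left _ _))
    have h7 : n1 ≤ m := by
      by_contra hcon
      have := le_env f (m := m) (n := n1) (by omega)
      omega
    have h8 := hn1 m h7
    have h9 := hn0 n (by omega)
    rw [Real.norm_of_nonneg (Nat.cast_nonneg _), Real.norm_of_nonneg (Nat.cast_nonneg _)] at h8 h9
    rw [← h5] at h8
    have h10 : (1 : ℝ) ≤ n := by
      have : 1 ≤ n := by omega
      exact_mod_cast this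
    have h11 : (m : ℝ) ≤ n := by exact_mod_cast hm
    have h12 : (env f n : ℝ) ≤ 1 / (2 * (|c| + 1)) * n :=
      h8.trans (mul_le_mul_of_nonneg_left h11 (by positivity))
    have h13 : c * (env f n : ℝ) ≤ (|c| + 1) * (env f n : ℝ) :=
      mul_le_mul_of_nonneg_right ((le_abs_self c).trans (by linarith)) (Nat.cast_nonneg _)
    have h14 : (|c| + 1) * (env f n : ℝ) ≤ (|c| + 1) * (1 / (2 * (|c| + 1)) * n) :=
      mul_le_mul_of_nonneg_left h12 (by positivity)
    have h15 : (|c| + 1) * (1 / (2 * (|c| + 1)) * n) = (n : ℝ) / 2 := by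
      have : |c| + 1 ≠ 0 := by positivity
      field_simp
    linarith
  · exact ⟨k, hk, h1.symm.trans h2⟩

lemma space_strong_mono [Nonempty A] {M : Aut A Γ Q} (hM : M.Limited Meas.strong) {m n : ℕ}
    (h : m ≤ n) : M.space Meas.strong m ≤ M.space Meas.strong n := by
  rcases Nat.eq_zero_or_pos (M.space Meas.strong m) with h0 | h0
  · omega
  · have h1 : M.space Meas.strong m - 1 < M.space Meas.strong m := by omega
    rw [lt_space hM] at h1
    obtain ⟨u, hu, h2⟩ := h1
    rw [lt_spaceOf] at h2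
    obtain ⟨H, hH, v, c, h3, -, h4, h5⟩ := h2
    obtain ⟨x⟩ := ‹Nonempty A›
    have h6 : M.space Meas.strong m - 1 < M.space Meas.strong n := by
      rw [lt_space hM]
      refine ⟨u ++ List.replicate (n - m) x, by simp [hu]; omega, ?_⟩
      rw [lt_spaceOf]
      exact ⟨H, hH, v, c, h3.trans (List.prefix_append _ _), fun h => by simp at h, h4, h5⟩
    omega

lemma space_empty [IsEmpty A] {M : Aut A Γ Q} {z : Meas} (hM : M.Limited z) {n : ℕ} (hn : 1 ≤ n) :
    M.space z n = 0 := by
  by_contra h0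
  have h1 : M.space z n - 1 < M.space z n := by omega
  rw [lt_space hM] at h1
  obtain ⟨u, hu, -⟩ := h1
  cases u with
  | nil => simp at hu; omega
  | cons x u => exact isEmptyElim x

/-- For the strong measure every realised growth rate agrees with its envelope. -/
lemma strong_env {M : Aut A Γ Q} (hM : M.Limited Meas.strong) {f : ℕ → ℕ}
    (hf : Tendsto f atTop atTop)
    (hΘ : (fun n => (M.space Meas.strong n : ℝ)) =Θ[atTop] fun n => (f n : ℝ)) :
    (fun n => (f n : ℝ)) =Θ[atTop] fun n => (env f n : ℝ) := by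
  obtain ⟨c, n0, hc⟩ := exists_nat_bound hΘ.1
  obtain ⟨c', n0', hc'⟩ := exists_nat_bound hΘ.2
  rcases isEmpty_or_nonempty A with hA | hA
  · exfalso
    obtain ⟨n, h1, h2, h3⟩ := ((eventually_ge_atTop n0').and
      ((eventually_ge_atTop 1).and (hf.eventually_ge_atTop 1))).exists
    have h4 := hc' n h1
    rw [space_empty hM h2] at h4
    omega
  · constructor
    · refine bigO_of_nat_bound (B := 0) (c := 1) (n0 := 0) (fun n _ => ?_) (tendsto_env hf)
      have := le_env f (le_refl n)
      omega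
    · refine bigO_of_nat_bound (B := env f n0') (c := c' * c) (n0 := n0) (fun n hn => ?_) hf
      obtain ⟨m, hm, h⟩ := env_attained f n
      rw [h]
      by_cases hmn : n0' ≤ m
      · have h1 := hc' m hmn
        have h2 := space_strong_mono hM hm
        have h3 := hc n hn
        calc f m ≤ c' * M.space Meas.strong m := h1
          _ ≤ c' * (c * f n) := Nat.mul_le_mul_left _ (h2.trans h3)
          _ = c' * c * f n := by ring
          _ ≤ _ := Nat.le_add_left _ _
      · have h1 := le_env f (m := m) (n := n0') (by omega)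
        omega

end H61.SA
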