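import Pool.Agent.helper61.SALad

set_option autoImplicit false

/-!
# From hierarchical derivations to runs
-/

namespace H61.SA

variable {A Γ Q : Type}

/-! ### Restricting the entries to those used -/

section restrict

variable {C : Type} [AddCommMonoid C] {M : Aut A Γ Q} {u : C}

lemma relEq (u : C) : Rel u u (fun a b : C => a = b) :=
  ⟨rfl, rfl, fun h1 h2 => by rw [h1, h2]⟩

lemma CW.mono {γ : Option Γ} {low low' : Q × Option Q → C → Prop}
    (hlow : ∀ x n, low x n → low' x n) {p q : Q} {n : C} (h : CW M u γ low p q n) :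
    CW M u γ low' p q n := by
  obtain ⟨n', rfl, h⟩ := h.sim (relEq u) (low' := low') fun x n hx => ⟨n, rfl, hlow x n hx⟩
  exact h

lemma Ent.mono {γ : Option Γ} {low low' : Q × Option Q → C → Prop}
    (hlow : ∀ x n, low x n → low' x n) {x : Q × Option Q} {n : C} (h : Ent M u γ low x n) :
    Ent M u γ low' x n := by
  obtain ⟨n', rfl, h⟩ := h.sim (relEq u) (low' := low') fun x n hx => ⟨n, rfl, hlow x n hx⟩
  exact h

lemma TW.mono {γ : Option Γ} {low low' : Q × Option Q → C → Prop}
    (hlow : ∀ x n, low x n → low' x n) {p : Q} {r : Res Q} {n : C} {d : ℕ}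
    (h : TW M u γ low p r n d) : TW M u γ low' p r n d := by
  obtain ⟨n', rfl, h⟩ := h.sim (relEq u) (low' := low') fun x n hx => ⟨n, rfl, hlow x n hx⟩
  exact h

/-- The entries with cost below `n`. -/
def restr (low : Q × Option Q → C → Prop) (n : C) : Q × Option Q → C → Prop :=
  fun x m => low x m ∧ ∃ k, m + k = n

lemma restr_mono {low : Q × Option Q → C → Prop} {n n' : C} (h : ∃ k, n + k = n')
    (x : Q × Option Q) (m : C) (hx : restr low n x m) : restr low n' x m := by
  obtain ⟨k, rfl⟩ := h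
  obtain ⟨h1, k', rfl⟩ := hx
  exact ⟨h1, k' + k, by rw [add_assoc]⟩

lemma CW.restr {γ : Option Γ} {low : Q × Option Q → C → Prop} {p q : Q} {n : C}
    (h : CW M u γ low p q n) : CW M u γ (SA.restr low n) p q n := by
  induction h with
  | refl => exact CW.refl _
  | still _ ha ih => exact CW.still (ih.mono (restr_mono ⟨_, rfl⟩)) ha
  | @down q q' q'' a n m _ ha hm ih =>
    refine CW.down (ih.mono (restr_mono ⟨cost u a + m, by rw [add_assoc]⟩)) ha
      ⟨hm, n + cost u a, by rw [add_comm]⟩

lemma Ent.restr {γ : Option Γ} {low : Q × Option Q → C → Prop} {x : Q × Option Q} {n : C}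
    (h : Ent M u γ low x n) : Ent M u γ (SA.restr low n) x n := by
  cases h with
  | exit hc ha => exact Ent.exit (hc.restr.mono (restr_mono ⟨_, rfl⟩)) ha
  | acc hc ha => exact Ent.acc hc.restr ha
  | @accdown p q q' a n m hc ha hm =>
    exact Ent.accdown (hc.restr.mono (restr_mono ⟨cost u a + m, by rw [add_assoc]⟩)) ha
      ⟨hm, n + cost u a, by rw [add_comm]⟩

lemma TW.restr {γ : Option Γ} {low : Q × Option Q → C → Prop} {p : Q} {r : Res Q} {n : C} {d : ℕ}
    (h : TW M u γ low p r n d) : TW M u γ (SA.restr low n) p r n d := by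
  induction h with
  | refl => exact TW.refl _ _ _
  | stay _ ha ih => exact TW.stay (ih.mono (restr_mono ⟨_, rfl⟩)) ha
  | still _ ha ih => exact TW.still (ih.mono (restr_mono ⟨_, rfl⟩)) ha
  | @down γ low p q q' q'' a n m d _ ha hm ih =>
    exact TW.down (ih.mono (restr_mono ⟨cost u a + m, by rw [add_assoc]⟩)) ha
      ⟨hm, n + cost u a, by rw [add_comm]⟩
  | @push γ low p q q' q'' a n m g d e _ ha _ ih1 ih2 =>
    refine TW.push (ih1.mono (restr_mono ⟨cost u a + m, by rw [add_assoc]⟩)) ha
      (ih2.mono ?_)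
    rintro x k ⟨hx, k', hk'⟩
    refine hx.restr.mono (restr_mono ⟨n + cost u a + k', ?_⟩)
    rw [← hk', add_comm (n + cost u a) k', ← add_assoc, add_comm]
  | pop _ ha ih => exact TW.pop (ih.mono (restr_mono ⟨_, rfl⟩)) ha
  | acc _ ha ih => exact TW.acc ih ha
  | @accdown γ low p q q' a n m d _ ha hm ih =>
    exact TW.accdown (ih.mono (restr_mono ⟨cost u a + m, by rw [add_assoc]⟩)) ha
      ⟨hm, n + cost u a, by rw [add_comm]⟩
  | @accup γ low p q q' a n m g d e _ ha _ ih1 ih2 =>
    refine TW.accup (ih1.mono (restr_mono ⟨cost u a + m, by rw [add_assoc]⟩)) ha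
      (ih2.mono ?_)
    rintro x k ⟨hx, k', hk'⟩
    refine hx.restr.mono (restr_mono ⟨n + cost u a + k', ?_⟩)
    rw [← hk', add_comm (n + cost u a) k', ← add_assoc, add_comm]

end restrict

/-! ### Walks -/

/-- A read step. -/
inductive RStep (M : Aut A Γ Q) : Conf Γ Q → Option A → Conf Γ Q → Prop
  | left {q q' : Q} {a : Option A} {v w : List Γ} {g : Γ} :
      (a, Act.left, q') ∈ M.δ q (some g) → RStep M ⟨q, v, g :: w⟩ a ⟨q', g :: v, w⟩
  | still {q q' : Q} {a : Option A} {v w : List Γ} :
      (a, Act.still, q') ∈ M.δ q w.head? → RStep M ⟨q, v, w⟩ a ⟨q', v, w⟩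
  | right {q q' : Q} {a : Option A} {v w : List Γ} {g : Γ} :
      (a, Act.right, q') ∈ M.δ q w.head? → RStep M ⟨q, g :: v, w⟩ a ⟨q', v, g :: w⟩

lemma RStep.toStep {M : Aut A Γ Q} {c c' : Conf Γ Q} {a : Option A} (h : RStep M c a c') :
    Step M c a c' := by
  cases h with
  | left h => exact Step.left h
  | still h => exact Step.still h
  | right h => exact Step.right h

section walks

variable {C : Type} [AddCommMonoid C] {M : Aut A Γ Q}

/-- A system of walks with costs, closed under reading steps. -/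
structure WalkSys (M : Aut A Γ Q) (κ : ℕ → C) (R : Conf Γ Q → C → Conf Γ Q → Prop) : Prop where
  refl : ∀ c, R c 0 c
  trans : ∀ {c c' c'' n m}, R c n c' → R c' m c'' → R c (n + m) c''
  step : ∀ {c a c'}, RStep M c a c' → R c (cost (κ c.down.length) a) c'

/-- Flat entries. -/
def FlatEnt (M : Aut A Γ Q) (R : Conf Γ Q → C → Conf Γ Q → Prop) (w : List Γ) :
    Q × Option Q → C → Prop
  | (p, some q), m => ∀ g v, R ⟨p, g :: v, w⟩ m ⟨q, v, g :: w⟩
  | (p, none), m => ∀ v, ∃ c', R ⟨p, v, w⟩ m c' ∧ c'.q ∈ M.F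

/-- Flat entries of the cell below the top cell. -/
def FlatB (M : Aut A Γ Q) (R : Conf Γ Q → C → Conf Γ Q → Prop) :
    List Γ → Q × Option Q → C → Prop
  | [], _, _ => False
  | _ :: w, x, m => FlatEnt M R w x m

variable {κ : ℕ → C} {R : Conf Γ Q → C → Conf Γ Q → Prop}

lemma CW.flat (hR : WalkSys M κ R) {w : List Γ} {low : Q × Option Q → C → Prop}
    (hlow : ∀ x n, low x n → FlatB M R w x n) {p q : Q} {n : C}
    (h : CW M (κ w.length) w.head? low p q n) (v : List Γ) : R ⟨p, v, w⟩ n ⟨q, v, w⟩ := by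
  induction h with
  | refl => exact hR.refl _
  | still _ ha ih => exact hR.trans ih (hR.step (RStep.still ha))
  | down _ ha hm ih =>
    have h1 := hlow _ _ hm
    cases w with
    | nil => exact h1.elim
    | cons g w =>
      exact hR.trans (hR.trans ih (hR.step (RStep.left ha))) (h1 g v)

lemma Ent.flat (hR : WalkSys M κ R) {w : List Γ} {low : Q × Option Q → C → Prop}
    (hlow : ∀ x n, low x n → FlatB M R w x n) {x : Q × Option Q} {n : C}
    (h : Ent M (κ w.length) w.head? low x n) : FlatEnt M R w x n := by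
  cases h with
  | exit hc ha =>
    intro g v
    exact hR.trans (hc.flat hR hlow (g :: v)) (hR.step (RStep.right ha))
  | acc hc ha =>
    intro v
    exact ⟨_, hc.flat hR hlow v, ha⟩
  | accdown hc ha hm =>
    intro v
    have h1 := hlow _ _ hm
    cases w with
    | nil => exact h1.elim
    | cons g w =>
      obtain ⟨c', h2, h3⟩ := h1 (g :: v)
      exact ⟨c', hR.trans (hR.trans (hc.flat hR hlow v) (hR.step (RStep.left ha))) h2, h3⟩

end walks

/-! ### Runs of bounded cost -/

lemma Run.trans {M : Aut A Γ Q} {c c' c'' : Conf Γ Q} {u u' : List A} {h h' : ℕ}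
    (h1 : Run M c u h c') (h2 : Run M c' u' h' c'') :
    ∃ H, Run M c (u ++ u') H c'' ∧ h ≤ H ∧ h' ≤ H := by
  have key : ∀ {c c' : Conf Γ Q} {u : List A} {h : ℕ}, Run M c u h c' → c'.size ≤ h := by
    intro c c' u h hr
    induction hr with
    | refl => exact le_rfl
    | step _ _ _ => exact le_max_right _ _
  induction h2 with
  | refl =>
    rw [List.append_nil]
    exact ⟨h, h1, le_rfl, key h1⟩
  | step _ hs ih =>
    obtain ⟨H, h3, h4, h5⟩ := ih
    refine ⟨_, ?_, h4.trans (le_max_left _ _), max_le_max_right _ h5⟩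
    rw [← List.append_assoc]
    exact Run.step h3 hs

/-- Runs reading at most `n` letters. -/
def Cheap (M : Aut A Γ Q) (c : Conf Γ Q) (n : ℕ) (c' : Conf Γ Q) : Prop :=
  ∃ u h, u.length ≤ n ∧ Run M c u h c'

lemma Cheap.trans {M : Aut A Γ Q} {c c' c'' : Conf Γ Q} {n m : ℕ} (h1 : Cheap M c n c')
    (h2 : Cheap M c' m c'') : Cheap M c (n + m) c'' := by
  obtain ⟨u, h, hu, hr⟩ := h1
  obtain ⟨u', h', hu', hr'⟩ := h2
  obtain ⟨H, h3, -, -⟩ := hr.trans hr'
  exact ⟨u ++ u', H, by rw [List.length_append]; omega, h3⟩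

lemma Cheap.step {M : Aut A Γ Q} {c c' : Conf Γ Q} {a : Option A} (h : Step M c a c') :
    Cheap M c (cost 1 a) c' := by
  refine ⟨[] ++ a.toList, _, ?_, Run.step (Run.refl c) h⟩
  cases a with
  | none => exact le_rfl
  | some x => exact le_rfl

lemma Cheap.refl (M : Aut A Γ Q) (c : Conf Γ Q) : Cheap M c 0 c := ⟨[], _, le_rfl, Run.refl c⟩

lemma walkSys_cheap (M : Aut A Γ Q) : WalkSys M (fun _ => 1) (Cheap M) :=
  ⟨Cheap.refl M, fun h1 h2 => h1.trans h2, fun h => Cheap.step h.toStep⟩

/-- The meaning of a result. -/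
def Concl (M : Aut A Γ Q) (w : List Γ) (p : Q) (n : ℕ) : Res Q → Prop
  | Res.here q => Cheap M ⟨p, [], w⟩ n ⟨q, [], w⟩
  | Res.ret q => ∃ g w', w = g :: w' ∧ Cheap M ⟨p, [], w⟩ n ⟨q, [], w'⟩
  | Res.acc => ∃ c', Cheap M ⟨p, [], w⟩ n c' ∧ c'.q ∈ M.F

lemma TW.flat {M : Aut A Γ Q} {γ : Option Γ} {low : Q × Option Q → ℕ → Prop} {p : Q} {r : Res Q}
    {n d : ℕ} (h : TW M 1 γ low p r n d) : ∀ w : List Γ, γ = w.head? →
    (∀ x n, low x n → FlatB M (Cheap M) w x n) → Concl M w p n r := by
  induction h with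
  | refl => intro w _ _; exact Cheap.refl _ _
  | stay _ ha ih =>
    intro w hw hlow
    subst hw
    exact Cheap.trans (ih w rfl hlow) (Cheap.step (Step.stay ha))
  | still _ ha ih =>
    intro w hw hlow
    subst hw
    exact Cheap.trans (ih w rfl hlow) (Cheap.step (Step.still ha))
  | down _ ha hm ih =>
    intro w hw hlow
    subst hw
    have h1 := hlow _ _ hm
    cases w with
    | nil => exact h1.elim
    | cons g w =>
      exact Cheap.trans (Cheap.trans (ih (g :: w) rfl hlow) (Cheap.step (Step.left ha))) (h1 g [])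
  | push _ ha _ ih1 ih2 =>
    intro w hw hlow
    subst hw
    rename_i g d e _ _
    obtain ⟨g', w', h1, h2⟩ := ih2 (g :: w) rfl fun x n hx =>
      Ent.flat (κ := fun _ => 1) (walkSys_cheap M) hlow hx
    rw [List.cons.injEq] at h1
    obtain ⟨rfl, rfl⟩ := h1
    exact Cheap.trans (Cheap.trans (ih1 w rfl hlow) (Cheap.step (Step.push ha))) h2
  | pop _ ha ih =>
    intro w hw hlow
    cases w with
    | nil => simp at hw
    | cons g w =>
      simp only [List.head?_cons, Option.some.injEq] at hw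
      subst hw
      exact ⟨_, w, rfl, Cheap.trans (ih _ rfl hlow) (Cheap.step (Step.pop ha))⟩
  | acc _ ha ih =>
    intro w hw hlow
    exact ⟨_, ih w hw hlow, ha⟩
  | accdown _ ha hm ih =>
    intro w hw hlow
    subst hw
    have h1 := hlow _ _ hm
    cases w with
    | nil => exact h1.elim
    | cons g w =>
      obtain ⟨c', h2, h3⟩ := h1 [g]
      exact ⟨c', Cheap.trans (Cheap.trans (ih (g :: w) rfl hlow) (Cheap.step (Step.left ha))) h2,
        h3⟩
  | accup _ ha _ ih1 ih2 =>
    intro w hw hlow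
    subst hw
    rename_i g d e _ _
    obtain ⟨c', h1, h2⟩ := ih2 (g :: w) rfl fun x n hx =>
      Ent.flat (κ := fun _ => 1) (walkSys_cheap M) hlow hx
    exact ⟨c', Cheap.trans (Cheap.trans (ih1 w rfl hlow) (Cheap.step (Step.push ha))) h1, h2⟩

/-! ### Removing loops -/

/-- Reading walks with the list of the sources of the steps reading a letter. -/
inductive RWl (M : Aut A Γ Q) : Conf Γ Q → List (Conf Γ Q) → Conf Γ Q → Prop
  | refl (c : Conf Γ Q) : RWl M c [] c
  | free {c c' c'' : Conf Γ Q} {l : List (Conf Γ Q)} : RWl M c l c' → RStep M c' none c'' →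
      RWl M c l c''
  | paid {c c' c'' : Conf Γ Q} {l : List (Conf Γ Q)} {x : A} : RWl M c l c' →
      RStep M c' (some x) c'' → RWl M c (l ++ [c']) c''

lemma RWl.trans {M : Aut A Γ Q} {c c' c'' : Conf Γ Q} {l l' : List (Conf Γ Q)}
    (h1 : RWl M c l c') (h2 : RWl M c' l' c'') : RWl M c (l ++ l') c'' := by
  induction h2 with
  | refl => rw [List.append_nil]; exact h1
  | free _ hs ih => exact RWl.free ih hs
  | paid _ hs ih => rw [← List.append_assoc]; exact RWl.paid ih hs

lemma RWl.split {M : Aut A Γ Q} {c c' : Conf Γ Q} {l : List (Conf Γ Q)} (h : RWl M c l c') :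
    ∀ {l1 l2 : List (Conf Γ Q)} {s : Conf Γ Q}, l = l1 ++ s :: l2 → RWl M c l1 s := by
  induction h with
  | refl => intro l1 l2 s h; simp at h
  | free _ _ ih => intro l1 l2 s h; exact ih h
  | @paid c' c'' l x hw hs ih =>
    intro l1 l2 s h
    rcases List.eq_nil_or_concat' l2 with rfl | ⟨l3, y, rfl⟩
    · have h1 := List.append_inj' h rfl
      simp only [List.cons.injEq, and_true] at h1
      rw [← h1.1, ← h1.2]
      exact hw
    · have h1 : l ++ [c'] = (l1 ++ s :: l3) ++ [y] := by rw [h]; simp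
      have h2 := List.append_inj' h1 rfl
      exact ih h2.1

lemma RWl.nodup {M : Aut A Γ Q} {c c' : Conf Γ Q} {l : List (Conf Γ Q)} (h : RWl M c l c') :
    ∃ l', l'.Nodup ∧ (∀ s ∈ l', s ∈ l) ∧ RWl M c l' c' := by
  induction h with
  | refl => exact ⟨[], List.nodup_nil, by simp, RWl.refl _⟩
  | free _ hs ih =>
    obtain ⟨l', h1, h2, h3⟩ := ih
    exact ⟨l', h1, h2, RWl.free h3 hs⟩
  | @paid c' c'' l x _ hs ih =>
    obtain ⟨l', h1, h2, h3⟩ := ih
    by_cases hc : c' ∈ l'
    · obtain ⟨l1, l2, rfl⟩ := List.append_of_mem hc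
      refine ⟨l1 ++ [c'], ?_, ?_, RWl.paid (h3.split rfl) hs⟩
      · have : (l1 ++ [c']).Sublist (l1 ++ c' :: l2) :=
          List.Sublist.append_left (List.Sublist.cons_cons _ (List.nil_sublist _)) _
        exact h1.sublist this
      · intro s hs'
        rcases List.mem_append.1 hs' with h | h
        · exact List.mem_append_left _ (h2 s (List.mem_append_left _ h))
        · exact List.mem_append_right _ h
    · refine ⟨l' ++ [c'], ?_, ?_, RWl.paid h3 hs⟩
      · rw [List.nodup_append]
        refine ⟨h1, List.nodup_singleton _, ?_⟩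
        intro a ha b hb
        rw [List.mem_singleton] at hb
        subst hb
        rintro rfl
        exact hc ha
      · intro s hs'
        rcases List.mem_append.1 hs' with h | h
        · exact List.mem_append_left _ (h2 s h)
        · exact List.mem_append_right _ h

/-- The content of the stack. -/
def Conf.content (c : Conf Γ Q) : List Γ := c.up.reverse ++ c.down

lemma RStep.content {M : Aut A Γ Q} {c c' : Conf Γ Q} {a : Option A} (h : RStep M c a c') :
    c'.content = c.content := by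
  cases h <;> simp [Conf.content]

lemma RWl.content {M : Aut A Γ Q} {c c' : Conf Γ Q} {l : List (Conf Γ Q)} (h : RWl M c l c') :
    c'.content = c.content ∧ ∀ s ∈ l, s.content = c.content := by
  induction h with
  | refl => exact ⟨rfl, by simp⟩
  | free _ hs ih => exact ⟨hs.content.trans ih.1, ih.2⟩
  | paid _ hs ih =>
    refine ⟨hs.content.trans ih.1, ?_⟩
    intro s hs'
    rcases List.mem_append.1 hs' with h | h
    · exact ih.2 s h
    · rw [List.mem_singleton] at h
      rw [h]; exact ih.1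

lemma RWl.cheap {M : Aut A Γ Q} {c c' : Conf Γ Q} {l : List (Conf Γ Q)} (h : RWl M c l c') :
    Cheap M c l.length c' := by
  induction h with
  | refl => exact Cheap.refl _ _
  | free _ hs ih => exact Cheap.trans ih (Cheap.step hs.toStep)
  | paid _ hs ih =>
    rw [List.length_append]
    exact Cheap.trans ih (Cheap.step hs.toStep)

lemma conf_inj {s t : Conf Γ Q} (h1 : s.content = t.content) (h2 : s.q = t.q)
    (h3 : s.down.length = t.down.length) : s = t := by
  obtain ⟨q, v, w⟩ := s
  obtain ⟨q', v', w'⟩ := t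
  simp only [Conf.content] at h1 h2 h3
  have h4 := List.append_inj' h1 h3
  rw [List.reverse_inj] at h4
  rw [h2, h4.1, h4.2]

/-- A walk whose paying cells lie in `K` can be shortened. -/
lemma RWl.short [Fintype Q] {M : Aut A Γ Q} {c c' : Conf Γ Q} {l : List (Conf Γ Q)}
    (h : RWl M c l c') {K : Finset ℕ} (hK : ∀ s ∈ l, s.down.length ∈ K) :
    Cheap M c (Fintype.card Q * K.card) c' := by
  classical
  obtain ⟨l', h1, h2, h3⟩ := h.nodup
  have h4 := h3.cheap
  have h5 : l'.length ≤ Fintype.card Q * K.card := by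
    have hinj : ∀ s ∈ l', ∀ t ∈ l', (s.q, s.down.length) = (t.q, t.down.length) → s = t := by
      intro s hs t ht hst
      simp only [Prod.mk.injEq] at hst
      exact conf_inj ((h3.content.2 s hs).trans (h3.content.2 t ht).symm) hst.1 hst.2
    have h6 : (l'.map fun s => (s.q, s.down.length)).Nodup :=
      List.Nodup.map_on hinj h1
    have h7 : (l'.map fun s => (s.q, s.down.length)).toFinset ⊆ Finset.univ ×ˢ K := by
      intro x hx
      rw [List.mem_toFinset, List.mem_map] at hx
      obtain ⟨s, hs, rfl⟩ := hx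
      exact Finset.mem_product.2 ⟨Finset.mem_univ _, hK s (h2 s hs)⟩
    have h8 := Finset.card_le_card h7
    rw [List.toFinset_card_of_nodup h6, List.length_map, Finset.card_product,
      Finset.card_univ] at h8
    exact h8
  obtain ⟨u, k, hu, hr⟩ := h4
  exact ⟨u, k, hu.trans h5, hr⟩

/-- Walks with the number of letters read at each cell (an upper bound for the support). -/
def VWalk (M : Aut A Γ Q) (c : Conf Γ Q) (n : ℕ → ℕ) (c' : Conf Γ Q) : Prop :=
  ∃ l, RWl M c l c' ∧ ∀ s ∈ l, 0 < n s.down.length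

lemma walkSys_v (M : Aut A Γ Q) : WalkSys M (fun j => Pi.single j 1) (VWalk M) := by
  refine ⟨fun c => ⟨[], RWl.refl c, by simp⟩, ?_, ?_⟩
  · rintro c c' c'' n m ⟨l, h1, h2⟩ ⟨l', h3, h4⟩
    refine ⟨l ++ l', h1.trans h3, ?_⟩
    intro s hs
    change 0 < n _ + m _
    rcases List.mem_append.1 hs with h | h
    · have := h2 s h; omega
    · have := h4 s h; omega
  · intro c a c' hs
    cases a with
    | none => exact ⟨[], RWl.free (RWl.refl c) hs, by simp⟩
    | some x =>
      refine ⟨[] ++ [c], RWl.paid (RWl.refl c) hs, ?_⟩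
      intro s hs'
      simp only [List.nil_append, List.mem_singleton] at hs'
      subst hs'
      simp [cost]

lemma flatEnt_short [Fintype Q] {M : Aut A Γ Q} {w : List Γ} {x : Q × Option Q} {n : ℕ → ℕ}
    (h : FlatEnt M (VWalk M) w x n) {K : Finset ℕ} (hK : ∀ j, 0 < n j → j ∈ K) :
    FlatEnt M (Cheap M) w x (Fintype.card Q * K.card) := by
  obtain ⟨p, r⟩ := x
  cases r with
  | some q =>
    intro g v
    obtain ⟨l, h1, h2⟩ := h g v
    exact h1.short fun s hs => hK _ (h2 s hs)
  | none =>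
    intro v
    obtain ⟨c', ⟨l, h1, h2⟩, h3⟩ := h v
    exact ⟨c', h1.short fun s hs => hK _ (h2 s hs), h3⟩

end H61.SA
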