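import Pool.Agent.helper61.SAB1

set_option autoImplicit false
set_option linter.unusedSectionVars false

/-!
# The trichotomy for stack automata
-/

namespace H61.SA

variable {A Γ Q : Type} [Fintype Γ] [Fintype Q]

/-- The height `h` can be reached by an accepting run reading at most `n` letters. -/
def Rch (M : Aut A Γ Q) (h n : ℕ) : Prop :=
  ∃ (u : List A) (H : ℕ) (c : Conf Γ Q), Run M M.init u H c ∧ c.q ∈ M.F ∧ h ≤ H ∧ u.length ≤ n

lemma Rch.mono {M : Aut A Γ Q} {h h' n n' : ℕ} (hr : Rch M h n) (h1 : h' ≤ h) (h2 : n ≤ n') :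
    Rch M h' n' := by
  obtain ⟨u, H, c, k1, k2, k3, k4⟩ := hr
  exact ⟨u, H, c, k1, k2, h1.trans k3, k4.trans h2⟩

theorem trichotomy (M : Aut A Γ Q) (hlim : ∀ n, ∃ h, ¬ Rch M h n) :
    (∃ H, ∀ n, ¬ Rch M H n) ∨
    (∃ C, (∀ r, Rch M r (C * (r + 1))) ∧ ∀ h n, Rch M h n → h ≤ C * (n + 1)) ∨
    ∃ N, 1 ≤ N ∧ ∃ C, (∀ l, 1 ≤ l → Rch M (l ^ N - 1) (C * l ^ (N + 1))) ∧
      ∀ l, 1 ≤ l → ∀ h n, Rch M h n → n ≤ l * (h + 1) → h + 1 ≤ C * l ^ N := by
  by_cases hb : ∃ H, ∀ n, ¬ Rch M H n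
  · exact Or.inl hb
  right
  push Not at hb
  obtain ⟨C0, hC0⟩ := run_of_word M
  have hunb : ∀ r, ∃ w, Good (Lam M) (LL M) w ∧ r ≤ w.length := by
    intro r
    obtain ⟨n, u, H, c, h1, h2, h3, h4⟩ := hb r
    obtain ⟨w, h5, h6, -⟩ := word_of_run h1 h2 h3
    exact ⟨w, h5, by omega⟩
  have hg : ∀ c, ∃ r, ∀ w, Good (Lam M) (LL M) w → r ≤ w.length → c < pairs RR w := by
    intro c
    obtain ⟨h, hh⟩ := hlim (C0 * c)
    refine ⟨h + 1, fun w hw hr => ?_⟩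
    by_contra hcon
    obtain ⟨u, H, c', h1, h2, h3, h4⟩ := hC0 w hw
    exact hh ⟨u, H, c', h1, h2, by omega,
      h4.trans (Nat.mul_le_mul_left _ (not_lt.1 hcon))⟩
  by_cases hNL : NonLin (Lam M) RR (LL M)
  · right
    obtain ⟨N, hN, C, h1, h2⟩ := nonlin_growth hNL hunb
    refine ⟨N, hN, C0 * C + C, ?_, ?_⟩
    · intro l hl
      obtain ⟨w, hw, h3, h4⟩ := h1 l hl
      obtain ⟨u, H, c', h5, h6, h7, h8⟩ := hC0 w hw
      refine ⟨u, H, c', h5, h6, by omega, h8.trans ?_⟩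
      calc C0 * pairs RR w ≤ C0 * (C * l ^ (N + 1)) := Nat.mul_le_mul_left _ h4
        _ = C0 * C * l ^ (N + 1) := by ring
        _ ≤ _ := Nat.mul_le_mul_right _ (by omega)
    · intro l hl h n hr hn
      obtain ⟨u, H, c, k1, k2, k3, k4⟩ := hr
      obtain ⟨w, h5, h6, h7⟩ := word_of_run k1 k2 k3
      have h8 := h2 l hl w h5 (by
        intro h
        rw [h] at h6
        simp at h6) (by rw [h6]; omega)
      rw [h6] at h8
      exact h8.trans (Nat.mul_le_mul_right _ (by omega))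
  · left
    obtain ⟨C1, h1⟩ := lin_growth hNL
    obtain ⟨C2, h2⟩ := window hg
    refine ⟨2 * (C0 * C1) + C2, ?_, ?_⟩
    · intro r
      obtain ⟨w, hw, h3, h4⟩ := h1 (r + 1)
      obtain ⟨u, H, c', h5, h6, h7, h8⟩ := hC0 w hw
      refine ⟨u, H, c', h5, h6, by omega, h8.trans ?_⟩
      calc C0 * pairs RR w ≤ C0 * (C1 * (r + 1 + 1)) := Nat.mul_le_mul_left _ h4
        _ ≤ C0 * (C1 * (2 * (r + 1))) :=
            Nat.mul_le_mul_left _ (Nat.mul_le_mul_left _ (by omega))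
        _ = 2 * (C0 * C1) * (r + 1) := by ring
        _ ≤ _ := Nat.mul_le_mul_right _ (by omega)
    · intro h n hr
      obtain ⟨u, H, c, k1, k2, k3, k4⟩ := hr
      obtain ⟨w, h5, h6, h7⟩ := word_of_run k1 k2 k3
      have h8 := h2 w h5
      rw [h6] at h8
      calc h ≤ h + 1 := by omega
        _ ≤ C2 * (pairs RR w + 1) := h8
        _ ≤ C2 * (n + 1) := Nat.mul_le_mul_left _ (by omega)
        _ ≤ _ := Nat.mul_le_mul_right _ (by omega)

end H61.SA
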