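import Pool.Agent.helper61.SADef

set_option autoImplicit false
set_option linter.unusedVariables false

/-!
# Hierarchical derivations
-/

namespace H61.SA

variable {A Γ Q : Type}

/-- The cost of a letter. -/
def cost {C : Type} [Zero C] (u : C) : Option A → C
  | none => 0
  | some _ => u

section defs

variable {C : Type} [AddCommMonoid C]

/-- Walks at an inner cell. -/
inductive CW (M : Aut A Γ Q) (u : C) (γ : Option Γ) (low : Q × Option Q → C → Prop) :
    Q → Q → C → Prop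
  | refl (q : Q) : CW M u γ low q q 0
  | still {p q q' : Q} {a : Option A} {n : C} : CW M u γ low p q n →
      (a, Act.still, q') ∈ M.δ q γ → CW M u γ low p q' (n + cost u a)
  | down {p q q' q'' : Q} {a : Option A} {n m : C} : CW M u γ low p q n →
      (a, Act.left, q') ∈ M.δ q γ → low (q', some q'') m → CW M u γ low p q'' (n + cost u a + m)

/-- Entries of a cell: enter from above in the given state, and leave upwards in the given state
or accept inside. -/
inductive Ent (M : Aut A Γ Q) (u : C) (γ : Option Γ) (low : Q × Option Q → C → Prop) :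
    Q × Option Q → C → Prop
  | exit {p q q' : Q} {a : Option A} {n : C} : CW M u γ low p q n →
      (a, Act.right, q') ∈ M.δ q γ → Ent M u γ low (p, some q') (n + cost u a)
  | acc {p q : Q} {n : C} : CW M u γ low p q n → q ∈ M.F → Ent M u γ low (p, none) n
  | accdown {p q q' : Q} {a : Option A} {n m : C} : CW M u γ low p q n →
      (a, Act.left, q') ∈ M.δ q γ → low (q', none) m → Ent M u γ low (p, none) (n + cost u a + m)

/-- Results of a walk on the top. -/
inductive Res (Q : Type) where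
  | here : Q → Res Q
  | ret : Q → Res Q
  | acc : Res Q

/-- Walks on the top of the stack, with their depth. -/
inductive TW (M : Aut A Γ Q) (u : C) : Option Γ → (Q × Option Q → C → Prop) → Q → Res Q → C →
    ℕ → Prop
  | refl (γ : Option Γ) (low : Q × Option Q → C → Prop) (q : Q) : TW M u γ low q (Res.here q) 0 0
  | stay {γ : Option Γ} {low : Q × Option Q → C → Prop} {p q q' : Q} {a : Option A} {n : C}
      {d : ℕ} : TW M u γ low p (Res.here q) n d → (a, Act.stay, q') ∈ M.δ q γ →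
      TW M u γ low p (Res.here q') (n + cost u a) d
  | still {γ : Option Γ} {low : Q × Option Q → C → Prop} {p q q' : Q} {a : Option A} {n : C}
      {d : ℕ} : TW M u γ low p (Res.here q) n d → (a, Act.still, q') ∈ M.δ q γ →
      TW M u γ low p (Res.here q') (n + cost u a) d
  | down {γ : Option Γ} {low : Q × Option Q → C → Prop} {p q q' q'' : Q} {a : Option A} {n m : C}
      {d : ℕ} : TW M u γ low p (Res.here q) n d → (a, Act.left, q') ∈ M.δ q γ →
      low (q', some q'') m → TW M u γ low p (Res.here q'') (n + cost u a + m) d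
  | push {γ : Option Γ} {low : Q × Option Q → C → Prop} {p q q' q'' : Q} {a : Option A} {n m : C}
      {g : Γ} {d e : ℕ} : TW M u γ low p (Res.here q) n d → (a, Act.push g, q') ∈ M.δ q γ →
      TW M u (some g) (Ent M u γ low) q' (Res.ret q'') m e →
      TW M u γ low p (Res.here q'') (n + cost u a + m) (max d (e + 1))
  | pop {g : Γ} {low : Q × Option Q → C → Prop} {p q q' : Q} {a : Option A} {n : C}
      {d : ℕ} : TW M u (some g) low p (Res.here q) n d → (a, Act.pop, q') ∈ M.δ q (some g) →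
      TW M u (some g) low p (Res.ret q') (n + cost u a) d
  | acc {γ : Option Γ} {low : Q × Option Q → C → Prop} {p q : Q} {n : C}
      {d : ℕ} : TW M u γ low p (Res.here q) n d → q ∈ M.F → TW M u γ low p Res.acc n d
  | accdown {γ : Option Γ} {low : Q × Option Q → C → Prop} {p q q' : Q} {a : Option A} {n m : C}
      {d : ℕ} : TW M u γ low p (Res.here q) n d → (a, Act.left, q') ∈ M.δ q γ →
      low (q', none) m → TW M u γ low p Res.acc (n + cost u a + m) d
  | accup {γ : Option Γ} {low : Q × Option Q → C → Prop} {p q q' : Q} {a : Option A} {n m : C}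
      {g : Γ} {d e : ℕ} : TW M u γ low p (Res.here q) n d → (a, Act.push g, q') ∈ M.δ q γ →
      TW M u (some g) (Ent M u γ low) q' Res.acc m e →
      TW M u γ low p Res.acc (n + cost u a + m) (max d (e + 1))

end defs

/-! ### Simulation -/

section sim

variable {C C' : Type} [AddCommMonoid C] [AddCommMonoid C']

/-- The costs are related compatibly. -/
structure Rel (u : C) (u' : C') (ρ : C → C' → Prop) : Prop where
  zero : ρ 0 0
  unit : ρ u u'
  add : ∀ {a b : C} {a' b' : C'}, ρ a a' → ρ b b' → ρ (a + b) (a' + b')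

lemma Rel.cost {u : C} {u' : C'} {ρ : C → C' → Prop} (h : Rel u u' ρ) (a : Option A) :
    ρ (cost u a) (H61.SA.cost u' a) := by
  cases a with
  | none => exact h.zero
  | some a => exact h.unit

variable {M : Aut A Γ Q} {u : C} {u' : C'} {ρ : C → C' → Prop}

lemma CW.sim (hρ : Rel u u' ρ) {γ : Option Γ} {low : Q × Option Q → C → Prop}
    {low' : Q × Option Q → C' → Prop} (hlow : ∀ x n, low x n → ∃ n', ρ n n' ∧ low' x n')
    {p q : Q} {n : C} (h : CW M u γ low p q n) : ∃ n', ρ n n' ∧ CW M u' γ low' p q n' := by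
  induction h with
  | refl => exact ⟨0, hρ.zero, CW.refl _⟩
  | still _ ha ih =>
    obtain ⟨n', h1, h2⟩ := ih
    exact ⟨_, hρ.add h1 (hρ.cost _), CW.still h2 ha⟩
  | down _ ha hm ih =>
    obtain ⟨n', h1, h2⟩ := ih
    obtain ⟨m', h3, h4⟩ := hlow _ _ hm
    exact ⟨_, hρ.add (hρ.add h1 (hρ.cost _)) h3, CW.down h2 ha h4⟩

lemma Ent.sim (hρ : Rel u u' ρ) {γ : Option Γ} {low : Q × Option Q → C → Prop}
    {low' : Q × Option Q → C' → Prop} (hlow : ∀ x n, low x n → ∃ n', ρ n n' ∧ low' x n')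
    {x : Q × Option Q} {n : C} (h : Ent M u γ low x n) :
    ∃ n', ρ n n' ∧ Ent M u' γ low' x n' := by
  cases h with
  | exit hc ha =>
    obtain ⟨n', h1, h2⟩ := hc.sim hρ hlow
    exact ⟨_, hρ.add h1 (hρ.cost _), Ent.exit h2 ha⟩
  | acc hc ha =>
    obtain ⟨n', h1, h2⟩ := hc.sim hρ hlow
    exact ⟨_, h1, Ent.acc h2 ha⟩
  | accdown hc ha hm =>
    obtain ⟨n', h1, h2⟩ := hc.sim hρ hlow
    obtain ⟨m', h3, h4⟩ := hlow _ _ hm
    exact ⟨_, hρ.add (hρ.add h1 (hρ.cost _)) h3, Ent.accdown h2 ha h4⟩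

lemma TW.sim (hρ : Rel u u' ρ) {γ : Option Γ} {low : Q × Option Q → C → Prop}
    {p : Q} {r : Res Q} {n : C} {d : ℕ} (h : TW M u γ low p r n d) :
    ∀ {low' : Q × Option Q → C' → Prop} (_ : ∀ x n, low x n → ∃ n', ρ n n' ∧ low' x n'),
    ∃ n', ρ n n' ∧ TW M u' γ low' p r n' d := by
  induction h with
  | refl γ low q => intro low' _; exact ⟨0, hρ.zero, TW.refl _ _ q⟩
  | stay _ ha ih =>
    intro low' hlow
    obtain ⟨n', h1, h2⟩ := ih hlow
    exact ⟨_, hρ.add h1 (hρ.cost _), TW.stay h2 ha⟩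
  | still _ ha ih =>
    intro low' hlow
    obtain ⟨n', h1, h2⟩ := ih hlow
    exact ⟨_, hρ.add h1 (hρ.cost _), TW.still h2 ha⟩
  | down _ ha hm ih =>
    intro low' hlow
    obtain ⟨n', h1, h2⟩ := ih hlow
    obtain ⟨m', h3, h4⟩ := hlow _ _ hm
    exact ⟨_, hρ.add (hρ.add h1 (hρ.cost _)) h3, TW.down h2 ha h4⟩
  | push _ ha _ ih1 ih2 =>
    intro low' hlow
    obtain ⟨n', h1, h2⟩ := ih1 hlow
    obtain ⟨m', h3, h4⟩ := ih2 fun x n hx => Ent.sim hρ hlow hx
    exact ⟨_, hρ.add (hρ.add h1 (hρ.cost _)) h3, TW.push h2 ha h4⟩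
  | pop _ ha ih =>
    intro low' hlow
    obtain ⟨n', h1, h2⟩ := ih hlow
    exact ⟨_, hρ.add h1 (hρ.cost _), TW.pop h2 ha⟩
  | acc _ ha ih =>
    intro low' hlow
    obtain ⟨n', h1, h2⟩ := ih hlow
    exact ⟨_, h1, TW.acc h2 ha⟩
  | accdown _ ha hm ih =>
    intro low' hlow
    obtain ⟨n', h1, h2⟩ := ih hlow
    obtain ⟨m', h3, h4⟩ := hlow _ _ hm
    exact ⟨_, hρ.add (hρ.add h1 (hρ.cost _)) h3, TW.accdown h2 ha h4⟩
  | accup _ ha _ ih1 ih2 =>
    intro low' hlow
    obtain ⟨n', h1, h2⟩ := ih1 hlow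
    obtain ⟨m', h3, h4⟩ := ih2 fun x n hx => Ent.sim hρ hlow hx
    exact ⟨_, hρ.add (hρ.add h1 (hρ.cost _)) h3, TW.accup h2 ha h4⟩

end sim

/-! ### Splitting at the deepest push -/

section split

variable {C : Type} [AddCommMonoid C] {M : Aut A Γ Q} {u : C}

/-- The continuation after the return from above. -/
def Cont (M : Aut A Γ Q) (u : C) (γ : Option Γ) (low : Q × Option Q → C → Prop)
    (r' r : Res Q) (n : C) : Prop :=
  (∃ q, r' = Res.ret q ∧ ∃ d, TW M u γ low q r n d) ∨ (r' = Res.acc ∧ r = Res.acc ∧ n = 0)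

lemma TW.split {γ : Option Γ} {low : Q × Option Q → C → Prop} {p : Q} {r : Res Q} {n : C} {d : ℕ}
    (h : TW M u γ low p r n d) : ∀ {k : ℕ}, k + 1 ≤ d →
    ∃ (q : Q) (n1 : C) (d1 : ℕ) (a : Option A) (g : Γ) (p' : Q) (r' : Res Q) (n2 : C) (d2 : ℕ)
      (n3 : C), TW M u γ low p (Res.here q) n1 d1 ∧ (a, Act.push g, p') ∈ M.δ q γ ∧
      TW M u (some g) (Ent M u γ low) p' r' n2 d2 ∧ k ≤ d2 ∧ Cont M u γ low r' r n3 ∧
      n = n1 + cost u a + n2 + n3 := by
  induction h with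
  | refl γ low q => intro k hk; omega
  | stay _ ha ih =>
    intro k hk
    obtain ⟨q, n1, d1, a, g, p', r', n2, d2, n3, h1, h2, h3, h4, h5, rfl⟩ := ih hk
    rcases h5 with ⟨q1, rfl, e, h5⟩ | ⟨-, h5, -⟩
    · exact ⟨q, n1, d1, a, g, p', _, n2, d2, _, h1, h2, h3, h4, Or.inl ⟨q1, rfl, e, h5.stay ha⟩,
        by rw [add_assoc (n1 + cost u a + n2)]⟩
    · cases h5
  | still _ ha ih =>
    intro k hk
    obtain ⟨q, n1, d1, a, g, p', r', n2, d2, n3, h1, h2, h3, h4, h5, rfl⟩ := ih hk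
    rcases h5 with ⟨q1, rfl, e, h5⟩ | ⟨-, h5, -⟩
    · exact ⟨q, n1, d1, a, g, p', _, n2, d2, _, h1, h2, h3, h4, Or.inl ⟨q1, rfl, e, h5.still ha⟩,
        by rw [add_assoc (n1 + cost u a + n2)]⟩
    · cases h5
  | down _ ha hm ih =>
    intro k hk
    obtain ⟨q, n1, d1, a, g, p', r', n2, d2, n3, h1, h2, h3, h4, h5, rfl⟩ := ih hk
    rcases h5 with ⟨q1, rfl, e, h5⟩ | ⟨-, h5, -⟩
    · exact ⟨q, n1, d1, a, g, p', _, n2, d2, _, h1, h2, h3, h4, Or.inl ⟨q1, rfl, e, h5.down ha hm⟩,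
        by simp only [add_assoc]⟩
    · cases h5
  | @push γ low p q0 q1 q2 a0 m0 m1 g0 d0 e0 hw ha hc ih _ =>
    intro k hk
    by_cases hd : k + 1 ≤ d0
    · obtain ⟨q, n1, d1, a, g, p', r', n2, d2, n3, h1, h2, h3, h4, h5, rfl⟩ := ih hd
      rcases h5 with ⟨q1, rfl, e, h5⟩ | ⟨-, h5, -⟩
      · exact ⟨q, n1, d1, a, g, p', _, n2, d2, _, h1, h2, h3, h4,
          Or.inl ⟨q1, rfl, _, h5.push ha hc⟩, by simp only [add_assoc]⟩
      · cases h5
    · have he : k ≤ e0 := by omega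
      exact ⟨q0, m0, d0, a0, g0, q1, _, m1, e0, 0, hw, ha, hc, he,
        Or.inl ⟨q2, rfl, 0, TW.refl _ _ _⟩, by rw [add_zero]⟩
  | pop _ ha ih =>
    intro k hk
    obtain ⟨q, n1, d1, a, g, p', r', n2, d2, n3, h1, h2, h3, h4, h5, rfl⟩ := ih hk
    rcases h5 with ⟨q1, rfl, e, h5⟩ | ⟨-, h5, -⟩
    · exact ⟨q, n1, d1, a, g, p', _, n2, d2, _, h1, h2, h3, h4, Or.inl ⟨q1, rfl, e, h5.pop ha⟩,
        by rw [add_assoc (n1 + cost u a + n2)]⟩
    · cases h5
  | acc _ ha ih =>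
    intro k hk
    obtain ⟨q, n1, d1, a, g, p', r', n2, d2, n3, h1, h2, h3, h4, h5, rfl⟩ := ih hk
    rcases h5 with ⟨q1, rfl, e, h5⟩ | ⟨-, h5, -⟩
    · exact ⟨q, n1, d1, a, g, p', _, n2, d2, _, h1, h2, h3, h4, Or.inl ⟨q1, rfl, e, h5.acc ha⟩,
        rfl⟩
    · cases h5
  | accdown _ ha hm ih =>
    intro k hk
    obtain ⟨q, n1, d1, a, g, p', r', n2, d2, n3, h1, h2, h3, h4, h5, rfl⟩ := ih hk
    rcases h5 with ⟨q1, rfl, e, h5⟩ | ⟨-, h5, -⟩
    · exact ⟨q, n1, d1, a, g, p', _, n2, d2, _, h1, h2, h3, h4,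
        Or.inl ⟨q1, rfl, e, h5.accdown ha hm⟩, by simp only [add_assoc]⟩
    · cases h5
  | @accup γ low p q0 q1 a0 m0 m1 g0 d0 e0 hw ha hc ih _ =>
    intro k hk
    by_cases hd : k + 1 ≤ d0
    · obtain ⟨q, n1, d1, a, g, p', r', n2, d2, n3, h1, h2, h3, h4, h5, rfl⟩ := ih hd
      rcases h5 with ⟨q1, rfl, e, h5⟩ | ⟨-, h5, -⟩
      · exact ⟨q, n1, d1, a, g, p', _, n2, d2, _, h1, h2, h3, h4,
          Or.inl ⟨q1, rfl, _, h5.accup ha hc⟩, by simp only [add_assoc]⟩
      · cases h5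
    · have he : k ≤ e0 := by omega
      exact ⟨q0, m0, d0, a0, g0, q1, _, m1, e0, 0, hw, ha, hc, he,
        Or.inr ⟨rfl, rfl, rfl⟩, by rw [add_zero]⟩

end split

end H61.SA
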