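import Pool.Agent.helper61.SAHier

set_option autoImplicit false

/-!
# From runs to hierarchical derivations
-/

namespace H61.SA

variable {A Γ Q : Type}

/-- The entries of the top cell of `w`. -/
def entOf (M : Aut A Γ Q) : List Γ → Q × Option Q → ℕ → Prop
  | [] => Ent M 1 none fun _ _ => False
  | g :: w => Ent M 1 (some g) (entOf M w)

/-- The entries of the cell below the top cell of `w`. -/
def lowOf (M : Aut A Γ Q) : List Γ → Q × Option Q → ℕ → Prop
  | [] => fun _ _ => False
  | _ :: w => entOf M w

lemma entOf_eq (M : Aut A Γ Q) (w : List Γ) : entOf M w = Ent M 1 w.head? (lowOf M w) := by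
  cases w <;> rfl

/-- Ladders with the head on the top. -/
inductive LadT (M : Aut A Γ Q) : List Γ → Q → Q → ℕ → ℕ → Prop
  | base {q : Q} {n d : ℕ} : TW M 1 none (lowOf M []) M.q0 (Res.here q) n d →
      LadT M [] M.q0 q n d
  | push {w : List Γ} {p q p' q' : Q} {n H m d N K : ℕ} {a : Option A} {g : Γ} :
      LadT M w p q n H → (a, Act.push g, p') ∈ M.δ q w.head? →
      TW M 1 (some g) (entOf M w) p' (Res.here q') m d → N = n + cost 1 a + m →
      K = max H (w.length + 1 + d) → LadT M (g :: w) p' q' N K

/-- Ladders. -/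
inductive Lad (M : Aut A Γ Q) : List Γ → List Γ → Q → Q → ℕ → ℕ → Prop
  | top {w : List Γ} {p q : Q} {n H : ℕ} : LadT M w p q n H → Lad M [] w p q n H
  | down {v w : List Γ} {p q p' q' : Q} {n H m N : ℕ} {a : Option A} {g : Γ} :
      Lad M v (g :: w) p q n H → (a, Act.left, p') ∈ M.δ q (some g) →
      CW M 1 w.head? (lowOf M w) p' q' m → N = n + cost 1 a + m →
      Lad M (g :: v) w p' q' N H

variable {M : Aut A Γ Q}

lemma LadT.size_le {w : List Γ} {p q : Q} {n H : ℕ} (h : LadT M w p q n H) : w.length ≤ H := by
  cases h with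
  | base _ => simp
  | push _ _ _ _ hK => rw [hK, List.length_cons]; omega

lemma Lad.size_le {v w : List Γ} {p q : Q} {n H : ℕ} (h : Lad M v w p q n H) :
    v.length + w.length ≤ H := by
  induction h with
  | top h => simpa using h.size_le
  | down _ _ _ _ ih => rw [List.length_cons] at ih ⊢; omega

lemma LadT.ext {w : List Γ} {p q q' : Q} {n H k e : ℕ} (h : LadT M w p q n H)
    (hext : ∀ p n d, TW M 1 w.head? (lowOf M w) p (Res.here q) n d →
      TW M 1 w.head? (lowOf M w) p (Res.here q') (n + k) (max d e)) :
    LadT M w p q' (n + k) (max H (w.length + e)) := by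
  cases h with
  | base h =>
    have := hext _ _ _ h
    rw [List.length_nil, zero_add]
    exact LadT.base this
  | push h1 h2 h3 h4 h5 =>
    refine LadT.push h1 h2 (hext _ _ _ h3) (by rw [h4, add_assoc]) ?_
    rw [h5, List.length_cons]
    omega

lemma Lad.ext_down {v w : List Γ} {p q p' q' : Q} {n H m : ℕ} {a : Option A} {g : Γ}
    (h : Lad M v (g :: w) p q n H) (ha : (a, Act.left, p') ∈ M.δ q (some g))
    (hm : entOf M w (p', some q') m) : Lad M v (g :: w) p q' (n + (cost 1 a + m)) H := by
  cases h with
  | top h =>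
    have h1 := LadT.ext (q' := q') (k := cost 1 a + m) (e := 0) h (fun p n d hd => by
      rw [max_eq_left (Nat.zero_le d), ← add_assoc]
      exact TW.down hd ha hm)
    have h2 := h.size_le
    have : max H ((g :: w).length + 0) = H := by omega
    rw [this] at h1
    exact Lad.top h1
  | down h1 h2 h3 h4 =>
    exact Lad.down h1 h2 (CW.down h3 ha hm) (by rw [h4]; simp only [add_assoc])

lemma Lad.step {c c' : Conf Γ Q} {a : Option A} {p : Q} {n H : ℕ}
    (h : Lad M c.up c.down p c.q n H) (hs : Step M c a c') :
    ∃ p', Lad M c'.up c'.down p' c'.q (n + cost 1 a) (max H c'.size) := by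
  have hsz := h.size_le
  cases hs with
  | stay ha =>
    dsimp only at *
    cases h with
    | top h =>
      refine ⟨p, Lad.top ?_⟩
      have h1 := LadT.ext (k := cost 1 a) (e := 0) h (fun p n d hd => by
        rw [max_eq_left (Nat.zero_le d)]
        exact TW.stay hd ha)
      simpa [Conf.size] using h1
  | push ha =>
    dsimp only at *
    cases h with
    | top h =>
      refine ⟨_, Lad.top (LadT.push h ha (TW.refl _ _ _) (by omega) ?_)⟩
      simp [Conf.size]
  | pop ha =>
    rename_i q1 q3 w g
    dsimp only at *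
    cases h with
    | top h =>
      cases h with
      | push h1 h2 h3 h4 h5 =>
        rename_i p1 q2 n1 H1 m1 d1 a1
        have h6 := LadT.ext (q' := q3) (k := cost 1 a1 + (m1 + cost 1 a)) (e := d1 + 1) h1
          (fun p n d hd => by
            rw [← add_assoc]
            refine TW.push hd h2 ?_
            rw [← entOf_eq]
            exact TW.pop h3 ha)
        refine ⟨p1, Lad.top ?_⟩
        have e1 : n1 + (cost 1 a1 + (m1 + cost 1 a)) = n + cost 1 a := by omega
        have e2 : max H1 (w.length + (d1 + 1)) = max H (Conf.size ⟨q3, [], w⟩) := by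
          simp only [Conf.size, List.length_nil, h5]
          omega
        rw [e1, e2] at h6
        exact h6
  | left ha =>
    rename_i q1 q3 v w g
    dsimp only at *
    refine ⟨q3, ?_⟩
    have e2 : max H (Conf.size ⟨q3, g :: v, w⟩) = H := by
      simp only [Conf.size, List.length_cons] at hsz ⊢
      omega
    rw [e2]
    exact Lad.down h ha (CW.refl _) (by rw [add_zero])
  | still ha =>
    rename_i q1 q3 v w
    dsimp only at *
    have e2 : max H (Conf.size ⟨q3, v, w⟩) = H := by
      simp only [Conf.size] at hsz ⊢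
      omega
    cases h with
    | top h =>
      refine ⟨p, Lad.top ?_⟩
      have h1 := LadT.ext (k := cost 1 a) (e := 0) h (fun p n d hd => by
        rw [max_eq_left (Nat.zero_le d)]
        exact TW.still hd ha)
      simpa [Conf.size] using h1
    | down h1 h2 h3 h4 =>
      rw [e2]
      exact ⟨p, Lad.down h1 h2 (CW.still h3 ha) (by rw [h4, add_assoc])⟩
  | right ha =>
    rename_i q1 q3 v w g
    dsimp only at *
    have e2 : max H (Conf.size ⟨q3, v, g :: w⟩) = H := by
      simp only [Conf.size, List.length_cons] at hsz ⊢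
      omega
    rw [e2]
    cases h with
    | down h1 h2 h3 h4 =>
      rename_i p1 q2 n1 m1 a1
      refine ⟨p1, ?_⟩
      have h5 : entOf M w (p, some q3) (m1 + cost 1 a) := by
        rw [entOf_eq]
        exact Ent.exit h3 ha
      have h6 := h1.ext_down h2 h5
      have e1 : n1 + (cost 1 a1 + (m1 + cost 1 a)) = n + cost 1 a := by omega
      rw [e1] at h6
      exact h6

lemma LadT.close {w : List Γ} {p q : Q} {n H : ℕ} (h : LadT M w p q n H) : ∀ {k e : ℕ}
    (_ : ∀ p n d, TW M 1 w.head? (lowOf M w) p (Res.here q) n d →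
      TW M 1 w.head? (lowOf M w) p Res.acc (n + k) (max d e)),
    TW M 1 none (lowOf M []) M.q0 Res.acc (n + k) (max H (w.length + e)) := by
  induction h with
  | base h =>
    intro k e hext
    rw [List.length_nil, zero_add]
    exact hext _ _ _ h
  | push h1 h2 h3 h4 h5 ih =>
    rename_i w p q p' q' n H m d N K a g
    intro k e hext
    have h6 := hext _ _ _ h3
    have h7 := ih (k := cost 1 a + (m + k)) (e := max d e + 1) (fun p n d hd => by
      rw [← add_assoc]
      refine TW.accup hd h2 ?_
      rw [← entOf_eq]
      exact h6)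
    have e1 : n + (cost 1 a + (m + k)) = N + k := by omega
    have e2 : max H (w.length + (max d e + 1)) = max K ((g :: w).length + e) := by
      rw [h5, List.length_cons]
      omega
    rw [e1, e2] at h7
    exact h7

lemma Lad.close {v w : List Γ} {p q : Q} {n H : ℕ} (h : Lad M v w p q n H) :
    ∀ {m : ℕ} {g : Γ} {w' : List Γ} {a : Option A} {p' : Q}, w = g :: w' →
    (a, Act.left, p') ∈ M.δ q (some g) → entOf M w' (p', none) m →
    TW M 1 none (lowOf M []) M.q0 Res.acc (n + (cost 1 a + m)) H := by
  induction h with
  | top h =>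
    rintro m g w' a p' rfl ha hm
    have h1 := h.close (k := cost 1 a + m) (e := 0) (fun p n d hd => by
      rw [max_eq_left (Nat.zero_le d), ← add_assoc]
      exact TW.accdown hd ha hm)
    have h2 := h.size_le
    rename_i p q n H
    have e2 : max H ((g :: w').length + 0) = H := by omega
    rw [e2] at h1
    exact h1
  | down h1 h2 h3 h4 ih =>
    rintro m g w' a p' rfl ha hm
    have h5 := ih (m := _) rfl h2 (by
      rw [entOf_eq]
      exact Ent.accdown h3 ha hm)
    rename_i n' _ m' _ a' _
    have e1 : n' + (cost 1 a' + (m' + cost 1 a + m)) = n' + cost 1 a' + m' + (cost 1 a + m) := by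
      omega
    rw [h4, ← e1]
    exact h5

/-- Closing at an accepting configuration. -/
lemma Lad.close_acc {v w : List Γ} {p q : Q} {n H : ℕ} (h : Lad M v w p q n H) (hq : q ∈ M.F) :
    TW M 1 none (lowOf M []) M.q0 Res.acc n H := by
  cases h with
  | top h =>
    have h1 := h.close (k := 0) (e := 0) (fun p n d hd => by
      rw [max_eq_left (Nat.zero_le d), add_zero]
      exact TW.acc hd hq)
    have h2 := h.size_le
    have e2 : max H (w.length + 0) = H := by omega
    rw [e2, add_zero] at h1
    exact h1
  | down h1 h2 h3 h4 =>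
    have h5 := h1.close rfl h2 (by
      rw [entOf_eq]
      exact Ent.acc h3 hq)
    rename_i n' m' a' _
    have e1 : n' + (cost 1 a' + m') = n := by omega
    rw [e1] at h5
    exact h5

theorem exists_tw {u : List A} {h : ℕ} {c' : Conf Γ Q} (hr : Run M M.init u h c')
    (hF : c'.q ∈ M.F) : TW M 1 none (lowOf M []) M.q0 Res.acc u.length h := by
  have key : ∀ {c c' : Conf Γ Q} {u : List A} {h : ℕ}, Run M c u h c' → c = M.init →
      ∃ p, Lad M c'.up c'.down p c'.q u.length h := by
    intro c c' u h hr
    induction hr with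
    | refl =>
      rintro rfl
      exact ⟨M.q0, Lad.top (LadT.base (TW.refl _ _ _))⟩
    | @step _ _ u h a _ hs ih =>
      intro hc
      obtain ⟨p, hp⟩ := ih hc
      obtain ⟨p', hp'⟩ := hp.step hs
      refine ⟨p', ?_⟩
      rw [List.length_append]
      cases a with
      | none => exact hp'
      | some x => exact hp'
  obtain ⟨p, hp⟩ := key hr rfl
  exact hp.close_acc hF

end H61.SA
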