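import Mathlib

set_option autoImplicit false

/-!
# Growth rates
-/

namespace H61.SA

open Filter Asymptotics

lemma rpow_key (N n : ℕ) : ((n : ℝ) ^ ((N : ℝ) / (N + 1))) ^ (N + 1) = (n : ℝ) ^ N := by
  rw [← Real.rpow_natCast, ← Real.rpow_mul (Nat.cast_nonneg n), ← Real.rpow_natCast]
  congr 1
  push_cast
  field_simp

lemma le_of_pow_le {N n K m : ℕ} (h : m ^ (N + 1) ≤ K * n ^ N) :
    (m : ℝ) ≤ K * (n : ℝ) ^ ((N : ℝ) / (N + 1)) := by
  have h0 : (0 : ℝ) ≤ (n : ℝ) ^ ((N : ℝ) / (N + 1)) := Real.rpow_nonneg (Nat.cast_nonneg n) _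
  refine (pow_le_pow_iff_left₀ (Nat.cast_nonneg m) (mul_nonneg (Nat.cast_nonneg K) h0)
    (Nat.succ_ne_zero N)).1 ?_
  rw [mul_pow, rpow_key]
  have h1 : K ≤ K ^ (N + 1) := Nat.le_self_pow (by omega) K
  have h2 : m ^ (N + 1) ≤ K ^ (N + 1) * n ^ N := h.trans (Nat.mul_le_mul_right _ h1)
  exact_mod_cast h2

lemma pow_le_of_le {N n K m : ℕ} (h : n ^ N ≤ K * m ^ (N + 1)) :
    (n : ℝ) ^ ((N : ℝ) / (N + 1)) ≤ K * m := by
  have h0 : (0 : ℝ) ≤ (n : ℝ) ^ ((N : ℝ) / (N + 1)) := Real.rpow_nonneg (Nat.cast_nonneg n) _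
  refine (pow_le_pow_iff_left₀ h0 (mul_nonneg (Nat.cast_nonneg K) (Nat.cast_nonneg m))
    (Nat.succ_ne_zero N)).1 ?_
  rw [mul_pow, rpow_key]
  have h1 : K ≤ K ^ (N + 1) := Nat.le_self_pow (by omega) K
  have h2 : n ^ N ≤ K ^ (N + 1) * m ^ (N + 1) := h.trans (Nat.mul_le_mul_right _ h1)
  exact_mod_cast h2

lemma theta_pow {f : ℕ → ℕ} {N C : ℕ} (hN : 1 ≤ N)
    (h1 : ∀ l, 1 ≤ l → ∀ n, C * l ^ (N + 1) ≤ n → l ^ N ≤ f n + 1)
    (h2 : ∀ l, 1 ≤ l → ∀ n, n ≤ l * (f n + 1) → f n + 1 ≤ C * l ^ N) :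
    (fun n => (f n : ℝ)) =Θ[atTop] fun n => (n : ℝ) ^ ((N : ℝ) / (N + 1)) := by
  have hC : 1 ≤ C := by
    have := h2 1 le_rfl 0 (by omega)
    rw [one_pow, mul_one] at this
    omega
  constructor
  · refine IsBigO.of_bound (C * 2 ^ N + C ^ (N + 1) : ℕ) ?_
    filter_upwards [eventually_ge_atTop 1] with n hn
    rw [Real.norm_of_nonneg (Nat.cast_nonneg _),
      Real.norm_of_nonneg (Real.rpow_nonneg (Nat.cast_nonneg n) _)]
    have key : (f n + 1) ^ (N + 1) ≤ (C * 2 ^ N + C ^ (N + 1)) * n ^ N := by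
      set m := f n + 1 with hm
      have hm1 : 0 < m := by omega
      by_cases hmn : m ≤ n
      · have e1 : n ≤ (n / m + 1) * m := by
          have := Nat.lt_div_mul_add (a := n) hm1
          nlinarith
        have e2 : (n / m + 1) * m ≤ 2 * n := by
          have := Nat.div_mul_le_self n m
          nlinarith
        have e3 := h2 (n / m + 1) (Nat.succ_le_succ (Nat.zero_le _)) n e1
        rw [← hm] at e3
        calc m ^ (N + 1) = m * m ^ N := by ring
          _ ≤ (C * (n / m + 1) ^ N) * m ^ N := Nat.mul_le_mul_right _ e3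
          _ = C * ((n / m + 1) * m) ^ N := by rw [mul_pow]; ring
          _ ≤ C * (2 * n) ^ N := Nat.mul_le_mul_left _ (Nat.pow_le_pow_left e2 N)
          _ = C * 2 ^ N * n ^ N := by rw [mul_pow]; ring
          _ ≤ _ := Nat.mul_le_mul_right _ (Nat.le_add_right _ _)
      · have e3 := h2 1 le_rfl n (by omega)
        rw [one_pow, mul_one, ← hm] at e3
        calc m ^ (N + 1) ≤ C ^ (N + 1) := Nat.pow_le_pow_left e3 _
          _ ≤ C ^ (N + 1) * n ^ N := Nat.le_mul_of_pos_right _ (Nat.pow_pos (by omega))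
          _ ≤ _ := Nat.mul_le_mul_right _ (Nat.le_add_left _ _)
    have := le_of_pow_le key
    refine le_trans ?_ this
    push_cast
    linarith
  · refine IsBigO.of_bound ((C ^ N * (2 ^ (N + 1)) ^ N * 2 ^ (N + 1) : ℕ) : ℝ) ?_
    filter_upwards [eventually_ge_atTop (C * 2 ^ (N + 1))] with n hn
    rw [Real.norm_of_nonneg (Nat.cast_nonneg _),
      Real.norm_of_nonneg (Real.rpow_nonneg (Nat.cast_nonneg n) _)]
    refine pow_le_of_le ?_
    set l := Nat.findGreatest (fun l => C * l ^ (N + 1) ≤ n) n with hl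
    have h2n : 2 ≤ n := by
      have : 2 ^ 1 ≤ 2 ^ (N + 1) := Nat.pow_le_pow_right (by omega) (by omega)
      nlinarith
    have hl2 : 2 ≤ l := Nat.le_findGreatest h2n hn
    have hlP : C * l ^ (N + 1) ≤ n :=
      Nat.findGreatest_spec (P := fun l => C * l ^ (N + 1) ≤ n) h2n hn
    have hlt : n < C * (l + 1) ^ (N + 1) := by
      by_contra hcon
      push Not at hcon
      have h3 : l + 1 ≤ n := by
        calc l + 1 ≤ (l + 1) ^ (N + 1) := Nat.le_self_pow (by omega) _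
          _ ≤ C * (l + 1) ^ (N + 1) := Nat.le_mul_of_pos_left _ (by omega)
          _ ≤ n := hcon
      have h4 := Nat.le_findGreatest (P := fun l => C * l ^ (N + 1) ≤ n) h3 hcon
      omega
    have e1 := h1 l (by omega) n hlP
    have e2 : 2 ≤ f n + 1 := by
      have h5 : 2 ^ 1 ≤ l ^ N := by
        calc 2 ^ 1 ≤ 2 ^ N := Nat.pow_le_pow_right (by omega) hN
          _ ≤ l ^ N := Nat.pow_le_pow_left hl2 N
      omega
    have e3 : n ≤ C * 2 ^ (N + 1) * l ^ (N + 1) := by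
      calc n ≤ C * (l + 1) ^ (N + 1) := hlt.le
        _ ≤ C * (2 * l) ^ (N + 1) := Nat.mul_le_mul_left _ (Nat.pow_le_pow_left (by omega) _)
        _ = C * 2 ^ (N + 1) * l ^ (N + 1) := by rw [mul_pow]; ring
    calc n ^ N ≤ (C * 2 ^ (N + 1) * l ^ (N + 1)) ^ N := Nat.pow_le_pow_left e3 N
      _ = C ^ N * (2 ^ (N + 1)) ^ N * (l ^ N) ^ (N + 1) := by
          rw [mul_pow, mul_pow, ← pow_mul l, ← pow_mul l, mul_comm (N + 1) N]
      _ ≤ C ^ N * (2 ^ (N + 1)) ^ N * (2 * f n) ^ (N + 1) :=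
          Nat.mul_le_mul_left _ (Nat.pow_le_pow_left (by omega) _)
      _ = _ := by rw [mul_pow]; ring

lemma theta_lin {f : ℕ → ℕ} {C : ℕ} (h1 : ∀ r n, C * (r + 1) ≤ n → r ≤ f n)
    (h2 : ∀ n, f n ≤ C * (n + 1)) : (fun n => (f n : ℝ)) =Θ[atTop] fun n => (n : ℝ) := by
  have hC : 1 ≤ C := by
    by_contra hcon
    have h0 : C = 0 := by omega
    subst h0
    have e1 := h1 1 0 (by omega)
    have e2 := h2 0
    omega
  constructor
  · refine IsBigO.of_bound (2 * C : ℕ) ?_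
    filter_upwards [eventually_ge_atTop 1] with n hn
    rw [Real.norm_of_nonneg (Nat.cast_nonneg _), Real.norm_of_nonneg (Nat.cast_nonneg _)]
    have : f n ≤ 2 * C * n := (h2 n).trans (by nlinarith)
    exact_mod_cast this
  · refine IsBigO.of_bound (4 * C : ℕ) ?_
    filter_upwards [eventually_ge_atTop (4 * C)] with n hn
    rw [Real.norm_of_nonneg (Nat.cast_nonneg _), Real.norm_of_nonneg (Nat.cast_nonneg _)]
    have e1 : 4 ≤ n / C := (Nat.le_div_iff_mul_le (by omega)).2 hn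
    have e2 := h1 (n / C - 1) n (by
      rw [Nat.sub_add_cancel (by omega)]
      exact Nat.mul_div_le n C)
    have e3 : n < C * (n / C + 1) := Nat.lt_mul_div_succ n (by omega)
    have : n ≤ 4 * C * f n := by
      calc n ≤ C * (n / C + 1) := e3.le
        _ ≤ C * (4 * (n / C - 1)) := Nat.mul_le_mul_left _ (by omega)
        _ = 4 * C * (n / C - 1) := by ring
        _ ≤ _ := Nat.mul_le_mul_left _ e2
    exact_mod_cast this

end H61.SA
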