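import Pool.Agent.helper61.SAFlat

set_option autoImplicit false

/-!
# Non-erasing stack automata with separators
-/

namespace H61.SA

/-- The cost of building a stack of separators (top first). -/
def cst : List ℕ → ℕ
  | [] => 0
  | j :: w => cst w + (w.takeWhile fun x => decide (x ≤ j)).length

lemma takeWhile_sep {p : ℕ → Bool} {g : ℕ} (hg : p g = false) (u w : List ℕ) :
    (u ++ g :: w).takeWhile p = u.takeWhile p := by
  induction u with
  | nil => simp [hg]
  | cons x u ih =>
    rw [List.cons_append, List.takeWhile_cons, List.takeWhile_cons, ih]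

lemma takeWhile_all {p : ℕ → Bool} {w : List ℕ} (h : ∀ x ∈ w, p x = true) :
    w.takeWhile p = w := by
  induction w with
  | nil => rfl
  | cons x w ih =>
    rw [List.takeWhile_cons, h x (by simp), if_pos rfl,
      ih fun y hy => h y (List.mem_cons_of_mem _ hy)]

lemma cst_sep {g : ℕ} (u w : List ℕ) (h : ∀ x ∈ u, x < g) :
    cst (u ++ g :: w) = cst u + cst (g :: w) := by
  induction u with
  | nil => simp [cst]
  | cons x u ih =>
    have hx : x < g := h x (by simp)
    rw [List.cons_append, cst, ih fun y hy => h y (List.mem_cons_of_mem _ hy),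
      takeWhile_sep (by simpa using hx), cst.eq_2 x u]
    omega

lemma cst_top {k : ℕ} {w : List ℕ} (h : ∀ x ∈ w, x ≤ k) : cst (k :: w) = cst w + w.length := by
  rw [cst, takeWhile_all (by simpa using h)]

/-- Splitting at the topmost separator of the highest level. -/
lemma split_top {k : ℕ} (w : List ℕ) (h : ∀ x ∈ w, x < k + 1) :
    (∀ x ∈ w, x < k) ∨ ∃ u w', w = u ++ k :: w' ∧ ∀ x ∈ u, x < k := by
  induction w with
  | nil => left; simp
  | cons x w ih =>
    have hx := h x (by simp)
    by_cases hxk : x = k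
    · subst hxk
      exact Or.inr ⟨[], w, rfl, by simp⟩
    · rcases ih fun y hy => h y (List.mem_cons_of_mem _ hy) with h1 | ⟨u, w', h1, h2⟩
      · left
        intro y hy
        rcases List.mem_cons.1 hy with rfl | hy
        · omega
        · exact h1 y hy
      · right
        refine ⟨x :: u, w', by rw [h1]; rfl, ?_⟩
        intro y hy
        rcases List.mem_cons.1 hy with rfl | hy
        · omega
        · exact h2 y hy

/-- The lower bound. -/
lemma cst_lower (k : ℕ) : ∃ C : ℕ, ∀ w : List ℕ, (∀ x ∈ w, x < k) → ∀ l, 1 ≤ l →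
    l * w.length ≤ cst w + C * l ^ (k + 1) := by
  induction k with
  | zero =>
    refine ⟨0, fun w hw l _ => ?_⟩
    cases w with
    | nil => simp
    | cons x w => exact absurd (hw x (by simp)) (by omega)
  | succ k ih =>
    obtain ⟨C, hC⟩ := ih
    refine ⟨2 * C + 1, fun w hw l hl => ?_⟩
    have key : ∀ n, ∀ w : List ℕ, w.length ≤ n → (∀ x ∈ w, x < k + 1) →
        l * w.length ≤ cst w + C * l ^ (k + 1) + l * (C * l ^ (k + 1) + l) := by
      intro n
      induction n with
      | zero =>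
        intro w hw' _
        have : w.length = 0 := by omega
        rw [this]; omega
      | succ n ihn =>
        intro w hw' hlt
        rcases split_top w hlt with h1 | ⟨u, w', h1, h2⟩
        · have := hC w h1 l hl
          omega
        · have hle : ∀ x ∈ w', x ≤ k := fun x hx => by
            have := hlt x (by rw [h1]; simp [hx])
            omega
          have e1 : cst w = cst u + (cst w' + w'.length) := by
            rw [h1, cst_sep u w' h2, cst_top hle]
          have e2 : w.length = u.length + w'.length + 1 := by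
            rw [h1]; simp; omega
          have e3 := hC u h2 l hl
          by_cases hX : C * l ^ (k + 1) + l ≤ w'.length
          · have e4 := ihn w' (by omega) (fun x hx => by have := hle x hx; omega)
            rw [e1, e2]
            generalize C * l ^ (k + 1) = L at *
            nlinarith
          · rw [e1, e2]
            generalize C * l ^ (k + 1) = L at *
            have e5 : l * (w'.length + 1) ≤ l * (L + l) := Nat.mul_le_mul_left _ (by omega)
            nlinarith
    have h1 := key w.length w le_rfl hw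
    have h2 : l ^ (k + 1) ≤ l ^ (k + 2) := Nat.pow_le_pow_right hl (by omega)
    have h3 : l * l ≤ l ^ (k + 2) := by
      calc l * l = l ^ 2 := by ring
        _ ≤ l ^ (k + 2) := Nat.pow_le_pow_right hl (by omega)
    have h4 : l * (C * l ^ (k + 1)) = C * l ^ (k + 2) := by ring
    have h5 : C * l ^ (k + 1) ≤ C * l ^ (k + 2) := Nat.mul_le_mul_left _ h2
    change l * w.length ≤ cst w + (2 * C + 1) * l ^ (k + 2)
    nlinarith

/-- Repeated blocks. -/
def rep (k : ℕ) (W : List ℕ) : ℕ → List ℕ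
  | 0 => []
  | m + 1 => k :: (W ++ rep k W m)

lemma rep_length (k : ℕ) (W : List ℕ) (m : ℕ) : (rep k W m).length = m * (W.length + 1) := by
  induction m with
  | zero => simp [rep]
  | succ m ih => rw [rep, List.length_cons, List.length_append, ih]; ring

lemma rep_mem {k : ℕ} {W : List ℕ} (hW : ∀ x ∈ W, x < k) (m : ℕ) : ∀ x ∈ rep k W m, x ≤ k := by
  induction m with
  | zero => simp [rep]
  | succ m ih =>
    intro x hx
    rw [rep] at hx
    rcases List.mem_cons.1 hx with rfl | hx
    · exact le_rfl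
    · rcases List.mem_append.1 hx with hx | hx
      · exact (hW x hx).le
      · exact ih x hx

lemma cst_rep {k : ℕ} {W : List ℕ} (hW : ∀ x ∈ W, x < k) (m : ℕ) :
    cst (rep k W m) ≤ m * (cst W + m * (W.length + 1)) := by
  induction m with
  | zero => simp [rep, cst]
  | succ m ih =>
    have h1 : cst (W ++ rep k W m) = cst W + cst (rep k W m) := by
      cases m with
      | zero => simp [rep, cst]
      | succ m => rw [rep]; exact cst_sep _ _ hW
    rw [rep, cst_top, h1, List.length_append, rep_length]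
    · nlinarith [Nat.zero_le (cst W), Nat.zero_le (m * (W.length + 1))]
    · intro x hx
      rcases List.mem_append.1 hx with hx | hx
      · exact (hW x hx).le
      · exact rep_mem hW m x hx

/-- The upper bound. -/
lemma cst_upper (k : ℕ) : ∃ C : ℕ, ∀ l, 1 ≤ l → ∃ w : List ℕ, (∀ x ∈ w, x < k) ∧
    l ^ k ≤ w.length + 1 ∧ w.length ≤ C * l ^ k ∧ cst w ≤ C * l ^ (k + 1) := by
  induction k with
  | zero => exact ⟨0, fun l _ => ⟨[], by simp, by simp, by simp, by simp [cst]⟩⟩
  | succ k ih =>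
    obtain ⟨C, hC⟩ := ih
    refine ⟨2 * C + 1, fun l hl => ?_⟩
    obtain ⟨W, h1, h2, h3, h4⟩ := hC l hl
    have hlk : 1 ≤ l ^ k := Nat.one_le_pow _ _ hl
    have h6 : l * (W.length + 1) ≤ (C + 1) * l ^ (k + 1) := by
      calc l * (W.length + 1) ≤ l * (C * l ^ k + l ^ k) :=
            Nat.mul_le_mul_left _ (add_le_add h3 hlk)
        _ = (C + 1) * l ^ (k + 1) := by ring
    refine ⟨rep k W l, ?_, ?_, ?_, ?_⟩
    · intro x hx
      have := rep_mem h1 l x hx
      omega
    · rw [rep_length]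
      calc l ^ (k + 1) = l * l ^ k := by ring
        _ ≤ l * (W.length + 1) := Nat.mul_le_mul_left _ h2
        _ ≤ _ := Nat.le_succ _
    · rw [rep_length]
      exact h6.trans (Nat.mul_le_mul_right _ (by omega))
    · refine (cst_rep h1 l).trans ?_
      calc l * (cst W + l * (W.length + 1)) ≤ l * (C * l ^ (k + 1) + (C + 1) * l ^ (k + 1)) :=
            Nat.mul_le_mul_left _ (add_le_add h4 h6)
        _ = (2 * C + 1) * l ^ (k + 1 + 1) := by ring

/-! ### The automaton -/

/-- The automaton with `k` levels of separators.  States: `none` (base), `some (true, j)` (walking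
down before pushing `j`), `some (false, j)` (walking up before pushing `j`). -/
def sepAut (k : ℕ) : Aut Unit (Fin k) (Option (Bool × Fin k)) where
  δ q γ := {t | (q = none ∧ (t = (some (), Act.still, none) ∨
      ∃ j, t = (none, Act.still, some (true, j)))) ∨
    (∃ j, q = some (true, j) ∧ ((γ = none ∧ t = (none, Act.still, some (false, j))) ∨
      (∃ g, γ = some g ∧ j < g ∧ t = (none, Act.still, some (false, j))) ∨
      ∃ g, γ = some g ∧ g ≤ j ∧ t = (some (), Act.left, some (true, j)))) ∨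
    ∃ j, q = some (false, j) ∧ (t = (none, Act.right, some (false, j)) ∨
      t = (none, Act.push j, none))}
  q0 := none
  F := Set.univ

/-- The content as numbers. -/
def cont {k : ℕ} {Q : Type} (c : Conf (Fin k) Q) : List ℕ := c.content.map Fin.val

/-- The invariant. -/
def Inv {k : ℕ} (c : Conf (Fin k) (Option (Bool × Fin k))) (n : ℕ) : Prop :=
  (c.q = none → c.up = [] ∧ cst (cont c) ≤ n) ∧
  (∀ j, c.q = some (true, j) → (∀ x ∈ c.up, x ≤ j) ∧ cst (cont c) + c.up.length ≤ n) ∧
  ∀ j, c.q = some (false, j) →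
    cst (cont c) + ((cont c).takeWhile fun x => decide (x ≤ j.val)).length ≤ n

lemma inv_cst {k : ℕ} {c : Conf (Fin k) (Option (Bool × Fin k))} {n : ℕ} (h : Inv c n) :
    cst (cont c) ≤ n := by
  obtain ⟨h1, h2, h3⟩ := h
  rcases hq : c.q with _ | ⟨b, j⟩
  · exact (h1 hq).2
  · cases b with
    | true => have := (h2 j hq).2; omega
    | false => have := h3 j hq; omega

lemma cont_length {k : ℕ} {Q : Type} (c : Conf (Fin k) Q) : (cont c).length = c.size := by
  simp [cont, Conf.content, Conf.size]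

lemma inv_step {k : ℕ} {c c' : Conf (Fin k) (Option (Bool × Fin k))} {a : Option Unit} {n : ℕ}
    (h : Inv c n) (hs : Step (sepAut k) c a c') :
    Inv c' (n + cost 1 a) ∧ c.size ≤ c'.size := by
  obtain ⟨h1, h2, h3⟩ := h
  cases hs with
  | stay ha =>
    rcases ha with ⟨hq, ht | ⟨j, ht⟩⟩ | ⟨j, hq, (⟨hγ, ht⟩ | ⟨g', hγ, hg, ht⟩ | ⟨g', hγ, hg, ht⟩)⟩ |
      ⟨j, hq, ht | ht⟩ <;> simp at ht
  | pop ha =>
    rcases ha with ⟨hq, ht | ⟨j, ht⟩⟩ | ⟨j, hq, (⟨hγ, ht⟩ | ⟨g', hγ, hg, ht⟩ | ⟨g', hγ, hg, ht⟩)⟩ |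
      ⟨j, hq, ht | ht⟩ <;> simp at ht
  | push ha =>
    rename_i q q' w g
    rcases ha with ⟨hq, ht | ⟨j, ht⟩⟩ | ⟨j, hq, (⟨hγ, ht⟩ | ⟨g', hγ, hg, ht⟩ | ⟨g', hγ, hg, ht⟩)⟩ |
      ⟨j, hq, ht | ht⟩ <;> simp at ht
    obtain ⟨rfl, rfl, rfl⟩ := ht
    refine ⟨⟨fun _ => ⟨rfl, ?_⟩, fun j hj => by simp at hj, fun j hj => by simp at hj⟩, by
      simp [Conf.size]⟩
    have := h3 g hq
    simp only [cont, Conf.content, List.reverse_nil, List.nil_append, List.map_cons, cst] at this ⊢
    exact this
  | left ha =>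
    rename_i q q' v w g
    rcases ha with ⟨hq, ht | ⟨j, ht⟩⟩ | ⟨j, hq, (⟨hγ, ht⟩ | ⟨g', hγ, hg, ht⟩ | ⟨g', hγ, hg, ht⟩)⟩ |
      ⟨j, hq, ht | ht⟩ <;> simp at ht
    obtain ⟨rfl, rfl⟩ := ht
    simp only [Option.some.injEq] at hγ
    subst hγ
    obtain ⟨k1, k2⟩ := h2 j hq
    refine ⟨⟨fun h => by simp at h, fun j' hj' => ?_, fun j' hj' => by simp at hj'⟩, by
      simp [Conf.size]; omega⟩
    simp only [Option.some.injEq, Prod.mk.injEq, true_and] at hj'
    subst hj'
    refine ⟨?_, ?_⟩
    · intro x hx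
      rcases List.mem_cons.1 hx with rfl | hx
      · exact hg
      · exact k1 x hx
    · simp only [cont, Conf.content, List.reverse_cons, List.append_assoc, List.singleton_append,
        List.length_cons] at k2 ⊢
      change _ ≤ n + 1
      omega
  | still ha =>
    rename_i q q' v w
    refine ⟨?_, le_rfl⟩
    rcases ha with ⟨hq, ht | ⟨j, ht⟩⟩ | ⟨j, hq, (⟨hγ, ht⟩ | ⟨g', hγ, hg, ht⟩ | ⟨g', hγ, hg, ht⟩)⟩ |
      ⟨j, hq, ht | ht⟩ <;> simp at ht
    · obtain ⟨rfl, rfl⟩ := ht
      obtain ⟨k1, k2⟩ := h1 hq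
      refine ⟨fun _ => ⟨k1, k2.trans (Nat.le_add_right _ _)⟩, fun j hj => by simp at hj,
        fun j hj => by simp at hj⟩
    · obtain ⟨rfl, rfl⟩ := ht
      obtain ⟨k1, k2⟩ := h1 hq
      refine ⟨fun h => by simp at h, fun j' hj' => ?_, fun j' hj' => by simp at hj'⟩
      dsimp only at k1
      subst k1
      refine ⟨by simp, ?_⟩
      change _ ≤ n + 0
      simpa [cont, Conf.content] using k2
    · obtain ⟨rfl, rfl⟩ := ht
      obtain ⟨k1, k2⟩ := h2 j hq
      refine ⟨fun h => by simp at h, fun j' hj' => by simp at hj', fun j' hj' => ?_⟩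
      simp only [Option.some.injEq, Prod.mk.injEq, true_and] at hj'
      subst hj'
      rw [List.head?_eq_none_iff] at hγ
      subst hγ
      simp only [cont, Conf.content, List.append_nil] at k2 ⊢
      rw [takeWhile_all]
      · rw [List.length_map, List.length_reverse]
        exact k2
      · intro x hx
        rw [List.mem_map] at hx
        obtain ⟨y, hy, rfl⟩ := hx
        rw [List.mem_reverse] at hy
        simpa using k1 y hy
    · obtain ⟨rfl, rfl⟩ := ht
      obtain ⟨k1, k2⟩ := h2 j hq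
      refine ⟨fun h => by simp at h, fun j' hj' => by simp at hj', fun j' hj' => ?_⟩
      simp only [Option.some.injEq, Prod.mk.injEq, true_and] at hj'
      subst hj'
      obtain ⟨w', rfl⟩ : ∃ w', w = g' :: w' := by
        cases w with
        | nil => simp at hγ
        | cons x w =>
          simp only [List.head?_cons, Option.some.injEq] at hγ
          exact ⟨w, by rw [hγ]⟩
      simp only [cont, Conf.content, List.map_append, List.map_cons] at k2 ⊢
      rw [takeWhile_sep (by simpa using hg), takeWhile_all]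
      · rw [List.length_map, List.length_reverse]
        exact k2
      · intro x hx
        rw [List.mem_map] at hx
        obtain ⟨y, hy, rfl⟩ := hx
        rw [List.mem_reverse] at hy
        simpa using k1 y hy
  | right ha =>
    rename_i q q' v w g
    rcases ha with ⟨hq, ht | ⟨j, ht⟩⟩ | ⟨j, hq, (⟨hγ, ht⟩ | ⟨g', hγ, hg, ht⟩ | ⟨g', hγ, hg, ht⟩)⟩ |
      ⟨j, hq, ht | ht⟩ <;> simp at ht
    obtain ⟨rfl, rfl⟩ := ht
    refine ⟨⟨fun h => by simp at h, fun j' hj' => by simp at hj', fun j' hj' => ?_⟩, by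
      simp [Conf.size]; omega⟩
    simp only [Option.some.injEq, Prod.mk.injEq, true_and] at hj'
    subst hj'
    have := h3 j hq
    simp only [cont, Conf.content, List.reverse_cons, List.append_assoc,
      List.singleton_append] at this ⊢
    exact this

lemma sep_inv {k : ℕ} {u : List Unit} {H : ℕ} {c : Conf (Fin k) (Option (Bool × Fin k))}
    (hr : Run (sepAut k) (sepAut k).init u H c) : Inv c u.length ∧ c.size = H := by
  have key : ∀ {c c' : Conf (Fin k) (Option (Bool × Fin k))} {u : List Unit} {H : ℕ},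
      Run (sepAut k) c u H c' → c = (sepAut k).init → Inv c' u.length ∧ c'.size = H := by
    intro c c' u H hr
    induction hr with
    | refl =>
      rintro rfl
      refine ⟨⟨fun _ => ⟨rfl, by simp [cont, Conf.content, Aut.init, cst]⟩, fun j hj => ?_,
        fun j hj => ?_⟩, rfl⟩
      · simp [Aut.init, sepAut] at hj
      · simp [Aut.init, sepAut] at hj
    | @step c' c'' u h a _ hs ih =>
      intro hc
      obtain ⟨h1, h2⟩ := ih hc
      obtain ⟨h3, h4⟩ := inv_step h1 hs
      refine ⟨?_, by omega⟩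
      rw [List.length_append]
      cases a with
      | none => exact h3
      | some x => exact h3
  exact key hr rfl

lemma Run.single {A Γ Q : Type} {M : Aut A Γ Q} {c c' : Conf Γ Q} {a : Option A}
    (h : Step M c a c') : ∃ H, Run M c a.toList H c' :=
  ⟨_, by simpa using Run.step (Run.refl c) h⟩

/-- Exact runs. -/
def Ex {A Γ Q : Type} (M : Aut A Γ Q) (c : Conf Γ Q) (n : ℕ) (c' : Conf Γ Q) : Prop :=
  ∃ u H, u.length = n ∧ Run M c u H c'

lemma Ex.trans {A Γ Q : Type} {M : Aut A Γ Q} {c c' c'' : Conf Γ Q} {n m : ℕ}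
    (h1 : Ex M c n c') (h2 : Ex M c' m c'') : Ex M c (n + m) c'' := by
  obtain ⟨u, h, hu, hr⟩ := h1
  obtain ⟨u', h', hu', hr'⟩ := h2
  obtain ⟨H, h3, -, -⟩ := hr.trans hr'
  exact ⟨u ++ u', H, by rw [List.length_append, hu, hu'], h3⟩

lemma Ex.refl {A Γ Q : Type} (M : Aut A Γ Q) (c : Conf Γ Q) : Ex M c 0 c :=
  ⟨[], _, rfl, Run.refl c⟩

lemma Ex.free {A Γ Q : Type} {M : Aut A Γ Q} {c c' : Conf Γ Q} (h : Step M c none c') :
    Ex M c 0 c' := by
  obtain ⟨H, h1⟩ := Run.single h
  exact ⟨_, H, rfl, h1⟩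

lemma Ex.paid {A Γ Q : Type} {M : Aut A Γ Q} {c c' : Conf Γ Q} {x : A}
    (h : Step M c (some x) c') : Ex M c 1 c' := by
  obtain ⟨H, h1⟩ := Run.single h
  exact ⟨_, H, rfl, h1⟩

section build

variable {k : ℕ}

lemma walk_up (j : Fin k) (v : List (Fin k)) : ∀ w : List (Fin k),
    Ex (sepAut k) ⟨some (false, j), v, w⟩ 0 ⟨some (false, j), [], v.reverse ++ w⟩ := by
  induction v with
  | nil => intro w; exact Ex.refl _ _
  | cons g v ih =>
    intro w
    have h1 : Ex (sepAut k) ⟨some (false, j), g :: v, w⟩ 0 ⟨some (false, j), v, g :: w⟩ :=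
      Ex.free (Step.right (Or.inr (Or.inr ⟨j, rfl, Or.inl rfl⟩)))
    have h2 := h1.trans (ih (g :: w))
    simpa using h2

lemma walk_down (j : Fin k) (w : List (Fin k)) : ∀ v : List (Fin k),
    Ex (sepAut k) ⟨some (true, j), v, w⟩
      (((w.map Fin.val).takeWhile fun x => decide (x ≤ j.val)).length)
      ⟨some (false, j), [], v.reverse ++ w⟩ := by
  induction w with
  | nil =>
    intro v
    have h1 : Ex (sepAut k) ⟨some (true, j), v, []⟩ 0 ⟨some (false, j), v, []⟩ :=
      Ex.free (Step.still (Or.inr (Or.inl ⟨j, rfl, Or.inl ⟨rfl, rfl⟩⟩)))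
    exact h1.trans (walk_up j v [])
  | cons g w ih =>
    intro v
    by_cases hg : g ≤ j
    · have h1 : Ex (sepAut k) ⟨some (true, j), v, g :: w⟩ 1 ⟨some (true, j), g :: v, w⟩ :=
        Ex.paid (x := ()) (Step.left (Or.inr (Or.inl ⟨j, rfl, Or.inr (Or.inr ⟨g, rfl, hg, rfl⟩)⟩)))
      have h2 := h1.trans (ih (g :: v))
      have h3 : (((g :: w).map Fin.val).takeWhile fun x => decide (x ≤ j.val)).length =
          1 + ((w.map Fin.val).takeWhile fun x => decide (x ≤ j.val)).length := by
        have hg' : g.val ≤ j.val := hg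
        rw [List.map_cons, List.takeWhile_cons, if_pos (by simpa using hg'), List.length_cons]
        omega
      rw [h3]
      simpa using h2
    · have hg' : j < g := not_le.1 hg
      have h1 : Ex (sepAut k) ⟨some (true, j), v, g :: w⟩ 0 ⟨some (false, j), v, g :: w⟩ :=
        Ex.free (Step.still (Or.inr (Or.inl ⟨j, rfl, Or.inr (Or.inl ⟨g, rfl, hg', rfl⟩)⟩)))
      have h2 := h1.trans (walk_up j v (g :: w))
      have h3 : (((g :: w).map Fin.val).takeWhile fun x => decide (x ≤ j.val)).length = 0 := by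
        have hg'' : j.val < g.val := hg'
        rw [List.map_cons, List.takeWhile_cons, if_neg (by simpa using hg'')]
        rfl
      rw [h3]
      exact h2

lemma build_stack (w : List (Fin k)) :
    Ex (sepAut k) (sepAut k).init (cst (w.map Fin.val)) ⟨none, [], w⟩ := by
  induction w with
  | nil => exact Ex.refl _ _
  | cons j w ih =>
    have h1 : Ex (sepAut k) ⟨none, [], w⟩ 0 ⟨some (true, j), [], w⟩ :=
      Ex.free (Step.still (Or.inl ⟨rfl, Or.inr ⟨j, rfl⟩⟩))
    have h2 := (ih.trans h1).trans (walk_down j w [])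
    have h3 : Ex (sepAut k) ⟨some (false, j), [], w⟩ 0 ⟨none, [], j :: w⟩ :=
      Ex.free (Step.push (Or.inr (Or.inr ⟨j, rfl, Or.inr rfl⟩)))
    exact h2.trans h3

lemma idle (w : List (Fin k)) (m : ℕ) :
    Ex (sepAut k) ⟨none, [], w⟩ m ⟨none, [], w⟩ := by
  induction m with
  | zero => exact Ex.refl _ _
  | succ m ih =>
    exact ih.trans (Ex.paid (x := ()) (Step.still (Or.inl ⟨rfl, Or.inl rfl⟩)))

end build

lemma sep_nonErasing (k : ℕ) : (sepAut k).NonErasing := by
  intro q γ a q' ha
  rcases ha with ⟨hq, ht | ⟨j, ht⟩⟩ | ⟨j, hq, (⟨hγ, ht⟩ | ⟨g', hγ, hg, ht⟩ | ⟨g', hγ, hg, ht⟩)⟩ |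
      ⟨j, hq, ht | ht⟩ <;> simp at ht

/-- Heights reached exactly. -/
theorem sep_lower (k : ℕ) : ∃ C : ℕ, ∀ l, 1 ≤ l → ∀ n, C * l ^ (k + 1) ≤ n →
    ∃ (u : List Unit) (H : ℕ) (c : Conf (Fin k) (Option (Bool × Fin k))),
      Run (sepAut k) (sepAut k).init u H c ∧ u.length = n ∧ l ^ k ≤ H + 1 := by
  obtain ⟨C, hC⟩ := cst_upper k
  refine ⟨C, fun l hl n hn => ?_⟩
  obtain ⟨w, h1, h2, -, h4⟩ := hC l hl
  obtain ⟨w', rfl⟩ : ∃ w' : List (Fin k), w'.map Fin.val = w := by
    refine ⟨w.pmap (fun x hx => ⟨x, hx⟩) h1, ?_⟩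
    rw [List.map_pmap]
    simp
  obtain ⟨u, H, h5, h6⟩ := (build_stack w').trans (idle w' (n - cst (w'.map Fin.val)))
  have h7 := (sep_inv h6).2
  refine ⟨u, H, _, h6, by omega, ?_⟩
  rw [← h7]
  simpa [Conf.size] using h2

theorem sep_upper (k : ℕ) : ∃ C : ℕ, ∀ l, 1 ≤ l → ∀ (u : List Unit) (H : ℕ)
    (c : Conf (Fin k) (Option (Bool × Fin k))), Run (sepAut k) (sepAut k).init u H c →
    u.length ≤ l * (H + 1) → H + 1 ≤ C * l ^ k := by
  obtain ⟨C, hC⟩ := cst_lower k
  refine ⟨2 + C * 2 ^ (k + 1), fun l hl u H c hr hu => ?_⟩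
  obtain ⟨h1, h2⟩ := sep_inv hr
  have h3 := hC (cont c) (by
    intro x hx
    unfold cont at hx
    rw [List.mem_map] at hx
    obtain ⟨y, -, rfl⟩ := hx
    exact y.isLt) (2 * l) (by omega)
  rw [cont_length, h2] at h3
  have h4 := inv_cst h1
  have h5 : 1 ≤ l ^ k := Nat.one_le_pow _ _ hl
  have h6 : l * H ≤ l * (1 + C * 2 ^ (k + 1) * l ^ k) := by
    have e1 : C * (2 * l) ^ (k + 1) = l * (C * 2 ^ (k + 1) * l ^ k) := by rw [mul_pow]; ring
    rw [e1] at h3
    nlinarith
  have h7 : H ≤ 1 + C * 2 ^ (k + 1) * l ^ k := Nat.le_of_mul_le_mul_left h6 (by omega)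
  nlinarith

end H61.SA
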