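import Pool.Agent.helper61.SAGrowth
import Pool.Agent.helper61.SAReal
import Pool.Agent.helper61.SASep

set_option autoImplicit false

/-!
# The space measures
-/

namespace H61.SA

open Filter Asymptotics

variable {A Γ Q : Type}

/-- The two measures: accept and strong. -/
inductive Meas where
  | accept : Meas
  | strong : Meas

/-- The space of the input `u`: the supremum of the stack sizes of all accepting computations on
`u` (accept measure), respectively of all partial computations on `u` (strong measure). -/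
noncomputable def Aut.spaceOf (M : Aut A Γ Q) (z : Meas) (u : List A) : ℕ∞ :=
  match z with
  | Meas.accept => ⨆ (h : ℕ) (_ : ∃ c, Run M M.init u h c ∧ c.q ∈ M.F), (h : ℕ∞)
  | Meas.strong => ⨆ (h : ℕ) (_ : ∃ v c, v <+: u ∧ Run M M.init v h c), (h : ℕ∞)

/-- The automaton is `z`-limited. -/
def Aut.Limited (M : Aut A Γ Q) (z : Meas) : Prop := ∀ u : List A, M.spaceOf z u ≠ ⊤

/-- The space complexity `n ↦ max {space of u : |u| = n}`. -/
noncomputable def Aut.space (M : Aut A Γ Q) (z : Meas) (n : ℕ) : ℕ :=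
  (⨆ (u : List A) (_ : u.length = n), M.spaceOf z u).toNat

/-- The non-decreasing version `n ↦ max {space of u : |u| ≤ n}`. -/
noncomputable def Aut.hat (M : Aut A Γ Q) (z : Meas) (n : ℕ) : ℕ :=
  (⨆ (u : List A) (_ : u.length ≤ n), M.spaceOf z u).toNat

/-! ### Comparison with the reachable heights -/

/-- The automaton whose accepting runs are counted. -/
def Aut.forM (M : Aut A Γ Q) (z : Meas) : Aut A Γ Q :=
  match z with
  | Meas.accept => M
  | Meas.strong => { M with F := Set.univ }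

lemma Step.congr {M M' : Aut A Γ Q} (h : M.δ = M'.δ) {c c' : Conf Γ Q} {a : Option A}
    (hs : Step M c a c') : Step M' c a c' := by
  cases hs with
  | stay h' => exact Step.stay (h ▸ h')
  | push h' => exact Step.push (h ▸ h')
  | pop h' => exact Step.pop (h ▸ h')
  | left h' => exact Step.left (h ▸ h')
  | still h' => exact Step.still (h ▸ h')
  | right h' => exact Step.right (h ▸ h')

lemma Run.congr {M M' : Aut A Γ Q} (h : M.δ = M'.δ) {c c' : Conf Γ Q} {u : List A} {H : ℕ}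
    (hr : Run M c u H c') : Run M' c u H c' := by
  induction hr with
  | refl => exact Run.refl _
  | step _ hs ih => exact Run.step ih (hs.congr h)

lemma run_strong {M : Aut A Γ Q} {u : List A} {H : ℕ} {c : Conf Γ Q} :
    Run (M.forM Meas.strong) (M.forM Meas.strong).init u H c ↔ Run M M.init u H c := by
  have h1 : (M.forM Meas.strong).init = M.init := rfl
  have h2 : (M.forM Meas.strong).δ = M.δ := rfl
  rw [h1]
  exact ⟨fun h => h.congr h2, fun h => h.congr h2.symm⟩

lemma lt_spaceOf {M : Aut A Γ Q} {z : Meas} {u : List A} {h : ℕ} :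
    (h : ℕ∞) < M.spaceOf z u ↔ ∃ H, h < H ∧ ∃ v c, v <+: u ∧ (z = Meas.accept → v = u) ∧
      Run (M.forM z) (M.forM z).init v H c ∧ c.q ∈ (M.forM z).F := by
  cases z with
  | accept =>
    change _ < ⨆ (h : ℕ) (_ : ∃ c, Run M M.init u h c ∧ c.q ∈ M.F), (h : ℕ∞) ↔ _
    simp only [lt_iSup_iff, Nat.cast_lt]
    constructor
    · rintro ⟨H, ⟨c, h1, h2⟩, h3⟩
      exact ⟨H, h3, u, c, List.prefix_refl u, fun _ => rfl, h1, h2⟩
    · rintro ⟨H, h3, v, c, -, h0, h1, h2⟩
      obtain rfl := h0 trivial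
      exact ⟨H, ⟨c, h1, h2⟩, h3⟩
  | strong =>
    change _ < ⨆ (h : ℕ) (_ : ∃ v c, v <+: u ∧ Run M M.init v h c), (h : ℕ∞) ↔ _
    simp only [lt_iSup_iff, Nat.cast_lt]
    constructor
    · rintro ⟨H, ⟨v, c, h1, h2⟩, h3⟩
      exact ⟨H, h3, v, c, h1, fun h => by simp at h, run_strong.2 h2, Set.mem_univ _⟩
    · rintro ⟨H, h3, v, c, h1, -, h2, -⟩
      exact ⟨H, ⟨v, c, h1, run_strong.1 h2⟩, h3⟩

lemma iSup_ne_top {ι : Type} {s : Set ι} (hs : s.Finite) {f : ι → ℕ∞} (hf : ∀ i, f i ≠ ⊤) :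
    (⨆ (i : ι) (_ : i ∈ s), f i) ≠ ⊤ := by
  have h1 : ∃ B : ℕ, ∀ i ∈ s, f i ≤ B := by
    obtain ⟨B, hB⟩ := (hs.image fun i => (f i).toNat).bddAbove
    refine ⟨B, fun i hi => ?_⟩
    have h2 : (f i).toNat ≤ B := hB ⟨i, hi, rfl⟩
    rw [← ENat.natCast_toNat (hf i)]
    exact_mod_cast h2
  obtain ⟨B, hB⟩ := h1
  have h2 : (⨆ (i : ι) (_ : i ∈ s), f i) ≤ (B : ℕ∞) := iSup₂_le hB
  exact ne_top_of_le_ne_top (ENat.natCast_ne_top B) h2

lemma lt_toNat {x : ℕ∞} (hx : x ≠ ⊤) {h : ℕ} : h < x.toNat ↔ (h : ℕ∞) < x := by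
  conv_rhs => rw [← ENat.natCast_toNat hx]
  exact Nat.cast_lt.symm

variable [Finite A]

lemma hat_ne_top {M : Aut A Γ Q} {z : Meas} (hM : M.Limited z) (n : ℕ) :
    (⨆ (u : List A) (_ : u.length ≤ n), M.spaceOf z u) ≠ ⊤ :=
  iSup_ne_top (s := {u : List A | u.length ≤ n}) (List.finite_length_le A n) hM

lemma space_ne_top {M : Aut A Γ Q} {z : Meas} (hM : M.Limited z) (n : ℕ) :
    (⨆ (u : List A) (_ : u.length = n), M.spaceOf z u) ≠ ⊤ :=
  iSup_ne_top (s := {u : List A | u.length = n}) (List.finite_length_eq A n) hM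

lemma lt_space {M : Aut A Γ Q} {z : Meas} (hM : M.Limited z) {h n : ℕ} :
    h < M.space z n ↔ ∃ u : List A, u.length = n ∧ (h : ℕ∞) < M.spaceOf z u := by
  unfold Aut.space
  rw [lt_toNat (space_ne_top hM n)]
  simp only [lt_iSup_iff, exists_prop]

lemma lt_hat {M : Aut A Γ Q} {z : Meas} (hM : M.Limited z) {h n : ℕ} :
    h < M.hat z n ↔ Rch (M.forM z) (h + 1) n := by
  unfold Aut.hat
  rw [lt_toNat (hat_ne_top hM n)]
  simp only [lt_iSup_iff, exists_prop, lt_spaceOf]
  constructor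
  · rintro ⟨u, hu, H, hH, v, c, h1, -, h2, h3⟩
    exact ⟨v, H, c, h2, h3, hH, h1.length_le.trans hu⟩
  · rintro ⟨v, H, c, h2, h3, hH, h1⟩
    exact ⟨v, h1, H, hH, v, c, List.prefix_refl v, fun _ => rfl, h2, h3⟩

lemma space_le_hat {M : Aut A Γ Q} {z : Meas} (hM : M.Limited z) {m n : ℕ} (h : m ≤ n) :
    M.space z m ≤ M.hat z n := by
  refine ENat.toNat_le_toNat ?_ (hat_ne_top hM n)
  refine iSup₂_le fun u hu => ?_
  exact le_iSup₂_of_le u (by omega) le_rfl

/-- The value of the non-decreasing version is attained. -/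
lemma hat_attained {M : Aut A Γ Q} {z : Meas} (hM : M.Limited z) (n : ℕ) :
    ∃ m ≤ n, M.hat z n ≤ M.space z m := by
  rcases Nat.eq_zero_or_pos (M.hat z n) with h | h
  · exact ⟨0, Nat.zero_le _, by omega⟩
  · have h1 : M.hat z n - 1 < M.hat z n := by omega
    unfold Aut.hat at h1
    rw [lt_toNat (hat_ne_top hM n)] at h1
    simp only [lt_iSup_iff, exists_prop] at h1
    obtain ⟨u, hu, h2⟩ := h1
    refine ⟨u.length, hu, ?_⟩
    have h3 := (lt_space hM (n := u.length) (h := M.hat z n - 1)).2 ⟨u, rfl, h2⟩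
    omega

/-- The trichotomy for the non-decreasing version. -/
theorem hat_trichotomy [Fintype Γ] [Fintype Q] {M : Aut A Γ Q} {z : Meas} (hM : M.Limited z) :
    (∃ B, ∀ n, M.hat z n ≤ B) ∨
    ((fun n => (M.hat z n : ℝ)) =Θ[atTop] fun n => (n : ℝ)) ∨
    ∃ k : ℕ, 1 ≤ k ∧
      (fun n => (M.hat z n : ℝ)) =Θ[atTop] fun n => (n : ℝ) ^ ((k : ℝ) / (k + 1)) := by
  have hlim : ∀ n, ∃ h, ¬ Rch (M.forM z) h n := fun n =>
    ⟨M.hat z n + 1, fun h => lt_irrefl _ ((lt_hat hM).2 h)⟩
  rcases trichotomy (M.forM z) hlim with ⟨H, hH⟩ | ⟨C, h1, h2⟩ | ⟨N, hN, C, h1, h2⟩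
  · left
    refine ⟨H, fun n => ?_⟩
    by_contra hcon
    push Not at hcon
    exact hH n (((lt_hat hM).1 hcon).mono (by omega) le_rfl)
  · right; left
    refine theta_lin (C := C) ?_ ?_
    · intro r n hn
      rcases Nat.eq_zero_or_pos r with rfl | hr
      · exact Nat.zero_le _
      · have h3 : r - 1 < M.hat z n := (lt_hat hM).2 (by
          rw [Nat.sub_add_cancel hr]
          exact (h1 r).mono le_rfl hn)
        omega
    · intro n
      rcases Nat.eq_zero_or_pos (M.hat z n) with h | h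
      · rw [h]; exact Nat.zero_le _
      · have h3 : Rch (M.forM z) (M.hat z n) n := by
          have h4 := (lt_hat hM (h := M.hat z n - 1) (n := n)).1 (by omega)
          rwa [Nat.sub_add_cancel h] at h4
        exact h2 _ _ h3
  · right; right
    refine ⟨N, hN, theta_pow (C := C + 1) hN ?_ ?_⟩
    · intro l hl n hn
      have h3 := (h1 l hl).mono le_rfl (show C * l ^ (N + 1) ≤ n from
        (Nat.mul_le_mul_right _ (by omega)).trans hn)
      rcases Nat.eq_zero_or_pos (l ^ N - 1) with h | h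
      · omega
      · have h4 : l ^ N - 1 - 1 < M.hat z n := (lt_hat hM).2 (by
          rwa [Nat.sub_add_cancel h])
        omega
    · intro l hl n hn
      have hl1 : 1 ≤ l ^ N := Nat.one_le_pow _ _ hl
      rcases Nat.eq_zero_or_pos (M.hat z n) with h | h
      · rw [h]
        nlinarith
      · have h3 : Rch (M.forM z) (M.hat z n) n := by
          have h4 := (lt_hat hM (h := M.hat z n - 1) (n := n)).1 (by omega)
          rwa [Nat.sub_add_cancel h] at h4
        exact (h2 l hl _ _ h3 hn).trans (Nat.mul_le_mul_right _ (by omega))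

end H61.SA
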