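import Pool.Agent.helper61.SIter

set_option autoImplicit false
set_option linter.unusedSectionVars false

/-!
# Domination of words with few pairs by realised profiles
-/

namespace H61.SA

variable {S : Type} [Monoid S] [Fintype S]

open Classical in
/-- Total length of the words satisfying `D`. -/
noncomputable def wt (D : List S → Prop) (us : List (List S)) : ℕ :=
  (us.map fun v => if D v then v.length else 0).sum

lemma wt_nil (D : List S → Prop) : wt D [] = 0 := rfl

lemma wt_cons_pos {D : List S → Prop} {v : List S} (h : D v) (us : List (List S)) :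
    wt D (v :: us) = v.length + wt D us := by
  unfold wt
  rw [List.map_cons, List.sum_cons, if_pos h]

lemma wt_cons_neg {D : List S → Prop} {v : List S} (h : ¬ D v) (us : List (List S)) :
    wt D (v :: us) = wt D us := by
  unfold wt
  rw [List.map_cons, List.sum_cons, if_neg h, zero_add]

lemma wt_cons_le (D : List S → Prop) (v : List S) (us : List (List S)) :
    wt D us ≤ wt D (v :: us) := by
  by_cases h : D v
  · rw [wt_cons_pos h]; omega
  · rw [wt_cons_neg h]

lemma wt_append (D : List S → Prop) (us vs : List (List S)) :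
    wt D (us ++ vs) = wt D us + wt D vs := by
  unfold wt
  rw [List.map_append, List.sum_append]

lemma wt_le_length (D : List S → Prop) (us : List (List S)) : wt D us ≤ us.flatten.length := by
  induction us with
  | nil => simp [wt_nil]
  | cons v us ih =>
    rw [List.flatten_cons, List.length_append]
    by_cases h : D v
    · rw [wt_cons_pos h]; omega
    · rw [wt_cons_neg h]; omega

lemma wt_le_sum {D : List S → Prop} {K : ℕ} {f : List S → ℕ} (us : List (List S))
    (h : ∀ v ∈ us, D v → v.length ≤ K * f v) : wt D us ≤ K * (us.map f).sum := by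
  induction us with
  | nil => simp [wt_nil]
  | cons v us ih =>
    have ih' := ih fun u hu => h u (List.mem_cons_of_mem _ hu)
    rw [List.map_cons, List.sum_cons, mul_add]
    by_cases hv : D v
    · rw [wt_cons_pos hv]
      exact add_le_add (h v (by simp) hv) ih'
    · rw [wt_cons_neg hv]; omega

/-- The first word with `D`. -/
lemma exists_first {D : List S → Prop} (us : List (List S)) (h : 0 < wt D us) :
    ∃ a v b, us = a ++ v :: b ∧ D v ∧ wt D a = 0 := by
  induction us with
  | nil => simp [wt_nil] at h
  | cons v us ih =>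
    by_cases hv : D v
    · exact ⟨[], v, us, rfl, hv, rfl⟩
    · rw [wt_cons_neg hv] at h
      obtain ⟨a, w, b, rfl, h1, h2⟩ := ih h
      exact ⟨v :: a, w, b, rfl, h1, by rw [wt_cons_neg hv, h2]⟩

/-- The last word with `D`. -/
lemma exists_last {D : List S → Prop} (us : List (List S)) (h : 0 < wt D us) :
    ∃ a v b, us = a ++ v :: b ∧ D v ∧ wt D b = 0 := by
  induction us with
  | nil => simp [wt_nil] at h
  | cons v us ih =>
    by_cases hus : 0 < wt D us
    · obtain ⟨a, w, b, rfl, h1, h2⟩ := ih hus
      exact ⟨v :: a, w, b, rfl, h1, h2⟩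
    · by_cases hv : D v
      · exact ⟨[], v, us, rfl, hv, by omega⟩
      · rw [wt_cons_neg hv] at h
        exact absurd h hus

/-- A prefix of given weight. -/
lemma exists_prefix_weight {D : List S → Prop} {m : ℕ} (us : List (List S)) : ∀ θ : ℕ,
    (∀ v ∈ us, D v → v.length ≤ m) → θ ≤ wt D us →
    ∃ l1 l2, us = l1 ++ l2 ∧ θ ≤ wt D l1 ∧ wt D l1 ≤ θ + m := by
  induction us with
  | nil => intro θ _ h; exact ⟨[], [], rfl, h, by simp [wt_nil]⟩
  | cons v us ih =>
    intro θ h1 h2
    have h1' : ∀ u ∈ us, D u → u.length ≤ m := fun u hu => h1 u (List.mem_cons_of_mem _ hu)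
    by_cases hv : D v
    · rw [wt_cons_pos hv] at h2
      by_cases hθ : θ ≤ v.length
      · refine ⟨[v], us, rfl, ?_, ?_⟩
        · rw [wt_cons_pos hv]; omega
        · rw [wt_cons_pos hv, wt_nil]
          have := h1 v (by simp) hv
          omega
      · obtain ⟨l1, l2, rfl, h3, h4⟩ := ih (θ - v.length) h1' (by omega)
        refine ⟨v :: l1, l2, rfl, ?_, ?_⟩
        · rw [wt_cons_pos hv]; omega
        · rw [wt_cons_pos hv]; omega
    · rw [wt_cons_neg hv] at h2
      obtain ⟨l1, l2, rfl, h3, h4⟩ := ih θ h1' h2
      refine ⟨v :: l1, l2, rfl, ?_, ?_⟩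
      · rw [wt_cons_neg hv]; exact h3
      · rw [wt_cons_neg hv]; exact h4

lemma exists_mid_split {D : List S → Prop} (us : List (List S)) (hW : 0 < wt D us)
    (h : ∀ v ∈ us, D v → 4 * v.length < wt D us) (hne : ∀ v ∈ us, v ≠ []) :
    ∃ l1 v0 l2, us = l1 ++ v0 :: l2 ∧ wt D us ≤ 8 * wt D l1 ∧ wt D us ≤ 8 * wt D l2 := by
  set W := wt D us with hWdef
  have hW5 : 5 ≤ W := by
    obtain ⟨a, v, b, h1, h2, -⟩ := exists_first us hW
    have hv : v ∈ us := by rw [h1]; simp
    have h3 := h v hv h2
    have h4 : 0 < v.length := List.length_pos_iff.2 (hne v hv)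
    omega
  obtain ⟨l1, r, h1, h2, h3⟩ := exists_prefix_weight (D := D) (m := (W - 1) / 4) us ((W + 3) / 4)
    (fun v hv hD => by have := h v hv hD; omega) (by omega)
  have h4 : wt D us = wt D l1 + wt D r := by rw [h1, wt_append]
  cases r with
  | nil => rw [wt_nil] at h4; omega
  | cons v0 l2 =>
    refine ⟨l1, v0, l2, h1, by omega, ?_⟩
    by_cases hv : D v0
    · have h5 := h v0 (by rw [h1]; simp) hv
      rw [wt_cons_pos hv] at h4
      omega
    · rw [wt_cons_neg hv] at h4
      omega

/-! ### Counting crossing pairs -/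

lemma prod_idem {e : S} (he : e * e = e) (us : List (List S)) (h : ∀ u ∈ us, u.prod = e) :
    us = [] ∨ us.flatten.prod = e := by
  induction us with
  | nil => exact Or.inl rfl
  | cons u us ih =>
    right
    rw [List.flatten_cons, List.prod_append, h u (by simp)]
    rcases ih fun v hv => h v (List.mem_cons_of_mem _ hv) with h1 | h1
    · rw [h1]; simp
    · rw [h1, he]

lemma sum_suf_le {e : S} (he : e * e = e) (s : S) (us : List (List S))
    (h : ∀ u ∈ us, u.prod = e) :
    (us.map fun v => suf v s).sum ≤ sufSum (ind {t | t * e = s * e}) us.flatten := by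
  induction us with
  | nil => simp [sufSum]
  | cons u us ih =>
    have h' : ∀ v ∈ us, v.prod = e := fun v hv => h v (List.mem_cons_of_mem _ hv)
    rw [List.map_cons, List.sum_cons, List.flatten_cons, sufSum_append]
    refine add_le_add ?_ (ih h')
    refine suf_le_sufSum ?_
    rw [ind_of_mem]
    · omega
    · rcases prod_idem he us h' with h1 | h1
      · rw [h1]; simp
      · rw [h1]
        change s * e * e = s * e
        rw [mul_assoc, he]

lemma sum_pre_le {e : S} (he : e * e = e) (p : S) (us : List (List S))
    (h : ∀ u ∈ us, u.prod = e) :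
    (us.map fun v => pre v p).sum ≤ preSum (ind {t | e * t = e * p}) us.flatten := by
  induction us with
  | nil => simp [preSum]
  | cons u us ih =>
    have h' : ∀ v ∈ us, v.prod = e := fun v hv => h v (List.mem_cons_of_mem _ hv)
    rw [List.map_cons, List.sum_cons, List.flatten_cons, preSum_append]
    refine add_le_add ?_ ?_
    · refine pre_le_preSum ?_
      rw [ind_of_mem]
      · omega
      · exact rfl
    · refine (ih h').trans (le_of_eq ?_)
      congr 1
      funext t
      rw [h u (by simp)]
      unfold ind
      congr 1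
      change (e * t = e * p) = (e * (e * t) = e * p)
      rw [← mul_assoc, he]

lemma cross_count {R : Set S} {e : S} (he : e * e = e) {s p : S} (hR : s * e * p ∈ R)
    {l1 l2 : List (List S)} {v0 : List S} (h1 : ∀ u ∈ l1, u.prod = e) (h0 : v0.prod = e)
    (h2 : ∀ u ∈ l2, u.prod = e) :
    (l1.map fun v => suf v s).sum * (l2.map fun v => pre v p).sum ≤
      pairs R (l1 ++ v0 :: l2).flatten := by
  have e1 := sum_suf_le he s l1 h1
  have e2 := sum_pre_le he p l2 h2
  rw [List.flatten_append, pairs_append, List.flatten_cons]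
  refine le_trans ?_ (Nat.le_add_left _ _)
  calc (l1.map fun v => suf v s).sum * (l2.map fun v => pre v p).sum
      ≤ sufSum (ind {t | t * e = s * e}) l1.flatten *
        preSum (ind {t | e * t = e * p}) l2.flatten := Nat.mul_le_mul e1 e2
    _ = sufSum (fun t => preSum (ind {t | e * t = e * p}) l2.flatten *
          ind {t | t * e = s * e} t) l1.flatten := by rw [sufSum_mul]; ring
    _ ≤ _ := by
        refine sufSum_mono (fun t => ?_) _
        by_cases ht : t ∈ {t | t * e = s * e}
        · rw [ind_of_mem ht, mul_one, preSum_append]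
          refine le_trans ?_ (Nat.le_add_left _ _)
          refine preSum_mono _ fun q => ?_
          by_cases hq : q ∈ {t | e * t = e * p}
          · have : t * (v0.prod * q) ∈ R := by
              rw [h0]
              change e * q = e * p at hq
              change t * e = s * e at ht
              rw [hq, ← mul_assoc, ht]
              exact hR
            rw [ind_of_mem this]
            exact ind_le_one _ _
          · rw [ind_of_notMem hq]; omega
        · rw [ind_of_notMem ht]; omega

lemma dom_many {R : Set S} {P : Prof S} {C M l : ℕ} (he : P.e * P.e = P.e) (hl : 1 ≤ l)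
    {D : List S → Prop} {us : List (List S)}
    (hne : ∀ v ∈ us, v ≠ []) (hp : ∀ v ∈ us, v.prod = P.e) (hD : ∀ v ∈ us, D v → Dom C P l v)
    (hpairs : pairs R us.flatten ≤ l * us.flatten.length)
    (hW : us.flatten.length ≤ M * wt D us) (hu : us ≠ [])
    (hsmall : ∀ v ∈ us, D v → 4 * v.length < wt D us) (hbad : (badSet R P).Nonempty) :
    ∃ u1 mid u2, us = u1 ++ mid ++ u2 ∧ mid.flatten ≠ [] ∧
      us.flatten.length ≤ M * mid.flatten.length ∧
      Dom (64 * (M * M) * (C * C) + 8 * M * C) (iter R P) l mid.flatten := by
  have hU : 0 < us.flatten.length := by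
    obtain ⟨v, us', rfl⟩ := List.exists_cons_of_ne_nil hu
    rw [List.flatten_cons, List.length_append]
    have := List.length_pos_iff.2 (hne v (by simp))
    omega
  have hW0 : 0 < wt D us := by
    by_contra hcon
    rw [Nat.le_zero.1 (not_lt.1 hcon), mul_zero] at hW
    omega
  obtain ⟨l1, v0, l2, hus, hw1, hw2⟩ := exists_mid_split us hW0 hsmall hne
  obtain ⟨s, hs, p, hpB, hR, hb⟩ := Nat.sInf_mem hbad
  set b := sInf (badSet R P) with hbdef
  have p1 : ∀ u ∈ l1, u.prod = P.e := fun u hu => hp u (by rw [hus]; simp [hu])
  have p0 : v0.prod = P.e := hp v0 (by rw [hus]; simp)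
  have p2 : ∀ u ∈ l2, u.prod = P.e := fun u hu => hp u (by rw [hus]; simp [hu])
  have c1 : ∀ s' ∈ P.A, wt D l1 ≤ C * l ^ P.α s' * (l1.map fun v => suf v s').sum := by
    intro s' hs'
    exact wt_le_sum l1 fun v hv hDv => (hD v (by rw [hus]; simp [hv]) hDv).2.2.1 s' hs'
  have c2 : ∀ p' ∈ P.B, wt D l2 ≤ C * l ^ P.β p' * (l2.map fun v => pre v p').sum := by
    intro s' hs'
    exact wt_le_sum l2 fun v hv hDv => (hD v (by rw [hus]; simp [hv]) hDv).2.2.2 s' hs'
  have hlen : us.flatten.length ≤ 64 * (M * M) * (C * C) * l ^ (1 + b) := by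
    have h1 := c1 s hs
    have h2 := c2 p hpB
    have h3 := cross_count he hR p1 p0 p2
    rw [← hus] at h3
    have h4 := h3.trans hpairs
    generalize hX1 : (l1.map fun v => suf v s).sum = X1 at *
    generalize hX2 : (l2.map fun v => pre v p).sum = X2 at *
    generalize hUU : us.flatten.length = U at *
    refine Nat.le_of_mul_le_mul_right ?_ hU
    calc U * U ≤ (M * wt D us) * (M * wt D us) := Nat.mul_le_mul hW hW
      _ = (M * M) * (wt D us * wt D us) := by ring
      _ ≤ (M * M) * ((8 * wt D l1) * (8 * wt D l2)) :=
          Nat.mul_le_mul_left _ (Nat.mul_le_mul hw1 hw2)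
      _ ≤ (M * M) * ((8 * (C * l ^ P.α s * X1)) * (8 * (C * l ^ P.β p * X2))) :=
          Nat.mul_le_mul_left _ (Nat.mul_le_mul (Nat.mul_le_mul_left _ h1)
            (Nat.mul_le_mul_left _ h2))
      _ = 64 * (M * M) * (C * C) * l ^ (P.α s + P.β p) * (X1 * X2) := by rw [pow_add]; ring
      _ ≤ 64 * (M * M) * (C * C) * l ^ (P.α s + P.β p) * (l * U) := Nat.mul_le_mul_left _ h4
      _ = 64 * (M * M) * (C * C) * l ^ (1 + b) * U := by rw [← hb, pow_add, pow_one]; ring
  have hbN : l ^ (1 + b) ≤ l ^ (iter R P).N := Nat.pow_le_pow_right hl (le_max_right _ _)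
  have hw1' : 0 < wt D l1 := by omega
  have hw2' : 0 < wt D l2 := by omega
  obtain ⟨a1, v1, a2, ha, hv1, ha0⟩ := exists_first l1 hw1'
  obtain ⟨b1, v2, b2, hb', hv2, hb0⟩ := exists_last l2 hw2'
  have m1 : v1 ∈ us := by rw [hus, ha]; simp
  have m2 : v2 ∈ us := by rw [hus, hb']; simp
  have q1 : ∀ u ∈ v1 :: a2, u.prod = P.e := fun u hu => p1 u (by
    rw [ha]; exact List.mem_append_right _ hu)
  have q2 : ∀ u ∈ b1 ++ [v2], u.prod = P.e := fun u hu => p2 u (by
    rw [hb']
    rcases List.mem_append.1 hu with h | h
    · exact List.mem_append_left _ h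
    · rw [List.mem_singleton] at h; subst h; simp)
  refine ⟨a1, (v1 :: a2) ++ v0 :: (b1 ++ [v2]), b2, ?_, ?_, ?_, ?_⟩
  · rw [hus, ha, hb']; simp
  · intro h
    have := hne v1 m1
    apply this
    rw [List.flatten_append, List.append_eq_nil_iff, List.flatten_cons,
      List.append_eq_nil_iff] at h
    exact h.1.1
  · refine hW.trans (Nat.mul_le_mul_left _ ?_)
    have h1 : wt D us = wt D ((v1 :: a2) ++ v0 :: (b1 ++ [v2])) := by
      have h2 : us = a1 ++ (((v1 :: a2) ++ v0 :: (b1 ++ [v2])) ++ b2) := by
        rw [hus, ha, hb']; simp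
      rw [h2, wt_append, wt_append, ha0, hb0]
      omega
    rw [h1]
    exact wt_le_length _ _
  · set mid := (v1 :: a2) ++ v0 :: (b1 ++ [v2]) with hmid
    have hmidlen : mid.flatten.length ≤ us.flatten.length := by
      rw [hus, ha, hb', hmid]
      simp only [List.flatten_append, List.flatten_cons, List.length_append, List.flatten_nil,
        List.length_nil]
      omega
    have hq : ∀ u ∈ mid, u.prod = P.e := by
      intro u hu
      rw [hmid] at hu
      rcases List.mem_append.1 hu with h | h
      · exact q1 u h
      · rcases List.mem_cons.1 h with h | h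
        · rw [h]; exact p0
        · exact q2 u h
    have hprod : mid.flatten.prod = P.e := by
      rcases prod_idem he mid hq with h | h
      · rw [hmid] at h; simp at h
      · exact h
    have e2 : (v0 :: (b1 ++ [v2])).flatten.prod = P.e := by
      rcases prod_idem he (v0 :: (b1 ++ [v2])) (fun u hu => hq u (List.mem_append_right _ hu))
        with h | h
      · simp at h
      · exact h
    have e3 : ((v1 :: a2) ++ [v0]).flatten.prod = P.e := by
      rcases prod_idem he ((v1 :: a2) ++ [v0]) (fun u hu => hq u (by
        rw [hmid]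
        rcases List.mem_append.1 hu with h | h
        · exact List.mem_append_left _ h
        · rw [List.mem_singleton] at h; subst h; simp)) with h | h
      · simp at h
      · exact h
    have hsufmid : ∀ s', suf mid.flatten (s' * P.e) =
        sufSum (ind {t | t * P.e = s' * P.e}) (v1 :: a2).flatten +
          suf (v0 :: (b1 ++ [v2])).flatten (s' * P.e) := by
      intro s'
      rw [hmid, List.flatten_append]
      unfold suf
      rw [sufSum_append, e2]
      congr 1
    have hpremid : ∀ s', pre mid.flatten (P.e * s') =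
        pre ((v1 :: a2) ++ [v0]).flatten (P.e * s') +
          preSum (ind {t | P.e * t = P.e * s'}) (b1 ++ [v2]).flatten := by
      intro s'
      have : mid = ((v1 :: a2) ++ [v0]) ++ (b1 ++ [v2]) := by rw [hmid]; simp
      rw [this, List.flatten_append]
      unfold pre
      rw [preSum_append, e3]
      congr 1
    have hsufge : ∀ s' ∈ P.A, wt D us ≤ 8 * (C * l ^ P.α s' * suf mid.flatten (s' * P.e)) := by
      intro s' hs'
      refine hw1.trans (Nat.mul_le_mul_left _ ?_)
      have h1 : wt D l1 = wt D (v1 :: a2) := by rw [ha, wt_append, ha0, zero_add]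
      rw [h1]
      have h2 : wt D (v1 :: a2) ≤ C * l ^ P.α s' * ((v1 :: a2).map fun v => suf v s').sum := by
        refine wt_le_sum _ fun v hv hDv => (hD v ?_ hDv).2.2.1 s' hs'
        rw [hus, ha]
        exact List.mem_append_left _ (List.mem_append_right _ hv)
      refine h2.trans (Nat.mul_le_mul_left _ ?_)
      rw [hsufmid]
      exact (sum_suf_le he s' _ q1).trans (Nat.le_add_right _ _)
    have hprege : ∀ s' ∈ P.B, wt D us ≤ 8 * (C * l ^ P.β s' * pre mid.flatten (P.e * s')) := by
      intro s' hs'
      refine hw2.trans (Nat.mul_le_mul_left _ ?_)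
      have h1 : wt D l2 = wt D (b1 ++ [v2]) := by
        have h0 : l2 = (b1 ++ [v2]) ++ b2 := by rw [hb']; simp
        rw [h0, wt_append, hb0, add_zero]
      rw [h1]
      have h2 : wt D (b1 ++ [v2]) ≤ C * l ^ P.β s' * ((b1 ++ [v2]).map fun v => pre v s').sum := by
        refine wt_le_sum _ fun v hv hDv => (hD v ?_ hDv).2.2.2 s' hs'
        rw [hus, hb']
        rcases List.mem_append.1 hv with h | h
        · simp [h]
        · rw [List.mem_singleton] at h; subst h; simp
      refine h2.trans (Nat.mul_le_mul_left _ ?_)
      rw [hpremid]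
      exact (sum_pre_le he s' _ q2).trans (Nat.le_add_left _ _)
    have hlenN : mid.flatten.length ≤ (64 * (M * M) * (C * C) + 8 * M * C) * l ^ (iter R P).N := by
      calc mid.flatten.length ≤ 64 * (M * M) * (C * C) * l ^ (1 + b) := hmidlen.trans hlen
        _ ≤ 64 * (M * M) * (C * C) * l ^ (iter R P).N := Nat.mul_le_mul_left _ hbN
        _ ≤ _ := Nat.mul_le_mul_right _ (by omega)
    refine ⟨hprod, hlenN, ?_, ?_⟩
    · intro t ht
      have hpos : 0 < suf mid.flatten t := by
        rcases ht with ht | ⟨s', h1, h2⟩
        · have h3 := (hD v2 m2 hv2).2.2.1 t ht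
          have h4 : 0 < v2.length := List.length_pos_iff.2 (hne v2 m2)
          have h5 : 0 < suf v2 t := by
            by_contra hcon
            rw [Nat.le_zero.1 (not_lt.1 hcon), mul_zero] at h3
            omega
          have h6 : mid.flatten = ((v1 :: a2) ++ v0 :: b1).flatten ++ v2 := by
            rw [hmid]; simp
          rw [h6]
          unfold suf at h5 ⊢
          rw [sufSum_append]
          omega
        · have h3 := hsufge s' h1
          rw [h2] at h3
          by_contra hcon
          rw [Nat.le_zero.1 (not_lt.1 hcon)] at h3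
          simp at h3
          omega
      rcases iter_α_eq R P t with h | ⟨s', h1, h2, h3⟩
      · rw [h]
        exact hlenN.trans (Nat.le_mul_of_pos_right _ hpos)
      · rw [h3]
        have h4 := hsufge s' h1
        rw [h2] at h4
        calc mid.flatten.length ≤ M * wt D us := hmidlen.trans hW
          _ ≤ M * (8 * (C * l ^ P.α s' * suf mid.flatten t)) := Nat.mul_le_mul_left _ h4
          _ = 8 * M * C * (l ^ P.α s' * suf mid.flatten t) := by ring
          _ ≤ (64 * (M * M) * (C * C) + 8 * M * C) * (l ^ P.α s' * suf mid.flatten t) :=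
              Nat.mul_le_mul_right _ (by omega)
          _ = _ := by ring
    · intro t ht
      have hpos : 0 < pre mid.flatten t := by
        rcases ht with ht | ⟨s', h1, h2⟩
        · have h3 := (hD v1 m1 hv1).2.2.2 t ht
          have h4 : 0 < v1.length := List.length_pos_iff.2 (hne v1 m1)
          have h5 : 0 < pre v1 t := by
            by_contra hcon
            rw [Nat.le_zero.1 (not_lt.1 hcon), mul_zero] at h3
            omega
          have h6 : mid.flatten = v1 ++ (a2 ++ v0 :: (b1 ++ [v2])).flatten := by
            rw [hmid]; simp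
          rw [h6]
          unfold pre at h5 ⊢
          rw [preSum_append]
          omega
        · have h3 := hprege s' h1
          rw [h2] at h3
          by_contra hcon
          rw [Nat.le_zero.1 (not_lt.1 hcon)] at h3
          simp at h3
          omega
      rcases iter_β_eq R P t with h | ⟨s', h1, h2, h3⟩
      · rw [h]
        exact hlenN.trans (Nat.le_mul_of_pos_right _ hpos)
      · rw [h3]
        have h4 := hprege s' h1
        rw [h2] at h4
        calc mid.flatten.length ≤ M * wt D us := hmidlen.trans hW
          _ ≤ M * (8 * (C * l ^ P.β s' * pre mid.flatten t)) := Nat.mul_le_mul_left _ h4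
          _ = 8 * M * C * (l ^ P.β s' * pre mid.flatten t) := by ring
          _ ≤ (64 * (M * M) * (C * C) + 8 * M * C) * (l ^ P.β s' * pre mid.flatten t) :=
              Nat.mul_le_mul_right _ (by omega)
          _ = _ := by ring

end H61.SA
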