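import Mathlib

set_option autoImplicit false

/-!
# Factorisation trees of bounded height

A weak form of Simon's factorisation forest theorem, with an elementary proof.
-/

namespace H61.SA

variable {S : Type} [Monoid S]

/-- Words with a factorisation tree of height at most `n`. -/
inductive Fac : ℕ → List S → Prop
  | leaf (n : ℕ) (a : S) : Fac n [a]
  | bin {n : ℕ} {u v : List S} : Fac n u → Fac n v → Fac (n + 1) (u ++ v)
  | idem {n : ℕ} {e : S} (us : List (List S)) : us ≠ [] → e * e = e → (∀ u ∈ us, Fac n u) →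
      (∀ u ∈ us, u.prod = e) → Fac (n + 1) us.flatten

lemma Fac.succ {n : ℕ} {u : List S} (h : Fac n u) : Fac (n + 1) u := by
  induction h with
  | leaf n a => exact Fac.leaf _ a
  | bin _ _ ih1 ih2 => exact Fac.bin ih1 ih2
  | idem us h1 h2 _ h4 ih => exact Fac.idem us h1 h2 ih h4

lemma Fac.mono {n m : ℕ} (hnm : n ≤ m) {u : List S} (h : Fac n u) : Fac m u := by
  induction m, hnm using Nat.le_induction with
  | base => exact h
  | succ m _ ih => exact ih.succ

/-- Splitting a list along a splitting of its image. -/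
lemma exists_split (vs : List (List S)) : ∀ us : List (List S), us.map List.prod = vs.flatten →
    ∃ uss : List (List (List S)), uss.flatten = us ∧ uss.map (List.map List.prod) = vs := by
  induction vs with
  | nil =>
    intro us h
    refine ⟨[], ?_, rfl⟩
    simpa using h.symm
  | cons v vs ih =>
    intro us h
    rw [List.flatten_cons] at h
    obtain ⟨u1, u2, rfl, h1, h2⟩ := List.map_eq_append_iff.1 h
    obtain ⟨uss, h3, h4⟩ := ih u2 h2
    exact ⟨u1 :: uss, by rw [List.flatten_cons, h3], by rw [List.map_cons, h4, h1]⟩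

lemma prod_flatten' (us : List (List S)) : us.flatten.prod = (us.map List.prod).prod := by
  induction us with
  | nil => rfl
  | cons u us ih => rw [List.flatten_cons, List.prod_append, ih, List.map_cons, List.prod_cons]

/-- Substitution. -/
lemma Fac.subst {n m : ℕ} {ws : List S} (h : Fac n ws) : ∀ us : List (List S),
    us.map List.prod = ws → (∀ u ∈ us, Fac m u) → Fac (m + n) us.flatten := by
  induction h with
  | leaf n a =>
    intro us h1 h2
    obtain ⟨u, us', rfl, -, h4⟩ := List.map_eq_cons_iff.1 h1
    obtain rfl : us' = [] := by simpa using h4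
    rw [List.flatten_cons, List.flatten_nil, List.append_nil]
    exact (h2 u (by simp)).mono (by omega)
  | bin _ _ ih1 ih2 =>
    intro us h1 h2
    obtain ⟨u1, u2, rfl, h3, h4⟩ := List.map_eq_append_iff.1 h1
    rw [List.flatten_append]
    exact Fac.bin (ih1 u1 h3 fun u hu => h2 u (List.mem_append_left _ hu))
      (ih2 u2 h4 fun u hu => h2 u (List.mem_append_right _ hu))
  | @idem n e vs h1 h2 _ h4 ih =>
    intro us h5 h6
    obtain ⟨uss, rfl, h8⟩ := exists_split vs us h5
    have h9 : uss.flatten.flatten = (uss.map List.flatten).flatten := by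
      rw [List.flatten_flatten]
    rw [h9]
    refine Fac.idem (e := e) (uss.map List.flatten) ?_ h2 ?_ ?_
    · intro h10
      apply h1
      have : uss = [] := by simpa using h10
      rw [← h8, this]; rfl
    · intro u hu
      obtain ⟨x, hx, rfl⟩ := List.mem_map.1 hu
      refine ih (x.map List.prod) ?_ x rfl ?_
      · rw [← h8]; exact List.mem_map.2 ⟨x, hx, rfl⟩
      · intro u hu
        exact h6 u (List.mem_flatten.2 ⟨x, hx, hu⟩)
    · intro u hu
      obtain ⟨x, hx, rfl⟩ := List.mem_map.1 hu
      rw [prod_flatten']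
      exact h4 _ (by rw [← h8]; exact List.mem_map.2 ⟨x, hx, rfl⟩)

/-- The products of the proper nonempty initial parts of `v`, started at `b`, belong to `C`. -/
def Inn (C : Set S) (b : S) (v : List S) : Prop :=
  ∀ u w, v = u ++ w → u ≠ [] → w ≠ [] → b * u.prod ∈ C

/-- Blocks between the visits to `x`. -/
def Blocks (C : Set S) (x : S) : S → List (List S) → Prop
  | _, [] => False
  | b, [f] => f ≠ [] ∧ Inn (C \ {x}) b f
  | b, f :: f' :: fs => f ≠ [] ∧ Inn (C \ {x}) b f ∧ b * f.prod = x ∧ Blocks C x x (f' :: fs)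

lemma inn_cons {C : Set S} {b a : S} {f : List S} (h1 : f ≠ [] → b * a ∈ C)
    (h2 : Inn C (b * a) f) : Inn C b (a :: f) := by
  intro u w h hu hw
  cases u with
  | nil => exact absurd rfl hu
  | cons a' u' =>
    rw [List.cons_append, List.cons.injEq] at h
    obtain ⟨rfl, h3⟩ := h
    rw [List.prod_cons, ← mul_assoc]
    by_cases hu' : u' = []
    · rw [hu', List.prod_nil, mul_one]
      apply h1
      rw [h3, hu', List.nil_append]
      exact hw
    · exact h2 u' w h3 hu' hw

lemma inn_tail {C : Set S} {b a : S} {v : List S} (h : Inn C b (a :: v)) : Inn C (b * a) v := by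
  intro u w hv hu hw
  have := h (a :: u) w (by rw [hv, List.cons_append]) (by simp) hw
  rwa [List.prod_cons, ← mul_assoc] at this

lemma inn_head {C : Set S} {b a : S} {v : List S} (h : Inn C b (a :: v)) (hv : v ≠ []) :
    b * a ∈ C := by
  have := h [a] v rfl (by simp) hv
  rwa [List.prod_singleton] at this

lemma exists_blocks (C : Set S) (x : S) (v : List S) : ∀ b : S, v ≠ [] → Inn C b v →
    ∃ fs : List (List S), fs.flatten = v ∧ Blocks C x b fs := by
  classical
  induction v with
  | nil => intro b h; exact absurd rfl h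
  | cons a v ih =>
    intro b _ hC
    by_cases hv : v = []
    · subst hv
      refine ⟨[[a]], by simp, by simp, ?_⟩
      apply inn_cons (fun h => absurd rfl h)
      intro u w h hu hw
      rw [eq_comm, List.append_eq_nil_iff] at h
      exact absurd h.1 hu
    · have hba := inn_head hC hv
      by_cases hx : b * a = x
      · obtain ⟨fs, h1, h2⟩ := ih (b * a) hv (inn_tail hC)
        rw [hx] at h2
        cases fs with
        | nil => exact absurd h2 (by simp [Blocks])
        | cons f fs =>
          refine ⟨[a] :: f :: fs, by rw [List.flatten_cons, h1]; rfl, by simp, ?_, ?_, h2⟩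
          · apply inn_cons (fun h => absurd rfl h)
            intro u w h hu hw
            rw [eq_comm, List.append_eq_nil_iff] at h
            exact absurd h.1 hu
          · rw [List.prod_singleton]; exact hx
      · obtain ⟨fs, h1, h2⟩ := ih (b * a) hv (inn_tail hC)
        cases fs with
        | nil => exact absurd h2 (by simp [Blocks])
        | cons f fs =>
          refine ⟨(a :: f) :: fs, ?_, ?_⟩
          · rw [← h1]; rfl
          · cases fs with
            | nil =>
              obtain ⟨h3, h4⟩ := h2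
              exact ⟨by simp, inn_cons (fun _ => ⟨hba, hx⟩) h4⟩
            | cons f' fs =>
              obtain ⟨h3, h4, h5, h6⟩ := h2
              refine ⟨by simp, inn_cons (fun _ => ⟨hba, hx⟩) h4, ?_, h6⟩
              rw [List.prod_cons, ← mul_assoc]; exact h5

/-- The blocks other than the first and the last one stabilise `x`. -/
lemma blocks_structure {C : Set S} {x : S} {b : S} {fs : List (List S)} (h : Blocks C x b fs) :
    (∃ f, fs = [f] ∧ f ≠ [] ∧ Inn (C \ {x}) b f) ∨
    ∃ (f₀ : List S) (gs : List (List S)) (f₁ : List S), fs = f₀ :: (gs ++ [f₁]) ∧ f₀ ≠ [] ∧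
      Inn (C \ {x}) b f₀ ∧ f₁ ≠ [] ∧ Inn (C \ {x}) x f₁ ∧
      ∀ g ∈ gs, g ≠ [] ∧ Inn (C \ {x}) x g ∧ x * g.prod = x := by
  induction fs generalizing b with
  | nil => exact absurd h (by simp [Blocks])
  | cons f fs ih =>
    cases fs with
    | nil => exact Or.inl ⟨f, rfl, h.1, h.2⟩
    | cons f' fs =>
      right
      obtain ⟨h1, h2, h3, h4⟩ := h
      rcases ih h4 with ⟨g, h5, h6, h7⟩ | ⟨f₀, gs, f₁, h5, h6, h7, h8, h9, h10⟩
      · exact ⟨f, [], g, by rw [h5]; rfl, h1, h2, h6, h7, by simp⟩
      · refine ⟨f, f₀ :: gs, f₁, by rw [h5]; rfl, h1, h2, h8, h9, ?_⟩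
        intro g hg
        rcases List.mem_cons.1 hg with rfl | hg
        · refine ⟨h6, h7, ?_⟩
          rw [h5] at h4
          cases hgs : gs ++ [f₁] with
          | nil => simp at hgs
          | cons g' gs' =>
            rw [hgs] at h4
            exact h4.2.2.1
        · exact h10 g hg

lemma inn_mono {C C' : Set S} (h : C ⊆ C') {b : S} {v : List S} (hv : Inn C b v) : Inn C' b v :=
  fun u w h1 h2 h3 => h (hv u w h1 h2 h3)

/-- `x` is fixed by right multiplication with `T`. -/
def LZ (T : Set S) : Set S := {x | x ∈ T ∧ ∀ s ∈ T, x * s = x}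

lemma prod_mem {T : Set S} (hT : ∀ x ∈ T, ∀ y ∈ T, x * y ∈ T) {v : List S} (hv : v ≠ [])
    (h : ∀ x ∈ v, x ∈ T) : v.prod ∈ T := by
  induction v with
  | nil => exact absurd rfl hv
  | cons a v ih =>
    rw [List.prod_cons]
    by_cases h1 : v = []
    · rw [h1, List.prod_nil, mul_one]; exact h a (by simp)
    · exact hT _ (h a (by simp)) _ (ih h1 fun x hx => h x (List.mem_cons_of_mem _ hx))

lemma fac_inn [Finite S] {T : Set S} (hT : ∀ x ∈ T, ∀ y ∈ T, x * y ∈ T)
    (IH : ∀ T' : Set S, T' ⊂ T → (∀ x ∈ T', ∀ y ∈ T', x * y ∈ T') →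
      ∃ H, ∀ w : List S, w ≠ [] → (∀ x ∈ w, x ∈ T') → Fac H w) (n : ℕ) :
    ∀ C : Set S, C ⊆ T \ LZ T → C.ncard = n → ∃ H, ∀ (v : List S), v ≠ [] → (∀ y ∈ v, y ∈ T) →
      ∀ b, Inn C b v → Fac H v := by
  induction n with
  | zero =>
    intro C _ hn
    refine ⟨0, fun v hv _ b hb => ?_⟩
    rw [Set.ncard_eq_zero] at hn
    subst hn
    cases v with
    | nil => exact absurd rfl hv
    | cons a v =>
      by_cases h : v = []
      · rw [h]; exact Fac.leaf _ a
      · exact absurd (inn_head hb h) (Set.notMem_empty _)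
  | succ n ih =>
    intro C hC hn
    obtain ⟨x, hx⟩ : C.Nonempty := by
      rw [← Set.ncard_pos]; omega
    have hn' : (C \ {x}).ncard = n := by
      rw [Set.ncard_sdiff_singleton_of_mem hx, hn]; rfl
    obtain ⟨H1, hH1⟩ := ih (C \ {x}) (fun y hy => hC hy.1) hn'
    have hxT := hC hx
    obtain ⟨H2, hH2⟩ := IH {s | s ∈ T ∧ x * s = x} (by
      refine ⟨fun s hs => hs.1, fun h => hxT.2 ⟨hxT.1, fun s hs => (h hs).2⟩⟩) (by
      rintro s ⟨h1, h2⟩ t ⟨h3, h4⟩
      exact ⟨hT _ h1 _ h3, by rw [← mul_assoc, h2, h4]⟩)
    refine ⟨H1 + H2 + 2, fun v hv hvT b hb => ?_⟩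
    obtain ⟨fs, h1, h2⟩ := exists_blocks C x v b hv hb
    have hsub : ∀ f ∈ fs, ∀ y ∈ f, y ∈ T := by
      intro f hf y hy
      apply hvT
      rw [← h1]
      exact List.mem_flatten.2 ⟨f, hf, hy⟩
    rcases blocks_structure h2 with ⟨f, rfl, h3, h4⟩ | ⟨f₀, gs, f₁, rfl, h3, h4, h5, h6, h7⟩
    · have h8 : f = v := by simpa using h1
      subst h8
      exact (hH1 f h3 (hsub f (by simp)) b h4).mono (by omega)
    · have e0 := hH1 f₀ h3 (hsub f₀ (by simp)) b h4
      have e1 := hH1 f₁ h5 (hsub f₁ (by simp)) x h6
      by_cases hgs : gs = []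
      · subst hgs
        have h8 : v = f₀ ++ f₁ := by rw [← h1]; simp
        rw [h8]
        exact (Fac.bin e0 e1).mono (by omega)
      · have h8 : v = f₀ ++ (gs.flatten ++ f₁) := by rw [← h1]; simp
        rw [h8]
        have e2 : Fac H2 (gs.map List.prod) := by
          refine hH2 _ (by simpa using hgs) ?_
          intro y hy
          obtain ⟨g, hg, rfl⟩ := List.mem_map.1 hy
          exact ⟨prod_mem hT (h7 g hg).1 (hsub g (by simp [hg])), (h7 g hg).2.2⟩
        have e3 : Fac (H1 + H2) gs.flatten := e2.subst gs rfl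
          (fun g hg => hH1 g (h7 g hg).1 (hsub g (by simp [hg])) x (h7 g hg).2.1)
        exact Fac.bin (e0.mono (by omega)) (Fac.bin e3 (e1.mono (by omega)))

/-- Words over a left zero band. -/
lemma fac_leftZero [Finite S] {T : Set S} (n : ℕ) :
    ∀ C : Set S, C ⊆ LZ T → C.ncard = n → ∀ v : List S, v ≠ [] → (∀ y ∈ v, y ∈ C) →
      Fac (2 * n) v := by
  induction n with
  | zero =>
    intro C _ hn v hv hvC
    rw [Set.ncard_eq_zero] at hn
    subst hn
    cases v with
    | nil => exact absurd rfl hv
    | cons a v => exact absurd (hvC a (by simp)) (Set.notMem_empty _)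
  | succ n ih =>
    intro C hC hn v hv hvC
    cases v with
    | nil => exact absurd rfl hv
    | cons z v =>
      have hz : z ∈ C := hvC z (by simp)
      have hn' : (C \ {z}).ncard = n := by
        rw [Set.ncard_sdiff_singleton_of_mem hz, hn]; rfl
      -- blocks starting with `z`
      have key : ∀ u : List S, (∀ y ∈ u, y ∈ C) → ∃ (r : List S) (bs : List (List S)),
          z :: u = (z :: r) ++ (bs.map (fun b => z :: b)).flatten ∧ (∀ y ∈ r, y ∈ C \ {z}) ∧
          ∀ b ∈ bs, ∀ y ∈ b, y ∈ C \ {z} := by
        intro u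
        induction u with
        | nil => intro _; exact ⟨[], [], by simp, by simp, by simp⟩
        | cons a u ihu =>
          intro hu
          obtain ⟨r, bs, h1, h2, h3⟩ := ihu fun y hy => hu y (List.mem_cons_of_mem _ hy)
          rw [List.cons_append, List.cons.injEq] at h1
          by_cases ha : a = z
          · subst ha
            refine ⟨[], r :: bs, ?_, by simp, ?_⟩
            · rw [h1.2]; simp
            · intro b hb
              rcases List.mem_cons.1 hb with rfl | hb
              · exact h2
              · exact h3 b hb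
          · refine ⟨a :: r, bs, ?_, ?_, h3⟩
            · rw [h1.2]; simp
            · intro y hy
              rcases List.mem_cons.1 hy with rfl | hy
              · exact ⟨hu _ (by simp), ha⟩
              · exact h2 y hy
      obtain ⟨r, bs, h1, h2, h3⟩ := key v fun y hy => hvC y (List.mem_cons_of_mem _ hy)
      have hfac : ∀ b : List S, (∀ y ∈ b, y ∈ C \ {z}) → Fac (2 * n + 1) (z :: b) ∧
          (z :: b).prod = z := by
        intro b hb
        by_cases hb' : b = []
        · subst hb'
          exact ⟨Fac.leaf _ _, by simp⟩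
        · refine ⟨Fac.bin (u := [z]) (Fac.leaf _ _)
            (ih (C \ {z}) (fun y hy => hC hy.1) hn' b hb' hb), ?_⟩
          rw [List.prod_cons]
          have hbT : ∀ y ∈ b, y ∈ T := fun y hy => (hC (hb y hy).1).1
          clear hb
          induction b with
          | nil => exact absurd rfl hb'
          | cons y b ihb =>
            rw [List.prod_cons, ← mul_assoc, (hC hz).2 y (hbT y (by simp))]
            by_cases hb2 : b = []
            · rw [hb2, List.prod_nil, mul_one]
            · exact ihb hb2 fun y hy => hbT y (List.mem_cons_of_mem _ hy)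
      have h4 : z :: v = ((r :: bs).map (fun b => z :: b)).flatten := by
        rw [h1]; simp
      rw [h4, show 2 * (n + 1) = (2 * n + 1) + 1 by ring]
      refine Fac.idem (e := z) _ (by simp) ((hC hz).2 z (hC hz).1) ?_ ?_
      · intro u hu
        obtain ⟨b, hb, rfl⟩ := List.mem_map.1 hu
        rcases List.mem_cons.1 hb with rfl | hb
        · exact (hfac _ h2).1
        · exact (hfac _ (h3 b hb)).1
      · intro u hu
        obtain ⟨b, hb, rfl⟩ := List.mem_map.1 hu
        rcases List.mem_cons.1 hb with rfl | hb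
        · exact (hfac _ h2).2
        · exact (hfac _ (h3 b hb)).2

lemma fac_set [Finite S] (n : ℕ) : ∀ T : Set S, T.ncard ≤ n → (∀ x ∈ T, ∀ y ∈ T, x * y ∈ T) →
    ∃ H, ∀ w : List S, w ≠ [] → (∀ x ∈ w, x ∈ T) → Fac H w := by
  classical
  induction n with
  | zero =>
    intro T hn _
    refine ⟨0, fun w hw hwT => ?_⟩
    have : T = ∅ := by rw [← Set.ncard_eq_zero]; omega
    subst this
    cases w with
    | nil => exact absurd rfl hw
    | cons a w => exact absurd (hwT a (by simp)) (Set.notMem_empty _)
  | succ n ih =>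
    intro T hn hT
    have IH : ∀ T' : Set S, T' ⊂ T → (∀ x ∈ T', ∀ y ∈ T', x * y ∈ T') →
        ∃ H, ∀ w : List S, w ≠ [] → (∀ x ∈ w, x ∈ T') → Fac H w := by
      intro T' hT' h
      refine ih T' ?_ h
      have := Set.ncard_lt_ncard hT'
      omega
    obtain ⟨H1, hH1⟩ := fac_inn hT IH _ (T \ LZ T) subset_rfl rfl
    -- words whose product is not a left zero
    have hA : ∀ w : List S, w ≠ [] → (∀ x ∈ w, x ∈ T) → w.prod ∉ LZ T → Fac H1 w := by
      intro w hw hwT hprod
      refine hH1 w hw hwT 1 ?_
      intro u v huv hu hv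
      have huT : u.prod ∈ T := prod_mem hT hu fun x hx => hwT x (by rw [huv]; simp [hx])
      have hvT : v.prod ∈ T := prod_mem hT hv fun x hx => hwT x (by rw [huv]; simp [hx])
      rw [one_mul]
      refine ⟨huT, fun h => hprod ?_⟩
      rw [huv, List.prod_append, h.2 _ hvT]
      exact h
    -- greedy decomposition
    have hB : ∀ w : List S, (∀ x ∈ w, x ∈ T) → ∃ (bs : List (List S)) (r : List S),
        w = bs.flatten ++ r ∧ (∀ b ∈ bs, Fac (H1 + 1) b ∧ b.prod ∈ LZ T) ∧
          (r = [] ∨ r.prod ∉ LZ T) := by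
      intro w
      induction w using List.reverseRecOn with
      | nil => intro _; exact ⟨[], [], by simp, by simp, Or.inl rfl⟩
      | append_singleton w c ihw =>
        intro hw
        obtain ⟨bs, r, h1, h2, h3⟩ := ihw fun x hx => hw x (List.mem_append_left _ hx)
        by_cases h4 : (r ++ [c]).prod ∈ LZ T
        · refine ⟨bs ++ [r ++ [c]], [], by rw [h1]; simp, ?_, Or.inl rfl⟩
          intro b hb
          rcases List.mem_append.1 hb with hb | hb
          · exact h2 b hb
          · obtain rfl : b = r ++ [c] := by simpa using hb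
            refine ⟨?_, h4⟩
            rcases h3 with rfl | h3
            · exact Fac.leaf _ c
            · by_cases hr : r = []
              · rw [hr]; exact Fac.leaf _ c
              · refine Fac.bin (hA r hr (fun x hx => hw x ?_) h3) (Fac.leaf _ c)
                rw [h1]; simp [hx]
        · exact ⟨bs, r ++ [c], by rw [h1]; simp, h2, Or.inr h4⟩
    refine ⟨H1 + 1 + 2 * (LZ T).ncard + 1, fun w hw hwT => ?_⟩
    obtain ⟨bs, r, h1, h2, h3⟩ := hB w hwT
    have hbs : bs ≠ [] → Fac (H1 + 1 + 2 * (LZ T).ncard) bs.flatten := by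
      intro h4
      refine (fac_leftZero (T := T) _ (LZ T) subset_rfl rfl (bs.map List.prod) (by simpa using h4)
        ?_).subst bs rfl (fun b hb => (h2 b hb).1)
      intro y hy
      obtain ⟨b, hb, rfl⟩ := List.mem_map.1 hy
      exact (h2 b hb).2
    have hrF : r ≠ [] → Fac (H1 + 1 + 2 * (LZ T).ncard) r := by
      intro hr
      refine (hA r hr (fun x hx => hwT x (by rw [h1]; simp [hx]))
        (h3.resolve_left hr)).mono (by omega)
    by_cases hb : bs = []
    · subst hb
      have : w = r := by rw [h1]; simp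
      rw [this] at hw ⊢
      exact (hrF hw).succ
    · by_cases hr : r = []
      · subst hr
        rw [h1, List.append_nil]
        exact (hbs hb).succ
      · rw [h1]
        exact Fac.bin (hbs hb) (hrF hr)

/-- **Weak factorisation forest theorem.** -/
theorem exists_fac_bound (S : Type) [Monoid S] [Finite S] : ∃ H, ∀ w : List S, w ≠ [] → Fac H w := by
  obtain ⟨H, hH⟩ := fac_set _ (Set.univ : Set S) le_rfl (fun _ _ _ _ => Set.mem_univ _)
  exact ⟨H, fun w hw => hH w hw fun _ _ => Set.mem_univ _⟩

end H61.SA
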