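import Pool.Agent.helper61.SProf

set_option autoImplicit false
set_option linter.unusedSectionVars false

/-!
# Iterated profiles
-/

namespace H61.SA

variable {S : Type} [Monoid S] [Fintype S]

/-- The exponents of the bad pairs of types. -/
def badSet (R : Set S) (P : Prof S) : Set ℕ :=
  {n | ∃ s ∈ P.A, ∃ p ∈ P.B, s * P.e * p ∈ R ∧ n = P.α s + P.β p}

/-- The exponent of the length of the iterated profile. -/
noncomputable def iterN (R : Set S) (P : Prof S) : ℕ := max P.N (1 + sInf (badSet R P))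

/-- The iterated profile. -/
noncomputable def iter (R : Set S) (P : Prof S) : Prof S where
  e := P.e
  N := iterN R P
  A := {s | s ∈ P.A ∨ ∃ s' ∈ P.A, s' * P.e = s}
  α := fun s => sInf {n | n = iterN R P ∨ ∃ s' ∈ P.A, s' * P.e = s ∧ n = P.α s'}
  B := {p | p ∈ P.B ∨ ∃ p' ∈ P.B, P.e * p' = p}
  β := fun p => sInf {n | n = iterN R P ∨ ∃ p' ∈ P.B, P.e * p' = p ∧ n = P.β p'}

lemma iter_α_le (R : Set S) (P : Prof S) (s : S) : (iter R P).α s ≤ iterN R P :=
  Nat.sInf_le (Or.inl rfl)

lemma iter_β_le (R : Set S) (P : Prof S) (s : S) : (iter R P).β s ≤ iterN R P :=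
  Nat.sInf_le (Or.inl rfl)

lemma iter_α_le' (R : Set S) (P : Prof S) {s s' : S} (h1 : s' ∈ P.A)
    (h2 : s' * P.e = s) : (iter R P).α s ≤ P.α s' :=
  Nat.sInf_le (Or.inr ⟨s', h1, h2, rfl⟩)

lemma iter_β_le' (R : Set S) (P : Prof S) {s s' : S} (h1 : s' ∈ P.B)
    (h2 : P.e * s' = s) : (iter R P).β s ≤ P.β s' :=
  Nat.sInf_le (Or.inr ⟨s', h1, h2, rfl⟩)

lemma iter_α_eq (R : Set S) (P : Prof S) (s : S) : (iter R P).α s = iterN R P ∨
    ∃ s' ∈ P.A, s' * P.e = s ∧ (iter R P).α s = P.α s' :=
  Nat.sInf_mem (s := {n | n = iterN R P ∨ ∃ s' ∈ P.A, s' * P.e = s ∧ n = P.α s'})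
    ⟨iterN R P, Or.inl rfl⟩

lemma iter_β_eq (R : Set S) (P : Prof S) (s : S) : (iter R P).β s = iterN R P ∨
    ∃ s' ∈ P.B, P.e * s' = s ∧ (iter R P).β s = P.β s' :=
  Nat.sInf_mem (s := {n | n = iterN R P ∨ ∃ s' ∈ P.B, P.e * s' = s ∧ n = P.β s'})
    ⟨iterN R P, Or.inl rfl⟩

/-- The crossing term of a power. -/
noncomputable def crossX (R : Set S) (e : S) (u v : List S) : ℕ :=
  sufSum (fun s => preSum (fun p => ind R (s * e * p)) v) u

lemma sufSum_three (f : S → ℕ) (x w y : List S) : sufSum f (x ++ w ++ y) =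
    sufSum (fun t => f (t * (w.prod * y.prod))) x + sufSum (fun t => f (t * y.prod)) w +
      sufSum f y := by
  rw [sufSum_append, sufSum_append]
  simp only [mul_assoc]

lemma preSum_three (f : S → ℕ) (x w y : List S) : preSum f (x ++ w ++ y) =
    preSum f x + preSum (fun t => f (x.prod * t)) w +
      preSum (fun t => f (x.prod * w.prod * t)) y := by
  rw [preSum_append, preSum_append, List.prod_append]

/-- The crossing of two adjacent copies. -/
lemma cross_adj {R : Set S} {e : S} (he : e * e = e) {w y : List S} (hw : w.prod = e)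
    (hy : y.prod = e) :
    sufSum (fun s => preSum (fun p => ind R (s * p)) (y ++ w ++ y)) (y ++ w ++ y) ≤
      crossX R e (y ++ w ++ y) (y ++ w ++ y) + y.length * y.length := by
  unfold crossX
  rw [sufSum_three, sufSum_three, hw, hy, he]
  have h1 : ∀ s, preSum (fun p => ind R (s * e * e * p)) (y ++ w ++ y) =
      preSum (fun p => ind R (s * e * p)) (y ++ w ++ y) := by
    intro s
    rw [mul_assoc s e e, he]
  have h2 : ∀ s, preSum (fun p => ind R (s * p)) (y ++ w ++ y) ≤ y.length +
      preSum (fun p => ind R (s * e * p)) (y ++ w ++ y) := by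
    intro s
    rw [preSum_three, preSum_three, hw, hy, he]
    have h3 : preSum (fun p => ind R (s * p)) y ≤ y.length := by
      have := preSum_le (f := fun p => ind R (s * p)) (fun _ => ind_le_one _ _) y
      rwa [one_mul] at this
    have h4 : ∀ w : List S, preSum (fun t => ind R (s * (e * t))) w =
        preSum (fun t => ind R (s * e * (e * t))) w := by
      intro w
      congr 1
      funext t
      rw [← mul_assoc s e t, ← mul_assoc (s * e) e t, mul_assoc s e e, he]
    rw [h4, h4]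
    omega
  simp only [h1]
  have h3 : sufSum (fun s => preSum (fun p => ind R (s * p)) (y ++ w ++ y)) y ≤
      y.length * y.length + sufSum (fun s => preSum (fun p => ind R (s * e * p)) (y ++ w ++ y)) y := by
    refine (sufSum_mono h2 y).trans ?_
    rw [sufSum_add, sufSum_const]
  omega

lemma cross_wpow {R : Set S} {z : List S} (hz : z.prod * z.prod = z.prod) (k : ℕ) :
    sufSum (fun s => preSum (fun p => ind R (s * p)) (wpow z (k + 1))) z =
      sufSum (fun s => preSum (fun p => ind R (s * p)) z) z + k * crossX R z.prod z z := by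
  unfold crossX
  rw [← sufSum_mul, ← sufSum_add]
  congr 1
  funext s
  rw [preSum_wpow hz]
  simp only [← mul_assoc]

lemma pairs_wpow_le {R : Set S} {z : List S} (hz : z.prod * z.prod = z.prod) {Y : ℕ}
    (hY : sufSum (fun s => preSum (fun p => ind R (s * p)) z) z ≤ crossX R z.prod z z + Y) (k : ℕ) :
    pairs R (wpow z (k + 1)) ≤ (k + 1) * (pairs R z + Y) + (k + 1) * k * crossX R z.prod z z := by
  induction k with
  | zero => rw [wpow_succ, wpow_zero, List.append_nil]; simp
  | succ k ih =>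
    rw [wpow_succ, pairs_append, cross_wpow hz]
    generalize crossX R z.prod z z = X at *
    generalize pairs R z = pz at *
    nlinarith

lemma crossX_bound {R : Set S} {e : S} {z : List S} {l b K : ℕ}
    (h : ∀ s p, s * e * p ∈ R → suf z s * pre z p * l ^ b ≤ K) :
    crossX R e z z * l ^ b ≤ Fintype.card S * (Fintype.card S * K) := by
  unfold crossX
  rw [sufSum_eq_sum, Finset.sum_mul]
  calc ∑ s : S, preSum (fun p => ind R (s * e * p)) z * suf z s * l ^ b
      ≤ ∑ s : S, Fintype.card S * K := by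
        refine Finset.sum_le_sum fun s _ => ?_
        rw [preSum_eq_sum, Finset.sum_mul, Finset.sum_mul]
        calc ∑ p : S, ind R (s * e * p) * pre z p * suf z s * l ^ b ≤ ∑ p : S, K := by
              refine Finset.sum_le_sum fun p _ => ?_
              by_cases hp : s * e * p ∈ R
              · rw [ind_of_mem hp, one_mul, mul_comm (pre z p)]
                exact h s p hp
              · rw [ind_of_notMem hp]; simp
          _ = Fintype.card S * K := by simp
    _ = Fintype.card S * (Fintype.card S * K) := by simp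

/-- The family of the iterated profile. -/
noncomputable def iterW (R : Set S) (P : Prof S) (W : ℕ → List S) (l : ℕ) : List S :=
  wpow (W 1 ++ W l ++ W 1) (l ^ (iterN R P - P.N))

lemma le_iterN (R : Set S) (P : Prof S) : P.N ≤ iterN R P := le_max_left _ _

/-- Bounds for a suffix type. -/
lemma suf_type {P : Prof S} (he : P.e * P.e = P.e) (hα : ∀ s ∈ P.A, P.α s ≤ P.N)
    {y : List S} (hy : y.prod = P.e) (hyA : ∀ s, 0 < suf y s → s ∈ P.A) {s : S}
    (hs : s ∈ (sand y P y).A) : ∃ s' ∈ P.A, s' * P.e = s * P.e ∧ P.α s' ≤ (sand y P y).α s ∧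
      (s' = s ∨ s' * P.e = s) := by
  rcases sand_α_eq y P y s with h | ⟨s', h1, h2, h3⟩
  · rw [h]
    rcases hs with hs | ⟨s', h1, h2⟩ | ⟨s', h1, h2⟩
    · exact ⟨s, hyA s hs, rfl, hα s (hyA s hs), Or.inl rfl⟩
    · rw [hy] at h2
      exact ⟨s', h1, by rw [← h2, mul_assoc, he], hα s' h1, Or.inr h2⟩
    · rw [hy, he] at h2
      exact ⟨s', hyA s' h1, by rw [← h2, mul_assoc, he], hα s' (hyA s' h1), Or.inr h2⟩
  · rw [hy] at h2
    exact ⟨s', h1, by rw [← h2, mul_assoc, he], h3.ge, Or.inr h2⟩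

lemma pre_type {P : Prof S} (he : P.e * P.e = P.e) (hβ : ∀ s ∈ P.B, P.β s ≤ P.N)
    {y : List S} (hy : y.prod = P.e) (hyB : ∀ s, 0 < pre y s → s ∈ P.B) {s : S}
    (hs : s ∈ (sand y P y).B) : ∃ s' ∈ P.B, P.e * s' = P.e * s ∧ P.β s' ≤ (sand y P y).β s ∧
      (s' = s ∨ P.e * s' = s) := by
  rcases sand_β_eq y P y s with h | ⟨s', h1, h2, h3⟩
  · rw [h]
    rcases hs with hs | ⟨s', h1, h2⟩ | ⟨s', h1, h2⟩
    · exact ⟨s, hyB s hs, rfl, hβ s (hyB s hs), Or.inl rfl⟩
    · rw [hy] at h2
      exact ⟨s', h1, by rw [← h2, ← mul_assoc, he], hβ s' h1, Or.inr h2⟩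
    · rw [hy, he] at h2
      exact ⟨s', hyB s' h1, by rw [← h2, ← mul_assoc, he], hβ s' (hyB s' h1), Or.inr h2⟩
  · rw [hy] at h2
    exact ⟨s', h1, by rw [← h2, ← mul_assoc, he], h3.ge, Or.inr h2⟩

lemma realised_iter {Λ R : Set S} {P : Prof S} (hP : Realised Λ R P) (he : P.e * P.e = P.e) :
    Realised Λ R (iter R P) := by
  obtain ⟨hα, hβ, C, W, hW⟩ := hP
  refine ⟨fun s _ => iter_α_le R P s, fun s _ => iter_β_le R P s, ?_⟩
  set y := W 1 with hydef
  obtain ⟨y1, y2, -, -, -, y6, -, y8, -⟩ := hW 1 le_rfl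
  rw [← hydef] at y1 y2 y6 y8
  have hyA : ∀ s, 0 < suf y s → s ∈ P.A := fun s hs => by
    by_contra hcon
    rw [y6 s hcon] at hs; omega
  have hyB : ∀ s, 0 < pre y s → s ∈ P.B := fun s hs => by
    by_contra hcon
    rw [y8 s hcon] at hs; omega
  obtain ⟨C1, hz⟩ := hasProf_sand hW y1 y1
  set Y := y.length * y.length with hYdef
  set D := Fintype.card S with hD
  set b := sInf (badSet R P) with hb
  set N := P.N with hN
  set N' := iterN R P with hN'
  refine ⟨C1 + Y + D * (D * (C1 * C1)) + D * C1, iterW R P W, ?_⟩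
  intro l hl
  obtain ⟨z1, z2, z3, z4, z5, z6, z7, z8, z9⟩ := hz l hl
  obtain ⟨w1, w2, w3, w4, w5, w6, w7, w8, w9⟩ := hW l hl
  set z := y ++ W l ++ y with hzdef
  have zp : z.prod = P.e := by
    rw [z2]
    change y.prod * P.e * y.prod = P.e
    rw [y2, he, he]
  have zid : z.prod * z.prod = z.prod := by rw [zp, he]
  have hNN : N ≤ N' := le_iterN R P
  obtain ⟨k, hk⟩ : ∃ k, l ^ (N' - N) = k + 1 :=
    ⟨l ^ (N' - N) - 1, by have := Nat.one_le_pow (N' - N) l hl; omega⟩
  have hpow : l ^ (N' - N) * l ^ N = l ^ N' := by rw [← pow_add]; congr 1; omega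
  have hiter : iterW R P W l = wpow z (k + 1) := by
    unfold iterW
    rw [← hk]
  rw [hiter]
  change (∀ x ∈ z, x ∈ Λ) at z1
  change l ^ N ≤ z.length at z3
  change z.length ≤ C1 * l ^ N at z4
  change pairs R z ≤ C1 * l ^ (N + 1) at z5
  have hkl : k * l ^ N ≤ l ^ N' := by
    rw [← hpow, hk]; exact Nat.mul_le_mul_right _ (by omega)
  have hlN : l ^ N ≤ l ^ N' := Nat.pow_le_pow_right hl hNN
  have hY : sufSum (fun s => preSum (fun p => ind R (s * p)) z) z ≤ crossX R z.prod z z + Y := by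
    rw [zp]
    exact cross_adj he w2 y2
  have hX : crossX R z.prod z z * l ^ b ≤ D * (D * (C1 * C1 * (l ^ N * l ^ N))) := by
    rw [zp]
    refine crossX_bound fun s p hsp => ?_
    by_cases hs : suf z s = 0
    · rw [hs]; simp
    by_cases hp : pre z p = 0
    · rw [hp]; simp
    have hs1 : s ∈ (sand y P y).A := by
      by_contra hcon
      exact hs (z6 s hcon)
    have hp1 : p ∈ (sand y P y).B := by
      by_contra hcon
      exact hp (z8 p hcon)
    obtain ⟨s', a1, a2, a3, -⟩ := suf_type he hα y2 hyA hs1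
    obtain ⟨p', b1, b2, b3, -⟩ := pre_type he hβ y2 hyB hp1
    have hbad : b ≤ P.α s' + P.β p' := by
      refine Nat.sInf_le ⟨s', a1, p', b1, ?_, rfl⟩
      rw [a2, mul_assoc, ← he, mul_assoc, b2, ← mul_assoc, ← mul_assoc, mul_assoc s, he]
      exact hsp
    have e1 : suf z s * l ^ P.α s' ≤ C1 * l ^ N :=
      (Nat.mul_le_mul_left _ (Nat.pow_le_pow_right hl a3)).trans (z7 s hs1)
    have e2 : pre z p * l ^ P.β p' ≤ C1 * l ^ N :=
      (Nat.mul_le_mul_left _ (Nat.pow_le_pow_right hl b3)).trans (z9 p hp1)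
    calc suf z s * pre z p * l ^ b ≤ suf z s * pre z p * l ^ (P.α s' + P.β p') :=
          Nat.mul_le_mul_left _ (Nat.pow_le_pow_right hl hbad)
      _ = (suf z s * l ^ P.α s') * (pre z p * l ^ P.β p') := by rw [pow_add]; ring
      _ ≤ (C1 * l ^ N) * (C1 * l ^ N) := Nat.mul_le_mul e1 e2
      _ = C1 * C1 * (l ^ N * l ^ N) := by ring
  refine ⟨?_, ?_, ?_, ?_, ?_, ?_, ?_, ?_, ?_⟩
  · intro x hx
    exact z1 x (mem_wpow hx)
  · rw [wpow_prod zid, zp]; rfl
  · rw [wpow_length, ← hk]
    change l ^ N' ≤ _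
    rw [← hpow]
    exact Nat.mul_le_mul_left _ z3
  · rw [wpow_length, ← hk]
    change _ ≤ _ * l ^ N'
    calc l ^ (N' - N) * z.length ≤ l ^ (N' - N) * (C1 * l ^ N) := Nat.mul_le_mul_left _ z4
      _ = C1 * l ^ N' := by rw [← hpow]; ring
      _ ≤ _ := Nat.mul_le_mul_right _ (by omega)
  · change pairs R (wpow z (k + 1)) ≤ _ * l ^ (N' + 1)
    have h1 := pairs_wpow_le zid hY k
    have h2 : (k + 1) * (pairs R z + Y) ≤ (C1 + Y) * l ^ (N' + 1) := by
      rw [← hk]
      calc l ^ (N' - N) * (pairs R z + Y) ≤ l ^ (N' - N) * (C1 * l ^ (N + 1) + Y * l ^ (N + 1)) := by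
            refine Nat.mul_le_mul_left _ (add_le_add z5 (Nat.le_mul_of_pos_right _ ?_))
            exact Nat.pow_pos (by omega)
        _ = (C1 + Y) * (l ^ (N' - N) * l ^ N * l) := by rw [pow_succ]; ring
        _ = (C1 + Y) * l ^ (N' + 1) := by rw [hpow, pow_succ]
    have h3 : (k + 1) * k * crossX R z.prod z z ≤ D * (D * (C1 * C1)) * l ^ (N' + 1) := by
      rcases Nat.eq_zero_or_pos k with rfl | hk0
      · simp
      · have hlt : N < N' := by
          by_contra hcon
          have : N' - N = 0 := by omega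
          rw [this, pow_zero] at hk
          omega
        have hN'b : N' = 1 + b := by
          rw [hN']
          unfold iterN
          rw [← hb]
          have : ¬ (1 + b ≤ N) := by
            intro hcon
            have : N' = N := by
              rw [hN']; unfold iterN; rw [← hb]; exact max_eq_left hcon
            omega
          exact max_eq_right (by omega)
        have hlb : 0 < l ^ b := Nat.pow_pos (by omega)
        refine Nat.le_of_mul_le_mul_right ?_ hlb
        calc (k + 1) * k * crossX R z.prod z z * l ^ b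
            ≤ (k + 1) * (k + 1) * (crossX R z.prod z z * l ^ b) := by
              rw [mul_assoc]
              exact Nat.mul_le_mul_right _ (Nat.mul_le_mul_left _ (by omega))
          _ ≤ (k + 1) * (k + 1) * (D * (D * (C1 * C1 * (l ^ N * l ^ N)))) :=
              Nat.mul_le_mul_left _ hX
          _ = D * (D * (C1 * C1)) * ((l ^ (N' - N) * l ^ N) * (l ^ (N' - N) * l ^ N)) := by
              rw [hk]; ring
          _ = D * (D * (C1 * C1)) * l ^ (N' + 1) * l ^ b := by
              rw [hpow, mul_assoc (D * (D * (C1 * C1))) (l ^ (N' + 1)), ← pow_add, ← pow_add]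
              congr 2
              omega
    calc pairs R (wpow z (k + 1)) ≤ (C1 + Y) * l ^ (N' + 1) +
          D * (D * (C1 * C1)) * l ^ (N' + 1) := h1.trans (add_le_add h2 h3)
      _ = (C1 + Y + D * (D * (C1 * C1))) * l ^ (N' + 1) := by ring
      _ ≤ _ := Nat.mul_le_mul_right _ (by omega)
  · intro s hs
    change s ∉ {s | s ∈ P.A ∨ ∃ s' ∈ P.A, s' * P.e = s} at hs
    simp only [Set.mem_ofPred_eq, not_or] at hs
    unfold suf
    rw [sufSum_wpow zid]
    have hin : ∀ t, suf z t ≠ 0 → ∃ s' ∈ P.A, s' * P.e = t * P.e ∧ (s' = t ∨ s' * P.e = t) := by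
      intro t ht
      have ht1 : t ∈ (sand y P y).A := by
        by_contra hcon
        exact ht (z6 t hcon)
      obtain ⟨s', a1, a2, -, a4⟩ := suf_type he hα y2 hyA ht1
      exact ⟨s', a1, a2, a4⟩
    have e1 : sufSum (fun t => ind {s} (t * z.prod)) z = 0 := by
      by_contra hcon
      obtain ⟨t, ht1, ht2⟩ := exists_of_sufSum_pos (Nat.pos_of_ne_zero hcon)
      obtain ⟨s', a1, a2, -⟩ := hin t (by omega)
      apply hs.2
      refine ⟨s', a1, ?_⟩
      rw [a2, ← zp]
      exact ind_pos ht1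
    have e2 : sufSum (ind {s}) z = 0 := by
      by_contra hcon
      obtain ⟨s', a1, a2, a3⟩ := hin s hcon
      rcases a3 with rfl | a3
      · exact hs.1 a1
      · exact hs.2 ⟨s', a1, a3⟩
    rw [e1, e2]; simp
  · intro s _
    change suf (wpow z (k + 1)) s * l ^ (iter R P).α s ≤ _ * l ^ N'
    unfold suf
    rw [sufSum_wpow zid, add_mul]
    have e1 : sufSum (fun t => ind {s} (t * z.prod)) z * l ^ (iter R P).α s ≤
        D * (C1 * l ^ N) := by
      rw [sufSum_eq_sum]
      refine sum_bound hl z6 z7 (fun t => ind_le_one _ _) ?_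
      intro t ht1 ht2
      obtain ⟨s', a1, a2, a3, -⟩ := suf_type he hα y2 hyA ht1
      refine (iter_α_le' R P a1 ?_).trans a3
      rw [a2, ← zp]
      exact ind_pos ht2
    have e2 : sufSum (ind {s}) z * l ^ (iter R P).α s ≤ C1 * l ^ N' := by
      by_cases h0 : suf z s = 0
      · unfold suf at h0
        rw [h0]; simp
      have ht1 : s ∈ (sand y P y).A := by
        by_contra hcon
        exact h0 (z6 s hcon)
      rcases sand_α_eq y P y s with h | ⟨s', h1, h2, h3⟩
      · have h4 := z7 s ht1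
        rw [h] at h4
        have h5 : suf z s ≤ C1 := Nat.le_of_mul_le_mul_right h4 (Nat.pow_pos (by omega))
        exact Nat.mul_le_mul h5 (Nat.pow_le_pow_right hl (iter_α_le R P s))
      · have h4 := z7 s ht1
        rw [y2] at h2
        have h5 := iter_α_le' R P h1 h2
        rw [h3] at h4
        calc sufSum (ind {s}) z * l ^ (iter R P).α s ≤ suf z s * l ^ P.α s' :=
              Nat.mul_le_mul_left _ (Nat.pow_le_pow_right hl h5)
          _ ≤ C1 * l ^ N := h4
          _ ≤ C1 * l ^ N' := Nat.mul_le_mul_left _ hlN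
    calc k * sufSum (fun t => ind {s} (t * z.prod)) z * l ^ (iter R P).α s +
          sufSum (ind {s}) z * l ^ (iter R P).α s
        = k * (sufSum (fun t => ind {s} (t * z.prod)) z * l ^ (iter R P).α s) +
          sufSum (ind {s}) z * l ^ (iter R P).α s := by ring
      _ ≤ k * (D * (C1 * l ^ N)) + C1 * l ^ N' := add_le_add (Nat.mul_le_mul_left _ e1) e2
      _ = D * C1 * (k * l ^ N) + C1 * l ^ N' := by ring
      _ ≤ D * C1 * l ^ N' + C1 * l ^ N' := add_le_add (Nat.mul_le_mul_left _ hkl) le_rfl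
      _ = (C1 + D * C1) * l ^ N' := by ring
      _ ≤ _ := Nat.mul_le_mul_right _ (by omega)
  · intro s hs
    change s ∉ {s | s ∈ P.B ∨ ∃ s' ∈ P.B, P.e * s' = s} at hs
    simp only [Set.mem_ofPred_eq, not_or] at hs
    unfold pre
    rw [preSum_wpow zid]
    have hin : ∀ t, pre z t ≠ 0 → ∃ s' ∈ P.B, P.e * s' = P.e * t ∧ (s' = t ∨ P.e * s' = t) := by
      intro t ht
      have ht1 : t ∈ (sand y P y).B := by
        by_contra hcon
        exact ht (z8 t hcon)
      obtain ⟨s', a1, a2, -, a4⟩ := pre_type he hβ y2 hyB ht1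
      exact ⟨s', a1, a2, a4⟩
    have e1 : preSum (fun t => ind {s} (z.prod * t)) z = 0 := by
      by_contra hcon
      obtain ⟨t, ht1, ht2⟩ := exists_of_preSum_pos (Nat.pos_of_ne_zero hcon)
      obtain ⟨s', a1, a2, -⟩ := hin t (by omega)
      apply hs.2
      refine ⟨s', a1, ?_⟩
      rw [a2, ← zp]
      exact ind_pos ht1
    have e2 : preSum (ind {s}) z = 0 := by
      by_contra hcon
      obtain ⟨s', a1, a2, a3⟩ := hin s hcon
      rcases a3 with rfl | a3
      · exact hs.1 a1
      · exact hs.2 ⟨s', a1, a3⟩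
    rw [e1, e2]; simp
  · intro s _
    change pre (wpow z (k + 1)) s * l ^ (iter R P).β s ≤ _ * l ^ N'
    unfold pre
    rw [preSum_wpow zid, add_mul]
    have e1 : preSum (fun t => ind {s} (z.prod * t)) z * l ^ (iter R P).β s ≤
        D * (C1 * l ^ N) := by
      rw [preSum_eq_sum]
      refine sum_bound hl z8 z9 (fun t => ind_le_one _ _) ?_
      intro t ht1 ht2
      obtain ⟨s', a1, a2, a3, -⟩ := pre_type he hβ y2 hyB ht1
      refine (iter_β_le' R P a1 ?_).trans a3
      rw [a2, ← zp]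
      exact ind_pos ht2
    have e2 : preSum (ind {s}) z * l ^ (iter R P).β s ≤ C1 * l ^ N' := by
      by_cases h0 : pre z s = 0
      · unfold pre at h0
        rw [h0]; simp
      have ht1 : s ∈ (sand y P y).B := by
        by_contra hcon
        exact h0 (z8 s hcon)
      rcases sand_β_eq y P y s with h | ⟨s', h1, h2, h3⟩
      · have h4 := z9 s ht1
        rw [h] at h4
        have h5 : pre z s ≤ C1 := Nat.le_of_mul_le_mul_right h4 (Nat.pow_pos (by omega))
        exact Nat.mul_le_mul h5 (Nat.pow_le_pow_right hl (iter_β_le R P s))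
      · have h4 := z9 s ht1
        rw [y2] at h2
        have h5 := iter_β_le' R P h1 h2
        rw [h3] at h4
        calc preSum (ind {s}) z * l ^ (iter R P).β s ≤ pre z s * l ^ P.β s' :=
              Nat.mul_le_mul_left _ (Nat.pow_le_pow_right hl h5)
          _ ≤ C1 * l ^ N := h4
          _ ≤ C1 * l ^ N' := Nat.mul_le_mul_left _ hlN
    calc preSum (ind {s}) z * l ^ (iter R P).β s +
          k * preSum (fun t => ind {s} (z.prod * t)) z * l ^ (iter R P).β s
        = k * (preSum (fun t => ind {s} (z.prod * t)) z * l ^ (iter R P).β s) +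
          preSum (ind {s}) z * l ^ (iter R P).β s := by ring
      _ ≤ k * (D * (C1 * l ^ N)) + C1 * l ^ N' := add_le_add (Nat.mul_le_mul_left _ e1) e2
      _ = D * C1 * (k * l ^ N) + C1 * l ^ N' := by ring
      _ ≤ D * C1 * l ^ N' + C1 * l ^ N' := add_le_add (Nat.mul_le_mul_left _ hkl) le_rfl
      _ = (C1 + D * C1) * l ^ N' := by ring
      _ ≤ _ := Nat.mul_le_mul_right _ (by omega)

end H61.SA
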