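import Pool.Agent.helper61.SDom

set_option autoImplicit false
set_option linter.unusedSectionVars false

/-!
# The growth dichotomy for numbers of pairs
-/

namespace H61.SA

variable {S : Type} [Monoid S] [Fintype S]

/-- The product `s` occurs in some word of the family. -/
def Ctx (Λ L : Set S) (s : S) : Prop :=
  ∃ a b : List S, (∀ x ∈ a, x ∈ Λ) ∧ (∀ x ∈ b, x ∈ Λ) ∧ a.prod * s * b.prod ∈ L

/-- There is no idempotent without bad pairs. -/
def NonLin (Λ R L : Set S) : Prop :=
  ∀ y : List S, (∀ x ∈ y, x ∈ Λ) → y ≠ [] → y.prod * y.prod = y.prod → Ctx Λ L y.prod →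
    ∃ s p, 0 < suf y s ∧ 0 < pre y p ∧ s * y.prod * p ∈ R

/-- The type of a word. -/
noncomputable def typ (w : List S) : S × Set S × Set S :=
  (w.prod, {s | 0 < suf w s}, {p | 0 < pre w p})

lemma exists_rep (Λ : Set S) : ∃ rep : Set (List S), rep.Finite ∧ (∀ w ∈ rep, ∀ a ∈ w, a ∈ Λ) ∧
    ∀ w : List S, (∀ a ∈ w, a ∈ Λ) → ∃ w' ∈ rep, typ w' = typ w := by
  classical
  refine ⟨Set.range fun t : S × Set S × Set S =>
    if h : ∃ w : List S, (∀ a ∈ w, a ∈ Λ) ∧ typ w = t then h.choose else [], Set.finite_range _,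
    ?_, ?_⟩
  · rintro w ⟨t, rfl⟩
    dsimp only
    split_ifs with h
    · exact h.choose_spec.1
    · simp
  · intro w hw
    have h : ∃ w' : List S, (∀ a ∈ w', a ∈ Λ) ∧ typ w' = typ w := ⟨w, hw, rfl⟩
    refine ⟨_, ⟨typ w, rfl⟩, ?_⟩
    dsimp only
    rw [dif_pos h]
    exact h.choose_spec.2

lemma Dom.mono {C C' l : ℕ} {P : Prof S} {u : List S} (h : Dom C P l u) (hC : C ≤ C') :
    Dom C' P l u := by
  obtain ⟨h1, h2, h3, h4⟩ := h
  refine ⟨h1, h2.trans (Nat.mul_le_mul_right _ hC), fun s hs => (h3 s hs).trans ?_,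
    fun s hs => (h4 s hs).trans ?_⟩
  · exact Nat.mul_le_mul_right _ (Nat.mul_le_mul_right _ hC)
  · exact Nat.mul_le_mul_right _ (Nat.mul_le_mul_right _ hC)

lemma Dom.scale {C l k m : ℕ} {P : Prof S} {u : List S} (h : Dom C P (k * l) u) (hk : 1 ≤ k)
    (hN : P.N ≤ m) (hα : ∀ s ∈ P.A, P.α s ≤ P.N) (hβ : ∀ s ∈ P.B, P.β s ≤ P.N) :
    Dom (C * k ^ m) P l u := by
  obtain ⟨h1, h2, h3, h4⟩ := h
  refine ⟨h1, h2.trans ?_, fun s hs => (h3 s hs).trans ?_, fun s hs => (h4 s hs).trans ?_⟩
  · rw [mul_pow, ← mul_assoc]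
    exact Nat.mul_le_mul_right _ (Nat.mul_le_mul_left _ (Nat.pow_le_pow_right hk hN))
  · rw [mul_pow, ← mul_assoc]
    exact Nat.mul_le_mul_right _ (Nat.mul_le_mul_right _ (Nat.mul_le_mul_left _
      (Nat.pow_le_pow_right hk ((hα s hs).trans hN))))
  · rw [mul_pow, ← mul_assoc]
    exact Nat.mul_le_mul_right _ (Nat.mul_le_mul_right _ (Nat.mul_le_mul_left _
      (Nat.pow_le_pow_right hk ((hβ s hs).trans hN))))

/-- The profile of a letter. -/
def leafProf (a : S) : Prof S where
  e := a
  N := 0
  A := {a}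
  α := fun _ => 0
  B := {a}
  β := fun _ => 0

lemma suf_single (a s : S) : suf [a] s = ind {s} a := by
  unfold suf
  simp [sufSum]

lemma pre_single (a s : S) : pre [a] s = ind {s} a := by
  unfold pre
  simp [preSum]

lemma realised_leaf {Λ R : Set S} {a : S} (ha : a ∈ Λ) : Realised Λ R (leafProf a) := by
  refine ⟨fun _ _ => le_rfl, fun _ _ => le_rfl, 1, fun _ => [a], fun l hl => ?_⟩
  refine ⟨?_, ?_, ?_, ?_, ?_, ?_, ?_, ?_, ?_⟩
  · intro x hx
    rw [List.mem_singleton] at hx
    rw [hx]; exact ha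
  · simp [leafProf]
  · simp [leafProf]
  · simp [leafProf]
  · have h1 := pairs_le R [a]
    simp only [List.length_singleton, mul_one] at h1
    refine h1.trans ?_
    rw [one_mul]
    exact Nat.one_le_pow _ _ hl
  · intro s hs
    rw [suf_single]
    exact ind_of_notMem fun h => hs (by rw [Set.mem_singleton_iff] at h; rw [h]; rfl)
  · intro s _
    rw [suf_single]
    simpa [leafProf] using ind_le_one _ _
  · intro s hs
    rw [pre_single]
    exact ind_of_notMem fun h => hs (by rw [Set.mem_singleton_iff] at h; rw [h]; rfl)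
  · intro s _
    rw [pre_single]
    simpa [leafProf] using ind_le_one _ _

lemma dom_leaf (a : S) (l : ℕ) : Dom 1 (leafProf a) l [a] := by
  refine ⟨by simp [leafProf], by simp [leafProf], ?_, ?_⟩
  · intro s hs
    have : s = a := hs
    rw [suf_single, this, ind_of_mem (Set.mem_singleton a)]
    simp [leafProf]
  · intro s hs
    have : s = a := hs
    rw [pre_single, this, ind_of_mem (Set.mem_singleton a)]
    simp [leafProf]

omit [Fintype S] in
lemma Fac.ne_nil {n : ℕ} {u : List S} (h : Fac n u) : u ≠ [] := by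
  induction h with
  | leaf n a => simp
  | bin _ _ ih1 _ =>
    intro h
    rw [List.append_eq_nil_iff] at h
    exact ih1 h.1
  | idem us h1 _ _ _ ih =>
    obtain ⟨v, us', rfl⟩ := List.exists_cons_of_ne_nil h1
    intro h
    rw [List.flatten_cons, List.append_eq_nil_iff] at h
    exact ih v (by simp) h.1

/-- Sandwiching with a representative. -/
lemma sand_rep {Λ : Set S} {rep : Set (List S)}
    (hrep : ∀ w : List S, (∀ a ∈ w, a ∈ Λ) → ∃ w' ∈ rep, typ w' = typ w) {P : Prof S}
    {C K l : ℕ} {x mid y : List S} (hx : ∀ a ∈ x, a ∈ Λ) (hy : ∀ a ∈ y, a ∈ Λ)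
    (hD : Dom C P l mid) (hne : mid ≠ []) (hK : (x ++ mid ++ y).length ≤ K * mid.length) :
    ∃ x' ∈ rep, ∃ y' ∈ rep, Dom (K * C) (sand x' P y') l (x ++ mid ++ y) := by
  obtain ⟨x', hx1, hx2⟩ := hrep x hx
  obtain ⟨y', hy1, hy2⟩ := hrep y hy
  refine ⟨x', hx1, y', hy1, ?_⟩
  simp only [typ, Prod.mk.injEq] at hx2 hy2
  refine dom_sand hx2.1 ?_ ?_ hy2.1 ?_ ?_ hD hne hK
  · intro s hs
    exact (Set.ext_iff.1 hx2.2.1 s).1 hs
  · intro s hs
    exact (Set.ext_iff.1 hx2.2.2 s).1 hs
  · intro s hs
    exact (Set.ext_iff.1 hy2.2.1 s).1 hs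
  · intro s hs
    exact (Set.ext_iff.1 hy2.2.2 s).1 hs

lemma wt_compl (D : List S → Prop) (us : List (List S)) :
    wt D us + wt (fun v => ¬ D v) us = us.flatten.length := by
  induction us with
  | nil => rfl
  | cons v us ih =>
    rw [List.flatten_cons, List.length_append]
    by_cases h : D v
    · rw [wt_cons_pos h, wt_cons_neg (D := fun v => ¬ D v) (fun h1 => h1 h)]
      omega
    · rw [wt_cons_neg h, wt_cons_pos (D := fun v => ¬ D v) h]
      omega

lemma wt_exp_le {R : Set S} {c : ℕ} (us : List (List S)) :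
    c * wt (fun v => ¬ pairs R v ≤ c * v.length) us ≤ (us.map (pairs R)).sum := by
  induction us with
  | nil => simp [wt_nil]
  | cons v us ih =>
    rw [List.map_cons, List.sum_cons]
    by_cases h : pairs R v ≤ c * v.length
    · rw [wt_cons_neg (D := fun v => ¬ pairs R v ≤ c * v.length) (fun h1 => h1 h)]
      omega
    · rw [wt_cons_pos (D := fun v => ¬ pairs R v ≤ c * v.length) h, mul_add]
      omega

lemma wt_mono {D E : List S → Prop} (us : List (List S)) (h : ∀ v ∈ us, D v → E v) :
    wt D us ≤ wt E us := by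
  induction us with
  | nil => exact le_rfl
  | cons v us ih =>
    have ih' := ih fun u hu => h u (List.mem_cons_of_mem _ hu)
    by_cases hv : D v
    · rw [wt_cons_pos hv, wt_cons_pos (h v (by simp) hv)]; omega
    · rw [wt_cons_neg hv]
      exact ih'.trans (wt_cons_le _ _ _)

lemma wt_sum_le {ι : Type} (t : Finset ι) {D : List S → Prop} {E : ι → List S → Prop}
    (us : List (List S)) (h : ∀ v ∈ us, D v → ∃ i ∈ t, E i v) :
    wt D us ≤ ∑ i ∈ t, wt (E i) us := by
  induction us with
  | nil => simp [wt_nil]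
  | cons v us ih =>
    have ih' := ih fun u hu => h u (List.mem_cons_of_mem _ hu)
    by_cases hv : D v
    · obtain ⟨i, hi, hE⟩ := h v (by simp) hv
      rw [wt_cons_pos hv]
      classical
      rw [← Finset.add_sum_erase t _ hi] at ih' ⊢
      rw [wt_cons_pos hE]
      have : ∑ x ∈ t.erase i, wt (E x) us ≤ ∑ x ∈ t.erase i, wt (E x) (v :: us) :=
        Finset.sum_le_sum fun _ _ => wt_cons_le _ _ _
      omega
    · rw [wt_cons_neg hv]
      exact ih'.trans (Finset.sum_le_sum fun _ _ => wt_cons_le _ _ _)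

lemma bad_nonempty {Λ R L : Set S} (hNL : NonLin Λ R L) {P : Prof S} (hP : Realised Λ R P)
    (he : P.e * P.e = P.e) (hctx : Ctx Λ L P.e) : (badSet R P).Nonempty := by
  obtain ⟨-, -, C, W, hW⟩ := hP
  obtain ⟨y1, y2, y3, -, -, y6, -, y8, -⟩ := hW 1 le_rfl
  obtain ⟨s, p, h1, h2, h3⟩ := hNL (W 1) y1 (by
    intro h
    rw [h, one_pow] at y3
    simp at y3) (by rw [y2, he]) (by rw [y2]; exact hctx)
  refine ⟨P.α s + P.β p, s, ?_, p, ?_, by rw [← y2]; exact h3, rfl⟩
  · by_contra hcon
    rw [y6 s hcon] at h1; omega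
  · by_contra hcon
    rw [y8 p hcon] at h2; omega

theorem domination {Λ R L : Set S} (hNL : NonLin Λ R L) (n : ℕ) :
    ∃ PP : Set (Prof S), PP.Finite ∧ (∀ P ∈ PP, Realised Λ R P) ∧ ∃ C, ∀ l, 1 ≤ l →
      ∀ u : List S, Fac n u → (∀ a ∈ u, a ∈ Λ) → Ctx Λ L u.prod → pairs R u ≤ l * u.length →
        ∃ P ∈ PP, Dom C P l u := by
  induction n with
  | zero =>
    refine ⟨leafProf '' Λ, (Set.toFinite Λ).image _, ?_, 1, ?_⟩
    · rintro P ⟨a, ha, rfl⟩
      exact realised_leaf ha
    · intro l hl u hF hu _ _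
      cases hF with
      | leaf _ a => exact ⟨leafProf a, ⟨a, hu a (by simp), rfl⟩, dom_leaf a l⟩
  | succ n ih =>
    obtain ⟨PP, hfin, hreal, C, hC⟩ := ih
    obtain ⟨rep, rfin, rΛ, hrep⟩ := exists_rep Λ
    obtain ⟨m, hm⟩ : ∃ m, ∀ P ∈ PP, P.N ≤ m := by
      obtain ⟨m, hm⟩ := (hfin.image Prof.N).bddAbove
      exact ⟨m, fun P hP => hm ⟨P, hP, rfl⟩⟩
    set QQ : Set (Prof S) := PP ∪ (iter R '' {P | P ∈ PP ∧ P.e * P.e = P.e}) with hQQ
    have hQQfin : QQ.Finite := hfin.union ((hfin.subset fun P hP => hP.1).image _)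
    have hQQreal : ∀ P ∈ QQ, Realised Λ R P := by
      rintro P (hP | ⟨P, hP, rfl⟩)
      · exact hreal P hP
      · exact realised_iter (hreal P hP.1) hP.2
    set M := 2 * hfin.toFinset.card with hM
    set C1 := C * 4 ^ m with hC1
    set C2 := C * 2 ^ m with hC2
    set C3 := 64 * (M * M) * (C1 * C1) + 8 * M * C1 with hC3
    refine ⟨leafProf '' Λ ∪ (fun t : List S × Prof S × List S => sand t.1 t.2.1 t.2.2) ''
      (rep ×ˢ QQ ×ˢ rep), ?_, ?_, 1 + 2 * C2 + 4 * M * C1 + M * C3, ?_⟩
    · exact ((Set.toFinite Λ).image _).union ((rfin.prod (hQQfin.prod rfin)).image _)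
    · rintro P (⟨a, ha, rfl⟩ | ⟨⟨x, P, y⟩, ⟨hx, hP, hy⟩, rfl⟩)
      · exact realised_leaf ha
      · exact realised_sand (hQQreal P hP) (rΛ x hx) (rΛ y hy)
    · intro l hl u hF hu hctx hpairs
      have hput : ∀ {P : Prof S} {C' K : ℕ} {x mid y : List S}, P ∈ QQ → (∀ a ∈ x, a ∈ Λ) →
          (∀ a ∈ y, a ∈ Λ) → Dom C' P l mid → mid ≠ [] →
          (x ++ mid ++ y).length ≤ K * mid.length →
          K * C' ≤ 1 + 2 * C2 + 4 * M * C1 + M * C3 →
          ∃ P ∈ leafProf '' Λ ∪ (fun t : List S × Prof S × List S => sand t.1 t.2.1 t.2.2) ''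
            (rep ×ˢ QQ ×ˢ rep), Dom (1 + 2 * C2 + 4 * M * C1 + M * C3) P l (x ++ mid ++ y) := by
        intro P C' K x mid y hP hx hy hD hne hK hle
        obtain ⟨x', hx', y', hy', hD'⟩ := sand_rep hrep hx hy hD hne hK
        exact ⟨_, Or.inr ⟨(x', P, y'), ⟨hx', hP, hy'⟩, rfl⟩, hD'.mono hle⟩
      cases hF with
      | leaf _ a =>
        exact ⟨leafProf a, Or.inl ⟨a, hu a (by simp), rfl⟩, (dom_leaf a l).mono (by omega)⟩
      | @bin _ u1 u2 h1 h2 =>
        have hu1 : ∀ a ∈ u1, a ∈ Λ := fun a ha => hu a (List.mem_append_left _ ha)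
        have hu2 : ∀ a ∈ u2, a ∈ Λ := fun a ha => hu a (List.mem_append_right _ ha)
        obtain ⟨a, b, ha, hb, hab⟩ := hctx
        rw [List.prod_append] at hab
        rw [List.length_append] at hpairs
        rcases le_total u2.length u1.length with hle | hle
        · have hc : Ctx Λ L u1.prod := ⟨a, u2 ++ b, ha, fun x hx => by
            rcases List.mem_append.1 hx with h | h
            · exact hu2 x h
            · exact hb x h, by
            rw [List.prod_append]
            simpa only [mul_assoc] using hab⟩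
          obtain ⟨P, hP, hD⟩ := hC (2 * l) (by omega) u1 h1 hu1 hc (by
            have := pairs_mono_left R u1 u2
            nlinarith)
          obtain ⟨hα, hβ, -⟩ := hreal P hP
          have hD' := hD.scale (by omega) (hm P hP) hα hβ
          have := hput (K := 2) (x := []) (Or.inl hP) (by simp) hu2 hD' h1.ne_nil (by
            simp only [List.length_append, List.length_nil]; omega) (by omega)
          simpa using this
        · have hc : Ctx Λ L u2.prod := ⟨a ++ u1, b, fun x hx => by
            rcases List.mem_append.1 hx with h | h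
            · exact ha x h
            · exact hu1 x h, hb, by
            rw [List.prod_append]
            simpa only [mul_assoc] using hab⟩
          obtain ⟨P, hP, hD⟩ := hC (2 * l) (by omega) u2 h2 hu2 hc (by
            have := pairs_mono_right R u1 u2
            nlinarith)
          obtain ⟨hα, hβ, -⟩ := hreal P hP
          have hD' := hD.scale (by omega) (hm P hP) hα hβ
          have := hput (K := 2) (y := []) (Or.inl hP) hu1 (by simp) hD' h2.ne_nil (by
            simp only [List.length_append, List.length_nil]; omega) (by omega)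
          simpa using this
      | @idem _ e us h1 h2 h3 h4 =>
        have hprod : us.flatten.prod = e := by
          rcases prod_idem h2 us h4 with h | h
          · exact absurd h h1
          · exact h
        have hne : ∀ v ∈ us, v ≠ [] := fun v hv => (h3 v hv).ne_nil
        have hΛ : ∀ v ∈ us, ∀ a ∈ v, a ∈ Λ := fun v hv a ha =>
          hu a (List.mem_flatten.2 ⟨v, hv, ha⟩)
        have hU : 0 < us.flatten.length := by
          obtain ⟨v, us', rfl⟩ := List.exists_cons_of_ne_nil h1
          rw [List.flatten_cons, List.length_append]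
          have := List.length_pos_iff.2 (hne v (by simp))
          omega
        -- cheap children
        have hcheap : us.flatten.length ≤ 2 * wt (fun v => pairs R v ≤ 4 * l * v.length) us := by
          have e1 := wt_compl (fun v => pairs R v ≤ 4 * l * v.length) us
          have e2 := wt_exp_le (R := R) (c := 4 * l) us
          have e3 := sum_pairs_le R us
          have e4 : 4 * wt (fun v => ¬ pairs R v ≤ 4 * l * v.length) us ≤ us.flatten.length := by
            refine Nat.le_of_mul_le_mul_left ?_ (show 0 < l by omega)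
            calc l * (4 * wt (fun v => ¬ pairs R v ≤ 4 * l * v.length) us)
                = 4 * l * wt (fun v => ¬ pairs R v ≤ 4 * l * v.length) us := by ring
              _ ≤ l * us.flatten.length := (e2.trans e3).trans hpairs
          omega
        have hdom : ∀ v ∈ us, pairs R v ≤ 4 * l * v.length →
            ∃ P ∈ hfin.toFinset, Dom C1 P l v := by
          intro v hv hpv
          obtain ⟨P, hP, hD⟩ := hC (4 * l) (by omega) v (h3 v hv) (hΛ v hv)
            (by rw [h4 v hv, ← hprod]; exact hctx) hpv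
          obtain ⟨hα, hβ, -⟩ := hreal P hP
          exact ⟨P, hfin.mem_toFinset.2 hP, hD.scale (by omega) (hm P hP) hα hβ⟩
        have hsum := wt_sum_le (E := fun P v => Dom C1 P l v) hfin.toFinset us hdom
        have hnonempty : hfin.toFinset.Nonempty := by
          by_contra hcon
          rw [Finset.not_nonempty_iff_eq_empty] at hcon
          rw [hcon, Finset.sum_empty] at hsum
          omega
        obtain ⟨P, hP, hmax⟩ := Finset.exists_max_image hfin.toFinset
          (fun P => wt (fun v => Dom C1 P l v) us) hnonempty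
        have hsum2 : ∑ P ∈ hfin.toFinset, wt (fun v => Dom C1 P l v) us ≤
            hfin.toFinset.card * wt (fun v => Dom C1 P l v) us := by
          have := Finset.sum_le_card_nsmul hfin.toFinset
            (fun P => wt (fun v => Dom C1 P l v) us) _ hmax
          simpa using this
        have hWle : us.flatten.length ≤ M * wt (fun v => Dom C1 P l v) us := by
          rw [hM, mul_assoc]
          omega
        have hP' : P ∈ PP := hfin.mem_toFinset.1 hP
        set D : List S → Prop := fun v => Dom C1 P l v with hDdef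
        by_cases hbig : ∃ v ∈ us, D v ∧ wt D us ≤ 4 * v.length
        · obtain ⟨v, hv, hDv, hbig⟩ := hbig
          obtain ⟨us1, us2, hus⟩ := List.append_of_mem hv
          have heq : us.flatten = us1.flatten ++ v ++ us2.flatten := by
            rw [hus, List.flatten_append, List.flatten_cons, List.append_assoc]
          rw [heq]
          refine hput (K := 4 * M) (Or.inl hP') ?_ ?_ hDv (hne v hv) ?_ (by omega)
          · intro a ha
            exact hu a (by rw [heq]; simp only [List.mem_append]; exact Or.inl (Or.inl ha))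
          · intro a ha
            exact hu a (by rw [heq]; simp only [List.mem_append]; exact Or.inr ha)
          · rw [← heq]
            nlinarith
        · push Not at hbig
          have hW0 : 0 < wt D us := by
            by_contra hcon
            rw [Nat.le_zero.1 (not_lt.1 hcon), mul_zero] at hWle
            omega
          obtain ⟨w1, v1, w2, hv1, hDv1, -⟩ := exists_first us hW0
          have hv1' : v1 ∈ us := by rw [hv1]; simp
          have hPe : P.e = e := hDv1.1.symm.trans (h4 v1 hv1')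
          have hPe2 : P.e * P.e = P.e := by rw [hPe]; exact h2
          have hbad := bad_nonempty hNL (hreal P hP') hPe2 (by rw [hPe, ← hprod]; exact hctx)
          obtain ⟨u1, mid, u2, q1, q2, q3, q4⟩ := dom_many (M := M) hPe2 hl hne
            (fun v hv => (h4 v hv).trans hPe.symm) (fun v _ hDv => hDv) hpairs hWle h1 hbig hbad
          have heq : us.flatten = u1.flatten ++ mid.flatten ++ u2.flatten := by
            rw [q1, List.flatten_append, List.flatten_append]
          rw [heq]
          refine hput (K := M) (Or.inr ⟨P, ⟨hP', hPe2⟩, rfl⟩) ?_ ?_ q4 q2 ?_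
            (by rw [← hC3]; omega)
          · intro a ha
            exact hu a (by rw [heq]; simp only [List.mem_append]; exact Or.inl (Or.inl ha))
          · intro a ha
            exact hu a (by rw [heq]; simp only [List.mem_append]; exact Or.inr ha)
          · rw [← heq]
            exact q3


/-- The words of the family. -/
def Good (Λ L : Set S) (w : List S) : Prop := (∀ a ∈ w, a ∈ Λ) ∧ w.prod ∈ L

theorem nonlin_growth {Λ R L : Set S} (hNL : NonLin Λ R L)
    (hunb : ∀ r, ∃ w, Good Λ L w ∧ r ≤ w.length) :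
    ∃ N, 1 ≤ N ∧ ∃ C, (∀ l, 1 ≤ l → ∃ w, Good Λ L w ∧ l ^ N ≤ w.length ∧
      pairs R w ≤ C * l ^ (N + 1)) ∧
      ∀ l, 1 ≤ l → ∀ w, Good Λ L w → w ≠ [] → pairs R w ≤ l * w.length →
        w.length ≤ C * l ^ N := by
  obtain ⟨H, hH⟩ := exists_fac_bound S
  obtain ⟨PP, hfin, hreal, C, hC⟩ := domination hNL H
  have hdom : ∀ l, 1 ≤ l → ∀ w, Good Λ L w → w ≠ [] → pairs R w ≤ l * w.length →
      ∃ P ∈ PP, P.e ∈ L ∧ w.length ≤ C * l ^ P.N := by
    intro l hl w hw hne hp
    obtain ⟨P, hP, hD⟩ := hC l hl w (hH w hne) hw.1 ⟨[], [], by simp, by simp, by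
      simpa using hw.2⟩ hp
    exact ⟨P, hP, by rw [← hD.1]; exact hw.2, hD.2.1⟩
  classical
  set QQ := hfin.toFinset.filter fun P => P.e ∈ L with hQQ
  have hQne : QQ.Nonempty := by
    obtain ⟨w, hw, hlen⟩ := hunb 1
    have hne : w ≠ [] := by
      intro h
      rw [h] at hlen
      simp at hlen
    obtain ⟨P, hP, hPL, -⟩ := hdom (w.length) hlen w hw hne (pairs_le R w)
    exact ⟨P, by rw [hQQ, Finset.mem_filter]; exact ⟨hfin.mem_toFinset.2 hP, hPL⟩⟩
  obtain ⟨P, hP, hmax⟩ := Finset.exists_max_image QQ Prof.N hQne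
  rw [hQQ, Finset.mem_filter] at hP
  have hPP : P ∈ PP := hfin.mem_toFinset.1 hP.1
  have hup : ∀ l, 1 ≤ l → ∀ w, Good Λ L w → w ≠ [] → pairs R w ≤ l * w.length →
      w.length ≤ C * l ^ P.N := by
    intro l hl w hw hne hp
    obtain ⟨P', hP', hPL, hlen⟩ := hdom l hl w hw hne hp
    refine hlen.trans (Nat.mul_le_mul_left _ (Nat.pow_le_pow_right hl ?_))
    exact hmax P' (by rw [hQQ, Finset.mem_filter]; exact ⟨hfin.mem_toFinset.2 hP', hPL⟩)
  have hN1 : 1 ≤ P.N := by
    by_contra hcon
    have h0 : P.N = 0 := by omega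
    rw [h0] at hup
    obtain ⟨w, hw, hlen⟩ := hunb (C + 1)
    have hne : w ≠ [] := by
      intro h
      rw [h] at hlen
      simp at hlen
    have := hup w.length (by omega) w hw hne (pairs_le R w)
    rw [pow_zero, mul_one] at this
    omega
  obtain ⟨-, -, C', W, hW⟩ := hreal P hPP
  refine ⟨P.N, hN1, C + C', fun l hl => ?_, fun l hl w hw hne hp => ?_⟩
  · obtain ⟨w1, w2, w3, -, w5, -⟩ := hW l hl
    exact ⟨W l, ⟨w1, by rw [w2]; exact hP.2⟩, w3, w5.trans (Nat.mul_le_mul_right _ (by omega))⟩
  · exact (hup l hl w hw hne hp).trans (Nat.mul_le_mul_right _ (by omega))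

theorem lin_growth {Λ R L : Set S} (hNL : ¬ NonLin Λ R L) :
    ∃ C, ∀ r, ∃ w, Good Λ L w ∧ r ≤ w.length ∧ pairs R w ≤ C * (r + 1) := by
  unfold NonLin at hNL
  push Not at hNL
  obtain ⟨y, y1, y2, y3, ⟨a, b, ha, hb, hab⟩, y4⟩ := hNL
  have hX : crossX R y.prod y y = 0 := by
    by_contra hcon
    unfold crossX at hcon
    obtain ⟨s, h1, h2⟩ := exists_of_sufSum_pos (Nat.pos_of_ne_zero hcon)
    obtain ⟨p, h3, h4⟩ := exists_of_preSum_pos h1
    exact y4 s p h2 h4 (ind_pos h3)
  set Y := y.length * y.length with hY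
  have hcr : sufSum (fun s => preSum (fun p => ind R (s * p)) y) y ≤ crossX R y.prod y y + Y := by
    have := cross_le (fun s p => ind R (s * p)) (fun s p => ind_le_one _ _) y y
    omega
  have hlen : 1 ≤ y.length := List.length_pos_iff.2 y2
  refine ⟨pairs R a + pairs R b + pairs R y + Y + a.length * y.length + a.length * b.length +
    y.length * b.length, fun r => ⟨a ++ wpow y (r + 1) ++ b, ⟨?_, ?_⟩, ?_, ?_⟩⟩
  · intro x hx
    rcases List.mem_append.1 hx with hx | hx
    · rcases List.mem_append.1 hx with hx | hx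
      · exact ha x hx
      · exact y1 x (mem_wpow hx)
    · exact hb x hx
  · rw [List.prod_append, List.prod_append, wpow_prod y3]
    exact hab
  · simp only [List.length_append, wpow_length]
    nlinarith
  · have h1 := pairs_append_le R (a ++ wpow y (r + 1)) b
    have h2 := pairs_append_le R a (wpow y (r + 1))
    have h3 := pairs_wpow_le y3 hcr r
    rw [hX, mul_zero, add_zero] at h3
    rw [List.length_append, wpow_length] at h1
    rw [wpow_length] at h2
    generalize pairs R (a ++ wpow y (r + 1) ++ b) = t1 at *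
    generalize pairs R (a ++ wpow y (r + 1)) = t2 at *
    generalize pairs R (wpow y (r + 1)) = t3 at *
    generalize pairs R a = t4 at *
    generalize pairs R b = t5 at *
    generalize pairs R y = t6 at *
    generalize a.length = t7 at *
    generalize b.length = t8 at *
    calc t1 ≤ t4 + (r + 1) * (t6 + Y) + t7 * ((r + 1) * y.length) + t5 +
          (t7 + (r + 1) * y.length) * t8 := by omega
      _ ≤ (t4 + t5 + t6 + Y + t7 * y.length + t7 * t8 + y.length * t8) * (r + 1) := by
          have e1 : t4 ≤ t4 * (r + 1) := Nat.le_mul_of_pos_right _ (by omega)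
          have e2 : t5 ≤ t5 * (r + 1) := Nat.le_mul_of_pos_right _ (by omega)
          have e3 : t7 * t8 ≤ t7 * t8 * (r + 1) := Nat.le_mul_of_pos_right _ (by omega)
          nlinarith

end H61.SA
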