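import Pool.Agent.helper61.SFac

set_option autoImplicit false
set_option linter.unusedSectionVars false

/-!
# Sums over initial parts, final parts and factors of words over a monoid
-/

namespace H61.SA

variable {S : Type} [Monoid S]

/-- Sum of `f` over the products of the nonempty final parts. -/
def sufSum (f : S → ℕ) : List S → ℕ
  | [] => 0
  | a :: w => f (a * w.prod) + sufSum f w

/-- Sum of `f` over the products of the nonempty initial parts. -/
def preSum : (S → ℕ) → List S → ℕ
  | _, [] => 0
  | f, a :: w => f a + preSum (fun p => f (a * p)) w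

open Classical in
/-- Indicator function. -/
noncomputable def ind (R : Set S) (x : S) : ℕ := if x ∈ R then 1 else 0

/-- Number of nonempty factors with product in `R`. -/
noncomputable def pairs (R : Set S) : List S → ℕ
  | [] => 0
  | a :: w => preSum (ind R) (a :: w) + pairs R w

lemma ind_le_one (R : Set S) (x : S) : ind R x ≤ 1 := by
  unfold ind; split_ifs <;> omega

lemma ind_of_mem {R : Set S} {x : S} (h : x ∈ R) : ind R x = 1 := if_pos h

lemma ind_of_notMem {R : Set S} {x : S} (h : x ∉ R) : ind R x = 0 := if_neg h

lemma sufSum_append (f : S → ℕ) (u v : List S) :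
    sufSum f (u ++ v) = sufSum (fun s => f (s * v.prod)) u + sufSum f v := by
  induction u with
  | nil => simp [sufSum]
  | cons a u ih =>
    rw [List.cons_append, sufSum, sufSum, ih, List.prod_append, mul_assoc]
    omega

lemma preSum_append (u v : List S) : ∀ f : S → ℕ,
    preSum f (u ++ v) = preSum f u + preSum (fun p => f (u.prod * p)) v := by
  induction u with
  | nil => intro f; simp [preSum]
  | cons a u ih =>
    intro f
    rw [List.cons_append, preSum, preSum, ih, List.prod_cons]
    simp only [mul_assoc]
    omega

lemma pairs_append (R : Set S) (u v : List S) :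
    pairs R (u ++ v) = pairs R u + pairs R v +
      sufSum (fun s => preSum (fun p => ind R (s * p)) v) u := by
  induction u with
  | nil => simp [pairs, sufSum]
  | cons a u ih =>
    rw [List.cons_append, pairs, pairs, sufSum, ih, ← List.cons_append, preSum_append,
      List.prod_cons]
    omega

lemma sufSum_mono {f g : S → ℕ} (h : ∀ s, f s ≤ g s) (w : List S) : sufSum f w ≤ sufSum g w := by
  induction w with
  | nil => exact le_rfl
  | cons a w ih => rw [sufSum, sufSum]; exact add_le_add (h _) ih

lemma preSum_mono (w : List S) : ∀ {f g : S → ℕ}, (∀ s, f s ≤ g s) → preSum f w ≤ preSum g w := by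
  induction w with
  | nil => intro f g _; exact le_rfl
  | cons a w ih => intro f g h; rw [preSum, preSum]; exact add_le_add (h _) (ih fun s => h _)

lemma sufSum_const (c : ℕ) (w : List S) : sufSum (fun _ => c) w = c * w.length := by
  induction w with
  | nil => rfl
  | cons a w ih => rw [sufSum, ih, List.length_cons]; ring

lemma preSum_const (c : ℕ) (w : List S) : preSum (fun _ => c) w = c * w.length := by
  induction w with
  | nil => rfl
  | cons a w ih => rw [preSum, ih, List.length_cons]; ring

lemma sufSum_le {f : S → ℕ} {c : ℕ} (h : ∀ s, f s ≤ c) (w : List S) :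
    sufSum f w ≤ c * w.length := by
  rw [← sufSum_const]; exact sufSum_mono h w

lemma preSum_le {f : S → ℕ} {c : ℕ} (h : ∀ s, f s ≤ c) (w : List S) :
    preSum f w ≤ c * w.length := by
  rw [← preSum_const]; exact preSum_mono w h

lemma sufSum_zero {f : S → ℕ} (w : List S) (h : ∀ s, f s = 0) : sufSum f w = 0 := by
  have := sufSum_le (f := f) (c := 0) (fun s => (h s).le) w
  omega

lemma sufSum_mul (c : ℕ) (f : S → ℕ) (w : List S) :
    sufSum (fun s => c * f s) w = c * sufSum f w := by
  induction w with
  | nil => rfl
  | cons a w ih => rw [sufSum, sufSum, ih]; ring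

lemma preSum_mul (c : ℕ) (w : List S) : ∀ (f : S → ℕ),
    preSum (fun s => c * f s) w = c * preSum f w := by
  induction w with
  | nil => intro f; rfl
  | cons a w ih => intro f; rw [preSum, preSum, ih]; ring

lemma sufSum_add (f g : S → ℕ) (w : List S) :
    sufSum (fun s => f s + g s) w = sufSum f w + sufSum g w := by
  induction w with
  | nil => rfl
  | cons a w ih => rw [sufSum, sufSum, sufSum, ih]; ring

lemma preSum_add (w : List S) : ∀ (f g : S → ℕ),
    preSum (fun s => f s + g s) w = preSum f w + preSum g w := by
  induction w with
  | nil => intro f g; rfl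
  | cons a w ih => intro f g; rw [preSum, preSum, preSum, ih]; ring

lemma sufSum_finset {ι : Type} (t : Finset ι) (f : ι → S → ℕ) (w : List S) :
    sufSum (fun s => ∑ i ∈ t, f i s) w = ∑ i ∈ t, sufSum (f i) w := by
  classical
  induction t using Finset.induction_on with
  | empty => simp only [Finset.sum_empty]; exact sufSum_zero w fun _ => rfl
  | insert i t hi ih =>
    simp only [Finset.sum_insert hi]
    rw [sufSum_add, ih]

lemma preSum_finset {ι : Type} (t : Finset ι) (f : ι → S → ℕ) (w : List S) :
    preSum (fun s => ∑ i ∈ t, f i s) w = ∑ i ∈ t, preSum (f i) w := by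
  classical
  induction t using Finset.induction_on with
  | empty =>
    simp only [Finset.sum_empty]
    have := preSum_const (S := S) 0 w
    simpa using this
  | insert i t hi ih =>
    simp only [Finset.sum_insert hi]
    rw [preSum_add, ih]

/-- Number of nonempty final parts with product `s`. -/
noncomputable def suf (w : List S) (s : S) : ℕ := sufSum (ind {s}) w

/-- Number of nonempty initial parts with product `s`. -/
noncomputable def pre (w : List S) (s : S) : ℕ := preSum (ind {s}) w

lemma fun_eq_sum [Fintype S] (f : S → ℕ) : f = fun x => ∑ s : S, f s * ind {s} x := by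
  classical
  funext x
  rw [Finset.sum_eq_single x]
  · rw [ind_of_mem (Set.mem_singleton x), mul_one]
  · intro b _ hb
    rw [ind_of_notMem (R := {b}) (x := x) (fun h => hb (Set.mem_singleton_iff.1 h).symm), mul_zero]
  · intro h; exact absurd (Finset.mem_univ x) h

lemma sufSum_eq_sum [Fintype S] (f : S → ℕ) (w : List S) :
    sufSum f w = ∑ s : S, f s * suf w s := by
  conv_lhs => rw [fun_eq_sum f]
  rw [sufSum_finset]
  refine Finset.sum_congr rfl fun s _ => ?_
  rw [sufSum_mul]; rfl

lemma preSum_eq_sum [Fintype S] (f : S → ℕ) (w : List S) :
    preSum f w = ∑ s : S, f s * pre w s := by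
  conv_lhs => rw [fun_eq_sum f]
  rw [preSum_finset]
  refine Finset.sum_congr rfl fun s _ => ?_
  rw [preSum_mul]; rfl

lemma suf_le_length (w : List S) (s : S) : suf w s ≤ w.length := by
  have := sufSum_le (f := ind {s}) (ind_le_one _) w
  rwa [one_mul] at this

lemma pre_le_length (w : List S) (s : S) : pre w s ≤ w.length := by
  have := preSum_le (f := ind {s}) (ind_le_one _) w
  rwa [one_mul] at this

/-- Crossing pairs are at most the product of the lengths. -/
lemma cross_le (g : S → S → ℕ) (hg : ∀ s p, g s p ≤ 1) (u v : List S) :
    sufSum (fun s => preSum (fun p => g s p) v) u ≤ u.length * v.length := by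
  have h : ∀ s, preSum (fun p => g s p) v ≤ v.length := fun s => by
    have := preSum_le (hg s) v
    rwa [one_mul] at this
  have := sufSum_le h u
  rwa [mul_comm] at this

lemma pairs_append_le (R : Set S) (u v : List S) :
    pairs R (u ++ v) ≤ pairs R u + pairs R v + u.length * v.length := by
  rw [pairs_append]
  have := cross_le (fun s p => ind R (s * p)) (fun s p => ind_le_one _ _) u v
  omega

lemma pairs_le (R : Set S) (u : List S) : pairs R u ≤ u.length * u.length := by
  induction u with
  | nil => simp [pairs]
  | cons a u ih =>
    rw [pairs, List.length_cons]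
    have := preSum_le (f := ind R) (ind_le_one _) (a :: u)
    rw [one_mul, List.length_cons] at this
    nlinarith

lemma pairs_mono_left (R : Set S) (u v : List S) : pairs R u ≤ pairs R (u ++ v) := by
  rw [pairs_append]; omega

lemma pairs_mono_right (R : Set S) (u v : List S) : pairs R v ≤ pairs R (u ++ v) := by
  rw [pairs_append]; omega

lemma pairs_mono_mid (R : Set S) (x u y : List S) : pairs R u ≤ pairs R (x ++ u ++ y) :=
  (pairs_mono_right R x u).trans (pairs_mono_left R (x ++ u) y)

/-- The sum over the parts. -/
lemma sum_pairs_le (R : Set S) (us : List (List S)) :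
    (us.map (pairs R)).sum ≤ pairs R us.flatten := by
  induction us with
  | nil => simp [pairs]
  | cons u us ih =>
    rw [List.map_cons, List.sum_cons, List.flatten_cons, pairs_append]
    omega

/-- If the sum is positive, the word is nonempty. -/
lemma suf_pos_of_mem {w : List S} {s : S} : 0 < suf w s ↔ ∃ u v, w = u ++ v ∧ v ≠ [] ∧
    v.prod = s := by
  induction w with
  | nil =>
    constructor
    · intro h; exact absurd h (by simp [suf, sufSum])
    · rintro ⟨u, v, h, hv, _⟩
      rw [eq_comm, List.append_eq_nil_iff] at h
      exact absurd h.2 hv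
  | cons a w ih =>
    unfold suf at ih ⊢
    rw [sufSum]
    constructor
    · intro h
      by_cases h1 : a * w.prod = s
      · exact ⟨[], a :: w, rfl, by simp, by rw [List.prod_cons]; exact h1⟩
      · rw [ind_of_notMem (by simpa using h1), zero_add] at h
        obtain ⟨u, v, rfl, h2, h3⟩ := ih.1 h
        exact ⟨a :: u, v, rfl, h2, h3⟩
    · rintro ⟨u, v, h, hv, hs⟩
      cases u with
      | nil =>
        rw [List.nil_append] at h
        subst h
        rw [List.prod_cons] at hs
        rw [ind_of_mem (by simpa using hs)]
        omega
      | cons b u =>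
        rw [List.cons_append, List.cons.injEq] at h
        have := ih.2 ⟨u, v, h.2, hv, hs⟩
        omega

lemma pre_pos_of_mem {w : List S} {s : S} : 0 < pre w s ↔ ∃ u v, w = u ++ v ∧ u ≠ [] ∧
    u.prod = s := by
  have key : ∀ (w : List S) (b s : S), 0 < preSum (fun p => ind {s} (b * p)) w ↔
      ∃ u v, w = u ++ v ∧ u ≠ [] ∧ b * u.prod = s := by
    intro w
    induction w with
    | nil =>
      intro b s
      constructor
      · intro h; exact absurd h (by simp [preSum])
      · rintro ⟨u, v, h, hv, _⟩
        rw [eq_comm, List.append_eq_nil_iff] at h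
        exact absurd h.1 hv
    | cons a w ih =>
      intro b s
      rw [preSum]
      simp only [← mul_assoc]
      constructor
      · intro h
        by_cases h1 : b * a = s
        · exact ⟨[a], w, rfl, by simp, by rw [List.prod_singleton]; exact h1⟩
        · rw [ind_of_notMem (by simpa using h1), zero_add] at h
          obtain ⟨u, v, rfl, h2, h3⟩ := (ih (b * a) s).1 h
          exact ⟨a :: u, v, rfl, by simp, by rw [List.prod_cons, ← mul_assoc]; exact h3⟩
      · rintro ⟨u, v, h, hu, hs⟩
        cases u with
        | nil => exact absurd rfl hu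
        | cons c u =>
          rw [List.cons_append, List.cons.injEq] at h
          obtain ⟨rfl, rfl⟩ := h
          by_cases hu' : u = []
          · subst hu'
            rw [List.prod_singleton] at hs
            rw [ind_of_mem (by simpa using hs)]
            omega
          · have := (ih (b * a) s).2 ⟨u, v, rfl, hu', by
              rw [List.prod_cons, ← mul_assoc] at hs; exact hs⟩
            omega
  have h := key w 1 s
  simp only [one_mul] at h
  exact h

/-! ### Powers -/

/-- The power of a word. -/
def wpow (z : List S) (m : ℕ) : List S := (List.replicate m z).flatten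

lemma wpow_zero (z : List S) : wpow z 0 = [] := rfl

lemma wpow_succ (z : List S) (m : ℕ) : wpow z (m + 1) = z ++ wpow z m := by
  unfold wpow
  rw [List.replicate_succ, List.flatten_cons]

lemma wpow_length (z : List S) (m : ℕ) : (wpow z m).length = m * z.length := by
  induction m with
  | zero => simp [wpow_zero]
  | succ m ih => rw [wpow_succ, List.length_append, ih]; ring

lemma wpow_prod {z : List S} (hz : z.prod * z.prod = z.prod) (m : ℕ) :
    (wpow z (m + 1)).prod = z.prod := by
  induction m with
  | zero => rw [wpow_succ, wpow_zero, List.append_nil]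
  | succ m ih => rw [wpow_succ, List.prod_append, ih, hz]

lemma mem_wpow {z : List S} {m : ℕ} {x : S} (h : x ∈ wpow z m) : x ∈ z := by
  induction m with
  | zero => simp [wpow_zero] at h
  | succ m ih =>
    rw [wpow_succ] at h
    rcases List.mem_append.1 h with h | h
    · exact h
    · exact ih h

lemma sufSum_wpow {z : List S} (hz : z.prod * z.prod = z.prod) (f : S → ℕ) (m : ℕ) :
    sufSum f (wpow z (m + 1)) = m * sufSum (fun s => f (s * z.prod)) z + sufSum f z := by
  induction m with
  | zero => rw [wpow_succ, wpow_zero, List.append_nil, zero_mul, zero_add]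
  | succ m ih =>
    rw [wpow_succ, sufSum_append, ih, wpow_prod hz]
    ring

lemma preSum_wpow {z : List S} (hz : z.prod * z.prod = z.prod) (m : ℕ) : ∀ f : S → ℕ,
    preSum f (wpow z (m + 1)) = preSum f z + m * preSum (fun p => f (z.prod * p)) z := by
  induction m with
  | zero => intro f; rw [wpow_succ, wpow_zero, List.append_nil, zero_mul, add_zero]
  | succ m ih =>
    intro f
    rw [wpow_succ, preSum_append, ih]
    simp only [← mul_assoc, hz]
    ring

end H61.SA
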