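import Pool.Agent.helper61.SPairs

set_option autoImplicit false
set_option linter.unusedSectionVars false

/-!
# Profiles of families of words
-/

namespace H61.SA

variable {S : Type} [Monoid S] [Fintype S]

/-- A profile: product, exponent of the length, exponents of the rarity of the types of final and
initial parts. -/
structure Prof (S : Type) where
  e : S
  N : ℕ
  A : Set S
  α : S → ℕ
  B : Set S
  β : S → ℕ

/-- The family `W` has the profile `P`, with constant `C`. -/
def HasProf (Λ R : Set S) (P : Prof S) (C : ℕ) (W : ℕ → List S) : Prop :=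
  ∀ l, 1 ≤ l → (∀ x ∈ W l, x ∈ Λ) ∧ (W l).prod = P.e ∧ l ^ P.N ≤ (W l).length ∧
    (W l).length ≤ C * l ^ P.N ∧ pairs R (W l) ≤ C * l ^ (P.N + 1) ∧
    (∀ s, s ∉ P.A → suf (W l) s = 0) ∧ (∀ s ∈ P.A, suf (W l) s * l ^ P.α s ≤ C * l ^ P.N) ∧
    (∀ p, p ∉ P.B → pre (W l) p = 0) ∧ (∀ p ∈ P.B, pre (W l) p * l ^ P.β p ≤ C * l ^ P.N)

/-- The profile is realised by words over `Λ`. -/
def Realised (Λ R : Set S) (P : Prof S) : Prop :=
  (∀ s ∈ P.A, P.α s ≤ P.N) ∧ (∀ p ∈ P.B, P.β p ≤ P.N) ∧
  ∃ (C : ℕ) (W : ℕ → List S), HasProf Λ R P C W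

/-- The word `u` is dominated by the profile `P` for the parameter `l`. -/
def Dom (C : ℕ) (P : Prof S) (l : ℕ) (u : List S) : Prop :=
  u.prod = P.e ∧ u.length ≤ C * l ^ P.N ∧
    (∀ s ∈ P.A, u.length ≤ C * l ^ P.α s * suf u s) ∧
    (∀ p ∈ P.B, u.length ≤ C * l ^ P.β p * pre u p)

lemma sum_bound {A : Set S} {α g f : S → ℕ} {l K a : ℕ} (hl : 1 ≤ l) (h0 : ∀ s, s ∉ A → g s = 0)
    (h1 : ∀ s ∈ A, g s * l ^ α s ≤ K) (hf : ∀ s, f s ≤ 1) (ha : ∀ s ∈ A, 0 < f s → a ≤ α s) :
    (∑ s : S, f s * g s) * l ^ a ≤ Fintype.card S * K := by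
  rw [Finset.sum_mul]
  calc ∑ s : S, f s * g s * l ^ a ≤ ∑ s : S, K := by
        refine Finset.sum_le_sum fun s _ => ?_
        by_cases hs : s ∈ A
        · rcases Nat.eq_zero_or_pos (f s) with h | h
          · rw [h]; simp
          · have h2 := ha s hs h
            calc f s * g s * l ^ a ≤ 1 * g s * l ^ α s :=
                  Nat.mul_le_mul (Nat.mul_le_mul_right _ (hf s)) (Nat.pow_le_pow_right hl h2)
              _ ≤ K := by rw [one_mul]; exact h1 s hs
        · rw [h0 s hs]; simp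
    _ = Fintype.card S * K := by simp

/-! ### Sandwiches -/

/-- The profile of `x W y`. -/
noncomputable def sand (x : List S) (P : Prof S) (y : List S) : Prof S where
  e := x.prod * P.e * y.prod
  N := P.N
  A := {s | 0 < suf y s ∨ (∃ s' ∈ P.A, s' * y.prod = s) ∨
    ∃ s', 0 < suf x s' ∧ s' * (P.e * y.prod) = s}
  α := fun s => sInf {n | n = P.N ∨ ∃ s' ∈ P.A, s' * y.prod = s ∧ n = P.α s'}
  B := {p | 0 < pre x p ∨ (∃ p' ∈ P.B, x.prod * p' = p) ∨
    ∃ p', 0 < pre y p' ∧ (x.prod * P.e) * p' = p}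
  β := fun p => sInf {n | n = P.N ∨ ∃ p' ∈ P.B, x.prod * p' = p ∧ n = P.β p'}

lemma sand_α_le (x : List S) (P : Prof S) (y : List S) (s : S) : (sand x P y).α s ≤ P.N :=
  Nat.sInf_le (Or.inl rfl)

lemma sand_β_le (x : List S) (P : Prof S) (y : List S) (s : S) : (sand x P y).β s ≤ P.N :=
  Nat.sInf_le (Or.inl rfl)

lemma sand_α_le' (x : List S) (P : Prof S) (y : List S) {s s' : S} (h1 : s' ∈ P.A)
    (h2 : s' * y.prod = s) : (sand x P y).α s ≤ P.α s' :=
  Nat.sInf_le (Or.inr ⟨s', h1, h2, rfl⟩)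

lemma sand_β_le' (x : List S) (P : Prof S) (y : List S) {s s' : S} (h1 : s' ∈ P.B)
    (h2 : x.prod * s' = s) : (sand x P y).β s ≤ P.β s' :=
  Nat.sInf_le (Or.inr ⟨s', h1, h2, rfl⟩)

lemma sand_α_eq (x : List S) (P : Prof S) (y : List S) (s : S) : (sand x P y).α s = P.N ∨
    ∃ s' ∈ P.A, s' * y.prod = s ∧ (sand x P y).α s = P.α s' :=
  Nat.sInf_mem (s := {n | n = P.N ∨ ∃ s' ∈ P.A, s' * y.prod = s ∧ n = P.α s'}) ⟨P.N, Or.inl rfl⟩

lemma sand_β_eq (x : List S) (P : Prof S) (y : List S) (s : S) : (sand x P y).β s = P.N ∨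
    ∃ s' ∈ P.B, x.prod * s' = s ∧ (sand x P y).β s = P.β s' :=
  Nat.sInf_mem (s := {n | n = P.N ∨ ∃ s' ∈ P.B, x.prod * s' = s ∧ n = P.β s'}) ⟨P.N, Or.inl rfl⟩

lemma suf_three (x w y : List S) (s : S) : suf (x ++ w ++ y) s =
    sufSum (fun t => ind {s} (t * (w.prod * y.prod))) x + sufSum (fun t => ind {s} (t * y.prod)) w +
      suf y s := by
  unfold suf
  rw [sufSum_append, sufSum_append]
  simp only [mul_assoc]

lemma pre_three (x w y : List S) (s : S) : pre (x ++ w ++ y) s =
    pre x s + preSum (fun t => ind {s} (x.prod * t)) w +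
      preSum (fun t => ind {s} (x.prod * w.prod * t)) y := by
  unfold pre
  rw [preSum_append, preSum_append, List.prod_append]

lemma exists_of_sufSum_pos {f : S → ℕ} {w : List S} (h : 0 < sufSum f w) :
    ∃ s, 0 < f s ∧ 0 < suf w s := by
  by_contra hcon
  push Not at hcon
  rw [sufSum_eq_sum] at h
  have : ∑ s : S, f s * suf w s = 0 := by
    refine Finset.sum_eq_zero fun s _ => ?_
    rcases Nat.eq_zero_or_pos (f s) with h1 | h1
    · rw [h1, zero_mul]
    · have := hcon s h1
      rw [Nat.le_zero.1 this, mul_zero]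
  omega

lemma exists_of_preSum_pos {f : S → ℕ} {w : List S} (h : 0 < preSum f w) :
    ∃ s, 0 < f s ∧ 0 < pre w s := by
  by_contra hcon
  push Not at hcon
  rw [preSum_eq_sum] at h
  have : ∑ s : S, f s * pre w s = 0 := by
    refine Finset.sum_eq_zero fun s _ => ?_
    rcases Nat.eq_zero_or_pos (f s) with h1 | h1
    · rw [h1, zero_mul]
    · have := hcon s h1
      rw [Nat.le_zero.1 this, mul_zero]
  omega

lemma ind_pos {R : Set S} {x : S} (h : 0 < ind R x) : x ∈ R := by
  by_contra hcon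
  rw [ind_of_notMem hcon] at h
  omega

lemma sufSum_pos {f : S → ℕ} {w : List S} {s : S} (h1 : 0 < f s) (h2 : 0 < suf w s) :
    0 < sufSum f w := by
  rw [sufSum_eq_sum]
  exact lt_of_lt_of_le (Nat.mul_pos h1 h2)
    (Finset.single_le_sum (f := fun s => f s * suf w s) (fun _ _ => Nat.zero_le _)
      (Finset.mem_univ s))

lemma preSum_pos {f : S → ℕ} {w : List S} {s : S} (h1 : 0 < f s) (h2 : 0 < pre w s) :
    0 < preSum f w := by
  rw [preSum_eq_sum]
  exact lt_of_lt_of_le (Nat.mul_pos h1 h2)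
    (Finset.single_le_sum (f := fun s => f s * pre w s) (fun _ _ => Nat.zero_le _)
      (Finset.mem_univ s))

lemma suf_le_sufSum {f : S → ℕ} {w : List S} {s : S} (h1 : 0 < f s) :
    suf w s ≤ sufSum f w := by
  rw [sufSum_eq_sum]
  refine le_trans ?_ (Finset.single_le_sum (f := fun s => f s * suf w s) (fun _ _ => Nat.zero_le _)
      (Finset.mem_univ s))
  exact Nat.le_mul_of_pos_left _ h1

lemma pre_le_preSum {f : S → ℕ} {w : List S} {s : S} (h1 : 0 < f s) :
    pre w s ≤ preSum f w := by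
  rw [preSum_eq_sum]
  refine le_trans ?_ (Finset.single_le_sum (f := fun s => f s * pre w s) (fun _ _ => Nat.zero_le _)
      (Finset.mem_univ s))
  exact Nat.le_mul_of_pos_left _ h1

lemma hasProf_sand {Λ R : Set S} {P : Prof S} {C : ℕ} {W : ℕ → List S} (hW : HasProf Λ R P C W)
    {x y : List S} (hx : ∀ a ∈ x, a ∈ Λ) (hy : ∀ a ∈ y, a ∈ Λ) :
    ∃ C', HasProf Λ R (sand x P y) C' (fun l => x ++ W l ++ y) := by
  set X := x.length with hX
  set Y := y.length with hY
  refine ⟨X * X + Y * Y + X * Y + C + X * C + C * Y + X + Y + Fintype.card S * C, ?_⟩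
  intro l hl
  obtain ⟨w1, w2, w3, w4, w5, w6, w7, w8, w9⟩ := hW l hl
  have hN : 1 ≤ l ^ P.N := Nat.one_le_pow _ _ hl
  have hN1 : l ^ P.N ≤ l ^ (P.N + 1) := Nat.pow_le_pow_right hl (by omega)
  refine ⟨?_, ?_, ?_, ?_, ?_, ?_, ?_, ?_, ?_⟩
  · intro a ha
    rcases List.mem_append.1 ha with ha | ha
    · rcases List.mem_append.1 ha with ha | ha
      · exact hx a ha
      · exact w1 a ha
    · exact hy a ha
  · rw [List.prod_append, List.prod_append, w2]; rfl
  · simp only [List.length_append]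
    change l ^ P.N ≤ _
    omega
  · simp only [List.length_append]
    change X + (W l).length + Y ≤ _ * l ^ P.N
    nlinarith [Nat.zero_le (X * X + Y * Y + X * Y + X * C + C * Y + Fintype.card S * C)]
  · change pairs R (x ++ W l ++ y) ≤ _ * l ^ (P.N + 1)
    have h1 := pairs_append_le R (x ++ W l) y
    have h2 := pairs_append_le R x (W l)
    have h3 := pairs_le R x
    have h4 := pairs_le R y
    rw [List.length_append] at h1
    rw [← hX, ← hY] at h1
    rw [← hX] at h2 h3
    rw [← hY] at h4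
    have h5 : X * (W l).length ≤ X * (C * l ^ (P.N + 1)) :=
      Nat.mul_le_mul_left _ (w4.trans (Nat.mul_le_mul_left _ hN1))
    have h6 : (W l).length * Y ≤ (C * l ^ (P.N + 1)) * Y :=
      Nat.mul_le_mul_right _ (w4.trans (Nat.mul_le_mul_left _ hN1))
    have hN2 : 1 ≤ l ^ (P.N + 1) := hN.trans hN1
    generalize l ^ (P.N + 1) = L at *
    have h7 : X * X ≤ X * X * L := Nat.le_mul_of_pos_right _ hN2
    have h8 : Y * Y ≤ Y * Y * L := Nat.le_mul_of_pos_right _ hN2
    have h9 : X * Y ≤ X * Y * L := Nat.le_mul_of_pos_right _ hN2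
    nlinarith [Nat.zero_le ((X + Y + Fintype.card S * C) * L)]
  · intro s hs
    change s ∉ {s | 0 < suf y s ∨ (∃ s' ∈ P.A, s' * y.prod = s) ∨
      ∃ s', 0 < suf x s' ∧ s' * (P.e * y.prod) = s} at hs
    simp only [Set.mem_ofPred_eq, not_or] at hs
    obtain ⟨h1, h2, h3⟩ := hs
    rw [suf_three]
    have e1 : suf y s = 0 := by omega
    have e2 : sufSum (fun t => ind {s} (t * y.prod)) (W l) = 0 := by
      by_contra hcon
      obtain ⟨t, ht1, ht2⟩ := exists_of_sufSum_pos (Nat.pos_of_ne_zero hcon)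
      apply h2
      refine ⟨t, ?_, ind_pos ht1⟩
      by_contra hA
      rw [w6 t hA] at ht2
      omega
    have e3 : sufSum (fun t => ind {s} (t * ((W l).prod * y.prod))) x = 0 := by
      by_contra hcon
      obtain ⟨t, ht1, ht2⟩ := exists_of_sufSum_pos (Nat.pos_of_ne_zero hcon)
      apply h3
      refine ⟨t, ht2, ?_⟩
      rw [← w2]
      exact ind_pos ht1
    rw [e1, e2, e3]
  · intro s _
    rw [suf_three, add_mul, add_mul]
    have hle : l ^ (sand x P y).α s ≤ l ^ P.N := Nat.pow_le_pow_right hl (sand_α_le x P y s)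
    have e1 : suf y s * l ^ (sand x P y).α s ≤ Y * l ^ P.N :=
      Nat.mul_le_mul (suf_le_length y s) hle
    have e2 : sufSum (fun t => ind {s} (t * y.prod)) (W l) * l ^ (sand x P y).α s ≤
        Fintype.card S * (C * l ^ P.N) := by
      rw [sufSum_eq_sum]
      refine sum_bound hl w6 w7 (fun t => ind_le_one _ _) ?_
      intro t ht1 ht2
      exact sand_α_le' x P y ht1 (ind_pos ht2)
    have e3 : sufSum (fun t => ind {s} (t * ((W l).prod * y.prod))) x * l ^ (sand x P y).α s ≤
        X * l ^ P.N := by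
      refine Nat.mul_le_mul ?_ hle
      have := sufSum_le (f := fun t => ind {s} (t * ((W l).prod * y.prod)))
        (fun t => ind_le_one _ _) x
      rwa [one_mul] at this
    change _ ≤ _ * l ^ P.N
    generalize l ^ P.N = L at *
    nlinarith [Nat.zero_le ((X * X + Y * Y + X * Y + C + X * C + C * Y) * L)]
  · intro s hs
    change s ∉ {p | 0 < pre x p ∨ (∃ p' ∈ P.B, x.prod * p' = p) ∨
      ∃ p', 0 < pre y p' ∧ (x.prod * P.e) * p' = p} at hs
    simp only [Set.mem_ofPred_eq, not_or] at hs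
    obtain ⟨h1, h2, h3⟩ := hs
    rw [pre_three]
    have e1 : pre x s = 0 := by omega
    have e2 : preSum (fun t => ind {s} (x.prod * t)) (W l) = 0 := by
      by_contra hcon
      obtain ⟨t, ht1, ht2⟩ := exists_of_preSum_pos (Nat.pos_of_ne_zero hcon)
      apply h2
      refine ⟨t, ?_, ind_pos ht1⟩
      by_contra hA
      rw [w8 t hA] at ht2
      omega
    have e3 : preSum (fun t => ind {s} (x.prod * (W l).prod * t)) y = 0 := by
      by_contra hcon
      obtain ⟨t, ht1, ht2⟩ := exists_of_preSum_pos (Nat.pos_of_ne_zero hcon)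
      apply h3
      refine ⟨t, ht2, ?_⟩
      rw [← w2]
      exact ind_pos ht1
    rw [e1, e2, e3]
  · intro s _
    rw [pre_three, add_mul, add_mul]
    have hle : l ^ (sand x P y).β s ≤ l ^ P.N := Nat.pow_le_pow_right hl (sand_β_le x P y s)
    have e1 : pre x s * l ^ (sand x P y).β s ≤ X * l ^ P.N :=
      Nat.mul_le_mul (pre_le_length x s) hle
    have e2 : preSum (fun t => ind {s} (x.prod * t)) (W l) * l ^ (sand x P y).β s ≤
        Fintype.card S * (C * l ^ P.N) := by
      rw [preSum_eq_sum]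
      refine sum_bound hl w8 w9 (fun t => ind_le_one _ _) ?_
      intro t ht1 ht2
      exact sand_β_le' x P y ht1 (ind_pos ht2)
    have e3 : preSum (fun t => ind {s} (x.prod * (W l).prod * t)) y * l ^ (sand x P y).β s ≤
        Y * l ^ P.N := by
      refine Nat.mul_le_mul ?_ hle
      have := preSum_le (f := fun t => ind {s} (x.prod * (W l).prod * t))
        (fun t => ind_le_one _ _) y
      rwa [one_mul] at this
    change _ ≤ _ * l ^ P.N
    generalize l ^ P.N = L at *
    nlinarith [Nat.zero_le ((X * X + Y * Y + X * Y + C + X * C + C * Y) * L)]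

lemma realised_sand {Λ R : Set S} {P : Prof S} (hP : Realised Λ R P) {x y : List S}
    (hx : ∀ a ∈ x, a ∈ Λ) (hy : ∀ a ∈ y, a ∈ Λ) : Realised Λ R (sand x P y) := by
  obtain ⟨hα, hβ, C, W, hW⟩ := hP
  obtain ⟨C', h⟩ := hasProf_sand hW hx hy
  exact ⟨fun s _ => sand_α_le x P y s, fun s _ => sand_β_le x P y s, C', _, h⟩

lemma dom_sand {P : Prof S} {C K l : ℕ} {x x' mid y y' : List S}
    (hx : x.prod = x'.prod) (hx1 : ∀ s, 0 < suf x s → 0 < suf x' s)
    (hx2 : ∀ s, 0 < pre x s → 0 < pre x' s) (hy : y.prod = y'.prod)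
    (hy1 : ∀ s, 0 < suf y s → 0 < suf y' s) (hy2 : ∀ s, 0 < pre y s → 0 < pre y' s)
    (hD : Dom C P l mid) (hne : mid ≠ []) (hK : (x' ++ mid ++ y').length ≤ K * mid.length) :
    Dom (K * C) (sand x P y) l (x' ++ mid ++ y') := by
  obtain ⟨d1, d2, d3, d4⟩ := hD
  have hpos : 0 < mid.length := List.length_pos_iff.2 hne
  have hlen : (x' ++ mid ++ y').length ≤ K * C * l ^ P.N := by
    refine hK.trans ?_
    rw [mul_assoc]
    exact Nat.mul_le_mul_left _ d2
  refine ⟨?_, hlen, ?_, ?_⟩
  · rw [List.prod_append, List.prod_append, ← hx, ← hy, d1]; rfl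
  · intro s hs
    have hsufmid : ∀ s', s' * y.prod = s → suf mid s' ≤ suf (x' ++ mid ++ y') s := by
      intro s' hs'
      rw [suf_three]
      have := suf_le_sufSum (f := fun t => ind {s} (t * y'.prod)) (w := mid) (s := s') (by
        rw [ind_of_mem (by rw [← hy]; exact hs')]; omega)
      omega
    have hsuf : 0 < suf (x' ++ mid ++ y') s := by
      rcases hs with h | ⟨s', h1, h2⟩ | ⟨s', h1, h2⟩
      · have := hy1 s h
        rw [suf_three]; omega
      · refine lt_of_lt_of_le ?_ (hsufmid s' h2)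
        have := d3 s' h1
        by_contra hcon
        rw [Nat.le_zero.1 (not_lt.1 hcon), mul_zero] at this
        omega
      · have h3 := hx1 s' h1
        rw [suf_three]
        have := sufSum_pos (f := fun t => ind {s} (t * (mid.prod * y'.prod))) (w := x') (s := s')
          (by rw [ind_of_mem (by rw [d1, ← hy]; exact h2)]; omega) h3
        omega
    rcases sand_α_eq x P y s with h | ⟨s', h1, h2, h3⟩
    · rw [h]
      exact hlen.trans (Nat.le_mul_of_pos_right _ hsuf)
    · rw [h3]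
      calc (x' ++ mid ++ y').length ≤ K * mid.length := hK
        _ ≤ K * (C * l ^ P.α s' * suf mid s') := Nat.mul_le_mul_left _ (d3 s' h1)
        _ = K * C * l ^ P.α s' * suf mid s' := by ring
        _ ≤ K * C * l ^ P.α s' * suf (x' ++ mid ++ y') s :=
            Nat.mul_le_mul_left _ (hsufmid s' h2)
  · intro s hs
    have hpremid : ∀ s', x.prod * s' = s → pre mid s' ≤ pre (x' ++ mid ++ y') s := by
      intro s' hs'
      rw [pre_three]
      have := pre_le_preSum (f := fun t => ind {s} (x'.prod * t)) (w := mid) (s := s') (by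
        rw [ind_of_mem (by rw [← hx]; exact hs')]; omega)
      omega
    have hpre : 0 < pre (x' ++ mid ++ y') s := by
      rcases hs with h | ⟨s', h1, h2⟩ | ⟨s', h1, h2⟩
      · have := hx2 s h
        rw [pre_three]; omega
      · refine lt_of_lt_of_le ?_ (hpremid s' h2)
        have := d4 s' h1
        by_contra hcon
        rw [Nat.le_zero.1 (not_lt.1 hcon), mul_zero] at this
        omega
      · have h3 := hy2 s' h1
        rw [pre_three]
        have := preSum_pos (f := fun t => ind {s} (x'.prod * mid.prod * t)) (w := y') (s := s')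
          (by rw [ind_of_mem (by rw [d1, ← hx]; exact h2)]; omega) h3
        omega
    rcases sand_β_eq x P y s with h | ⟨s', h1, h2, h3⟩
    · rw [h]
      exact hlen.trans (Nat.le_mul_of_pos_right _ hpre)
    · rw [h3]
      calc (x' ++ mid ++ y').length ≤ K * mid.length := hK
        _ ≤ K * (C * l ^ P.β s' * pre mid s') := Nat.mul_le_mul_left _ (d4 s' h1)
        _ = K * C * l ^ P.β s' * pre mid s' := by ring
        _ ≤ K * C * l ^ P.β s' * pre (x' ++ mid ++ y') s :=
            Nat.mul_le_mul_left _ (hpremid s' h2)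

end H61.SA
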