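import Pool.Agent.helper61.FinClosure
import Pool.Agent.helper61.BqoSeq

set_option autoImplicit false

/-!
# Every well-quasi-order is a countable union of better-quasi-orders

The proof: iterate the operation `SI` sending a well-quasi-order to the well-quasi-order of its
`σ`-directed lower sets, and climb along closed sets of elements.
-/

namespace H61.Wqo

open Cardinal H61.Clo

/-- A bundled well-quasi-order. -/
structure WQ : Type 1 where
  α : Type
  le : α → α → Prop
  refl : ∀ x, le x x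
  trans : ∀ x y z, le x y → le y z → le x z
  wqo : ∀ g : ℕ → α, ∃ m n, m < n ∧ le (g m) (g n)

/-- `D` is a `σ`-directed lower set. -/
def SDir (W : WQ) (D : Set W.α) : Prop :=
  (∀ x ∈ D, ∀ y, W.le y x → y ∈ D) ∧
    ∀ A : Set W.α, A.Countable → A ⊆ D → ∃ z ∈ D, ∀ a ∈ A, W.le a z

/-- The well-quasi-order of `σ`-directed lower sets. -/
def SI (W : WQ) : WQ where
  α := {D : Set W.α // SDir W D}
  le D E := D.1 ⊆ E.1
  refl D := subset_rfl
  trans D E F h1 h2 := h1.trans h2
  wqo g := by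
    by_contra hbad
    push Not at hbad
    have h1 : ∀ m n, m < n → ∃ x ∈ (g m).1, x ∉ (g n).1 := fun m n hmn =>
      Set.not_subset.mp (hbad m n hmn)
    have : Nonempty W.α := ⟨(h1 0 1 Nat.zero_lt_one).choose⟩
    choose! x hx hx' using h1
    have h2 : ∀ m, ∃ z ∈ (g m).1, ∀ n, m < n → W.le (x m n) z := by
      intro m
      obtain ⟨z, hz, hz'⟩ := (g m).2.2 (x m '' {n | m < n}) ((Set.to_countable _).image _)
        (by rintro _ ⟨n, hn, rfl⟩; exact hx m n hn)
      exact ⟨z, hz, fun n hn => hz' _ ⟨n, hn, rfl⟩⟩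
    choose z hz hz' using h2
    obtain ⟨m, n, hmn, hle⟩ := W.wqo z
    have h3 : z m ∈ (g n).1 := (g n).2.1 _ (hz n) _ hle
    exact hx' m n hmn ((g n).2.1 _ h3 _ (hz' m n hmn))

/-- Levels of the hierarchy. -/
def Lv (W : WQ) : ℕ → WQ
  | 0 => W
  | i + 1 => SI (Lv W i)

/-- The disjoint union of all levels. -/
abbrev V (W : WQ) : Type := Σ i, (Lv W i).α

/-- The lower set avoiding `F`. -/
def avoid (W : WQ) (F : Set W.α) : Set W.α := {y | ∀ f ∈ F, ¬ W.le f y}

lemma avoid_lower (W : WQ) (F : Set W.α) : ∀ x ∈ avoid W F, ∀ y, W.le y x → y ∈ avoid W F :=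
  fun _ hx _ hy f hf h => hx f hf (W.trans _ _ _ h hy)

lemma exists_bad (W : WQ) (F : Set W.α) (h : ¬ SDir W (avoid W F)) :
    ∃ A : Set W.α, A.Countable ∧ A ⊆ avoid W F ∧ ¬ ∃ z ∈ avoid W F, ∀ a ∈ A, W.le a z := by
  by_contra hcon
  push Not at hcon
  refine h ⟨avoid_lower W F, fun A h1 h2 => ?_⟩
  exact hcon A h1 h2

/-- A countable unbounded subset of `avoid W F` if there is one. -/
noncomputable def badSet (W : WQ) (F : Set W.α) (h : ¬ SDir W (avoid W F)) : Set W.α :=
  (exists_bad W F h).choose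

open Classical in
/-- The closure operations on a fixed level. -/
noncomputable def opi (W : WQ) (i : ℕ) (F : Set (Lv W i).α) : Set (V W) :=
  if h : SDir (Lv W i) (avoid (Lv W i) F) then {⟨i + 1, ⟨avoid (Lv W i) F, h⟩⟩}
  else (fun a => (⟨i, a⟩ : V W)) '' badSet (Lv W i) F h

lemma opi_countable (W : WQ) (i : ℕ) (F : Set (Lv W i).α) : (opi W i F).Countable := by
  unfold opi
  split_ifs with h
  · exact Set.countable_singleton _
  · exact (exists_bad _ F h).choose_spec.1.image _

/-- The closure operations. -/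
noncomputable def op (W : WQ) (F : Finset (V W)) : Set (V W) :=
  ⋃ i, opi W i {x | (⟨i, x⟩ : V W) ∈ F}

lemma op_countable (W : WQ) (F : Finset (V W)) : (op W F).Countable :=
  Set.countable_iUnion fun i => opi_countable W i _

/-- Finite bases of subsets of a well-quasi-order. -/
lemma exists_basis (W : WQ) (U : Set W.α) :
    ∃ F : Finset W.α, (↑F : Set W.α) ⊆ U ∧ ∀ y ∈ U, ∃ f ∈ F, W.le f y := by
  classical
  by_contra hcon
  push Not at hcon
  have h1 : ∀ F : Finset W.α, (↑F : Set W.α) ⊆ U → ∃ y ∈ U, ∀ f ∈ F, ¬ W.le f y := hcon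
  have : Nonempty W.α := ⟨(h1 ∅ (by simp)).choose⟩
  choose! nx hnx hnx' using h1
  let st : ℕ → {F : Finset W.α // (↑F : Set W.α) ⊆ U} := fun n =>
    Nat.rec ⟨∅, by simp⟩ (fun _ F => ⟨insert (nx F.1) F.1, by
      intro y hy
      rcases Finset.mem_insert.mp (Finset.mem_coe.mp hy) with rfl | hy
      · exact hnx _ F.2
      · exact F.2 hy⟩) n
  have hst : ∀ n, (st (n + 1)).1 = insert (nx (st n).1) (st n).1 := fun n => rfl
  have hmono : Monotone fun n => (st n).1 := by
    refine monotone_nat_of_le_succ fun n => ?_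
    rw [hst]; exact Finset.subset_insert _ _
  obtain ⟨m, n, hmn, hle⟩ := W.wqo fun n => nx (st n).1
  have h2 : nx (st m).1 ∈ (st n).1 := by
    have : (st (m + 1)).1 ⊆ (st n).1 := hmono hmn
    apply this
    rw [hst]; exact Finset.mem_insert_self _ _
  exact hnx' _ (st n).2 _ h2 hle

/-- Types over closed sets are definable. -/
lemma exists_type (W : WQ) (N : Set (V W)) (hN : Closed (op W) N) (i : ℕ) (x : (Lv W i).α) :
    ∃ D : (Lv W (i + 1)).α, (⟨i + 1, D⟩ : V W) ∈ N ∧ x ∈ (show {D : Set (Lv W i).α //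
      SDir (Lv W i) D} from D).1 ∧ ∀ y : (Lv W i).α, (⟨i, y⟩ : V W) ∈ N →
        y ∈ (show {D : Set (Lv W i).α // SDir (Lv W i) D} from D).1 → (Lv W i).le y x := by
  classical
  obtain ⟨F, hF, hF'⟩ := exists_basis (Lv W i) {y | (⟨i, y⟩ : V W) ∈ N ∧ ¬ (Lv W i).le y x}
  let G : Finset (V W) := F.image (fun a => ⟨i, a⟩)
  have hG : {y | (⟨i, y⟩ : V W) ∈ G} = (↑F : Set (Lv W i).α) := by
    ext y
    constructor
    · intro hy
      obtain ⟨a, ha, hay⟩ := Finset.mem_image.mp hy
      have : a = y := by simpa using hay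
      exact this ▸ ha
    · exact fun hy => Finset.mem_image.mpr ⟨y, hy, rfl⟩
  have hGN : (↑G : Set (V W)) ⊆ N := by
    intro z hz
    obtain ⟨a, ha, rfl⟩ := Finset.mem_image.mp (Finset.mem_coe.mp hz)
    exact (hF (Finset.mem_coe.mpr ha)).1
  have hop : opi W i (↑F : Set (Lv W i).α) ⊆ N := by
    refine Set.Subset.trans ?_ (hN G hGN)
    rw [← hG]
    exact Set.subset_iUnion (fun i => opi W i {x | (⟨i, x⟩ : V W) ∈ G}) i
  have hx : x ∈ avoid (Lv W i) (↑F : Set (Lv W i).α) := fun f hf h => (hF hf).2 h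
  have hy : ∀ y : (Lv W i).α, (⟨i, y⟩ : V W) ∈ N → y ∈ avoid (Lv W i) (↑F : Set (Lv W i).α) →
      (Lv W i).le y x := by
    intro y hy hya
    by_contra hyx
    obtain ⟨f, hf, hfy⟩ := hF' y ⟨hy, hyx⟩
    exact hya f hf hfy
  by_cases hS : SDir (Lv W i) (avoid (Lv W i) (↑F : Set (Lv W i).α))
  · refine ⟨⟨_, hS⟩, ?_, hx, hy⟩
    apply hop
    unfold opi
    rw [dif_pos hS]
    rfl
  · exfalso
    obtain ⟨h1, h2, h3⟩ := (exists_bad _ _ hS).choose_spec
    refine h3 ⟨x, hx, fun a ha => hy a ?_ (h2 ha)⟩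
    apply hop
    unfold opi
    rw [dif_neg hS]
    exact ⟨a, ha, rfl⟩

/-- A good colouring of a set of elements. -/
def Good (W : WQ) (N : Set (V W)) (col : V W → ℕ) (Φ : V W → List Ordinal.{0}) : Prop :=
  (∀ x ∈ N, ∀ y ∈ N, col x = col y → (Φ x).length = (Φ y).length) ∧
    ∀ i, ∀ x y : (Lv W i).α, (⟨i, x⟩ : V W) ∈ N → (⟨i, y⟩ : V W) ∈ N →
      col ⟨i, x⟩ = col ⟨i, y⟩ → List.Forall₂ (· ≤ ·) (Φ ⟨i, x⟩) (Φ ⟨i, y⟩) → (Lv W i).le x y

lemma forall₂_append_iff {α β : Type*} {r : α → β → Prop} {a b : List α} {c d : List β}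
    (hl : a.length = c.length) (h : List.Forall₂ r (a ++ b) (c ++ d)) :
    List.Forall₂ r a c ∧ List.Forall₂ r b d := by
  induction a generalizing c with
  | nil =>
    have : c = [] := List.length_eq_zero_iff.mp hl.symm
    subst this
    exact ⟨List.Forall₂.nil, h⟩
  | cons x a ih =>
    cases c with
    | nil => simp at hl
    | cons y c =>
      simp only [List.cons_append, List.forall₂_cons] at h
      obtain ⟨h1, h2⟩ := ih (by simpa using hl) h.2
      exact ⟨List.Forall₂.cons h.1 h1, h2⟩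

theorem exists_good (W : WQ) : ∀ (κ : Cardinal.{0}) (N : Set (V W)), Closed (op W) N → #N = κ →
    ∃ col Φ, Good W N col Φ := by
  classical
  intro κ
  induction κ using WellFoundedLT.induction with
  | ind κ IH =>
  intro N hN hNκ
  by_cases hκ : κ ≤ ℵ₀
  · -- countable case
    have hc : N.Countable := Cardinal.le_aleph0_iff_set_countable.mp (hNκ.trans_le hκ)
    obtain ⟨e, he⟩ := Set.countable_iff_exists_injOn.mp hc
    refine ⟨e, fun _ => [], fun _ _ _ _ _ => rfl, fun i x y hx hy hxy _ => ?_⟩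
    have h := he hx hy hxy
    have : x = y := by simpa using h
    rw [this]
    exact (Lv W i).refl y
  · push Not at hκ
    have hcard : #(κ.ord.ToType) = #N := by rw [mk_ord_toType, hNκ]
    obtain ⟨e⟩ := Cardinal.eq.mp hcard
    let I := κ.ord.ToType
    let Nlt : I → Set (V W) := fun v => cl (op W) ((fun u => (e u).1) '' Set.Iio v)
    let Nle : I → Set (V W) := fun v => cl (op W) ((fun u => (e u).1) '' Set.Iic v)
    have hNle : ∀ v, Nle v ⊆ N := fun v => cl_subset hN (by rintro _ ⟨u, -, rfl⟩; exact (e u).2)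
    have hNlt : ∀ v, Nlt v ⊆ N := fun v => cl_subset hN (by rintro _ ⟨u, -, rfl⟩; exact (e u).2)
    have hle_lt : ∀ v w, v < w → Nle v ⊆ Nlt w := fun v w hvw =>
      cl_mono (Set.image_mono (fun u hu => lt_of_le_of_lt hu hvw))
    have hcardle : ∀ v, #(Nle v) < κ := by
      intro v
      refine (mk_cl_le (op_countable W) _).trans_lt (max_lt ?_ hκ)
      refine Cardinal.mk_image_le.trans_lt ?_
      have h1 : Set.Iic v = insert v (Set.Iio v) := by
        ext u; simp [le_iff_eq_or_lt]
      rw [h1]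
      refine (Cardinal.mk_insert_le).trans_lt ?_
      have h2 : #(Set.Iio v) < κ := by
        have h3 := Cardinal.mk_Iio_lt v (by
          show ord #(κ.ord.ToType) = _
          rw [mk_ord_toType, Ordinal.type_toType])
        have h4 : #I = κ := mk_ord_toType κ
        rwa [h4] at h3
      exact Cardinal.add_lt_of_lt hκ.le h2 (Cardinal.one_lt_aleph0.trans hκ)
    -- smaller closed sets are fine
    have hgood : ∀ v, ∃ col Φ, Good W (Nle v) col Φ := fun v =>
      IH _ (hcardle v) (Nle v) (closed_cl _) rfl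
    choose colv Φv hgv using hgood
    -- the rank
    have hex : ∀ x ∈ N, ∃ v, x ∈ Nle v := by
      intro x hx
      refine ⟨e.symm ⟨x, hx⟩, subset_cl _ ⟨e.symm ⟨x, hx⟩, Set.mem_Iic.mpr le_rfl, ?_⟩⟩
      simp
    have hwf : WellFounded (fun u v : I => u < v) := wellFounded_lt
    have hIne : Nonempty I := by
      have : Nonempty N := by
        rw [← Cardinal.mk_ne_zero_iff, hNκ]
        exact (Cardinal.aleph0_pos.trans hκ).ne'
      exact ⟨e.symm (Classical.arbitrary _)⟩
    have hmin : ∀ x ∈ N, x ∉ cl (op W) ∅ → ∃ v, x ∈ Nle v ∧ x ∉ Nlt v ∧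
        ∀ w, x ∈ Nle w → v ≤ w := by
      intro x hx hx0
      let S : Set I := {v | x ∈ Nle v}
      have hS : S.Nonempty := hex x hx
      refine ⟨hwf.min S hS, hwf.min_mem S hS, ?_,
        fun w hw => hwf.min_le hw⟩
      intro hlt
      obtain ⟨F, hF, hxF⟩ := exists_finset_of_mem_cl hlt
      rcases F.eq_empty_or_nonempty with hemp | hne
      · apply hx0
        rw [hemp] at hxF
        simpa using hxF
      · have h2 : ∀ z ∈ F, ∃ u, u < hwf.min S hS ∧ (e u).1 = z :=
          fun z hz => hF (Finset.mem_coe.mpr hz)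
        choose! u hu hu' using h2
        obtain ⟨z, hz, hzmax⟩ := F.exists_max_image u hne
        have h3 : x ∈ Nle (u z) := by
          refine cl_mono ?_ hxF
          intro z' hz'
          exact ⟨u z', hzmax z' (Finset.mem_coe.mp hz'), hu' z' (Finset.mem_coe.mp hz')⟩
        exact hwf.not_lt_min S h3 (hu z hz)
    choose! ρ hρ1 hρ2 hρ3 using hmin
    let rk : V W → WithBot I := fun x => if x ∈ cl (op W) ∅ ∨ x ∉ N then ⊥ else (ρ x : WithBot I)
    have htype : ∀ (v : I) (x : V W), ∃ D : (Lv W (x.1 + 1)).α, (⟨x.1 + 1, D⟩ : V W) ∈ Nlt v ∧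
        x.2 ∈ (show {D : Set (Lv W x.1).α // SDir (Lv W x.1) D} from D).1 ∧
        ∀ y : (Lv W x.1).α, (⟨x.1, y⟩ : V W) ∈ Nlt v →
          y ∈ (show {D : Set (Lv W x.1).α // SDir (Lv W x.1) D} from D).1 →
            (Lv W x.1).le y x.2 :=
      fun v x => exists_type W (Nlt v) (closed_cl _) x.1 x.2
    choose D hD1 hD2 hD3 using htype
    let nx : V W → V W := fun x => ⟨x.1 + 1, D (ρ x) x⟩
    let base : V W → Prop := fun x => x ∈ cl (op W) ∅ ∨ x ∉ N
    have hnx : ∀ x, ¬ base x → rk (nx x) < rk x := by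
      intro x hx
      have hx' := hx
      simp only [base, not_or, not_not] at hx'
      have e1 : rk x = (ρ x : WithBot I) := if_neg hx
      rw [e1]
      by_cases hb : base (nx x)
      · have e2 : rk (nx x) = ⊥ := if_pos hb
        rw [e2]
        exact WithBot.bot_lt_coe _
      · have e2 : rk (nx x) = (ρ (nx x) : WithBot I) := if_neg hb
        rw [e2, WithBot.coe_lt_coe]
        have hb' := hb
        simp only [base, not_or, not_not] at hb'
        by_contra hge
        push Not at hge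
        have h1 : nx x ∈ Nlt (ρ x) := hD1 (ρ x) x
        exact hρ2 _ hb'.2 hb'.1 (cl_mono (Set.image_mono (Set.Iio_subset_Iio hge)) h1)
    -- colouring of the countable base
    have hc0 : (cl (op W) (∅ : Set (V W))).Countable := by
      rw [← Cardinal.le_aleph0_iff_set_countable]
      refine (mk_cl_le (op_countable W) _).trans ?_
      simp
    obtain ⟨e₀, he₀⟩ := Set.countable_iff_exists_injOn.mp hc0
    obtain ⟨f, hf1, hf2⟩ := exists_rec rk nx base hnx
      (fun x => ((2 * e₀ x, []) : ℕ × List Ordinal.{0}))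
      (fun x p => (2 * Nat.pair (Nat.pair (colv (ρ x) x) (Φv (ρ x) x).length) p.1 + 1,
        (Ordinal.ToType.toOrd (ρ x) : Ordinal.{0}) :: (Φv (ρ x) x ++ p.2)))
    have hnN : ∀ x, nx x ∈ N := fun x => hNlt _ (hD1 (ρ x) x)
    -- analysis of equal colours
    have hcase : ∀ x ∈ N, ∀ y ∈ N, (f x).1 = (f y).1 →
        (x ∈ cl (op W) ∅ ∧ y ∈ cl (op W) ∅ ∧ e₀ x = e₀ y ∧ (f x).2 = [] ∧ (f y).2 = []) ∨
        (¬ base x ∧ ¬ base y ∧ colv (ρ x) x = colv (ρ y) y ∧
          (Φv (ρ x) x).length = (Φv (ρ y) y).length ∧ (f (nx x)).1 = (f (nx y)).1) := by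
      intro x hx y hy hxy
      by_cases hbx : base x <;> by_cases hby : base y
      · left
        have h1 : x ∈ cl (op W) ∅ := hbx.resolve_right (fun h => h hx)
        have h2 : y ∈ cl (op W) ∅ := hby.resolve_right (fun h => h hy)
        rw [hf1 x hbx, hf1 y hby] at hxy
        rw [hf1 x hbx, hf1 y hby]
        exact ⟨h1, h2, by simpa using hxy, rfl, rfl⟩
      · exfalso
        rw [hf1 x hbx, hf2 y hby] at hxy
        simp only at hxy
        omega
      · exfalso
        rw [hf2 x hbx, hf1 y hby] at hxy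
        simp only at hxy
        omega
      · right
        rw [hf2 x hbx, hf2 y hby] at hxy
        simp only at hxy
        have h1 : Nat.pair (Nat.pair (colv (ρ x) x) (Φv (ρ x) x).length) (f (nx x)).1 =
          Nat.pair (Nat.pair (colv (ρ y) y) (Φv (ρ y) y).length) (f (nx y)).1 := by omega
        rw [Nat.pair_eq_pair, Nat.pair_eq_pair] at h1
        exact ⟨hbx, hby, h1.1.1, h1.1.2, h1.2⟩
    have wf : WellFounded (fun x y : V W => rk x < rk y) := InvImage.wf rk wellFounded_lt
    have hlen : ∀ x : V W, x ∈ N → ∀ y ∈ N, (f x).1 = (f y).1 →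
        (f x).2.length = (f y).2.length := by
      intro x
      induction x using wf.induction with
      | _ x ih =>
      intro hx y hy hxy
      rcases hcase x hx y hy hxy with ⟨-, -, -, h1, h2⟩ | ⟨hbx, hby, h1, h2, h3⟩
      · rw [h1, h2]
      · have h4 := ih (nx x) (hnx x hbx) (hnN x) (nx y) (hnN y) h3
        rw [hf2 x hbx, hf2 y hby]
        simp only [List.length_cons, List.length_append]
        omega
    refine ⟨fun x => (f x).1, fun x => (f x).2, fun x hx y hy h => hlen x hx y hy h, ?_⟩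
    have main : ∀ x : V W, x ∈ N → ∀ y : (Lv W x.1).α, (⟨x.1, y⟩ : V W) ∈ N →
        (f x).1 = (f ⟨x.1, y⟩).1 → List.Forall₂ (· ≤ ·) (f x).2 (f ⟨x.1, y⟩).2 →
          (Lv W x.1).le x.2 y := by
      intro x
      induction x using wf.induction with
      | _ x ih =>
      intro hx y hy hxy hΦ
      rcases hcase x hx ⟨x.1, y⟩ hy hxy with ⟨h0, h1, h2, -, -⟩ | ⟨hbx, hby, h1, h2, h3⟩
      · have h4 := he₀ h0 h1 h2
        have h5 : x.2 = y := by
          obtain ⟨i, x⟩ := x
          simpa using h4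
        rw [h5]
        exact (Lv W x.1).refl y
      · set y' : V W := ⟨x.1, y⟩ with hy'
        rw [hf2 x hbx, hf2 y' hby] at hΦ
        simp only [List.forall₂_cons] at hΦ
        obtain ⟨hv, hΦ⟩ := hΦ
        obtain ⟨hΦ1, hΦ2⟩ := forall₂_append_iff h2 hΦ
        have hDD := ih (nx x) (hnx x hbx) (hnN x) (D (ρ y') y') (hnN y') h3 hΦ2
        have hv' : ρ x ≤ ρ y' := by
          have := Subtype.coe_le_coe.mp hv
          exact (Ordinal.ToType.mk.symm.le_iff_le).mp this
        have hx1 : x ∈ Nle (ρ x) := by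
          have hbx' := hbx
          simp only [base, not_or, not_not] at hbx'
          exact hρ1 x hx hbx'.1
        have hy1 : y' ∈ Nle (ρ y') := by
          have hby' := hby
          simp only [base, not_or, not_not] at hby'
          exact hρ1 y' hy hby'.1
        rcases hv'.eq_or_lt with heq | hlt
        · have := (hgv (ρ y')).2 x.1 x.2 y (heq ▸ hx1) hy1
          rw [heq] at h1 hΦ1
          exact this h1 hΦ1
        · have hxm : x.2 ∈ (show {D : Set (Lv W x.1).α // SDir (Lv W x.1) D} from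
            D (ρ y') y').1 := hDD (hD2 (ρ x) x)
          exact hD3 (ρ y') y' x.2 (hle_lt _ _ hlt hx1) hxm
    intro i x y hx hy hxy hΦ
    exact main ⟨i, x⟩ hx y hy hxy hΦ

end H61.Wqo
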