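import Pool.Agent.helper61.YDefs

set_option autoImplicit false

/-!
# Basic facts on cylinders of the Cantor space
-/

namespace H61.Yorioka

open MeasureTheory Set

open scoped ENNReal

instance : IsProbabilityMeasure coin := by
  unfold coin; infer_instance

instance : IsProbabilityMeasure cantorMeasure := by
  unfold cantorMeasure; infer_instance

lemma coin_singleton (b : Bool) : coin {b} = 2⁻¹ := by
  unfold coin
  rw [PMF.toMeasure_apply_singleton _ _ (measurableSet_singleton b)]
  simp [PMF.uniformOfFintype_apply]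

/-- The cylinder of a finite sequence. -/
def cyl (s : List Bool) : Set (ℕ → Bool) := {x | IsInit s x}

lemma mem_cyl {s : List Bool} {x : ℕ → Bool} : x ∈ cyl s ↔ IsInit s x := Iff.rfl

/-- The first `n` values of `x`. -/
def res (x : ℕ → Bool) (n : ℕ) : List Bool := List.ofFn fun i : Fin n => x i

@[simp] lemma res_length (x : ℕ → Bool) (n : ℕ) : (res x n).length = n := by simp [res]

lemma isInit_iff {s : List Bool} {x : ℕ → Bool} : IsInit s x ↔ s = res x s.length := by
  constructor
  · intro h
    apply List.ext_getElem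
    · simp
    · intro i h1 h2
      rw [h i h1]
      simp [res]
  · intro h i hi
    have : s[i] = (res x s.length)[i]'(by simpa using hi) := by
      congr 1
    rw [this]
    simp [res]

lemma isInit_res (x : ℕ → Bool) (n : ℕ) : IsInit (res x n) x := by
  rw [isInit_iff]; simp

lemma IsInit.of_prefix {s t : List Bool} {x : ℕ → Bool} (h : s <+: t) (ht : IsInit t x) :
    IsInit s x := by
  intro i hi
  obtain ⟨u, rfl⟩ := h
  have := ht i (by simp; omega)
  rw [← this]
  rw [List.getElem_append_left hi]

lemma cyl_subset_of_prefix {s t : List Bool} (h : s <+: t) : cyl t ⊆ cyl s :=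
  fun _ hx => hx.of_prefix h

/-- Two initial segments of the same sequence are comparable. -/
lemma IsInit.comparable {s t : List Bool} {x : ℕ → Bool} (hs : IsInit s x) (ht : IsInit t x)
    (hle : s.length ≤ t.length) : s <+: t := by
  rw [List.prefix_iff_eq_take]
  apply List.ext_getElem
  · simp; omega
  · intro i h1 h2
    rw [List.getElem_take, hs i h1, ht i (by omega)]

lemma IsInit.unique {s t : List Bool} {x : ℕ → Bool} (hs : IsInit s x) (ht : IsInit t x)
    (hle : s.length = t.length) : s = t :=
  (hs.comparable ht hle.le).eq_of_length hle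

/-- Extend a finite sequence by zeros. -/
def extend (s : List Bool) : ℕ → Bool := fun i => s.getD i false

lemma isInit_extend (s : List Bool) : IsInit s (extend s) := by
  intro i hi
  simp [extend, hi]

lemma cyl_nonempty (s : List Bool) : (cyl s).Nonempty := ⟨extend s, isInit_extend s⟩

lemma cyl_nil : cyl [] = Set.univ := by
  ext x
  simp [cyl, IsInit]

lemma cyl_eq_pi (s : List Bool) :
    cyl s = Set.pi (Finset.range s.length : Set ℕ) (fun i => {s.getD i false}) := by
  ext x
  simp only [mem_cyl, Set.mem_pi, Finset.coe_range, Set.mem_Iio, Set.mem_singleton_iff]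
  constructor
  · intro h i hi
    rw [← h i hi]
    simp [hi]
  · intro h i hi
    rw [h i hi]
    simp [hi]

lemma measure_cyl (s : List Bool) : cantorMeasure (cyl s) = 2⁻¹ ^ s.length := by
  unfold cantorMeasure
  rw [cyl_eq_pi, Measure.infinitePi_pi]
  · simp [coin_singleton]
  · intro i _
    exact measurableSet_singleton _

lemma isOpen_cyl (s : List Bool) : IsOpen (cyl s) := by
  rw [cyl_eq_pi]
  exact isOpen_set_pi (Finset.finite_toSet _) (fun i _ => isOpen_discrete _)

lemma isClosed_cyl (s : List Bool) : IsClosed (cyl s) := by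
  rw [cyl_eq_pi]
  exact isClosed_set_pi (fun i _ => isClosed_discrete _)

lemma measurableSet_cyl (s : List Bool) : MeasurableSet (cyl s) := (isOpen_cyl s).measurableSet

/-- Open sets contain long cylinders around their points. -/
lemma exists_cyl_subset {U : Set (ℕ → Bool)} (hU : IsOpen U) {x : ℕ → Bool} (hx : x ∈ U) :
    ∃ n, ∀ m ≥ n, cyl (res x m) ⊆ U := by
  obtain ⟨I, u, hu, hIU⟩ := isOpen_pi_iff.mp hU x hx
  refine ⟨I.sup id + 1, fun m hm y hy => hIU ?_⟩
  intro i hi
  have hi' : i < m := by
    have : i ≤ I.sup id := Finset.le_sup (f := id) (Finset.mem_coe.mp hi)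
    omega
  have h1 := hy i (by simpa using hi')
  have h2 := isInit_res x m i (by simpa using hi')
  rw [← h1, h2]
  exact (hu i (Finset.mem_coe.mp hi)).2

/-- Nodes of a given length. -/
def level (n : ℕ) : Finset (List Bool) := (Finset.univ : Finset (Fin n → Bool)).image List.ofFn

lemma mem_level {n : ℕ} {s : List Bool} : s ∈ level n ↔ s.length = n := by
  unfold level
  rw [Finset.mem_image]
  constructor
  · rintro ⟨f, -, rfl⟩; simp
  · rintro rfl
    exact ⟨s.get, Finset.mem_univ _, List.ofFn_get s⟩

lemma card_level (n : ℕ) : (level n).card = 2 ^ n := by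
  unfold level
  rw [Finset.card_image_of_injective _ List.ofFn_injective]
  simp

lemma cyl_disjoint_of_length {s t : List Bool} (h : s.length = t.length) (hne : s ≠ t) :
    Disjoint (cyl s) (cyl t) := by
  rw [Set.disjoint_left]
  intro x hs ht
  exact hne (IsInit.unique hs ht h)

/-- A closed set given as the complement of `U`: a cylinder is `good` if it meets the complement
of `U` in a set of positive measure. -/
def good (U : Set (ℕ → Bool)) (s : List Bool) : Prop := 0 < cantorMeasure (cyl s \ U)

lemma good.of_prefix {U : Set (ℕ → Bool)} {s t : List Bool} (h : s <+: t) (ht : good U t) :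
    good U s :=
  lt_of_lt_of_le ht (measure_mono (Set.sdiff_subset_sdiff_left (cyl_subset_of_prefix h)))

/-- **Baire category argument.** -/
lemma exists_good_null {U : Set (ℕ → Bool)} (hU : IsOpen U) (hU1 : cantorMeasure U < 1)
    (W : ℕ → Set (ℕ → Bool)) (hW : ∀ n, IsOpen (W n))
    (hlim : ∀ x, (∀ m, ∃ n ≥ m, x ∈ W n) → x ∈ U) :
    ∃ s, good U s ∧ ∃ n₀, ∀ n ≥ n₀, cantorMeasure ((cyl s \ U) ∩ W n) = 0 := by
  classical
  by_contra hcon
  push Not at hcon
  have hnil : good U [] := by
    unfold good
    rw [cyl_nil, ← Set.compl_eq_univ_sdiff]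
    rw [prob_compl_eq_one_sub hU.measurableSet]
    exact tsub_pos_of_lt hU1
  -- one step
  have step : ∀ s, good U s → ∀ n₀, ∃ n ≥ n₀, ∃ t, s <+: t ∧ s.length < t.length ∧ good U t ∧
      cyl t ⊆ W n := by
    intro s hs n₀
    obtain ⟨n, hn, hne⟩ := hcon s hs n₀
    refine ⟨n, hn, ?_⟩
    by_contra hno
    push Not at hno
    apply hne
    -- cover by the countably many cylinders inside W n
    let T : Set (List Bool) := {t | s <+: t ∧ s.length < t.length ∧ cyl t ⊆ W n}
    have hcov : (cyl s \ U) ∩ W n ⊆ ⋃ t ∈ T, (cyl t \ U) := by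
      rintro x ⟨⟨hxs, hxU⟩, hxW⟩
      obtain ⟨m, hm⟩ := exists_cyl_subset (hW n) hxW
      refine Set.mem_iUnion₂.mpr ⟨res x (max m (s.length + 1)), ⟨?_, ?_, ?_⟩, ?_, hxU⟩
      · exact hxs.comparable (isInit_res x _) (by simp)
      · simp
      · exact hm _ (le_max_left _ _)
      · exact isInit_res x _
    refine measure_mono_null hcov ?_
    rw [measure_biUnion_null_iff T.to_countable]
    rintro t ⟨h1, h2, h3⟩
    by_contra hpos
    exact hno t h1 h2 (pos_iff_ne_zero.mpr hpos) h3
  choose! nn hnn tt h1 h2 h3 h4 using step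
  let st : ℕ → {s : List Bool // good U s} := fun k => Nat.rec ⟨[], hnil⟩
    (fun k s => ⟨tt s.1 k, h3 s.1 s.2 k⟩) k
  have hst : ∀ k, (st (k + 1)).1 = tt (st k).1 k := fun k => rfl
  have hpre : ∀ k, (st k).1 <+: (st (k + 1)).1 := fun k => by
    rw [hst]; exact h1 _ (st k).2 k
  have hlen : ∀ k, k ≤ (st k).1.length := by
    intro k
    induction k with
    | zero => exact Nat.zero_le _
    | succ k ih =>
      have := h2 _ (st k).2 k
      rw [hst]; omega
  have hpre' : ∀ k l, k ≤ l → (st k).1 <+: (st l).1 := by
    intro k l hkl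
    induction l, hkl using Nat.le_induction with
    | base => exact List.prefix_rfl
    | succ l _ ih => exact ih.trans (hpre l)
  let x : ℕ → Bool := fun i => (st (i + 1)).1.getD i false
  have hx : ∀ k, IsInit (st k).1 x := by
    intro k i hi
    have hi' : i < (st (i + 1)).1.length := hlen (i + 1)
    have e1 : x i = (st (i + 1)).1[i] := by simp [x, hi']
    rw [e1]
    rcases le_total k (i + 1) with h | h
    · obtain ⟨u, hu⟩ := hpre' _ _ h
      have : (st (i + 1)).1[i] = ((st k).1 ++ u)[i]'(by rw [hu]; exact hi') := by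
        congr 1; exact hu.symm
      rw [this, List.getElem_append_left hi]
    · obtain ⟨u, hu⟩ := hpre' _ _ h
      have : (st k).1[i] = ((st (i + 1)).1 ++ u)[i]'(by rw [hu]; exact hi) := by
        congr 1; exact hu.symm
      rw [this, List.getElem_append_left hi']
  have hxU : x ∈ U := by
    apply hlim
    intro m
    refine ⟨nn (st m).1 m, hnn _ (st m).2 m, ?_⟩
    apply h4 _ (st m).2 m
    have := hx (m + 1)
    rw [hst] at this
    exact this
  obtain ⟨m, hm⟩ := exists_cyl_subset hU hxU
  have h5 : cyl (st m).1 ⊆ U := by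
    have h6 := hm (st m).1.length (hlen m)
    rwa [← isInit_iff.mp (hx m)] at h6
  have h7 := (st m).2
  unfold good at h7
  rw [Set.sdiff_eq_empty.mpr h5, measure_empty] at h7
  exact lt_irrefl _ h7

end H61.Yorioka
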