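import Mathlib

set_option autoImplicit false

/-!
# Yorioka ideals and the null ideal on the Cantor space: definitions

The Cantor space is `ℕ → Bool`.
-/

namespace H61.Yorioka

open MeasureTheory Cardinal

/-- The fair coin measure on `{0, 1}`. -/
noncomputable def coin : Measure Bool := (PMF.uniformOfFintype Bool).toMeasure

/-- The standard product measure on the Cantor space. -/
noncomputable def cantorMeasure : Measure (ℕ → Bool) := Measure.infinitePi fun _ : ℕ => coin

/-- The ideal of Lebesgue null subsets of the Cantor space. -/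
def nullIdeal : Set (Set (ℕ → Bool)) := {A | cantorMeasure A = 0}

/-- The finite sequence `s` is an initial segment of `x`. -/
def IsInit (s : List Bool) (x : ℕ → Bool) : Prop := ∀ (i : ℕ) (h : i < s.length), s[i] = x i

/-- `[σ]_∞`, the set of all `x` which extend `σ n` for infinitely many `n`. -/
def limSet (σ : ℕ → List Bool) : Set (ℕ → Bool) := {x | {n | IsInit (σ n) x}.Infinite}

/-- The height function `n ↦ |σ n|`. -/
def ht (σ : ℕ → List Bool) : ℕ → ℕ := fun n => (σ n).length

/-- `x ≪ y`: for every `k` we have `x (i ^ k) ≤ y i` for all but finitely many `i`. -/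
def FarBelow (x y : ℕ → ℕ) : Prop := ∀ k : ℕ, ∃ m : ℕ, ∀ i ≥ m, x (i ^ k) ≤ y i

/-- The Yorioka ideal `I_f`. -/
def yoriokaIdeal (f : ℕ → ℕ) : Set (Set (ℕ → Bool)) :=
  {A | ∃ σ : ℕ → List Bool, FarBelow f (ht σ) ∧ A ⊆ limSet σ}

/-- The additivity of `I`: the least size of a subfamily of `I` whose union is not in `I`. -/
noncomputable def add (I : Set (Set (ℕ → Bool))) : Cardinal.{0} :=
  sInf {κ | ∃ J : Set (Set (ℕ → Bool)), J ⊆ I ∧ ⋃₀ J ∉ I ∧ κ = #J}

/-- The cofinality of `I`: the least size of a subfamily of `I` such that each member of `I` is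
contained in a member of the subfamily. -/
noncomputable def cof (I : Set (Set (ℕ → Bool))) : Cardinal.{0} :=
  sInf {κ | ∃ J : Set (Set (ℕ → Bool)), J ⊆ I ∧ (∀ A ∈ I, ∃ B ∈ J, A ⊆ B) ∧ κ = #J}

/-- The minimum of the additivities of all Yorioka ideals `I_f`, `f` strictly increasing. -/
noncomputable def minadd : Cardinal.{0} :=
  sInf {κ | ∃ f : ℕ → ℕ, StrictMono f ∧ κ = add (yoriokaIdeal f)}

/-- The supremum of the cofinalities of all Yorioka ideals `I_f`, `f` strictly increasing. -/
noncomputable def supcof : Cardinal.{0} :=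
  sSup {κ | ∃ f : ℕ → ℕ, StrictMono f ∧ κ = cof (yoriokaIdeal f)}

end H61.Yorioka
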