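import Pool.Agent.helper61.YNull

set_option autoImplicit false

/-!
# Lower bounds for Yorioka ideals of fast functions
-/

namespace H61.Yorioka

open MeasureTheory Set Cardinal ProbabilityTheory

open scoped ENNReal

/-- Number of a node: read a binary expansion with leading one. -/
def num : List Bool → ℕ
  | [] => 1
  | b :: t => 2 * num t + b.toNat

lemma num_bounds : ∀ t : List Bool, 2 ^ t.length ≤ num t ∧ num t < 2 ^ (t.length + 1)
  | [] => by simp [num]
  | b :: t => by
    obtain ⟨h1, h2⟩ := num_bounds t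
    have hb : b.toNat ≤ 1 := Bool.toNat_le b
    simp only [num, List.length_cons]
    rw [pow_succ] at h2 ⊢
    rw [pow_succ (n := t.length + 1), pow_succ]
    omega

lemma num_injective : Function.Injective num := by
  intro s
  induction s with
  | nil =>
    intro t h
    cases t with
    | nil => rfl
    | cons b t =>
      exfalso
      have := (num_bounds t).1
      have h2 : 0 < 2 ^ t.length := by positivity
      simp only [num] at h
      omega
  | cons a s ih =>
    intro t h
    cases t with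
    | nil =>
      exfalso
      have := (num_bounds s).1
      have h2 : 0 < 2 ^ s.length := by positivity
      simp only [num] at h
      omega
    | cons b t =>
      simp only [num] at h
      have ha : a.toNat ≤ 1 := Bool.toNat_le a
      have hb : b.toNat ≤ 1 := Bool.toNat_le b
      have h1 : num s = num t := by omega
      have h2 : a.toNat = b.toNat := by omega
      rw [ih h1]
      congr 1
      cases a <;> cases b <;> simp_all

lemma exists_num (n : ℕ) (hn : 1 ≤ n) : ∃ t, num t = n := by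
  induction n using Nat.strong_induction_on with
  | _ n ih =>
    rcases Nat.lt_or_ge 1 n with h | h
    · obtain ⟨t, ht⟩ := ih (n / 2) (by omega) (by omega)
      refine ⟨(n % 2 == 1) :: t, ?_⟩
      simp only [num, ht]
      rcases Nat.mod_two_eq_zero_or_one n with h0 | h0
      · simp [h0]; omega
      · simp [h0]; omega
    · exact ⟨[], by simp [num]; omega⟩

open Classical in
/-- Enumeration of all nodes. -/
noncomputable def enode (n : ℕ) : List Bool := if h : ∃ t, num t = n then h.choose else []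

lemma enode_num (t : List Bool) : enode (num t) = t := by
  have h : ∃ s, num s = num t := ⟨t, rfl⟩
  unfold enode
  rw [dif_pos h]
  exact num_injective h.choose_spec

lemma lt_pow_enode (n : ℕ) : n < 2 ^ ((enode n).length + 1) := by
  rcases Nat.eq_zero_or_pos n with rfl | h
  · positivity
  · obtain ⟨t, rfl⟩ := exists_num n h
    rw [enode_num]
    exact (num_bounds t).2

/-- The open set covered by the tail of `τ`. -/
def UU (τ : ℕ → List Bool) (m : ℕ) : Set (ℕ → Bool) := ⋃ j, ⋃ (_ : m ≤ j), cyl (τ j)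

lemma isOpen_UU (τ : ℕ → List Bool) (m : ℕ) : IsOpen (UU τ m) :=
  isOpen_iUnion fun j => isOpen_iUnion fun _ => isOpen_cyl (τ j)

lemma mem_UU {τ : ℕ → List Bool} {m : ℕ} {x : ℕ → Bool} :
    x ∈ UU τ m ↔ ∃ j, m ≤ j ∧ IsInit (τ j) x := by
  simp [UU, cyl]

lemma not_good_of_prefix {τ : ℕ → List Bool} {m j : ℕ} {t : List Bool} (hj : m ≤ j)
    (h : τ j <+: t) : ¬ good (UU τ m) t := by
  intro hg
  unfold good at hg
  have : cyl t \ UU τ m = ∅ := by
    rw [Set.sdiff_eq_empty]
    intro x hx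
    exact mem_UU.mpr ⟨j, hj, hx.of_prefix h⟩
  rw [this, measure_empty] at hg
  exact lt_irrefl _ hg

/-- Fast growing functions. -/
structure Fast (f : ℕ → ℕ) : Prop where
  mono : StrictMono f
  two : ∀ i, 2 * i + 2 ≤ f i
  eight : ∀ i, 8 * f i ≤ f (i + 1)

lemma measure_UU_lt {f : ℕ → ℕ} (hf : Fast f) {τ : ℕ → List Bool} {m : ℕ}
    (hτ : ∀ j ≥ m, f j ≤ (τ j).length) : cantorMeasure (UU τ m) < 1 := by
  have h1 : cantorMeasure (UU τ m) ≤ ∑' j : ℕ, (2⁻¹ : ℝ≥0∞) ^ (j + 2) := by
    refine (measure_iUnion_le _).trans (ENNReal.tsum_le_tsum fun j => ?_)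
    by_cases hj : m ≤ j
    · simp only [hj, Set.iUnion_true]
      rw [measure_cyl]
      apply pow_le_pow_of_le_one zero_le (by simp)
      have := hf.two j
      have := hτ j hj
      omega
    · simp [hj]
  refine h1.trans_lt ?_
  have h2 : ∑' j : ℕ, (2⁻¹ : ℝ≥0∞) ^ (j + 2) = 2⁻¹ := by
    simp_rw [pow_add]
    rw [ENNReal.tsum_mul_right, ENNReal.tsum_geometric, ENNReal.one_sub_inv_two, inv_inv, pow_two,
      ← mul_assoc, ENNReal.mul_inv_cancel (by norm_num) (by norm_num), one_mul]
  rw [h2]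
  exact ENNReal.inv_lt_one.mpr (by norm_num)

lemma limSet_subset_UU (τ : ℕ → List Bool) (m : ℕ) : limSet τ ⊆ UU τ m := by
  intro x hx
  obtain ⟨j, hj, hx'⟩ := mem_limSet_iff.mp hx m
  exact mem_UU.mpr ⟨j, hj, hx'⟩

/-- **Covering lemma.** -/
lemma exists_short_cover {f : ℕ → ℕ} (hf : Fast f) {τ : ℕ → List Bool} {m : ℕ}
    (hτ : ∀ j ≥ m, f j ≤ (τ j).length) {ν : List Bool} (hν : 1 ≤ ν.length)
    (h0 : cantorMeasure (cyl ν \ UU τ m) = 0) :
    ∃ j ≥ m, (τ j).length ≤ 4 * ν.length ∧ (τ j <+: ν ∨ ν <+: τ j) := by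
  by_contra hcon
  push Not at hcon
  have h1 : cyl ν ⊆ (cyl ν \ UU τ m) ∪ ⋃ j : ℕ, (if m ≤ j ∧ (τ j <+: ν ∨ ν <+: τ j) then
      cyl (τ j) else ∅) := by
    intro x hx
    by_cases hxU : x ∈ UU τ m
    · right
      obtain ⟨j, hj, hxj⟩ := mem_UU.mp hxU
      refine Set.mem_iUnion.mpr ⟨j, ?_⟩
      have hcomp : τ j <+: ν ∨ ν <+: τ j := by
        rcases le_total (τ j).length ν.length with h | h
        · exact Or.inl (hxj.comparable hx h)
        · exact Or.inr (IsInit.comparable hx hxj h)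
      rw [if_pos ⟨hj, hcomp⟩]
      exact hxj
    · exact Or.inl ⟨hx, hxU⟩
  have h2 : cantorMeasure (cyl ν) ≤ ∑' j : ℕ, (2⁻¹ : ℝ≥0∞) ^ (2 * ν.length + 1 + j) := by
    refine (measure_mono h1).trans ((measure_union_le _ _).trans ?_)
    rw [h0, zero_add]
    refine (measure_iUnion_le _).trans (ENNReal.tsum_le_tsum fun j => ?_)
    split_ifs with h
    · rw [measure_cyl]
      apply pow_le_pow_of_le_one zero_le (by simp)
      have a1 := hf.two j
      have a2 := hτ j h.1
      have a3 : 4 * ν.length < (τ j).length := by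
        by_contra hle
        push Not at hle
        rcases h.2 with h3 | h3
        · exact (hcon j h.1 hle).1 h3
        · exact (hcon j h.1 hle).2 h3
      omega
    · simp
  rw [measure_cyl] at h2
  have h3 : ∑' j : ℕ, (2⁻¹ : ℝ≥0∞) ^ (2 * ν.length + 1 + j) = 2⁻¹ ^ (2 * ν.length) := by
    simp_rw [pow_add]
    rw [ENNReal.tsum_mul_left, ENNReal.tsum_geometric, ENNReal.one_sub_inv_two, inv_inv, pow_one,
      mul_assoc, ENNReal.inv_mul_cancel (by norm_num) (by norm_num), mul_one]
  rw [h3] at h2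
  have h4 : (2⁻¹ : ℝ≥0∞) ^ (2 * ν.length) < 2⁻¹ ^ ν.length := by
    rw [← ENNReal.inv_pow, ← ENNReal.inv_pow, ENNReal.inv_lt_inv]
    have : 2 ^ ν.length < 2 ^ (2 * ν.length) := Nat.pow_lt_pow_right (by norm_num) (by omega)
    exact_mod_cast this
  exact absurd h2 (not_le.mpr h4)

open Classical in
/-- Good nodes of level `r` above `s`. -/
noncomputable def goodNodes (U : Set (ℕ → Bool)) (s : List Bool) (r : ℕ) : Finset (List Bool) :=
  (level r).filter fun t => s <+: t ∧ good U t

lemma mem_goodNodes {U : Set (ℕ → Bool)} {s t : List Bool} {r : ℕ} :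
    t ∈ goodNodes U s r ↔ t.length = r ∧ s <+: t ∧ good U t := by
  classical
  unfold goodNodes
  rw [Finset.mem_filter, mem_level]

/-- **Counting lemma.** -/
lemma exists_card_goodNodes {U : Set (ℕ → Bool)} {s : List Bool} (hs : good U s) :
    ∃ c, ∀ r ≥ s.length, 2 ^ r ≤ (goodNodes U s r).card * 2 ^ c := by
  classical
  have hpos : 0 < cantorMeasure (cyl s \ U) := hs
  obtain ⟨c, hc⟩ : ∃ c : ℕ, (2⁻¹ : ℝ≥0∞) ^ c < cantorMeasure (cyl s \ U) := by
    have h1 := ENNReal.tendsto_pow_atTop_nhds_zero_of_lt_one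
      (ENNReal.inv_lt_one.mpr (by norm_num) : (2⁻¹ : ℝ≥0∞) < 1)
    exact ((tendsto_order.mp h1).2 _ hpos).exists
  refine ⟨c, fun r hr => ?_⟩
  have h1 : cyl s \ U ⊆ (⋃ t ∈ goodNodes U s r, cyl t) ∪
      ⋃ t ∈ (level r).filter (fun t => ¬ good U t), (cyl t \ U) := by
    intro x hx
    have hp : s <+: res x r := hx.1.comparable (isInit_res x r) (by simpa using hr)
    by_cases hg : good U (res x r)
    · left
      exact Set.mem_iUnion₂.mpr ⟨res x r, mem_goodNodes.mpr ⟨by simp, hp, hg⟩, isInit_res x r⟩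
    · right
      refine Set.mem_iUnion₂.mpr ⟨res x r, ?_, isInit_res x r, hx.2⟩
      rw [Finset.mem_filter, mem_level]
      exact ⟨by simp, hg⟩
  have h2 : cantorMeasure (cyl s \ U) ≤ (goodNodes U s r).card * 2⁻¹ ^ r := by
    refine (measure_mono h1).trans ((measure_union_le _ _).trans ?_)
    have h3 : cantorMeasure (⋃ t ∈ (level r).filter (fun t => ¬ good U t), (cyl t \ U)) = 0 := by
      refine (measure_biUnion_null_iff (Finset.countable_toSet _)).mpr ?_
      intro t ht
      have := (Finset.mem_filter.mp ht).2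
      unfold good at this
      simpa using this
    rw [h3, add_zero]
    refine (measure_biUnion_finset_le _ _).trans ?_
    rw [← nsmul_eq_mul]
    apply Finset.sum_le_card_nsmul
    intro t ht
    rw [measure_cyl, (mem_goodNodes.mp ht).1]
  have h3 : (2⁻¹ : ℝ≥0∞) ^ c ≤ (goodNodes U s r).card * 2⁻¹ ^ r := hc.le.trans h2
  have h4 : ((2 ^ r : ℕ) : ℝ≥0∞) ≤ (((goodNodes U s r).card * 2 ^ c : ℕ) : ℝ≥0∞) := by
    push_cast
    have e : ∀ k : ℕ, (2⁻¹ : ℝ≥0∞) ^ k * 2 ^ k = 1 := fun k => by
      rw [← mul_pow, ENNReal.inv_mul_cancel (by norm_num) (by norm_num), one_pow]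
    calc (2 : ℝ≥0∞) ^ r = (2⁻¹ ^ c * 2 ^ c) * 2 ^ r := by rw [e, one_mul]
      _ ≤ ((goodNodes U s r).card * 2⁻¹ ^ r * 2 ^ c) * 2 ^ r := by gcongr
      _ = (goodNodes U s r).card * 2 ^ c * (2⁻¹ ^ r * 2 ^ r) := by ring
      _ = (goodNodes U s r).card * 2 ^ c := by rw [e, mul_one]
  exact_mod_cast h4

end H61.Yorioka
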