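import Pool.Agent.helper61.YLower

set_option autoImplicit false

/-!
# Domination and bounded localization are below Yorioka ideals of fast functions
-/

namespace H61.Yorioka

open MeasureTheory Set Cardinal ProbabilityTheory

open scoped ENNReal

/-- A node above a good node `t` which is covered by `U` is covered by a member of `τ` above `t`. -/
lemma exists_cover_above {f : ℕ → ℕ} (hf : Fast f) {τ : ℕ → List Bool} {m : ℕ}
    (hτ : ∀ j ≥ m, f j ≤ (τ j).length) {t ν : List Bool} (hν : 1 ≤ ν.length) (htν : t <+: ν)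
    (ht : good (UU τ m) t) (h0 : cantorMeasure (cyl ν \ UU τ m) = 0) :
    ∃ j ≥ m, (τ j).length ≤ 4 * ν.length ∧ t <+: τ j ∧ (τ j <+: ν ∨ ν <+: τ j) := by
  obtain ⟨j, hj, h1, h2⟩ := exists_short_cover hf hτ hν h0
  refine ⟨j, hj, h1, ?_, h2⟩
  rcases h2 with h2 | h2
  · rcases List.prefix_or_prefix_of_prefix h2 htν with h3 | h3
    · exact absurd ht (not_good_of_prefix hj h3)
    · exact h3
  · exact htν.trans h2

/-- The nodes used for domination. -/
noncomputable def domNode (f : ℕ → ℕ) (t : List Bool) (k : ℕ) : List Bool :=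
  t ++ List.replicate (f (2 ^ ((t.length + 1) * (k + 1)))) false

/-- Key claim for domination. -/
lemma exists_not_covered {f : ℕ → ℕ} (hf : Fast f) {τ : ℕ → List Bool} {m : ℕ}
    (hτ : ∀ j ≥ m, f j ≤ (τ j).length) (hτ' : FarBelow f (ht τ)) {s : List Bool}
    (hs : good (UU τ m) s) (k : ℕ) :
    ∃ R, ∀ r ≥ R, ∀ k' ≤ k, ∃ t, t.length = r ∧ s <+: t ∧
      cantorMeasure (cyl (domNode f t k') \ UU τ m) ≠ 0 := by
  classical
  obtain ⟨c, hc⟩ := exists_card_goodNodes hs
  obtain ⟨ml, hml⟩ := hτ' (2 * (k + 1))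
  refine ⟨s.length + (c + 1 + ml) + (2 * c + 5), fun r hr k' hk' => ?_⟩
  by_contra hcon
  push Not at hcon
  set F : ℕ := f (2 ^ ((r + 1) * (k' + 1))) with hF
  have hF1 : r + 1 ≤ F := by
    have h1 := hf.two (2 ^ ((r + 1) * (k' + 1)))
    have h2 : r + 1 ≤ 2 ^ ((r + 1) * (k' + 1)) := by
      calc r + 1 ≤ 2 ^ (r + 1) := Nat.lt_two_pow_self.le
        _ ≤ 2 ^ ((r + 1) * (k' + 1)) := Nat.pow_le_pow_right (by norm_num) (by nlinarith)
    omega
  have hcov : ∀ t ∈ goodNodes (UU τ m) s r, ∃ j ≥ m, (τ j).length ≤ 8 * F ∧ t <+: τ j := by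
    intro t ht
    obtain ⟨h1, h2, h3⟩ := mem_goodNodes.mp ht
    have h4 := hcon t h1 h2
    have hlen : (domNode f t k').length = r + F := by
      simp only [domNode, List.length_append, List.length_replicate, h1, hF]
    obtain ⟨j, hj, h5, h6, -⟩ := exists_cover_above (ν := domNode f t k') hf hτ
      (by rw [hlen]; omega) (List.prefix_append t _) h3 h4
    rw [hlen] at h5
    exact ⟨j, hj, by omega, h6⟩
  choose! jt hjm hjl hjp using hcov
  have hinj : Set.InjOn jt (goodNodes (UU τ m) s r : Set (List Bool)) := by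
    intro t ht t' ht' he
    have h1 := hjp t (Finset.mem_coe.mp ht)
    have h2 := hjp t' (Finset.mem_coe.mp ht')
    rw [he] at h1
    have h3 := (mem_goodNodes.mp (Finset.mem_coe.mp ht)).1
    have h4 := (mem_goodNodes.mp (Finset.mem_coe.mp ht')).1
    rcases List.prefix_or_prefix_of_prefix h1 h2 with h5 | h5
    · exact h5.eq_of_length (by omega)
    · exact (h5.eq_of_length (by omega)).symm
  have hcard : (goodNodes (UU τ m) s r).card ≤ ((goodNodes (UU τ m) s r).image jt).card := by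
    rw [Finset.card_image_of_injOn hinj]
  -- the largest index
  have hr1 : s.length ≤ r := by omega
  have hcr := hc r hr1
  have hpow : 2 ^ (r - c) ≤ (goodNodes (UU τ m) s r).card := by
    have h1 : 2 ^ (r - c) * 2 ^ c ≤ (goodNodes (UU τ m) s r).card * 2 ^ c := by
      rw [← pow_add, Nat.sub_add_cancel (by omega)]
      exact hcr
    exact Nat.le_of_mul_le_mul_right h1 (by positivity)
  have hJ : ∃ t ∈ goodNodes (UU τ m) s r, 2 ^ (r - c - 1) ≤ jt t := by
    by_contra hno
    push Not at hno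
    have h1 : (goodNodes (UU τ m) s r).image jt ⊆ Finset.range (2 ^ (r - c - 1)) := by
      intro j hj
      obtain ⟨t, ht, rfl⟩ := Finset.mem_image.mp hj
      exact Finset.mem_range.mpr (hno t ht)
    have h2 := Finset.card_le_card h1
    rw [Finset.card_range] at h2
    have h3 : 2 ^ (r - c) = 2 * 2 ^ (r - c - 1) := by
      rw [← pow_succ']; congr 1; omega
    have h4 : 0 < 2 ^ (r - c - 1) := by positivity
    omega
  obtain ⟨t, ht, hJ⟩ := hJ
  have hmlJ : ml ≤ jt t := by
    refine le_trans ?_ hJ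
    calc ml ≤ r - c - 1 := by omega
      _ ≤ 2 ^ (r - c - 1) := Nat.lt_two_pow_self.le
  have h1 : f (jt t ^ (2 * (k + 1))) ≤ (τ (jt t)).length := hml _ hmlJ
  have h2 : f (jt t ^ (2 * (k + 1))) ≤ f (2 ^ ((r + 1) * (k' + 1)) + 1) := by
    refine h1.trans ((hjl t ht).trans ?_)
    exact hf.eight _
  have h3 : jt t ^ (2 * (k + 1)) ≤ 2 ^ ((r + 1) * (k' + 1)) + 1 := hf.mono.le_iff_le.mp h2
  have h4 : 2 ^ ((r - c - 1) * (2 * (k + 1))) ≤ 2 ^ ((r + 1) * (k + 1) + 1) := by
    calc 2 ^ ((r - c - 1) * (2 * (k + 1))) = (2 ^ (r - c - 1)) ^ (2 * (k + 1)) := by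
          rw [← pow_mul]
      _ ≤ jt t ^ (2 * (k + 1)) := Nat.pow_le_pow_left hJ _
      _ ≤ 2 ^ ((r + 1) * (k' + 1)) + 1 := h3
      _ ≤ 2 ^ ((r + 1) * (k + 1)) + 2 ^ ((r + 1) * (k + 1)) := by
          apply add_le_add
          · exact Nat.pow_le_pow_right (by norm_num) (Nat.mul_le_mul_left _ (by omega))
          · exact Nat.one_le_two_pow
      _ = 2 ^ ((r + 1) * (k + 1) + 1) := by rw [pow_succ]; ring
  have h5 := (Nat.pow_le_pow_iff_right (by norm_num : 1 < 2)).mp h4
  obtain ⟨q, hq⟩ : ∃ q, r = 2 * c + 5 + q := ⟨r - (2 * c + 5), by omega⟩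
  have h6 : r - c - 1 = c + 4 + q := by omega
  rw [h6, hq] at h5
  nlinarith

/-- **Domination is Tukey below the Yorioka ideal of a fast function.** -/
theorem tukey_dom {f : ℕ → ℕ} (hf : Fast f) : Tukey DRel (IRel (yoriokaIdeal f)) := by
  classical
  -- increasing majorants
  let g' : (ℕ → ℕ) → ℕ → ℕ := fun g k => k + ∑ i ∈ Finset.range (k + 1), g i
  have hg' : ∀ g, Monotone (g' g) := by
    intro g
    refine monotone_nat_of_le_succ fun k => ?_
    simp only [g']
    rw [Finset.sum_range_succ _ (k + 1)]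
    omega
  have hgg' : ∀ g k, g k ≤ g' g k := by
    intro g k
    simp only [g']
    have := Finset.single_le_sum (f := g) (fun i _ => Nat.zero_le _) (Finset.self_mem_range_succ k)
    omega
  let kk : (ℕ → ℕ) → ℕ → ℕ := fun g r => Nat.findGreatest (fun k => g' g k ≤ r) r
  have hkk : ∀ g l r, g' g l ≤ r → l ≤ kk g r := by
    intro g l r h
    refine Nat.le_findGreatest (P := fun k => g' g k ≤ r) ?_ h
    have : l ≤ g' g l := by simp only [g']; omega
    omega
  let σ : (ℕ → ℕ) → ℕ → List Bool := fun g n => domNode f (enode n) (kk g (enode n).length)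
  have hσ : ∀ g, FarBelow f (ht (σ g)) := by
    intro g l
    refine ⟨2 ^ (g' g l + 1), fun n hn => ?_⟩
    show f (n ^ l) ≤ (σ g n).length
    have h1 := lt_pow_enode n
    set r := (enode n).length with hr
    have h2 : g' g l + 1 < r + 1 := by
      by_contra hcon
      push Not at hcon
      have := Nat.pow_le_pow_right (show 0 < 2 by norm_num) hcon
      omega
    have h3 : l ≤ kk g r := hkk g l r (by omega)
    simp only [σ, domNode, List.length_append, List.length_replicate]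
    refine le_trans ?_ (Nat.le_add_left _ _)
    apply hf.mono.monotone
    rw [← hr]
    calc n ^ l ≤ (2 ^ (r + 1)) ^ l := Nat.pow_le_pow_left h1.le l
      _ = 2 ^ ((r + 1) * l) := by rw [← pow_mul]
      _ ≤ 2 ^ ((r + 1) * (kk g r + 1)) :=
        Nat.pow_le_pow_right (by norm_num) (Nat.mul_le_mul_left _ (by omega))
  -- representations of members of the ideal
  have hrep : ∀ B : {A : Set (ℕ → Bool) // A ∈ yoriokaIdeal f}, ∃ (τ : ℕ → List Bool) (m : ℕ),
      FarBelow f (ht τ) ∧ (∀ j ≥ m, f j ≤ (τ j).length) ∧ B.1 ⊆ limSet τ := by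
    intro B
    obtain ⟨τ, h1, h2⟩ := B.2
    obtain ⟨m, hm⟩ := h1 1
    refine ⟨τ, m, h1, fun j hj => ?_, h2⟩
    have h3 := hm j hj
    rw [pow_one] at h3
    exact h3
  choose τ m hτ1 hτ2 hτ3 using hrep
  have hR : ∀ B s, good (UU (τ B) (m B)) s → ∀ k, ∃ R, ∀ r ≥ R, ∀ k' ≤ k, ∃ t, t.length = r ∧
      s <+: t ∧ cantorMeasure (cyl (domNode f t k') \ UU (τ B) (m B)) ≠ 0 :=
    fun B s hs k => exists_not_covered hf (hτ2 B) (hτ1 B) hs k
  choose! R hR using hR
  let dec : ℕ → List Bool × ℕ := fun n =>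
    ((Encodable.decode n : Option (List Bool × ℕ))).getD ([], 0)
  have hdec : ∀ p : List Bool × ℕ, dec (Encodable.encode p) = p := fun p => by
    simp only [dec]
    rw [Encodable.encodek]
    rfl
  refine ⟨fun g => ⟨limSet (σ g), σ g, hσ g, subset_rfl⟩,
    fun B k => ∑ i ∈ Finset.range (k + 1), (R B (dec i).1 (k - 1) + (dec i).2), ?_⟩
  intro g B hgB
  have hgB' : limSet (σ g) ⊆ B.1 := hgB
  obtain ⟨s, hs, n₀, hn₀⟩ := exists_good_null (isOpen_UU (τ B) (m B))
    (measure_UU_lt hf (hτ2 B)) (fun n => cyl (σ g n)) (fun n => isOpen_cyl _)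
    (fun x hx => limSet_subset_UU _ _ (hτ3 B (hgB' (mem_limSet_iff.mpr hx))))
  refine ⟨Encodable.encode (s, n₀) + 1, fun k hk => ?_⟩
  obtain ⟨k, rfl⟩ : ∃ k', k = k' + 1 := ⟨k - 1, by omega⟩
  have hle : R B s k + n₀ ≤ ∑ i ∈ Finset.range (k + 1 + 1),
      (R B (dec i).1 (k + 1 - 1) + (dec i).2) := by
    have h1 := Finset.single_le_sum (f := fun i => R B (dec i).1 (k + 1 - 1) + (dec i).2)
      (s := Finset.range (k + 1 + 1)) (fun i _ => Nat.zero_le _)
      (Finset.mem_range.mpr (show Encodable.encode (s, n₀) < k + 1 + 1 by omega))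
    simp only [hdec] at h1
    exact h1
  refine le_trans ?_ hle
  set r := R B s k + n₀ with hr
  by_contra hcon
  push Not at hcon
  -- then `kk g r ≤ k`
  have hkkr : kk g r ≤ k := by
    by_contra hlt
    push Not at hlt
    have h1 : g' g (kk g r) ≤ r := Nat.findGreatest_of_ne_zero (P := fun k => g' g k ≤ r)
      (m := kk g r) rfl (by omega)
    have h2 : g' g (k + 1) ≤ g' g (kk g r) := hg' g hlt
    have h3 := hgg' g (k + 1)
    omega
  obtain ⟨t, ht1, ht2, ht3⟩ := hR B s hs k r (by omega) (kk g r) hkkr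
  apply ht3
  have h4 : n₀ ≤ num t := by
    have h5 := (num_bounds t).1
    have h6 : r < 2 ^ r := Nat.lt_two_pow_self
    rw [ht1] at h5
    omega
  have h5 := hn₀ (num t) h4
  have h6 : σ g (num t) = domNode f t (kk g r) := by
    simp only [σ]
    rw [enode_num, ht1]
  rw [h6] at h5
  refine measure_mono_null ?_ h5
  rintro x ⟨hx1, hx2⟩
  refine ⟨⟨?_, hx2⟩, hx1⟩
  exact hx1.of_prefix (ht2.trans (List.prefix_append t _))

end H61.Yorioka
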