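import Pool.Agent.helper61.YLower2

set_option autoImplicit false

/-!
# Bounded localization is below a Yorioka ideal
-/

namespace H61.Yorioka

open MeasureTheory Set Cardinal ProbabilityTheory

open scoped ENNReal

/-- A fast function above `b`. -/
def fastOf (b : ℕ → ℕ) : ℕ → ℕ
  | 0 => b 0 + 4
  | i + 1 => 8 * fastOf b i + b (i + 1) + i + 10

lemma fastOf_fast (b : ℕ → ℕ) : Fast (fastOf b) where
  mono := strictMono_nat_of_lt_succ fun i => by
    simp only [fastOf]; omega
  two := fun i => by
    induction i with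
    | zero => simp only [fastOf]; omega
    | succ i ih => simp only [fastOf]; omega
  eight := fun i => by simp only [fastOf]; omega

lemma fastOf_ge (b : ℕ → ℕ) (i : ℕ) : i + b i + 2 ≤ fastOf b i := by
  cases i with
  | zero => simp only [fastOf]; omega
  | succ i => simp only [fastOf]; omega

/-- The width for bounded localization. -/
def Hw (r : ℕ) : ℕ := (r + 1) * (2 ^ ((r + 1) ^ 2) + 2)

/-- The code of a value: the node `t` followed by `v` ones and a zero. -/
def codeNode (t : List Bool) (v : ℕ) : List Bool := t ++ (List.replicate v true ++ [false])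

/-- The node used for localization. -/
noncomputable def locNode (f : ℕ → ℕ) (t : List Bool) (v : ℕ) : List Bool :=
  codeNode t v ++ List.replicate (f (2 ^ ((t.length + 1) ^ 2))) false

lemma codeNode_length (t : List Bool) (v : ℕ) : (codeNode t v).length = t.length + v + 1 := by
  simp [codeNode]; omega

lemma locNode_length (f : ℕ → ℕ) (t : List Bool) (v : ℕ) :
    (locNode f t v).length = t.length + v + 1 + f (2 ^ ((t.length + 1) ^ 2)) := by
  simp only [locNode, List.length_append, List.length_replicate, codeNode_length]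

lemma codeNode_getElem (t : List Bool) (v : ℕ) (i : ℕ) (h : i < (codeNode t v).length) :
    (t.length ≤ i → i < t.length + v → (codeNode t v)[i] = true) ∧
      (i = t.length + v → (codeNode t v)[i] = false) := by
  constructor
  · intro h1 h2
    simp only [codeNode]
    rw [List.getElem_append_right h1, List.getElem_append_left (by simp; omega)]
    simp
  · rintro rfl
    simp only [codeNode]
    rw [List.getElem_append_right (by omega), List.getElem_append_right (by simp)]
    simp

lemma codeNode_inj {t u : List Bool} {v v' : ℕ} (h1 : codeNode t v <+: u)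
    (h2 : codeNode t v' <+: u) : v = v' := by
  -- it suffices to exclude `v < v'`
  have key : ∀ {v v' : ℕ}, codeNode t v <+: u → codeNode t v' <+: u → ¬ v < v' := by
    intro v v' h1 h2 hlt
    have l1 := codeNode_length t v
    have l2 := codeNode_length t v'
    have e1 := (codeNode_getElem t v (t.length + v) (by omega)).2 rfl
    have e2 := (codeNode_getElem t v' (t.length + v) (by omega)).1 (by omega) (by omega)
    obtain ⟨w1, hw1⟩ := h1
    obtain ⟨w2, hw2⟩ := h2
    have hu : t.length + v < u.length := by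
      rw [← hw1, List.length_append]; omega
    have a1 : u[t.length + v] = (codeNode t v)[t.length + v] := by
      have : u[t.length + v] = (codeNode t v ++ w1)[t.length + v]'(by rw [hw1]; exact hu) := by
        congr 1; exact hw1.symm
      rw [this, List.getElem_append_left]
    have a2 : u[t.length + v] = (codeNode t v')[t.length + v] := by
      have : u[t.length + v] = (codeNode t v' ++ w2)[t.length + v]'(by rw [hw2]; exact hu) := by
        congr 1; exact hw2.symm
      rw [this, List.getElem_append_left]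
    rw [e1] at a1
    rw [e2] at a2
    rw [a1] at a2
    exact Bool.false_ne_true a2
  rcases lt_trichotomy v v' with h | h | h
  · exact absurd h (key h1 h2)
  · exact h
  · exact absurd h (key h2 h1)

/-- Existence of an unspoiled good node. -/
lemma exists_unspoiled (b : ℕ → ℕ) {τ : ℕ → List Bool} {m : ℕ}
    (hτ : ∀ j ≥ m, fastOf b j ≤ (τ j).length) {s : List Bool} (hs : good (UU τ m) s) :
    ∃ R, ∀ r ≥ R, ∃ t, t.length = r ∧ s <+: t ∧ good (UU τ m) t ∧
      ∀ j ≥ m, t <+: τ j → r + b r + 1 < (τ j).length := by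
  classical
  obtain ⟨c, hc⟩ := exists_card_goodNodes hs
  refine ⟨s.length + 2 * c + 2, fun r hr => ?_⟩
  by_contra hcon
  push Not at hcon
  have hf := fastOf_fast b
  have h1 : ∀ t ∈ goodNodes (UU τ m) s r, ∃ j ≥ m, t <+: τ j ∧ (τ j).length ≤ r + b r + 1 := by
    intro t ht
    obtain ⟨a1, a2, a3⟩ := mem_goodNodes.mp ht
    exact hcon t a1 a2 a3
  choose! jt hjm hjp hjl using h1
  have hinj : Set.InjOn jt (goodNodes (UU τ m) s r : Set (List Bool)) := by
    intro t ht t' ht' he
    have h1 := hjp t (Finset.mem_coe.mp ht)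
    have h2 := hjp t' (Finset.mem_coe.mp ht')
    rw [he] at h1
    have h3 := (mem_goodNodes.mp (Finset.mem_coe.mp ht)).1
    have h4 := (mem_goodNodes.mp (Finset.mem_coe.mp ht')).1
    rcases List.prefix_or_prefix_of_prefix h1 h2 with h5 | h5
    · exact h5.eq_of_length (by omega)
    · exact (h5.eq_of_length (by omega)).symm
  have hsub : (goodNodes (UU τ m) s r).image jt ⊆ Finset.range r := by
    intro j hj
    obtain ⟨t, ht, rfl⟩ := Finset.mem_image.mp hj
    rw [Finset.mem_range]
    have h2 := hτ _ (hjm t ht)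
    have h3 := hjl t ht
    have h4 := fastOf_ge b r
    by_contra hge
    push Not at hge
    have h5 := hf.mono.monotone hge
    omega
  have hcard := Finset.card_le_card hsub
  rw [Finset.card_image_of_injOn hinj, Finset.card_range] at hcard
  have hcr := hc r (by omega)
  have h6 : 2 ^ r ≤ r * 2 ^ c := hcr.trans (Nat.mul_le_mul_right _ hcard)
  obtain ⟨q, rfl⟩ : ∃ q, r = 2 * c + 2 + q := ⟨r - (2 * c + 2), by omega⟩
  have h7 : 2 ^ (2 * c + 2 + q) = 2 ^ (c + 2 + q) * 2 ^ c := by
    rw [← pow_add]; congr 1; omega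
  rw [h7] at h6
  have h8 : 2 ^ (c + 2 + q) ≤ 2 * c + 2 + q := Nat.le_of_mul_le_mul_right h6 (by positivity)
  have h9 : c + 1 + q < 2 ^ (c + 1 + q) := Nat.lt_two_pow_self
  have h10 : 2 ^ (c + 2 + q) = 2 * 2 ^ (c + 1 + q) := by
    rw [← pow_succ']; congr 1; omega
  omega

/-- **Bounded localization is Tukey below some Yorioka ideal.** -/
theorem tukey_loc (b : ℕ → ℕ) :
    Tukey (fun (x : {x : ℕ → ℕ // ∀ n, x n < b n}) (S : ℕ → ℕ → ℕ) => Lc Hw x.1 S)
      (IRel (yoriokaIdeal (fastOf b))) := by
  classical
  set f := fastOf b with hfdef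
  have hf : Fast f := fastOf_fast b
  let σ : (ℕ → ℕ) → ℕ → List Bool := fun x n => locNode f (enode n) (x (enode n).length)
  have hσ : ∀ x, FarBelow f (ht (σ x)) := by
    intro x l
    refine ⟨2 ^ l, fun n hn => ?_⟩
    show f (n ^ l) ≤ (σ x n).length
    have h1 := lt_pow_enode n
    simp only [σ]
    rw [locNode_length]
    set r := (enode n).length with hr
    have h2 : l < r + 1 := by
      by_contra hcon
      push Not at hcon
      have := Nat.pow_le_pow_right (show 0 < 2 by norm_num) hcon
      omega
    refine le_trans ?_ (Nat.le_add_left _ _)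
    apply hf.mono.monotone
    calc n ^ l ≤ (2 ^ (r + 1)) ^ l := Nat.pow_le_pow_left h1.le l
      _ = 2 ^ ((r + 1) * l) := by rw [← pow_mul]
      _ ≤ 2 ^ ((r + 1) ^ 2) := by
        apply Nat.pow_le_pow_right (by norm_num)
        rw [pow_two]
        exact Nat.mul_le_mul_left _ (by omega)
  have hrep : ∀ B : {A : Set (ℕ → Bool) // A ∈ yoriokaIdeal f}, ∃ (τ : ℕ → List Bool) (m : ℕ),
      (∀ j ≥ m, f j ≤ (τ j).length) ∧ B.1 ⊆ limSet τ := by
    intro B
    obtain ⟨τ, h1, h2⟩ := B.2
    obtain ⟨m, hm⟩ := h1 1
    refine ⟨τ, m, fun j hj => ?_, h2⟩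
    have h3 := hm j hj
    rw [pow_one] at h3
    exact h3
  choose τ m hτ2 hτ3 using hrep
  have hR : ∀ B s, good (UU (τ B) (m B)) s → ∃ R, ∀ r ≥ R, ∃ t, t.length = r ∧ s <+: t ∧
      good (UU (τ B) (m B)) t ∧ ∀ j ≥ m B, t <+: τ B j → r + b r + 1 < (τ B j).length :=
    fun B s hs => exists_unspoiled b (hτ2 B) hs
  choose! R tt htl hts htg htj using hR
  -- captured values
  let bound : ℕ → ℕ := fun r => 4 * (r + b r + 1 + f (2 ^ ((r + 1) ^ 2)))
  let T : {A : Set (ℕ → Bool) // A ∈ yoriokaIdeal f} → List Bool → ℕ → Finset ℕ := fun B s r =>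
    (Finset.range (b r)).filter fun v =>
      ∃ j ≥ m B, (τ B j).length ≤ bound r ∧ codeNode (tt B s r) v <+: τ B j
  have hT : ∀ B s r, (T B s r).card ≤ 2 ^ ((r + 1) ^ 2) + 2 := by
    intro B s r
    have h1 : ∀ v ∈ T B s r, ∃ j ≥ m B, (τ B j).length ≤ bound r ∧
        codeNode (tt B s r) v <+: τ B j := fun v hv => (Finset.mem_filter.mp hv).2
    choose! jv hjm hjl hjp using h1
    have hinj : Set.InjOn jv (T B s r : Set ℕ) := by
      intro v hv v' hv' he
      have a1 := hjp v (Finset.mem_coe.mp hv)
      have a2 := hjp v' (Finset.mem_coe.mp hv')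
      rw [he] at a1
      exact codeNode_inj a1 a2
    have hsub : (T B s r).image jv ⊆ Finset.range (2 ^ ((r + 1) ^ 2) + 2) := by
      intro j hj
      obtain ⟨v, hv, rfl⟩ := Finset.mem_image.mp hj
      rw [Finset.mem_range]
      have h2 := hτ2 B _ (hjm v hv)
      have h3 := hjl v hv
      have h4 : bound r ≤ 8 * f (2 ^ ((r + 1) ^ 2)) := by
        have h5 := fastOf_ge b r
        have h6 : f r ≤ f (2 ^ ((r + 1) ^ 2)) := by
          apply hf.mono.monotone
          calc r ≤ (r + 1) ^ 2 := by nlinarith
            _ ≤ 2 ^ ((r + 1) ^ 2) := Nat.lt_two_pow_self.le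
        simp only [bound]
        rw [← hfdef] at h5
        omega
      have h5 := hf.eight (2 ^ ((r + 1) ^ 2))
      have h6 : f (jv v) ≤ f (2 ^ ((r + 1) ^ 2) + 1) := by omega
      have h7 := hf.mono.le_iff_le.mp h6
      omega
    have hcard := Finset.card_le_card hsub
    rw [Finset.card_image_of_injOn hinj, Finset.card_range] at hcard
    exact hcard
  let SS : {A : Set (ℕ → Bool) // A ∈ yoriokaIdeal f} → ℕ → Finset ℕ := fun B r =>
    (Finset.range (r + 1)).biUnion fun k =>
      match (Encodable.decode k : Option (List Bool)) with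
      | none => ∅
      | some s => T B s r
  have hSS : ∀ B r, (SS B r).card ≤ Hw r := by
    intro B r
    refine Finset.card_biUnion_le.trans ?_
    refine (Finset.sum_le_card_nsmul _ _ (2 ^ ((r + 1) ^ 2) + 2) ?_).trans ?_
    · intro k _
      rcases hk : (Encodable.decode k : Option (List Bool)) with _ | s
      · simp
      · simp only
        exact hT B s r
    · simp [Hw]
  choose e he using fun B r => exists_enum (SS B r) (Hw r) (hSS B r)
  refine ⟨fun x => ⟨limSet (σ x.1), σ x.1, hσ x.1, subset_rfl⟩, fun B => e B, ?_⟩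
  intro x B hxB
  have hxB' : limSet (σ x.1) ⊆ B.1 := hxB
  obtain ⟨s, hs, n₀, hn₀⟩ := exists_good_null (isOpen_UU (τ B) (m B))
    (measure_UU_lt hf (hτ2 B)) (fun n => cyl (σ x.1 n)) (fun n => isOpen_cyl _)
    (fun y hy => limSet_subset_UU _ _ (hτ3 B (hxB' (mem_limSet_iff.mpr hy))))
  refine ⟨R B s + n₀ + Encodable.encode s, fun r hr => ?_⟩
  apply he
  refine Finset.mem_biUnion.mpr ⟨Encodable.encode s, Finset.mem_range.mpr (by omega), ?_⟩
  rw [Encodable.encodek]
  simp only
  have hrR : R B s ≤ r := by omega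
  set t := tt B s r with ht
  have ht1 := htl B s hs r hrR
  have ht2 := hts B s hs r hrR
  have ht3 := htg B s hs r hrR
  have ht4 := htj B s hs r hrR
  rw [← ht] at ht1 ht2 ht3 ht4
  have h4 : n₀ ≤ num t := by
    have h5 := (num_bounds t).1
    have h6 : r < 2 ^ r := Nat.lt_two_pow_self
    rw [ht1] at h5
    omega
  have h5 := hn₀ (num t) h4
  have h6 : σ x.1 (num t) = locNode f t (x.1 r) := by
    simp only [σ]
    rw [enode_num, ht1]
  rw [h6] at h5
  have hpre : t <+: locNode f t (x.1 r) := by
    unfold locNode codeNode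
    rw [List.append_assoc]
    exact List.prefix_append t _
  have h7 : cantorMeasure (cyl (locNode f t (x.1 r)) \ UU (τ B) (m B)) = 0 := by
    refine measure_mono_null ?_ h5
    rintro y ⟨hy1, hy2⟩
    exact ⟨⟨hy1.of_prefix (ht2.trans hpre), hy2⟩, hy1⟩
  have hlen := locNode_length f t (x.1 r)
  obtain ⟨j, hj, h8, h9, h10⟩ := exists_cover_above hf (hτ2 B) (by rw [hlen]; omega) hpre ht3 h7
  have h11 := ht4 j hj h9
  have hxb := x.2 r
  refine Finset.mem_filter.mpr ⟨Finset.mem_range.mpr hxb, j, hj, ?_, ?_⟩
  · simp only [bound]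
    rw [hlen, ht1] at h8
    omega
  · have hcode : codeNode t (x.1 r) <+: locNode f t (x.1 r) := List.prefix_append _ _
    have hlen2 := codeNode_length t (x.1 r)
    rcases h10 with h10 | h10
    · rcases List.prefix_or_prefix_of_prefix hcode h10 with h12 | h12
      · exact h12
      · have := h12.length_le
        omega
    · exact hcode.trans h10

end H61.Yorioka
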