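import Pool.Agent.helper61.YBase

set_option autoImplicit false

/-!
# Tukey connections; every Yorioka ideal is below localization
-/

namespace H61.Yorioka

open MeasureTheory Set Cardinal

/-- Every family of size at most `κ` is bounded. -/
def Bdd {X Y : Type} (R : X → Y → Prop) (κ : Cardinal.{0}) : Prop :=
  ∀ F : Set X, #F ≤ κ → ∃ y, ∀ x ∈ F, R x y

/-- There is a dominating family of size at most `κ`. -/
def Dom {X Y : Type} (R : X → Y → Prop) (κ : Cardinal.{0}) : Prop :=
  ∃ D : Set Y, #D ≤ κ ∧ ∀ x, ∃ y ∈ D, R x y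

/-- A Tukey connection. -/
def Tukey {X Y X' Y' : Type} (R : X → Y → Prop) (R' : X' → Y' → Prop) : Prop :=
  ∃ (φ : X → X') (ψ : Y' → Y), ∀ x y', R' (φ x) y' → R x (ψ y')

lemma Tukey.bdd {X Y X' Y' : Type} {R : X → Y → Prop} {R' : X' → Y' → Prop} (h : Tukey R R')
    {κ : Cardinal.{0}} (hb : Bdd R' κ) : Bdd R κ := by
  obtain ⟨φ, ψ, hφ⟩ := h
  intro F hF
  obtain ⟨y, hy⟩ := hb (φ '' F) (Cardinal.mk_image_le.trans hF)
  exact ⟨ψ y, fun x hx => hφ x y (hy _ ⟨x, hx, rfl⟩)⟩

lemma Tukey.dom {X Y X' Y' : Type} {R : X → Y → Prop} {R' : X' → Y' → Prop} (h : Tukey R R')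
    {κ : Cardinal.{0}} (hb : Dom R' κ) : Dom R κ := by
  obtain ⟨φ, ψ, hφ⟩ := h
  obtain ⟨D, hD, hD'⟩ := hb
  refine ⟨ψ '' D, Cardinal.mk_image_le.trans hD, fun x => ?_⟩
  obtain ⟨y, hy, hxy⟩ := hD' (φ x)
  exact ⟨ψ y, ⟨y, hy, rfl⟩, hφ x y hxy⟩

/-- Localization by slaloms of width `h`. -/
def Lc (h : ℕ → ℕ) (x : ℕ → ℕ) (S : ℕ → ℕ → ℕ) : Prop := ∃ m, ∀ n ≥ m, ∃ c < h n, S n c = x n

/-- Inclusion of members of an ideal. -/
def IRel (I : Set (Set (ℕ → Bool))) (A B : {A : Set (ℕ → Bool) // A ∈ I}) : Prop := A.1 ⊆ B.1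

/-- Eventual domination. -/
def DRel (x y : ℕ → ℕ) : Prop := ∃ m, ∀ n ≥ m, x n ≤ y n

lemma mem_limSet_iff {σ : ℕ → List Bool} {x : ℕ → Bool} :
    x ∈ limSet σ ↔ ∀ m, ∃ n ≥ m, IsInit (σ n) x := by
  unfold limSet
  rw [Set.mem_ofPred_eq, ← Nat.frequently_atTop_iff_infinite, Filter.frequently_atTop]

/-- Every Yorioka ideal is Tukey below localization (for any width `h`). -/
theorem tukey_yorioka_Lc {f : ℕ → ℕ} (hf : StrictMono f) (h : ℕ → ℕ) :
    Tukey (IRel (yoriokaIdeal f)) (Lc h) := by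
  classical
  -- the interval partition
  let a : ℕ → ℕ := fun n => (n + 2) + ∑ i ∈ Finset.range (n + 1), h i
  have ha : StrictMono a := by
    refine strictMono_nat_of_lt_succ fun n => ?_
    simp only [a]
    rw [Finset.sum_range_succ h (n + 1)]
    omega
  have hah : ∀ n, h n ≤ a n := by
    intro n
    simp only [a]
    have := Finset.single_le_sum (f := h) (fun i _ => Nat.zero_le _) (Finset.self_mem_range_succ n)
    omega
  have han : ∀ n, n + 2 ≤ a n := fun n => by simp only [a]; omega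
  -- choose representations
  have hrep : ∀ A : {A : Set (ℕ → Bool) // A ∈ yoriokaIdeal f}, ∃ (σ : ℕ → List Bool)
      (m : ℕ → ℕ), (∀ k, ∀ i ≥ m k, f (i ^ k) ≤ (σ i).length) ∧ A.1 ⊆ limSet σ := by
    intro A
    obtain ⟨σ, h1, h2⟩ := A.2
    choose m hm using h1
    exact ⟨σ, m, hm, h2⟩
  choose σ m hm hσ using hrep
  -- decoding
  let dec : ℕ → ℕ × List (List Bool) := fun n =>
    ((Encodable.decode n : Option (ℕ × List (List Bool)))).getD (0, [])
  have hdec : ∀ p : ℕ × List (List Bool), dec (Encodable.encode p) = p := fun p => by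
    simp only [dec]
    rw [Encodable.encodek]
    rfl
  -- index of the block
  let blk : ℕ → ℕ := fun i => Nat.findGreatest (fun n => a n ≤ i) i
  have hblk : ∀ i, a 0 ≤ i → a (blk i) ≤ i ∧ i < a (blk i + 1) := by
    intro i hi
    have h1 : a (blk i) ≤ i := Nat.findGreatest_spec (P := fun n => a n ≤ i) (Nat.zero_le i) hi
    refine ⟨h1, ?_⟩
    by_contra hcon
    push Not at hcon
    have h2 : blk i + 1 ≤ i := by have := han (blk i + 1); omega
    have h3 := Nat.le_findGreatest (P := fun n => a n ≤ i) h2 hcon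
    have h4 : blk i + 1 ≤ blk i := h3
    omega
  have hblk' : ∀ n i, a n ≤ i → n ≤ blk i := by
    intro n i hi
    refine Nat.le_findGreatest (P := fun n => a n ≤ i) ?_ hi
    have := han n; omega
  -- the bound function extracted from a slalom
  let MM : (ℕ → ℕ → ℕ) → ℕ → ℕ := fun S k =>
    k + ∑ n ∈ Finset.range (k + 1), ∑ c ∈ Finset.range (h n), (dec (S n c)).1
  have hMM : ∀ S, Monotone (MM S) := by
    intro S
    refine monotone_nat_of_le_succ fun k => ?_
    simp only [MM]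
    rw [Finset.sum_range_succ _ (k + 1)]
    omega
  have hMM1 : ∀ S n c, c < h n → (dec (S n c)).1 ≤ MM S n := by
    intro S n c hc
    simp only [MM]
    have h1 := Finset.single_le_sum (f := fun n => ∑ c ∈ Finset.range (h n), (dec (S n c)).1)
      (fun i _ => Nat.zero_le _) (Finset.self_mem_range_succ n)
    have h2 := Finset.single_le_sum (f := fun c => (dec (S n c)).1)
      (fun i _ => Nat.zero_le _) (Finset.mem_range.mpr hc)
    omega
  let kk : (ℕ → ℕ → ℕ) → ℕ → ℕ := fun S i => Nat.findGreatest (fun k => MM S k ≤ i) i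
  have hkk1 : ∀ S i, MM S 0 ≤ i → MM S (kk S i) ≤ i := fun S i hi =>
    Nat.findGreatest_spec (P := fun k => MM S k ≤ i) (Nat.zero_le i) hi
  have hkk2 : ∀ S k i, MM S k ≤ i → k ≤ kk S i := by
    intro S k i hi
    refine Nat.le_findGreatest (P := fun k => MM S k ≤ i) ?_ hi
    have : k ≤ MM S k := by simp only [MM]; omega
    omega
  let node : (ℕ → ℕ → ℕ) → ℕ → ℕ → List Bool := fun S i c => (dec (S (blk i) c)).2.getD i []
  let ok : (ℕ → ℕ → ℕ) → ℕ → ℕ → Prop := fun S i c =>
    a 0 ≤ i ∧ c < h (blk i) ∧ f (i ^ kk S i) ≤ (node S i c).length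
  let τ : (ℕ → ℕ → ℕ) → ℕ → List Bool := fun S j =>
    if ok S j.unpair.1 j.unpair.2 then node S j.unpair.1 j.unpair.2
      else List.replicate (f (j ^ j)) false
  have hτ : ∀ S, FarBelow f (ht (τ S)) := by
    intro S l
    refine ⟨(MM S (4 * l) + 4 * l + 4) ^ 2, fun j hj => ?_⟩
    show f (j ^ l) ≤ (τ S j).length
    simp only [τ]
    split_ifs with hok
    · obtain ⟨h1, h2, h3⟩ := hok
      set i := j.unpair.1 with hi
      set c := j.unpair.2 with hc
      have hblki := (hblk i h1).1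
      have hci : c < i := lt_of_lt_of_le h2 ((hah _).trans hblki)
      have hj' : j = Nat.pair i c := by rw [hi, hc, Nat.pair_unpair]
      have hjlt : j < (i + 1) ^ 2 := by
        rw [hj', Nat.pair]
        rw [if_neg (by omega)]
        nlinarith
      have hilarge : MM S (4 * l) + 4 * l + 4 < i + 1 := by
        by_contra hcon
        push Not at hcon
        have := Nat.pow_le_pow_left hcon 2
        omega
      have hkl : 4 * l ≤ kk S i := hkk2 S _ _ (by omega)
      refine le_trans ?_ h3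
      apply hf.monotone
      calc j ^ l ≤ ((i + 1) ^ 2) ^ l := Nat.pow_le_pow_left hjlt.le l
        _ ≤ ((i ^ 2) ^ 2) ^ l := by
          apply Nat.pow_le_pow_left
          apply Nat.pow_le_pow_left
          nlinarith
        _ = i ^ (4 * l) := by rw [← pow_mul, ← pow_mul]; ring_nf
        _ ≤ i ^ kk S i := Nat.pow_le_pow_right (by omega) hkl
    · rw [List.length_replicate]
      apply hf.monotone
      have h9 : MM S (4 * l) + 4 * l + 4 ≤ j := le_trans (Nat.le_self_pow two_ne_zero _) hj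
      exact Nat.pow_le_pow_right (by omega) (by omega)
  refine ⟨fun A n => Encodable.encode (m A n, (List.range (a (n + 1))).map (σ A)),
    fun S => ⟨limSet (τ S), τ S, hτ S, subset_rfl⟩, ?_⟩
  rintro A S ⟨n₀, hn₀⟩
  show A.1 ⊆ limSet (τ S)
  refine (hσ A).trans fun x hx => ?_
  rw [mem_limSet_iff] at hx ⊢
  intro q
  obtain ⟨i, hi, hix⟩ := hx (q + a n₀ + MM S n₀ + a 0)
  have h1 : a 0 ≤ i := by omega
  have h2 : n₀ ≤ blk i := hblk' n₀ i (by omega)
  obtain ⟨c, hc, hSc⟩ := hn₀ (blk i) h2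
  have hd : dec (S (blk i) c) = (m A (blk i), (List.range (a (blk i + 1))).map (σ A)) := by
    rw [hSc, hdec]
  have hnode : node S i c = σ A i := by
    simp only [node]
    rw [hd]
    have := (hblk i h1).2
    simp [List.getD, this]
  have hk : n₀ ≤ kk S i := hkk2 S _ _ (by omega)
  have hk0 : MM S (kk S i) ≤ i := hkk1 S i (by have := hMM S (Nat.zero_le n₀); omega)
  have hmA : m A (kk S i) ≤ i := by
    obtain ⟨c', hc', hSc'⟩ := hn₀ (kk S i) hk
    have h5 := hMM1 S (kk S i) c' hc'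
    rw [hSc', hdec] at h5
    exact h5.trans hk0
  refine ⟨Nat.pair i c, ?_, ?_⟩
  · have := Nat.left_le_pair i c
    omega
  · have hok : ok S i c := ⟨h1, hc, by rw [hnode]; exact hm A _ i hmA⟩
    have : τ S (Nat.pair i c) = σ A i := by
      simp only [τ, Nat.unpair_pair]
      rw [if_pos hok, hnode]
    rw [this]
    exact hix

end H61.Yorioka
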